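import Mathlib
import Pool.Agent.H772R2.NSR.Gal

/-!
The modified nonlinearity in the abstract frame of the Navier-Stokes equations.
-/

open MeasureTheory Set Filter Topology
open scoped InnerProductSpace

set_option autoImplicit false
set_option linter.unusedVariables false
set_option linter.unusedSectionVars false

namespace Pool.Agent.N980.WX

open H772R2.NSR (Frame)

variable {H K : Type} [NormedAddCommGroup H] [InnerProductSpace ℝ H] [CompleteSpace H]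
  [NormedAddCommGroup K] [InnerProductSpace ℝ K] [CompleteSpace K]

/-- The packets in the abstract frame. -/
structure HP (W : Submodule ℝ (H × K)) (m : H → K) (R : ℕ) (κ μ D : ℝ) (p q s r : ℕ → H)
    (P Q S p1 q1 : ℕ → K) : Prop where
  D1 : 1 ≤ D
  μ1 : 1 ≤ μ
  hP : ∀ n, ∀ x ∈ W, ⟪P n, x.2⟫_ℝ = ⟪p n, x.1⟫_ℝ
  hQ : ∀ n, ∀ x ∈ W, ⟪Q n, x.2⟫_ℝ = ⟪q n, x.1⟫_ℝ
  hS : ∀ n, ∀ x ∈ W, ⟪S n, x.2⟫_ℝ = ⟪s n, x.1⟫_ℝ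
  nP : ∀ n, ‖P n‖ ≤ D / (R : ℝ) ^ n
  nQ : ∀ n, ‖Q n‖ ≤ D / (R : ℝ) ^ n
  nS : ∀ n, ‖S n‖ ≤ D / (R : ℝ) ^ n
  np : ∀ n, ‖p n‖ = 1
  pp : ∀ m n, m ≠ n → ⟪p m, p n⟫_ℝ = 0
  pq : ∀ m n, ⟪p m, q n⟫_ℝ = 0
  qq : ∀ m n, m ≠ n → ⟪q m, q n⟫_ℝ = 0
  qs : ∀ n, ‖q n‖ ^ 2 = ⟪s n, p n⟫_ℝ
  gp : ∀ n, (p n, p1 n) ∈ W
  gq : ∀ n, (q n, q1 n) ∈ W
  lp : ∀ n, ∀ x ∈ W, ⟪p1 n, x.2⟫_ℝ = (μ * (R : ℝ) ^ n) ^ 2 * ⟪s n, x.1⟫_ℝ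
  lq : ∀ n, ∀ x ∈ W, ⟪q1 n, x.2⟫_ℝ = (μ * (R : ℝ) ^ n) ^ 2 * ⟪r n, x.1⟫_ℝ
  sp : ∀ n, ‖s n - p n‖ ≤ 1 / 2 / ((R : ℝ) ^ κ) ^ n
  rq : ∀ n, ‖r n - q n‖ ≤ D / ((R : ℝ) ^ κ) ^ n
  mp : ∀ n, ∀ x ∈ W, |⟪m x.1, p1 n⟫_ℝ| ≤ D * ((R : ℝ) ^ n * ((R : ℝ) ^ (1 - κ)) ^ n) * ‖x.1‖ ^ 2
  mq : ∀ n, ∀ x ∈ W, |⟪m x.1, q1 n⟫_ℝ| ≤ D * ((R : ℝ) ^ n * ((R : ℝ) ^ (1 - κ)) ^ n) * ‖x.1‖ ^ 2

section op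

variable (R : ℕ) (g : ℕ → ℝ) (δ : ℝ) (p q s : ℕ → H) (P Q : ℕ → K)

/-- The terms of the operator. -/
noncomputable def Tn (n : ℕ) (u v : H) : K :=
  g n • (((R : ℝ)⁻¹ * ⟪q n, u⟫_ℝ * ⟪p (n + 1), v⟫_ℝ - ⟪q (n + 1), u⟫_ℝ * ⟪p n, v⟫_ℝ) • Q (n + 1)
    + (⟪q (n + 1), u⟫_ℝ * ⟪q (n + 1), v⟫_ℝ - ⟪s (n + 1), u⟫_ℝ * ⟪p (n + 1), v⟫_ℝ) • P n
    + (⟪s (n + 1), u⟫_ℝ * ⟪p n, v⟫_ℝ - (R : ℝ)⁻¹ * ⟪q n, u⟫_ℝ * ⟪q (n + 1), v⟫_ℝ) • P (n + 1))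
  + (δ * g n) • ((⟪q n, u⟫_ℝ * ⟪p (n + 1), v⟫_ℝ - R * ⟪q (n + 1), u⟫_ℝ * ⟪p n, v⟫_ℝ) • Q n
    + (R * ⟪q (n + 1), u⟫_ℝ * ⟪q n, v⟫_ℝ - ⟪s n, u⟫_ℝ * ⟪p (n + 1), v⟫_ℝ) • P n
    + (⟪s n, u⟫_ℝ * ⟪p n, v⟫_ℝ - ⟪q n, u⟫_ℝ * ⟪q n, v⟫_ℝ) • P (n + 1))

/-- The operator. -/
noncomputable def BB (u v : H) : K := ∑' n, Tn R g δ p q s P Q n u v

/-- The terms of the form. -/
noncomputable def fn (n : ℕ) (u v z : H) : ℝ :=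
  g n * (((R : ℝ)⁻¹ * ⟪q n, u⟫_ℝ * ⟪p (n + 1), v⟫_ℝ - ⟪q (n + 1), u⟫_ℝ * ⟪p n, v⟫_ℝ) * ⟪q (n + 1), z⟫_ℝ
    + (⟪q (n + 1), u⟫_ℝ * ⟪q (n + 1), v⟫_ℝ - ⟪s (n + 1), u⟫_ℝ * ⟪p (n + 1), v⟫_ℝ) * ⟪p n, z⟫_ℝ
    + (⟪s (n + 1), u⟫_ℝ * ⟪p n, v⟫_ℝ - (R : ℝ)⁻¹ * ⟪q n, u⟫_ℝ * ⟪q (n + 1), v⟫_ℝ) * ⟪p (n + 1), z⟫_ℝ)
  + (δ * g n) * ((⟪q n, u⟫_ℝ * ⟪p (n + 1), v⟫_ℝ - R * ⟪q (n + 1), u⟫_ℝ * ⟪p n, v⟫_ℝ) * ⟪q n, z⟫_ℝ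
    + (R * ⟪q (n + 1), u⟫_ℝ * ⟪q n, v⟫_ℝ - ⟪s n, u⟫_ℝ * ⟪p (n + 1), v⟫_ℝ) * ⟪p n, z⟫_ℝ
    + (⟪s n, u⟫_ℝ * ⟪p n, v⟫_ℝ - ⟪q n, u⟫_ℝ * ⟪q n, v⟫_ℝ) * ⟪p (n + 1), z⟫_ℝ)

theorem fn_skew (n : ℕ) (u v z : H) : fn R g δ p q s n u v z = -fn R g δ p q s n u z v := by
  unfold fn
  ring

end op

variable {W : Submodule ℝ (H × K)} {m : H → K} {R : ℕ} {κ μ D : ℝ} {p q s r : ℕ → H} {P Q S p1 q1 : ℕ → K}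
  {g : ℕ → ℝ} {δ : ℝ}

/-- The parameters of the operator. -/
structure GP (R : ℕ) (g : ℕ → ℝ) (δ G σ : ℝ) : Prop where
  R2 : 2 ≤ R
  g0 : ∀ n, 0 ≤ g n
  gG : ∀ n, g n ≤ G * ((R : ℝ) ^ σ) ^ n
  δ0 : 0 ≤ δ
  δ1 : δ ≤ 1
  σ1 : σ < 5 / 2

theorem HP.R0 (hg : 2 ≤ R) (n : ℕ) : (0 : ℝ) < (R : ℝ) ^ n := by positivity

theorem HP.qn (h : HP W m R κ μ D p q s r P Q S p1 q1) (hR : 1 ≤ R) (hκ : 0 ≤ κ) (n : ℕ) :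
    |‖q n‖ ^ 2 - 1| ≤ 1 / 2 := by
  have h1 : ‖q n‖ ^ 2 - 1 = ⟪s n - p n, p n⟫_ℝ := by
    rw [h.qs, inner_sub_left, real_inner_self_eq_norm_sq, h.np]
    norm_num
  rw [h1]
  refine (abs_real_inner_le_norm _ _).trans ?_
  rw [h.np, mul_one]
  refine (h.sp n).trans ?_
  have hR' : (1 : ℝ) ≤ R := by exact_mod_cast hR
  have h2 : (1 : ℝ) ≤ ((R : ℝ) ^ κ) ^ n := one_le_pow₀ (Real.one_le_rpow hR' hκ)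
  exact div_le_self (by norm_num) h2

theorem HP.qn2 (h : HP W m R κ μ D p q s r P Q S p1 q1) (hR : 1 ≤ R) (hκ : 0 ≤ κ) (n : ℕ) : ‖q n‖ ≤ 2 := by
  have h1 := h.qn hR hκ n
  rw [abs_le] at h1
  nlinarith [norm_nonneg (q n)]

theorem HP.sn2 (h : HP W m R κ μ D p q s r P Q S p1 q1) (hR : 1 ≤ R) (hκ : 0 ≤ κ) (n : ℕ) : ‖s n‖ ≤ 2 := by
  have h1 : ‖s n‖ ≤ ‖s n - p n‖ + ‖p n‖ := by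
    have := norm_add_le (s n - p n) (p n)
    rwa [sub_add_cancel] at this
  have hR' : (1 : ℝ) ≤ R := by exact_mod_cast hR
  have h2 : (1 : ℝ) ≤ ((R : ℝ) ^ κ) ^ n := one_le_pow₀ (Real.one_le_rpow hR' hκ)
  have h3 : 1 / 2 / ((R : ℝ) ^ κ) ^ n ≤ 1 / 2 := div_le_self (by norm_num) h2
  have h4 := h.sp n
  rw [h.np] at h1
  linarith

/-- All the coefficients of the scales `n`, `n + 1` are at most `X`. -/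
structure Le (p q s : ℕ → H) (n : ℕ) (u : H) (X : ℝ) : Prop where
  p0 : |⟪p n, u⟫_ℝ| ≤ X
  p1 : |⟪p (n + 1), u⟫_ℝ| ≤ X
  q0 : |⟪q n, u⟫_ℝ| ≤ X
  q1 : |⟪q (n + 1), u⟫_ℝ| ≤ X
  s0 : |⟪s n, u⟫_ℝ| ≤ X
  s1 : |⟪s (n + 1), u⟫_ℝ| ≤ X

theorem Le.x0 {n : ℕ} {u : H} {X : ℝ} (h : Le p q s n u X) : 0 ≤ X := (abs_nonneg _).trans h.p0

theorem HP.le0 (h : HP W m R κ μ D p q s r P Q S p1 q1) (hR : 1 ≤ R) (hκ : 0 ≤ κ) (n : ℕ) (u : H) :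
    Le p q s n u (2 * ‖u‖) := by
  have key : ∀ f : H, ‖f‖ ≤ 2 → |⟪f, u⟫_ℝ| ≤ 2 * ‖u‖ := fun f hf =>
    (abs_real_inner_le_norm _ _).trans (by gcongr)
  have hp : ∀ n, ‖p n‖ ≤ 2 := fun n => by rw [h.np]; norm_num
  exact ⟨key _ (hp _), key _ (hp _), key _ (h.qn2 hR hκ _), key _ (h.qn2 hR hκ _), key _ (h.sn2 hR hκ _),
    key _ (h.sn2 hR hκ _)⟩

theorem HP.le1 (h : HP W m R κ μ D p q s r P Q S p1 q1) (hR : 1 ≤ R) (n : ℕ) {x : H × K} (hx : x ∈ W) :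
    Le p q s n x.1 (D / (R : ℝ) ^ n * ‖x.2‖) := by
  have hR' : (1 : ℝ) ≤ R := by exact_mod_cast hR
  have hD : 0 ≤ D := by linarith [h.D1]
  have h0 : (0 : ℝ) < (R : ℝ) ^ n := by positivity
  have h1 : D / (R : ℝ) ^ (n + 1) ≤ D / (R : ℝ) ^ n := by
    have : (R : ℝ) ^ n ≤ (R : ℝ) ^ (n + 1) := pow_le_pow_right₀ hR' (Nat.le_succ n)
    gcongr
  have key : ∀ (f : H) (F : K), ‖F‖ ≤ D / (R : ℝ) ^ n → ⟪F, x.2⟫_ℝ = ⟪f, x.1⟫_ℝ → |⟪f, x.1⟫_ℝ| ≤ D / (R : ℝ) ^ n * ‖x.2‖ := by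
    intro f F hF he
    rw [← he]
    exact (abs_real_inner_le_norm _ _).trans (by gcongr)
  exact ⟨key _ _ (h.nP _) (h.hP _ x hx), key _ _ ((h.nP _).trans h1) (h.hP _ x hx), key _ _ (h.nQ _) (h.hQ _ x hx),
    key _ _ ((h.nQ _).trans h1) (h.hQ _ x hx), key _ _ (h.nS _) (h.hS _ x hx), key _ _ ((h.nS _).trans h1) (h.hS _ x hx)⟩

/-- Interpolation. -/
theorem HP.le2 (h : HP W m R κ μ D p q s r P Q S p1 q1) (hR : 1 ≤ R) (hκ : 0 ≤ κ) (n : ℕ) {x : H × K} (hx : x ∈ W) :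
    Le p q s n x.1 (Real.sqrt (2 * ‖x.1‖ * (D / (R : ℝ) ^ n * ‖x.2‖))) := by
  have h0 := h.le0 hR hκ n x.1
  have h1 := h.le1 hR n hx
  have key : ∀ a : ℝ, |a| ≤ 2 * ‖x.1‖ → |a| ≤ D / (R : ℝ) ^ n * ‖x.2‖ →
      |a| ≤ Real.sqrt (2 * ‖x.1‖ * (D / (R : ℝ) ^ n * ‖x.2‖)) := by
    intro a h2 h3
    refine Real.le_sqrt_of_sq_le ?_
    rw [sq]
    exact mul_le_mul h2 h3 (abs_nonneg _) (by positivity)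
  exact ⟨key _ h0.p0 h1.p0, key _ h0.p1 h1.p1, key _ h0.q0 h1.q0, key _ h0.q1 h1.q1, key _ h0.s0 h1.s0, key _ h0.s1 h1.s1⟩

theorem HP.le4 (h : HP W m R κ μ D p q s r P Q S p1 q1) (hR : 1 ≤ R) (hκ : 0 ≤ κ) (n : ℕ) {x : H × K} (hx : x ∈ W) :
    Le p q s n x.1 (Real.sqrt (Real.sqrt (2 * ‖x.1‖ * (D / (R : ℝ) ^ n * ‖x.2‖) ^ 3))) := by
  have h0 := h.le0 hR hκ n x.1
  have h1 := h.le1 hR n hx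
  have hB := h1.x0
  have key : ∀ a : ℝ, |a| ≤ 2 * ‖x.1‖ → |a| ≤ D / (R : ℝ) ^ n * ‖x.2‖ →
      |a| ≤ Real.sqrt (Real.sqrt (2 * ‖x.1‖ * (D / (R : ℝ) ^ n * ‖x.2‖) ^ 3)) := by
    intro a h2 h3
    refine Real.le_sqrt_of_sq_le (Real.le_sqrt_of_sq_le ?_)
    have e : (|a| ^ 2) ^ 2 = |a| * |a| ^ 3 := by ring
    rw [e]
    exact mul_le_mul h2 (pow_le_pow_left₀ (abs_nonneg _) h3 3) (by positivity) (by positivity)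
  exact ⟨key _ h0.p0 h1.p0, key _ h0.p1 h1.p1, key _ h0.q0 h1.q0, key _ h0.q1 h1.q1, key _ h0.s0 h1.s0, key _ h0.s1 h1.s1⟩

/-- The bound of the terms. -/
theorem HP.Tn_le (h : HP W m R κ μ D p q s r P Q S p1 q1) {G σ : ℝ} (hg : GP R g δ G σ) (n : ℕ) {u v : H} {X Y : ℝ}
    (hu : Le p q s n u X) (hv : Le p q s n v Y) :
    ‖Tn R g δ p q s P Q n u v‖ ≤ g n * (X * Y) * ((8 + 4 * R) * (D / (R : ℝ) ^ n)) := by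
  have hR : (1 : ℝ) ≤ R := by exact_mod_cast (by have := hg.R2; omega : 1 ≤ R)
  have hX := hu.x0
  have hY := hv.x0
  have hRi : (R : ℝ)⁻¹ ≤ 1 := inv_le_one_of_one_le₀ hR
  have hRi0 : 0 ≤ (R : ℝ)⁻¹ := by positivity
  have h0 : (0 : ℝ) < (R : ℝ) ^ n := by positivity
  set d := D / (R : ℝ) ^ n with hd
  have hD : 0 ≤ D := by linarith [h.D1]
  have hd0 : 0 ≤ d := by positivity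
  have h1 : D / (R : ℝ) ^ (n + 1) ≤ d := by
    have : (R : ℝ) ^ n ≤ (R : ℝ) ^ (n + 1) := pow_le_pow_right₀ hR (Nat.le_succ n)
    rw [hd]
    gcongr
  have P0 : ‖P n‖ ≤ d := h.nP n
  have P1 : ‖P (n + 1)‖ ≤ d := (h.nP (n + 1)).trans h1
  have Q0 : ‖Q n‖ ≤ d := h.nQ n
  have Q1 : ‖Q (n + 1)‖ ≤ d := (h.nQ (n + 1)).trans h1
  have mm : ∀ a b : ℝ, |a| ≤ X → |b| ≤ Y → |a * b| ≤ X * Y := by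
    intro a b ha hb
    rw [abs_mul]
    exact mul_le_mul ha hb (abs_nonneg _) hX
  have mi : ∀ a b : ℝ, |a| ≤ X → |b| ≤ Y → |(R : ℝ)⁻¹ * a * b| ≤ X * Y := by
    intro a b ha hb
    rw [mul_assoc, abs_mul, abs_of_nonneg hRi0]
    calc (R : ℝ)⁻¹ * |a * b| ≤ 1 * (X * Y) := by
          have := mm a b ha hb
          gcongr
      _ = X * Y := one_mul _
  have mr : ∀ a b : ℝ, |a| ≤ X → |b| ≤ Y → |(R : ℝ) * a * b| ≤ R * (X * Y) := by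
    intro a b ha hb
    rw [mul_assoc, abs_mul, abs_of_nonneg (by linarith : (0 : ℝ) ≤ R)]
    have := mm a b ha hb
    gcongr
  have sm : ∀ (a : ℝ) (F : K) (c : ℝ), |a| ≤ c → ‖F‖ ≤ d → ‖a • F‖ ≤ c * d := by
    intro a F c ha hF
    rw [norm_smul, Real.norm_eq_abs]
    exact mul_le_mul ha hF (norm_nonneg _) ((abs_nonneg _).trans ha)
  have ad : ∀ a b c c' : ℝ, |a| ≤ c → |b| ≤ c' → |a - b| ≤ c + c' := fun a b c c' ha hb =>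
    (abs_sub _ _).trans (add_le_add ha hb)
  have hg0 := hg.g0 n
  have hXY : 0 ≤ X * Y := mul_nonneg hX hY
  unfold Tn
  refine (norm_add_le _ _).trans ?_
  have t1 : ‖g n • (((R : ℝ)⁻¹ * ⟪q n, u⟫_ℝ * ⟪p (n + 1), v⟫_ℝ - ⟪q (n + 1), u⟫_ℝ * ⟪p n, v⟫_ℝ) • Q (n + 1)
    + (⟪q (n + 1), u⟫_ℝ * ⟪q (n + 1), v⟫_ℝ - ⟪s (n + 1), u⟫_ℝ * ⟪p (n + 1), v⟫_ℝ) • P n
    + (⟪s (n + 1), u⟫_ℝ * ⟪p n, v⟫_ℝ - (R : ℝ)⁻¹ * ⟪q n, u⟫_ℝ * ⟪q (n + 1), v⟫_ℝ) • P (n + 1))‖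
      ≤ g n * (6 * (X * Y) * d) := by
    rw [norm_smul, Real.norm_of_nonneg hg0]
    refine mul_le_mul_of_nonneg_left ?_ hg0
    have a1 := sm _ _ _ (ad _ _ _ _ (mi _ _ hu.q0 hv.p1) (mm _ _ hu.q1 hv.p0)) Q1
    have a2 := sm _ _ _ (ad _ _ _ _ (mm _ _ hu.q1 hv.q1) (mm _ _ hu.s1 hv.p1)) P0
    have a3 := sm _ _ _ (ad _ _ _ _ (mm _ _ hu.s1 hv.p0) (mi _ _ hu.q0 hv.q1)) P1
    refine (norm_add₃_le).trans ?_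
    linarith
  have t2 : ‖(δ * g n) • ((⟪q n, u⟫_ℝ * ⟪p (n + 1), v⟫_ℝ - R * ⟪q (n + 1), u⟫_ℝ * ⟪p n, v⟫_ℝ) • Q n
    + (R * ⟪q (n + 1), u⟫_ℝ * ⟪q n, v⟫_ℝ - ⟪s n, u⟫_ℝ * ⟪p (n + 1), v⟫_ℝ) • P n
    + (⟪s n, u⟫_ℝ * ⟪p n, v⟫_ℝ - ⟪q n, u⟫_ℝ * ⟪q n, v⟫_ℝ) • P (n + 1))‖
      ≤ g n * ((4 + 2 * R) * (X * Y) * d) := by
    rw [norm_smul, Real.norm_of_nonneg (mul_nonneg hg.δ0 hg0)]
    have a1 := sm _ _ _ (ad _ _ _ _ (mm _ _ hu.q0 hv.p1) (mr _ _ hu.q1 hv.p0)) Q0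
    have a2 := sm _ _ _ (ad _ _ _ _ (mr _ _ hu.q1 hv.q0) (mm _ _ hu.s0 hv.p1)) P0
    have a3 := sm _ _ _ (ad _ _ _ _ (mm _ _ hu.s0 hv.p0) (mm _ _ hu.q0 hv.q0)) P1
    have a4 := norm_add₃_le (a := (⟪q n, u⟫_ℝ * ⟪p (n + 1), v⟫_ℝ - R * ⟪q (n + 1), u⟫_ℝ * ⟪p n, v⟫_ℝ) • Q n)
      (b := (R * ⟪q (n + 1), u⟫_ℝ * ⟪q n, v⟫_ℝ - ⟪s n, u⟫_ℝ * ⟪p (n + 1), v⟫_ℝ) • P n)
      (c := (⟪s n, u⟫_ℝ * ⟪p n, v⟫_ℝ - ⟪q n, u⟫_ℝ * ⟪q n, v⟫_ℝ) • P (n + 1))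
    have hδg : δ * g n ≤ g n := mul_le_of_le_one_left hg0 hg.δ1
    have h5 : 0 ≤ (4 + 2 * R) * (X * Y) * d := by positivity
    calc _ ≤ δ * g n * ((4 + 2 * R) * (X * Y) * d) := by
          refine mul_le_mul_of_nonneg_left ?_ (mul_nonneg hg.δ0 hg0)
          linarith
      _ ≤ _ := mul_le_mul_of_nonneg_right hδg h5
  have e : g n * (X * Y) * ((8 + 4 * R) * d) = g n * ((8 + 4 * R) * (X * Y) * d) := by ring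
  rw [e]
  have h6 : g n * (6 * (X * Y) * d) + g n * ((4 + 2 * R) * (X * Y) * d) ≤ g n * ((8 + 4 * R) * (X * Y) * d) := by
    rw [← mul_add]
    refine mul_le_mul_of_nonneg_left ?_ hg0
    have h7 : 0 ≤ X * Y * d := mul_nonneg hXY hd0
    nlinarith
  linarith

end Pool.Agent.N980.WX
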