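import Pool.Agent.N980.WX.Blw

/-!
The test fields are admissible data.
-/

open MeasureTheory Set Filter Topology
open scoped InnerProductSpace ContDiff

set_option autoImplicit false
set_option linter.unusedVariables false

namespace Pool.Agent.N980.WX

open H772R2.NS (E3 M3 L2V L2M IsTest jac graphW tensL tensL_coe tens graphW_induction H1graph mem_graphW)
open Pool.Agent.N976.DI.D1 (cv cm cv_coe cm_coe memLp_cc test_mem int_Om test_out test_jac_out tri2 tri3 inner_tn_jac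
  tens_eq test_Sm)
open Pool.Agent.N980.CB (gG zz zz16)
open Pool.Agent.N980.WQ (PD)
open H772R2.NSR (Frame)

section abs

variable {H K : Type} [NormedAddCommGroup H] [InnerProductSpace ℝ H] [CompleteSpace H]
  [NormedAddCommGroup K] [InnerProductSpace ℝ K] [CompleteSpace K]

variable {W : Submodule ℝ (H × K)} {m : H → K} {R : ℕ} {κ μ D : ℝ} {p q s r : ℕ → H} {P Q S p1 q1 : ℕ → K}
  {g : ℕ → ℝ} {δ G σ : ℝ}

theorem comb_le {F : Type} [NormedAddCommGroup F] [NormedSpace ℝ F] {a1 a2 a3 : F} {c1 c2 c3 d Z : ℝ} (h1 : |c1| ≤ Z)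
    (h2 : |c2| ≤ Z) (h3 : |c3| ≤ Z) (g1 : ‖a1‖ ≤ d) (g2 : ‖a2‖ ≤ d) (g3 : ‖a3‖ ≤ d) :
    ‖c1 • a1 + c2 • a2 + c3 • a3‖ ≤ 3 * Z * d := by
  have hZ : 0 ≤ Z := (abs_nonneg _).trans h1
  refine (norm_add₃_le).trans ?_
  rw [norm_smul, norm_smul, norm_smul, Real.norm_eq_abs, Real.norm_eq_abs, Real.norm_eq_abs]
  have e1 : |c1| * ‖a1‖ ≤ Z * d := mul_le_mul h1 g1 (norm_nonneg _) hZ
  have e2 : |c2| * ‖a2‖ ≤ Z * d := mul_le_mul h2 g2 (norm_nonneg _) hZ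
  have e3 : |c3| * ‖a3‖ ≤ Z * d := mul_le_mul h3 g3 (norm_nonneg _) hZ
  linarith

/-- The additional term of a field with decaying coefficients is in `L²`. -/
theorem HP.acc (h : HP W m R κ μ D p q s r P Q S p1 q1) (hg : GP R g δ G σ) (hκ : 0 ≤ κ) {x : H × K} (hx : x ∈ W)
    {a : ℝ} (hq : ∀ n, |⟪q n, x.1⟫_ℝ| ≤ a / ((R : ℝ) ^ n) ^ 2) (hs : ∀ n, |⟪s n, x.1⟫_ℝ| ≤ a / ((R : ℝ) ^ n) ^ 2) :
    ∃ g0 : H, ∀ z ∈ W, ⟪BB R g δ p q s P Q x.1 x.1, z.2⟫_ℝ = ⟪g0, z.1⟫_ℝ := by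
  have h1 := hg.R1
  have hR : 1 ≤ R := by exact_mod_cast h1.le
  have h0 : (0 : ℝ) < R := by linarith
  have hD : 0 ≤ D := by linarith [h.D1]
  set b : ℝ := D * ‖x.2‖ with hb
  have hb0 : 0 ≤ b := by positivity
  have ha0 : 0 ≤ a := by
    have := (abs_nonneg _).trans (hq 0)
    simpa using this
  have hl : ∀ n, Le p q s n x.1 (b / (R : ℝ) ^ n) := fun n => by
    have := h.le1 hR n hx
    rwa [div_mul_eq_mul_div] at this
  have hup : ∀ n, a / ((R : ℝ) ^ (n + 1)) ^ 2 ≤ a / ((R : ℝ) ^ n) ^ 2 := by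
    intro n
    have h2 : (0 : ℝ) < (R : ℝ) ^ n := by positivity
    have : (R : ℝ) ^ n ≤ (R : ℝ) ^ (n + 1) := pow_le_pow_right₀ h1.le (Nat.le_succ n)
    gcongr
  let V : ℕ → H := fun n =>
    g n • (((R : ℝ)⁻¹ * ⟪q n, x.1⟫_ℝ * ⟪p (n + 1), x.1⟫_ℝ - ⟪q (n + 1), x.1⟫_ℝ * ⟪p n, x.1⟫_ℝ) • q (n + 1)
    + (⟪q (n + 1), x.1⟫_ℝ * ⟪q (n + 1), x.1⟫_ℝ - ⟪s (n + 1), x.1⟫_ℝ * ⟪p (n + 1), x.1⟫_ℝ) • p n
    + (⟪s (n + 1), x.1⟫_ℝ * ⟪p n, x.1⟫_ℝ - (R : ℝ)⁻¹ * ⟪q n, x.1⟫_ℝ * ⟪q (n + 1), x.1⟫_ℝ) • p (n + 1))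
  + (δ * g n) • ((⟪q n, x.1⟫_ℝ * ⟪p (n + 1), x.1⟫_ℝ - R * ⟪q (n + 1), x.1⟫_ℝ * ⟪p n, x.1⟫_ℝ) • q n
    + (R * ⟪q (n + 1), x.1⟫_ℝ * ⟪q n, x.1⟫_ℝ - ⟪s n, x.1⟫_ℝ * ⟪p (n + 1), x.1⟫_ℝ) • p n
    + (⟪s n, x.1⟫_ℝ * ⟪p n, x.1⟫_ℝ - ⟪q n, x.1⟫_ℝ * ⟪q n, x.1⟫_ℝ) • p (n + 1))
  have hRi : (R : ℝ)⁻¹ ≤ 1 := inv_le_one_of_one_le₀ h1.le
  have hRi0 : 0 ≤ (R : ℝ)⁻¹ := by positivity
  have hV : ∀ n, ‖V n‖ ≤ (G * (12 + 6 * (1 + R)) * (a * b)) * ((R : ℝ) ^ σ / (R : ℝ) ^ 3) ^ n := by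
    intro n
    have hn0 : (0 : ℝ) < (R : ℝ) ^ n := by positivity
    set Z : ℝ := a / ((R : ℝ) ^ n) ^ 2 * (b / (R : ℝ) ^ n) with hZ
    have hZ0 : 0 ≤ Z := by positivity
    have mm : ∀ c c' : ℝ, |c| ≤ a / ((R : ℝ) ^ n) ^ 2 → |c'| ≤ b / (R : ℝ) ^ n → |c * c'| ≤ Z := by
      intro c c' hc hc'
      rw [abs_mul]
      exact mul_le_mul hc hc' (abs_nonneg _) (by positivity)
    have mi : ∀ c c' : ℝ, |c| ≤ a / ((R : ℝ) ^ n) ^ 2 → |c'| ≤ b / (R : ℝ) ^ n → |(R : ℝ)⁻¹ * c * c'| ≤ Z := by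
      intro c c' hc hc'
      rw [mul_assoc, abs_mul, abs_of_nonneg hRi0]
      calc (R : ℝ)⁻¹ * |c * c'| ≤ 1 * Z := by
            have := mm c c' hc hc'
            gcongr
        _ = Z := one_mul _
    have mr : ∀ c c' : ℝ, |c| ≤ a / ((R : ℝ) ^ n) ^ 2 → |c'| ≤ b / (R : ℝ) ^ n → |(R : ℝ) * c * c'| ≤ R * Z := by
      intro c c' hc hc'
      rw [mul_assoc, abs_mul, abs_of_nonneg h0.le]
      have := mm c c' hc hc'
      gcongr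
    have ad : ∀ c c' e e' : ℝ, |c| ≤ e → |c'| ≤ e' → |c - c'| ≤ e + e' := fun c c' e e' hc hc' =>
      (abs_sub _ _).trans (add_le_add hc hc')
    have l := hl n
    have q0 := hq n
    have q1' : |⟪q (n + 1), x.1⟫_ℝ| ≤ a / ((R : ℝ) ^ n) ^ 2 := (hq (n + 1)).trans (hup n)
    have s0 := hs n
    have s1' : |⟪s (n + 1), x.1⟫_ℝ| ≤ a / ((R : ℝ) ^ n) ^ 2 := (hs (n + 1)).trans (hup n)
    have np2 : ∀ n, ‖p n‖ ≤ 2 := fun n => by rw [h.np]; norm_num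
    have nq2 : ∀ n, ‖q n‖ ≤ 2 := fun n => h.qn2 hR hκ n
    have two : ∀ c : ℝ, |c| ≤ Z + Z → |c| ≤ 2 * Z := fun c hc => by linarith
    have t1 := comb_le (two _ (ad _ _ _ _ (mi _ _ q0 l.p1) (mm _ _ q1' l.p0)))
      (two _ (ad _ _ _ _ (mm _ _ q1' l.q1) (mm _ _ s1' l.p1)))
      (two _ (ad _ _ _ _ (mm _ _ s1' l.p0) (mi _ _ q0 l.q1))) (nq2 (n + 1)) (np2 n) (np2 (n + 1))
    have hRZ : Z ≤ R * Z := le_mul_of_one_le_left hZ0 h1.le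
    have w1 : ∀ c : ℝ, |c| ≤ Z + R * Z → |c| ≤ (1 + R) * Z := fun c hc => by linarith
    have w2 : ∀ c : ℝ, |c| ≤ R * Z + Z → |c| ≤ (1 + R) * Z := fun c hc => by linarith
    have w3 : ∀ c : ℝ, |c| ≤ Z + Z → |c| ≤ (1 + R) * Z := fun c hc => by linarith
    have t2 := comb_le (w1 _ (ad _ _ _ _ (mm _ _ q0 l.p1) (mr _ _ q1' l.p0)))
      (w2 _ (ad _ _ _ _ (mr _ _ q1' l.q0) (mm _ _ s0 l.p1)))
      (w3 _ (ad _ _ _ _ (mm _ _ s0 l.p0) (mm _ _ q0 l.q0))) (nq2 n) (np2 n) (np2 (n + 1))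
    have hg0 := hg.g0 n
    have hδg : δ * g n ≤ g n := mul_le_of_le_one_left hg0 hg.δ1
    have hδg0 : 0 ≤ δ * g n := mul_nonneg hg.δ0 hg0
    have t3 : ‖V n‖ ≤ g n * (3 * (2 * Z) * 2) + g n * (3 * ((1 + R) * Z) * 2) := by
      refine (norm_add_le _ _).trans (add_le_add ?_ ?_)
      · rw [norm_smul, Real.norm_of_nonneg hg0]
        exact mul_le_mul_of_nonneg_left t1 hg0
      · rw [norm_smul, Real.norm_of_nonneg hδg0]
        refine (mul_le_mul_of_nonneg_left t2 hδg0).trans ?_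
        exact mul_le_mul_of_nonneg_right hδg (by positivity)
    refine t3.trans ?_
    have e1 : g n * (3 * (2 * Z) * 2) + g n * (3 * ((1 + R) * Z) * 2) = g n * ((12 + 6 * (1 + R)) * Z) := by ring
    rw [e1]
    have e2 : (G * (12 + 6 * (1 + R)) * (a * b)) * ((R : ℝ) ^ σ / (R : ℝ) ^ 3) ^ n
        = (G * ((R : ℝ) ^ σ) ^ n) * ((12 + 6 * (1 + R)) * Z) := by
      rw [hZ, div_pow, ← pow_mul, mul_comm 3 n, pow_mul]
      field_simp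
    rw [e2]
    have := hg.gG n
    gcongr
  have hr1 : (R : ℝ) ^ σ / (R : ℝ) ^ 3 < 1 := by
    rw [div_lt_one (by positivity), ← Real.rpow_natCast (R : ℝ) 3]
    exact Real.rpow_lt_rpow_of_exponent_lt h1 (by have := hg.σ1; push_cast; linarith)
  have hr0 : 0 ≤ (R : ℝ) ^ σ / (R : ℝ) ^ 3 := by positivity
  have hsum : Summable V := Summable.of_norm_bounded
    ((summable_geometric_of_lt_one hr0 hr1).mul_left _) hV
  refine ⟨∑' n, V n, fun z hz => ?_⟩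
  have h2 := h.BB_form hg hκ hx hx hz
  have h3 := hsum.hasSum.mapL (innerSL ℝ z.1)
  have e : ∀ v : H, innerSL ℝ z.1 v = ⟪v, z.1⟫_ℝ := fun v => by
    rw [innerSL_apply_apply, real_inner_comm]
  rw [e] at h3
  refine h2.unique (h3.congr_fun fun n => ?_)
  rw [e]
  unfold fn
  simp only [V, inner_add_left, real_inner_smul_left]

end abs

theorem crl_sm {φ : E3 → E3} (h : ContDiff ℝ ∞ φ) : ContDiff ℝ ∞ (crl φ) := by
  have h1 : ContDiff ℝ ∞ (fderiv ℝ φ) := h.fderiv_right (by simp)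
  have hj : ∀ i j : Fin 3, ContDiff ℝ ∞ fun x => jac φ x (i, j) := by
    intro i j
    have h2 : ContDiff ℝ ∞ fun x => fderiv ℝ φ x (EuclideanSpace.single j 1) := h1.clm_apply contDiff_const
    exact (contDiff_euclidean.1 h2) i
  rw [contDiff_euclidean]
  intro i
  fin_cases i
  · exact (hj 2 1).sub (hj 1 2)
  · exact (hj 0 2).sub (hj 2 0)
  · exact (hj 1 0).sub (hj 0 1)

theorem jac_zero_of {φ : E3 → E3} {x : E3} (hx : x ∉ tsupport φ) : jac φ x = 0 := by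
  have h0 : fderiv ℝ φ x = 0 := by
    have := support_fderiv_subset ℝ (f := φ)
    by_contra h
    exact hx (this h)
  ext i
  rw [H772R2.NS.jac_apply, h0]
  rfl

theorem crl_cs {φ : E3 → E3} (h : HasCompactSupport φ) : HasCompactSupport (crl φ) := by
  refine h.mono' ?_
  intro x hx
  by_contra hn
  apply hx
  unfold crl
  rw [jac_zero_of hn]
  ext i
  fin_cases i <;> simp

/-- The inequality of Cauchy-Schwarz. -/
theorem cs_int {f g : E3 → E3} (hf : Continuous f) (hfc : HasCompactSupport f) (hg : Continuous g)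
    (hgc : HasCompactSupport g) {a b : ℝ} (ha : 0 ≤ a) (hb : 0 ≤ b) (h1 : ∫ x, ‖f x‖ ^ 2 ≤ a ^ 2)
    (h2 : ∫ x, ‖g x‖ ^ 2 ≤ b ^ 2) : |∫ x, ⟪f x, g x⟫_ℝ| ≤ a * b := by
  have e1 : (cv univ f : E3 → E3) =ᵐ[volume.restrict univ] f := cv_coe (memLp_cc hf hfc)
  have e2 : (cv univ g : E3 → E3) =ᵐ[volume.restrict univ] g := cv_coe (memLp_cc hg hgc)
  have h3 := abs_real_inner_le_norm (cv univ f) (cv univ g)
  rw [icv e1 e2, setIntegral_univ] at h3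
  have n1 := nsq e1
  have n2 := nsq e2
  rw [setIntegral_univ] at n1 n2
  rw [← n1] at h1
  rw [← n2] at h2
  exact h3.trans (mul_le_mul (le_of_sq_le_sq h1 ha) (le_of_sq_le_sq h2 hb) (norm_nonneg _) ha)

variable {B Ω : Set E3} {R : ℕ} {ε μ C G : ℝ} {Φ p q s r : ℕ → E3 → E3} {ν T : ℝ}

/-- The decay of the coefficients of a test field. -/
theorem Ctx.decay (c : Ctx B Ω R ε μ C G Φ p q s r) {v : E3 → E3} (hv : IsTest Ω v) : ∃ a : ℝ,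
    (∀ n, |⟪cv Ω (q n), cv Ω v⟫_ℝ| ≤ a / ((R : ℝ) ^ n) ^ 2) ∧
    (∀ n, |⟪cv Ω (s n), cv Ω v⟫_ℝ| ≤ a / ((R : ℝ) ^ n) ^ 2) := by
  have hk := c.pck
  have hμ := hk.μ1
  have hC := hk.C0
  have hR0 := c.pd.pc.R0
  have hRn : ∀ n : ℕ, 0 < (R : ℝ) ^ n := fun n => pow_pos hR0 n
  have hcp : ∀ n : ℕ, 0 < μ * (R : ℝ) ^ n := fun n => by have := hRn n; positivity
  have hup := hk.up c.hBΩ
  have s1 := crl_sm hv.smooth
  have s2 := crl_sm s1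
  have c1 := crl_cs hv.compact
  have c2 := crl_cs c1
  set a0 := Real.sqrt (∫ x, ‖crl (crl v) x‖ ^ 2) with ha0
  have ha00 : 0 ≤ a0 := Real.sqrt_nonneg _
  have hint0 : 0 ≤ ∫ x, ‖crl (crl v) x‖ ^ 2 := integral_nonneg fun x => by positivity
  have ha1 : ∫ x, ‖crl (crl v) x‖ ^ 2 ≤ a0 ^ 2 := by rw [ha0, Real.sq_sqrt hint0]
  have k1 : ∀ n, |∫ x, ⟪Φ n x, crl (crl v) x⟫_ℝ| ≤ (C + 1) * a0 := fun n =>
    (cs_int (hk.tΦ n).1.continuous (hk.tΦ n).2.1 s2.continuous c2 hC ha00 (hk.nΦ n) ha1).trans (by gcongr; linarith)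
  have k2 : ∀ n, |∫ x, ⟪p n x, crl (crl v) x⟫_ℝ| ≤ (C + 1) * a0 := fun n =>
    (cs_int (hk.tp n).smooth.continuous (hk.tp n).compact s2.continuous c2 zero_le_one ha00
      (by rw [hk.np]; norm_num) ha1).trans (by gcongr; linarith)
  have key : ∀ (n : ℕ) (f g h : E3 → E3), ContDiff ℝ ∞ f → HasCompactSupport f → ContDiff ℝ ∞ g → HasCompactSupport g →
      (∀ x, crl f x = (μ * (R : ℝ) ^ n) • g x) → (∀ x, crl g x = (μ * (R : ℝ) ^ n) • h x) →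
      |∫ x, ⟪f x, crl (crl v) x⟫_ℝ| ≤ (C + 1) * a0 → |∫ x, ⟪h x, v x⟫_ℝ| ≤ (C + 1) * a0 / ((R : ℝ) ^ n) ^ 2 := by
    intro n f g h hf hfc hg hgc e1 e2 hle
    have h1 := c.sym g v hg hgc hv.smooth
    have h2 := c.sym f (crl v) hf hfc s1
    simp only [e2, real_inner_smul_left] at h1
    simp only [e1, real_inner_smul_left] at h2
    rw [integral_const_mul] at h1 h2
    have h3 : (μ * (R : ℝ) ^ n) ^ 2 * ∫ x, ⟪h x, v x⟫_ℝ = ∫ x, ⟪f x, crl (crl v) x⟫_ℝ := by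
      rw [← h2, ← h1]; ring
    rw [← h3, abs_mul, abs_of_pos (pow_pos (hcp n) 2)] at hle
    rw [le_div_iff₀ (pow_pos (hRn n) 2), mul_comm]
    refine le_trans ?_ hle
    have : ((R : ℝ) ^ n) ^ 2 ≤ (μ * (R : ℝ) ^ n) ^ 2 :=
      pow_le_pow_left₀ (hRn n).le (le_mul_of_one_le_left (hRn n).le hμ) 2
    gcongr
  refine ⟨(C + 1) * a0, fun n => ?_, fun n => ?_⟩
  · rw [inn_test (hup.tq n) hv]
    exact key n (Φ n) (p n) (q n) (hk.tΦ n).1 (hk.tΦ n).2.1 (hk.tp n).smooth (hk.tp n).compact (hk.cΦ n) (hk.cp n) (k1 n)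
  · rw [inn_test (hup.ts n) hv]
    exact key n (p n) (q n) (s n) (hk.tp n).smooth (hk.tp n).compact (hk.tq n).smooth (hk.tq n).compact (hk.cp n)
      (hk.cq n) (k2 n)

theorem tens_cs {v : E3 → E3} (hv : IsTest Ω v) : MemLp (fun x => tens (v x)) 2 (volume.restrict Ω) := by
  refine memLp_cc (H772R2.NS.continuous_tens.comp hv.smooth.continuous) (hv.compact.mono ?_)
  intro x hx h0
  apply hx
  simp only [h0]
  ext p; simp [H772R2.NS.tens_apply]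

/-- The test fields are admissible. -/
theorem Ctx.adm (c : Ctx B Ω R ε μ C G Φ p q s r) {v : E3 → E3} (hv : IsTest Ω v) :
    Adm Ω ν (FA B ε R G p q) (cv Ω v) (cm Ω (jac v)) := by
  have hmem := test_mem hv
  obtain ⟨a, ha1, ha2⟩ := c.decay hv
  obtain ⟨g0, hg0⟩ := c.hp.acc c.gp c.pd.pc.k0.le hmem (a := a) ha1 ha2
  refine ⟨mem_graphW.1 hmem, -cv Ω (Pool.Agent.N976.SC.adv v v) + sgn G • g0 + ν • cv Ω (Pool.Agent.N976.SC.lap v),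
    fun φ hφ => ?_⟩
  have hφm := test_mem hφ
  have h1 := c.rhs ν hmem hφ
  have h2 : rhsF ν (FA B ε R G p q) (cv Ω v) (cm Ω (jac v)) φ
      = ⟪MF Ω R ε μ G Φ p q s (cv Ω v) - ν • cm Ω (jac v), cm Ω (jac φ)⟫_ℝ := h1
  rw [h2, pair_v _ hφ]
  have e1 := tri2 hv hφm
  have e2 := tri3 hv hφm
  have e3 := hg0 _ hφm
  have e4 : tensL (cv Ω v) = cm Ω (fun x => tens (v x)) := by
    apply Lp.ext
    filter_upwards [tensL_coe c.hΩ.measurableSet hmem, cm_coe (tens_cs hv), tcv hv] with x b1 b2 b3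
    rw [b1, b2, b3]
  simp only at e1 e2 e3
  unfold MF MM
  rw [inner_sub_left, inner_add_left, real_inner_smul_left, real_inner_smul_left, inner_add_left, inner_add_left,
    inner_neg_left, real_inner_smul_left, real_inner_smul_left, e3, e4]
  linear_combination e1 - ν * e2

end Pool.Agent.N980.WX
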