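import Pool.Agent.N980.WX.Eqv2

/-!
Blow-up for concrete data.
-/

open MeasureTheory Set Filter Topology
open scoped InnerProductSpace ContDiff

set_option autoImplicit false
set_option linter.unusedVariables false

namespace Pool.Agent.N980.WX

open H772R2.NS (E3 M3 L2V L2M IsTest jac graphW tensL tensL_coe tens graphW_induction H1graph mem_graphW)
open Pool.Agent.N976.DI.D1 (cv cm cv_coe cm_coe memLp_cc test_mem int_Om test_out test_jac_out tri3 inner_tn_jac
  tens_eq test_Sm)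
open Pool.Agent.N980.CB (gG zz zz16)
open Pool.Agent.N980.WQ (PD)
open H772R2.NSR (Frame)
open Pool.Agent.W795.TQ (Str)

variable {B Ω : Set E3} {R : ℕ} {ε μ C G : ℝ} {Φ p q s r : ℕ → E3 → E3} {ν T : ℝ}

theorem jac_add {f g : E3 → E3} (hf : Differentiable ℝ f) (hg : Differentiable ℝ g) (x : E3) :
    jac (fun y => f y + g y) x = jac f x + jac g x := by
  ext i
  rw [PiLp.add_apply, H772R2.NS.jac_apply, H772R2.NS.jac_apply, H772R2.NS.jac_apply, fderiv_fun_add (hf x) (hg x)]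
  rfl

theorem jac_smul {f : E3 → E3} (hf : Differentiable ℝ f) (c : ℝ) (x : E3) :
    jac (fun y => c • f y) x = c • jac f x := by
  ext i
  rw [PiLp.smul_apply, H772R2.NS.jac_apply, H772R2.NS.jac_apply, fderiv_fun_const_smul (hf x)]
  rfl

theorem test_add {f g : E3 → E3} (hf : IsTest Ω f) (hg : IsTest Ω g) : IsTest Ω fun x => f x + g x := by
  refine ⟨hf.smooth.add hg.smooth, hf.compact.add hg.compact, ?_, fun x => ?_⟩
  · exact (tsupport_add f g).trans (union_subset hf.supp hg.supp)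
  · simp only [jac_add (hf.smooth.differentiable (by simp)) (hg.smooth.differentiable (by simp)), PiLp.add_apply]
    rw [Finset.sum_add_distrib, hf.divfree, hg.divfree, add_zero]

theorem test_smul {f : E3 → E3} (hf : IsTest Ω f) (c : ℝ) : IsTest Ω fun x => c • f x := by
  refine ⟨hf.smooth.const_smul c, hf.compact.smul_left (f := fun _ => c), ?_, fun x => ?_⟩
  · refine (closure_mono ?_).trans hf.supp
    intro x hx h0
    exact hx (by simp only [h0, smul_zero])
  · simp only [jac_smul (hf.smooth.differentiable (by simp)), PiLp.smul_apply, smul_eq_mul]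
    rw [← Finset.mul_sum, hf.divfree, mul_zero]

theorem cv_add {f g : E3 → E3} (hf : IsTest Ω f) (hg : IsTest Ω g) : cv Ω (fun x => f x + g x) = cv Ω f + cv Ω g := by
  apply Lp.ext
  filter_upwards [tcv (test_add hf hg), Lp.coeFn_add (cv Ω f) (cv Ω g), tcv hf, tcv hg] with x a b c d
  rw [a, b, Pi.add_apply, c, d]

theorem cv_smul {f : E3 → E3} (hf : IsTest Ω f) (c : ℝ) : cv Ω (fun x => c • f x) = c • cv Ω f := by
  apply Lp.ext
  filter_upwards [tcv (test_smul hf c), Lp.coeFn_smul c (cv Ω f), tcv hf] with x a b d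
  rw [a, b, Pi.smul_apply, d]

/-- Closeness of the coefficients. -/
theorem close_inn {f w : E3 → E3} (hf : IsTest Ω f) (hw : IsTest Ω w) {w' : L2V Ω} {ρ : ℝ}
    (h : ∀ᵐ x ∂(volume.restrict Ω), ‖w' x - w x‖ ≤ ρ) : |⟪cv Ω f, w' - cv Ω w⟫_ℝ| ≤ ρ * ∫ x, ‖f x‖ := by
  have hi : Integrable (fun x => ‖f x‖) volume :=
    (hf.smooth.continuous.integrable_of_hasCompactSupport hf.compact).norm
  have e : ((w' - cv Ω w : L2V Ω) : E3 → E3) =ᵐ[volume.restrict Ω] fun x => w' x - w x := by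
    filter_upwards [Lp.coeFn_sub w' (cv Ω w), tcv hw] with x a b
    rw [a, Pi.sub_apply, b]
  rw [icv (tcv hf) e, ← Real.norm_eq_abs]
  have h1 : ‖∫ x in Ω, ⟪f x, w' x - w x⟫_ℝ‖ ≤ ∫ x in Ω, ρ * ‖f x‖ := by
    refine norm_integral_le_of_norm_le (hi.restrict.const_mul ρ) ?_
    filter_upwards [h] with x hx
    refine (norm_inner_le_norm _ _).trans ?_
    rw [mul_comm]
    gcongr
  refine h1.trans ?_
  rw [int_Om, integral_const_mul]
  intro x hx
  rw [test_out hf hx]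
  simp

theorem close_norm (hb : Bornology.IsBounded Ω) {w : E3 → E3} (hw : IsTest Ω w) {w' : L2V Ω} {ρ : ℝ} (hρ : 0 ≤ ρ)
    (h : ∀ᵐ x ∂(volume.restrict Ω), ‖w' x - w x‖ ≤ ρ) : ‖w' - cv Ω w‖ ≤ ρ * Real.sqrt (volume.real Ω) := by
  have e : ((w' - cv Ω w : L2V Ω) : E3 → E3) =ᵐ[volume.restrict Ω] fun x => w' x - w x := by
    filter_upwards [Lp.coeFn_sub w' (cv Ω w), tcv hw] with x a b
    rw [a, Pi.sub_apply, b]
  have h1 := nsq e
  have hfin : volume Ω ≠ ⊤ := hb.measure_lt_top.ne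
  have h2 : ∫ x in Ω, ‖w' x - w x‖ ^ 2 ≤ ρ ^ 2 * volume.real Ω := by
    have h3 : ‖∫ x in Ω, ‖w' x - w x‖ ^ 2‖ ≤ ρ ^ 2 * volume.real Ω := by
      haveI : IsFiniteMeasure (volume.restrict Ω) := ⟨by rw [Measure.restrict_apply_univ]; exact hb.measure_lt_top⟩
      have := norm_integral_le_of_norm_le_const (μ := volume.restrict Ω) (f := fun x => ‖w' x - w x‖ ^ 2) (C := ρ ^ 2) (by
        filter_upwards [h] with x hx
        rw [Real.norm_of_nonneg (by positivity)]
        exact pow_le_pow_left₀ (norm_nonneg _) hx 2)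
      simpa [Measure.real] using this
    exact (le_abs_self _).trans h3
  rw [← h1] at h2
  refine le_of_sq_le_sq ?_ (by positivity)
  rw [mul_pow, Real.sq_sqrt measureReal_nonneg]
  exact h2

theorem cm_add {f g : E3 → E3} (hf : IsTest Ω f) (hg : IsTest Ω g) :
    cm Ω (jac fun x => f x + g x) = cm Ω (jac f) + cm Ω (jac g) := by
  apply Lp.ext
  filter_upwards [tcm (test_add hf hg), Lp.coeFn_add (cm Ω (jac f)) (cm Ω (jac g)), tcm hf, tcm hg] with x a b c d
  rw [a, b, Pi.add_apply, c, d, jac_add (hf.smooth.differentiable (by simp)) (hg.smooth.differentiable (by simp))]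

/-- Blow-up before the time `η` for a dense and open set of data. -/
theorem Ctx.blow (c : Ctx B Ω R ε μ C G Φ p q s r) (hν : 0 < ν) {v : E3 → E3} (hv : IsTest Ω v) {η : ℝ} (hη : 0 < η) :
    ∃ w : E3 → E3, IsTest Ω w ∧ ∫ x, ‖w x - v x‖ ^ 2 ≤ η ^ 2 ∧ ∃ ρ > 0, ∀ (w' : L2V Ω) (z' : L2M Ω),
      (w', z') ∈ H1graph Ω →
      ((∀ᵐ x ∂(volume.restrict Ω), ‖w' x - w x‖ ≤ ρ) ∨ ∫ x in Ω, ‖z' x - jac w x‖ ^ 2 ≤ ρ ^ 2) →
      ∀ (u u' : ℝ → L2V Ω) (z1 z1' : ℝ → L2M Ω), u 0 = w' → ¬Strong Ω ν (FA B ε R G p q) η u u' z1 z1' := by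
  obtain ⟨C0, Fr⟩ := H772R2.NSR.exists_frame c.hΩ c.hb
  have hε0 := c.ε0
  have hε1 := c.ε1
  have hd := c.pd
  have hR0 := hd.pc.R0
  have hR1 := hd.pc.R1
  have hR1' := c.R1
  have hhp := c.hp
  have hC := c.pck.C0
  obtain ⟨n, c0, c1, h1, ρ, hρ, h2⟩ := dense_abs Fr hhp hd (by linarith) (by linarith) c.Gc0 (sgn_abs1 G c.G0) hν
    (test_mem hv) hη
  have hpn := (c.pck.up c.hBΩ).tp
  have hqn := (c.pck.up c.hBΩ).tq
  set P : E3 → E3 := fun x => c0 • p n x + c1 • p (n + 1) x with hP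
  have hPt : IsTest Ω P := test_add (test_smul (hpn n) c0) (test_smul (hpn (n + 1)) c1)
  have hPc : cv Ω P = c0 • cv Ω (p n) + c1 • cv Ω (p (n + 1)) := by
    rw [hP, cv_add (test_smul (hpn n) c0) (test_smul (hpn (n + 1)) c1), cv_smul (hpn n), cv_smul (hpn (n + 1))]
  set w : E3 → E3 := fun x => v x + P x with hw
  have hwt : IsTest Ω w := test_add hv hPt
  have hwc : cv Ω w = cv Ω v + (c0 • cv Ω (p n) + c1 • cv Ω (p (n + 1))) := by
    rw [hw, cv_add hv hPt, hPc]
  -- the constants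
  set V := Real.sqrt (volume.real Ω) with hV
  have hV0 : 0 ≤ V := Real.sqrt_nonneg _
  set r0 : ℝ := ρ / (4 * (C + 1) + C0 + V + 1) with hr0
  have hC0 := Fr.C0
  have hden : 0 < 4 * (C + 1) + C0 + V + 1 := by positivity
  have hr00 : 0 < r0 := by positivity
  have hr1 : ∀ a : ℝ, a ≤ 4 * (C + 1) + C0 + V + 1 → r0 * a ≤ ρ := by
    intro a ha
    calc r0 * a ≤ r0 * (4 * (C + 1) + C0 + V + 1) := by gcongr
      _ = ρ := by rw [hr0]; field_simp
  have hQ0 : ∀ k : ℕ, 0 < ((R : ℝ) ^ (2 - (2 + ε / 4) + 3 * ε / 4)) ^ k := fun k =>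
    pow_pos (Real.rpow_pos_of_pos hR0 _) k
  refine ⟨w, hwt, ?_, r0, hr00, ?_⟩
  · have e : ∀ x, w x - v x = P x := fun x => by rw [hw]; simp
    simp only [e]
    rw [← nsq_test hPt, hPc]
    exact pow_le_pow_left₀ (norm_nonneg _) h1 2
  · intro w' z' hz' hcl u u' z1 z1' hu hs
    refine h2 w' ?_ ?_ u z1 hu (c.hsol hη.le hs)
    · show ‖w' - (cv Ω v + (c0 • cv Ω (p n) + c1 • cv Ω (p (n + 1))))‖ ≤ ρ
      rw [← hwc]
      rcases hcl with hcl | hcl
      · refine (close_norm c.hb hwt hr00.le hcl).trans (hr1 _ ?_)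
        linarith
      · have hmem : (w' - cv Ω w, z' - cm Ω (jac w)) ∈ graphW Ω :=
          (graphW Ω).sub_mem (mem_graphW.2 hz') (test_mem hwt)
        have e : ((z' - cm Ω (jac w) : L2M Ω) : E3 → M3) =ᵐ[volume.restrict Ω] fun x => z' x - jac w x := by
          filter_upwards [Lp.coeFn_sub z' (cm Ω (jac w)), tcm hwt] with x a b
          rw [a, Pi.sub_apply, b]
        rw [← nsq e] at hcl
        have h5 := le_of_sq_le_sq hcl hr00.le
        have h6 := Fr.poinc _ hmem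
        simp only at h6
        refine h6.trans ?_
        calc C0 * ‖z' - cm Ω (jac w)‖ ≤ C0 * r0 := by gcongr
          _ = r0 * C0 := mul_comm _ _
          _ ≤ ρ := hr1 _ (by linarith)
    · intro k
      show |⟪cv Ω (p k), w' - (cv Ω v + (c0 • cv Ω (p n) + c1 • cv Ω (p (n + 1))))⟫_ℝ| ≤ _ ∧
        |⟪cv Ω (q k), w' - (cv Ω v + (c0 • cv Ω (p n) + c1 • cv Ω (p (n + 1))))⟫_ℝ| ≤ _
      rw [← hwc]
      rcases hcl with hcl | hcl
      · have hT : ((R : ℝ) ^ (2 - (2 + ε / 4) + 3 * ε / 4)) ^ k ≤ ((R : ℝ) ^ (1 - 3 * ε / 4)) ^ k := by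
          refine pow_le_pow_left₀ (Real.rpow_nonneg hR0.le _) ?_ k
          exact Real.rpow_le_rpow_of_exponent_le hR1.le (by linarith)
        have hT0 : 0 < ((R : ℝ) ^ (1 - 3 * ε / 4)) ^ k := pow_pos (Real.rpow_pos_of_pos hR0 _) k
        have key : r0 * (C / ((R : ℝ) ^ (1 - 3 * ε / 4)) ^ k) ≤ ρ / ((R : ℝ) ^ (2 - (2 + ε / 4) + 3 * ε / 4)) ^ k := by
          have h7 := hr1 C (by linarith)
          rw [← mul_div_assoc]
          have := hQ0 k
          gcongr
        constructor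
        · refine (close_inn (hpn k) hwt hcl).trans (le_trans ?_ key)
          have := c.pck.lp k
          gcongr
        · refine (close_inn (hqn k) hwt hcl).trans (le_trans ?_ key)
          have := c.pck.lq k
          gcongr
      · have hmem : (w' - cv Ω w, z' - cm Ω (jac w)) ∈ graphW Ω :=
          (graphW Ω).sub_mem (mem_graphW.2 hz') (test_mem hwt)
        have e : ((z' - cm Ω (jac w) : L2M Ω) : E3 → M3) =ᵐ[volume.restrict Ω] fun x => z' x - jac w x := by
          filter_upwards [Lp.coeFn_sub z' (cm Ω (jac w)), tcm hwt] with x a b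
          rw [a, Pi.sub_apply, b]
        rw [← nsq e] at hcl
        have h5 := le_of_sq_le_sq hcl hr00.le
        have h6 := hhp.le1 hR1' k hmem
        have hT : ((R : ℝ) ^ (2 - (2 + ε / 4) + 3 * ε / 4)) ^ k ≤ (R : ℝ) ^ k :=
          pow_le_pow_left₀ (Real.rpow_nonneg hR0.le _) hd.QR k
        have key : 4 * (C + 1) / (R : ℝ) ^ k * ‖z' - cm Ω (jac w)‖
            ≤ ρ / ((R : ℝ) ^ (2 - (2 + ε / 4) + 3 * ε / 4)) ^ k := by
          have h7 := hr1 (4 * (C + 1)) (by linarith)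
          have := hQ0 k
          have hRk : 0 < (R : ℝ) ^ k := pow_pos hR0 k
          rw [div_mul_eq_mul_div]
          have h8 : 4 * (C + 1) * ‖z' - cm Ω (jac w)‖ ≤ ρ := by
            calc 4 * (C + 1) * ‖z' - cm Ω (jac w)‖ ≤ 4 * (C + 1) * r0 := by gcongr
              _ = r0 * (4 * (C + 1)) := mul_comm _ _
              _ ≤ ρ := h7
          gcongr
        exact ⟨h6.p0.trans key, h6.q0.trans key⟩

end Pool.Agent.N980.WX
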