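import Pool.Agent.N980.WX.Sy
import Pool.Agent.N980.WQ.Dat2
import Pool.Agent.N980.WQ.Fin3

/-!
Blow-up for an open and dense set of data in the abstract frame.
-/

open MeasureTheory Set Filter Topology
open scoped InnerProductSpace

set_option autoImplicit false
set_option linter.unusedVariables false
set_option linter.unusedSectionVars false

namespace Pool.Agent.N980.WX

open H772R2.NSR (Frame)
open Pool.Agent.N980.WQ (PD HH sgn_abs N_exists St_of Cond_of)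
open Pool.Agent.N980.WP (Good Good.st)
open Pool.Agent.N980.CB (gG Par zz qq qq_pos ev_pow sel)

section

variable {R : ℕ} {σ κ G ν : ℝ}

/-- The conditions on the first scale are satisfied eventually. -/
theorem good_ev3 {P Q Λ : ℝ} (hpar : Par Λ (zz Λ)) (hR1 : (1 : ℝ) < R) (hQ5 : 10 ^ 5 ≤ Q) (hQR : 2 * Q ≤ R) (hP0 : 0 < P)
    (hPΛ : 10 ^ 4 * P ≤ Λ) (hRΛ : 10 ^ 4 * (R : ℝ) ^ 2 ≤ Λ) (hr3 : 1 < (R : ℝ) ^ 2 * Q / Λ)
    {ℓ β b a T : ℝ} (hG : 0 < G) (hℓ : 0 < ℓ) (hb : 0 < b) (ha : 0 < a) (hT : 0 < T)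
    {y : ℕ → ℝ} {C : ℝ} (hC : ∀ m, |y m| * (R : ℝ) ^ m ≤ C) :
    ∀ᶠ n in atTop, Good R P Q Λ (zz Λ) G ℓ β b a T y n := by
  set z := zz Λ with hzd
  have hz := hpar.hz
  have hΛ0 := hpar.hΛ0
  have hqq := qq_pos
  have hR0 : (0 : ℝ) < R := by linarith
  have hQ1 : 1 < Q := by linarith [show (1 : ℝ) < 10 ^ 5 by norm_num]
  have hQ0 : 0 < Q := by linarith
  have hC0 : 0 ≤ C := le_trans (by positivity) (hC 0)
  -- elementary form of the conditions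
  have f1 := ev_pow (c := z ^ 16 * qq * a / 40) hR1 (by positivity) C
  have f2 := ev_pow (ρ := 2) (c := 1 / 2) (by norm_num) (by norm_num) C
  have f3 := ev_pow (ρ := 10000) (c := a / 4) (by norm_num) (by positivity) C
  have f4 := ev_pow (ρ := 10 ^ 4) (c := G * (a / 2)) (by norm_num) (by positivity) (1000 * ℓ * (R : ℝ) ^ 4)
  have f5 := ev_pow (ρ := 10 ^ 4) (c := z ^ 40 * (G * (a / 2) ^ 2)) (by norm_num) (by positivity) (|β| * P ^ 3)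
  have f6 := ev_pow (c := z ^ 40 * (a / 2)) hQ1 (by positivity) b
  have f7 := ev_pow hr3 hℓ (64 * G * b)
  have hΛ1 : 1 < Λ := by nlinarith
  have f8 := ev_pow (ρ := Λ) (c := G * (a / 2)) hΛ1 (by positivity) (10 / T + 1)
  obtain ⟨n1, hn1⟩ := f1.exists_forall_of_atTop
  obtain ⟨n2, hn2⟩ := f2.exists_forall_of_atTop
  obtain ⟨n7, hn7⟩ := f7.exists_forall_of_atTop
  filter_upwards [f3, f4, f5, f6, f8, eventually_ge_atTop n1, eventually_ge_atTop n2, eventually_ge_atTop n7] with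
    n g3 g4 g5 g6 g8 k1 k2 k7
  have hpR : ∀ m : ℕ, (0 : ℝ) < (R : ℝ) ^ m := fun m => pow_pos hR0 m
  have hpR1 : ∀ m : ℕ, (1 : ℝ) ≤ (R : ℝ) ^ m := fun m => one_le_pow₀ hR1.le
  refine ⟨?_, ?_, ?_, ?_, ?_, ?_, ?_, ?_⟩
  · intro m hm
    have h1 := hC m
    have h2 := hn1 m (k1.trans hm)
    have h3 : |y m| * (R : ℝ) ^ m ≤ z ^ 16 * qq * a / 40 * (R : ℝ) ^ m := h1.trans h2
    exact le_of_mul_le_mul_right h3 (hpR m)
  · intro m hm
    have h1 := hC m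
    have h2 := hn2 m (k2.trans hm)
    have hQm : (2 * Q) ^ m ≤ (R : ℝ) ^ m := pow_le_pow_left₀ (by positivity) hQR m
    have h3 : (|y m| * Q ^ m) * 2 ^ m ≤ 1 / 2 * 2 ^ m := by
      calc (|y m| * Q ^ m) * 2 ^ m = |y m| * (2 * Q) ^ m := by rw [mul_pow]; ring
        _ ≤ |y m| * (R : ℝ) ^ m := by gcongr
        _ ≤ C := h1
        _ ≤ _ := h2
    exact le_of_mul_le_mul_right h3 (by positivity)
  · intro m hm
    have h1 := hC m
    have h2 : (10000 : ℝ) ^ m ≤ (R : ℝ) ^ m := by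
      have e1 : (10000 : ℝ) ≤ R := by linarith [show (10000 : ℝ) ≤ 10 ^ 5 by norm_num]
      gcongr
    have h3 : |y m| * 10000 ^ m ≤ (10000 ^ (n - m) * a / 4) * 10000 ^ m := by
      calc |y m| * 10000 ^ m ≤ |y m| * (R : ℝ) ^ m := by gcongr
        _ ≤ C := h1
        _ ≤ a / 4 * 10000 ^ n := g3
        _ = (10000 ^ (n - m) * a / 4) * 10000 ^ m := by
          have : (10000 : ℝ) ^ n = 10000 ^ (n - m) * 10000 ^ m := by
            rw [← pow_add, Nat.sub_add_cancel hm.le]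
          rw [this]; ring
    exact le_of_mul_le_mul_right h3 (by positivity)
  · have h1 : (10 ^ 4 : ℝ) ^ n * ((R : ℝ) ^ n) ^ 2 ≤ Λ ^ n := by
      calc (10 ^ 4 : ℝ) ^ n * ((R : ℝ) ^ n) ^ 2 = (10 ^ 4 * (R : ℝ) ^ 2) ^ n := by
            rw [mul_pow, ← pow_mul, ← pow_mul (R : ℝ) n 2, mul_comm n 2, pow_mul (R : ℝ) 2 n, pow_mul]
        _ ≤ Λ ^ n := by gcongr
    unfold gG
    calc 1000 * ℓ * ((R : ℝ) ^ (n + 2)) ^ 2 = (1000 * ℓ * (R : ℝ) ^ 4) * ((R : ℝ) ^ n) ^ 2 := by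
          rw [pow_add, mul_pow]; ring
      _ ≤ (G * (a / 2) * (10 ^ 4) ^ n) * ((R : ℝ) ^ n) ^ 2 := by gcongr
      _ = G * (a / 2) * ((10 ^ 4) ^ n * ((R : ℝ) ^ n) ^ 2) := by ring
      _ ≤ G * (a / 2) * Λ ^ n := by gcongr
      _ = G * Λ ^ n * (a / 2) := by ring
  · have h1 : (10 ^ 4 : ℝ) ^ n * P ^ n ≤ Λ ^ n := by
      calc (10 ^ 4 : ℝ) ^ n * P ^ n = (10 ^ 4 * P) ^ n := by rw [mul_pow]
        _ ≤ Λ ^ n := by gcongr
    unfold gG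
    calc β * P ^ (n + 3) ≤ |β| * P ^ (n + 3) := by
          have := le_abs_self β
          gcongr
      _ = (|β| * P ^ 3) * P ^ n := by rw [pow_add]; ring
      _ ≤ (z ^ 40 * (G * (a / 2) ^ 2) * (10 ^ 4) ^ n) * P ^ n := by gcongr
      _ = z ^ 40 * (G * (a / 2) ^ 2) * ((10 ^ 4) ^ n * P ^ n) := by ring
      _ ≤ z ^ 40 * (G * (a / 2) ^ 2) * Λ ^ n := by gcongr
      _ = z ^ 40 * (G * Λ ^ n * (a / 2) ^ 2) := by ring
  · rw [div_le_iff₀ (pow_pos hQ0 _)]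
    refine g6.trans ?_
    have : Q ^ n ≤ Q ^ (n + 3) := pow_le_pow_right₀ hQ1.le (by omega)
    gcongr
  · intro k hk
    have h1 := hn7 k (k7.trans hk)
    unfold gG
    have h2 : (64 * G * b) * Λ ^ k ≤ (ℓ * ((R : ℝ) ^ 2 * Q / Λ) ^ k) * Λ ^ k := by gcongr
    calc 64 * (G * Λ ^ k) * b = (64 * G * b) * Λ ^ k := by ring
      _ ≤ (ℓ * ((R : ℝ) ^ 2 * Q / Λ) ^ k) * Λ ^ k := h2
      _ = ℓ * (((R : ℝ) ^ k) ^ 2 * Q ^ k) := by
        rw [mul_assoc, ← mul_pow, div_mul_cancel₀ _ hΛ0.ne', mul_pow, ← pow_mul, ← pow_mul, mul_comm 2 k]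
  · have h0 : 0 < gG G Λ n * (a / 2) := by unfold gG; positivity
    rw [div_lt_iff₀ h0]
    have h1 : 10 / T + 1 ≤ gG G Λ n * (a / 2) := by
      refine g8.trans (le_of_eq ?_)
      unfold gG; ring
    calc (10 : ℝ) = T * (10 / T) := by field_simp
      _ < T * (10 / T + 1) := by nlinarith
      _ ≤ T * (gG G Λ n * (a / 2)) := by gcongr


theorem PD_good (h : PD R σ κ) (hk2 : 2 * κ ≤ σ - 1) {ℓ β b a T : ℝ} (hG : 0 < G) (hℓ : 0 < ℓ) (hb : 0 < b) (ha : 0 < a) (hT : 0 < T)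
    {y : ℕ → ℝ} {C : ℝ} (hC : ∀ m, |y m| * (R : ℝ) ^ m ≤ C) :
    ∀ᶠ n in atTop, Good R ((R : ℝ) ^ (σ - κ)) ((R : ℝ) ^ (2 - σ + κ)) ((R : ℝ) ^ σ) (zz ((R : ℝ) ^ σ)) G ℓ β b a T y n := by
  have hR0 := h.pc.R0
  have hP0 : 0 < (R : ℝ) ^ (σ - κ) := Real.rpow_pos_of_pos hR0 _
  refine good_ev3 h.pc.par h.pc.R1 h.RQ' (h.q2 hk2) hP0 ?_ h.pc.RΛ ?_ hG hℓ hb ha hT hC
  · rw [h.ΛP, mul_comm]
    have := h.pc.RQ
    have h1 : (10 : ℝ) ^ 4 ≤ (R : ℝ) ^ κ := by linarith [show (10 : ℝ) ^ 4 ≤ 10 ^ 5 by norm_num]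
    gcongr
  · rw [one_lt_div (Real.rpow_pos_of_pos hR0 _), ← Real.rpow_natCast (R : ℝ) 2, ← Real.rpow_add hR0]
    exact Real.rpow_lt_rpow_of_exponent_lt h.pc.R1 (by push_cast; linarith [h.s4])

end

variable {H K : Type} [NormedAddCommGroup H] [InnerProductSpace ℝ H] [CompleteSpace H]
  [NormedAddCommGroup K] [InnerProductSpace ℝ K] [CompleteSpace K]

variable {W : Submodule ℝ (H × K)} {m : H → K} {R : ℕ} {κ μ D : ℝ} {p q s r : ℕ → H} {P Q S p1 q1 : ℕ → K}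
  {δ G σ : ℝ}

/-- Blow-up before the time `η` for an open and dense set of data. -/
theorem dense_abs {C : ℝ} (Fr : Frame W m C) (h : HP W m R κ μ D p q s r P Q S p1 q1) (hd : PD R σ κ) (hσ : σ < 5 / 2)
    (hk2 : 2 * κ ≤ σ - 1) (hG : 0 < G) {sg : ℝ} (hsg : |sg| = 1) {ν : ℝ} (hν : 0 < ν) {v : H} {zv : K}
    (hv : (v, zv) ∈ W) {η : ℝ} (hη : 0 < η) :
    ∃ (n : ℕ) (c0 c1 : ℝ), ‖c0 • p n + c1 • p (n + 1)‖ ≤ η ∧ ∃ ρ > 0, ∀ w' : H,
      ‖w' - (v + (c0 • p n + c1 • p (n + 1)))‖ ≤ ρ →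
      (∀ k, |⟪p k, w' - (v + (c0 • p n + c1 • p (n + 1)))⟫_ℝ| ≤ ρ / ((R : ℝ) ^ (2 - σ + κ)) ^ k ∧
        |⟪q k, w' - (v + (c0 • p n + c1 • p (n + 1)))⟫_ℝ| ≤ ρ / ((R : ℝ) ^ (2 - σ + κ)) ^ k) →
      ∀ (u : ℝ → H) (z : ℝ → K), u 0 = w' →
        ¬HSol W (MM m R (gG G ((R : ℝ) ^ σ)) (zz ((R : ℝ) ^ σ) ^ 16) p q s P Q sg) ν η u z := by
  have hss := sgn_abs hsg
  have hqq := qq_pos
  have hqv : qq = 1 / 5000 := rfl
  have hD1 := h.D1
  have hμ := h.μ1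
  have hκ := hd.pc.k0.le
  have hR1 := hd.pc.R1
  have hR1' : 1 ≤ R := by exact_mod_cast hR1.le
  set Λ := (R : ℝ) ^ σ with hΛd
  set Q' := (R : ℝ) ^ (2 - σ + κ) with hQd
  set z := zz Λ with hzd
  have hpar : Par Λ z := hd.pc.par
  have hz := hpar.hz
  have hR0 := hd.pc.R0
  have hQ1' : 1 ≤ Q' := le_trans (by norm_num) hd.RQ'
  have hQ0 : 0 < Q' := by linarith
  set E : ℝ := (‖v‖ + η + 1) ^ 2 with hE
  have hE1 : 1 ≤ E := by
    have := norm_nonneg v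
    rw [hE]
    nlinarith
  set ℓ : ℝ := ν * μ ^ 2 with hℓ
  have hℓ0 : 0 < ℓ := by positivity
  have hb0 : 0 < bH ν G E D μ := by
    unfold bH
    have : 0 < G * E := by positivity
    have : 0 ≤ Real.sqrt E := Real.sqrt_nonneg E
    positivity
  have hle := fun k => h.le1 hR1' k hv
  set Cq : ℝ := D * ‖zv‖ with hCq'
  have hCq : ∀ k, |⟪q k, v⟫_ℝ| * (R : ℝ) ^ k ≤ Cq := fun k => by
    have h1 := (hle k).q0
    have h2 : 0 < (R : ℝ) ^ k := pow_pos hR0 k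
    rw [div_mul_eq_mul_div, le_div_iff₀ h2] at h1
    exact h1
  have hCq0 : 0 ≤ Cq := le_trans (by positivity) (hCq 0)
  set β : ℝ := 2 * bH ν G E D μ with hβ
  have hβ0 : 0 ≤ β := by positivity
  set b : ℝ := 8 * β / ℓ + 1 + Cq with hb
  have hb8 : 0 ≤ 8 * β / ℓ := by positivity
  have hb1 : 1 ≤ b := by linarith
  have hbp : 0 < b := by linarith
  have hbC : 1 + Cq ≤ b := by linarith
  have hβb : 8 * β ≤ ℓ * b := by
    rw [hb, mul_add, mul_add, mul_div_cancel₀ _ hℓ0.ne']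
    have : 0 ≤ ℓ * Cq := by positivity
    linarith
  -- the threshold
  obtain ⟨N, hN⟩ := N_exists (c := 16 * G * b ^ 2 / bH ν G E D μ) hd.H1 hd.HP (by positivity)
  have hN' : ∀ k : ℕ, 16 * G * b ^ 2 * HH R σ κ ^ k ≤ bH ν G E D μ * ((R : ℝ) ^ (σ - κ)) ^ (max k N) := by
    intro k
    have h1 := hN k
    rw [div_mul_eq_mul_div, div_le_iff₀ hb0] at h1
    linarith
  set a : ℝ := η / 8 with ha
  have ha0 : 0 < a := by positivity
  have hrap : ∀ k, |sg * ⟪p k, v⟫_ℝ| * (R : ℝ) ^ k ≤ Cq := fun k => by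
    have h1 := (hle k).p0
    have h2 : 0 < (R : ℝ) ^ k := pow_pos hR0 k
    rw [div_mul_eq_mul_div, le_div_iff₀ h2] at h1
    rw [abs_mul, hsg, one_mul]
    exact h1
  obtain ⟨n, hn, hNn⟩ := ((PD_good hd hk2 (G := G) (ℓ := ℓ) (β := β) (b := b) (a := a) (T := η) hG hℓ0
    hbp ha0 hη hrap).and (eventually_ge_atTop N)).exists
  set c0 : ℝ := a - sg * ⟪p n, v⟫_ℝ with hc0
  set c1 : ℝ := qq * a - sg * ⟪p (n + 1), v⟫_ℝ with hc1
  set pt : H := (sg * c0) • p n + (sg * c1) • p (n + 1) with hpt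
  set w : H := v + pt with hw
  have hcpt : ∀ k, ⟪p k, pt⟫_ℝ = sg * sel n c0 c1 k := by
    intro k
    rw [hpt, inner_add_right, real_inner_smul_right, real_inner_smul_right, h.ipp, h.ipp]
    unfold sel
    by_cases a1 : k = n
    · subst a1
      rw [if_pos rfl, if_neg (by omega), if_pos rfl]
      ring
    · by_cases a2 : k = n + 1
      · subst a2
        rw [if_neg (by omega), if_pos rfl, if_neg (by omega), if_pos rfl]
        ring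
      · rw [if_neg (Ne.symm a1), if_neg (Ne.symm a2), if_neg a1, if_neg a2]
        ring
  have hcw : ∀ k, sg * ⟪p k, w⟫_ℝ = sg * ⟪p k, v⟫_ℝ + sel n c0 c1 k := by
    intro k
    rw [hw, inner_add_right, hcpt]
    linear_combination (sel n c0 c1 k) * hss
  have hqw : ∀ k, ⟪q k, w⟫_ℝ = ⟪q k, v⟫_ℝ := by
    intro k
    rw [hw, inner_add_right, hpt, inner_add_right, real_inner_smul_right, real_inner_smul_right, h.iqp, h.iqp]
    ring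
  have hz16 : 0 < z ^ 16 := pow_pos hz 16
  have hz16' : z ^ 16 ≤ 1 := pow_le_one₀ hz.le hpar.z1
  have hsmall : z ^ 16 * qq * a / 40 ≤ a / 40 := by
    have h1 : z ^ 16 * qq ≤ 1 := by
      rw [hqv]; nlinarith
    have : z ^ 16 * qq * a ≤ 1 * a := by gcongr
    linarith
  have hen0 : ‖pt‖ ≤ η := by
    have h1 := hn.c1 n le_rfl
    have h2 := hn.c1 (n + 1) (by omega)
    have h3 : |c0| ≤ a + |sg * ⟪p n, v⟫_ℝ| := by
      have := abs_sub a (sg * ⟪p n, v⟫_ℝ)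
      rwa [abs_of_pos ha0] at this
    have h4 : |c1| ≤ qq * a + |sg * ⟪p (n + 1), v⟫_ℝ| := by
      have := abs_sub (qq * a) (sg * ⟪p (n + 1), v⟫_ℝ)
      rwa [abs_of_pos (by positivity : 0 < qq * a)] at this
    rw [hqv] at h4
    have h5 : |c0| ≤ 2 * a := by linarith
    have h6 : |c1| ≤ a := by linarith
    rw [hpt]
    refine (norm_add_le _ _).trans ?_
    rw [norm_smul, norm_smul, h.np, h.np, Real.norm_eq_abs, Real.norm_eq_abs, abs_mul, abs_mul, hsg]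
    have h7 : η = 8 * a := by rw [ha]; ring
    linarith
  set r0 := min (1 / 2) (z ^ 16 * qq * a / 40) with hr0
  have hr00 : 0 < r0 := by positivity
  refine ⟨n, sg * c0, sg * c1, hen0, r0, hr00, ?_⟩
  intro w' hw1 hcl0 u zu hu hs
  have hr1 : r0 ≤ 1 / 2 := min_le_left _ _
  have hr2 : r0 ≤ z ^ 16 * qq * a / 40 := min_le_right _ _
  have hcl : ∀ k, |sg * ⟪p k, w'⟫_ℝ - sg * ⟪p k, w⟫_ℝ| ≤ r0 / Q' ^ k := by
    intro k
    have h2 := (hcl0 k).1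
    rw [inner_sub_right] at h2
    rw [← mul_sub, abs_mul, hsg, one_mul]
    exact h2
  have hclq : ∀ k, |⟪q k, w'⟫_ℝ - ⟪q k, v⟫_ℝ| ≤ r0 / Q' ^ k := by
    intro k
    have h2 := (hcl0 k).2
    rw [inner_sub_right] at h2
    rw [← hqw k]
    exact h2
  have hQ1 : ∀ m : ℕ, 1 ≤ Q' ^ m := fun m => one_le_pow₀ hQ1'
  have hcl' : ∀ m, |sg * ⟪p m, w'⟫_ℝ - sg * ⟪p m, w⟫_ℝ| ≤ r0 := fun m => (hcl m).trans (div_le_self hr00.le (hQ1 m))
  have k0 : |sg * ⟪p n, w'⟫_ℝ - a| ≤ r0 := by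
    have := hcl' n
    rw [hcw n] at this
    have e0 : sel n c0 c1 n = c0 := by unfold sel; rw [if_pos rfl]
    rw [e0, hc0] at this
    have e : sg * ⟪p n, v⟫_ℝ + (a - sg * ⟪p n, v⟫_ℝ) = a := by ring
    rwa [e] at this
  have k1 : |sg * ⟪p (n + 1), w'⟫_ℝ - qq * a| ≤ r0 := by
    have := hcl' (n + 1)
    rw [hcw (n + 1)] at this
    have e0 : sel n c0 c1 (n + 1) = c1 := by unfold sel; rw [if_neg (by omega), if_pos rfl]
    rw [e0, hc1] at this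
    have e : sg * ⟪p (n + 1), v⟫_ℝ + (qq * a - sg * ⟪p (n + 1), v⟫_ℝ) = qq * a := by ring
    rwa [e] at this
  have k2 : ∀ m, m ≠ n → m ≠ n + 1 → |sg * ⟪p m, w'⟫_ℝ - sg * ⟪p m, v⟫_ℝ| ≤ r0 / Q' ^ m := by
    intro m m1 m2
    have := hcl m
    rw [hcw m] at this
    have e0 : sel n c0 c1 m = 0 := by unfold sel; rw [if_neg m1, if_neg m2]
    rwa [e0, add_zero] at this
  obtain ⟨g1, g2, g3, g4⟩ := Good.st (x0 := fun m => sg * ⟪p m, w'⟫_ℝ) hpar hd.RQ' hn hG ha0 hb1 hr00 hr1 hr2 k0 k1 k2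
  have hen : ‖u 0‖ ^ 2 ≤ E := by
    rw [hu, hE]
    refine pow_le_pow_left₀ (norm_nonneg _) ?_ 2
    have e1 : w' = (w' - w) + (v + pt) := by rw [hw]; abel
    have e2 := norm_add_le (w' - w) (v + pt)
    have e3 := norm_add_le v pt
    rw [← e1] at e2
    linarith
  have hsys := h.sys Fr hd hσ hk2 hG hsg hν hs hen hbp hN'
  have hy0 : ∀ k, |⟪q k, u 0⟫_ℝ| ≤ b / Q' ^ k := by
    intro k
    rw [hu, le_div_iff₀ (pow_pos hQ0 k)]
    have h2 := hclq k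
    rw [le_div_iff₀ (pow_pos hQ0 k)] at h2
    have h3 := hCq k
    have hQk : Q' ^ k ≤ (R : ℝ) ^ k := pow_le_pow_left₀ hQ0.le hd.QR k
    have h4 : |⟪q k, v⟫_ℝ| * Q' ^ k ≤ |⟪q k, v⟫_ℝ| * (R : ℝ) ^ k := by gcongr
    have h5 : |⟪q k, w'⟫_ℝ| ≤ |⟪q k, w'⟫_ℝ - ⟪q k, v⟫_ℝ| + |⟪q k, v⟫_ℝ| := by
      have := abs_add_le (⟪q k, w'⟫_ℝ - ⟪q k, v⟫_ℝ) ⟪q k, v⟫_ℝ
      rwa [sub_add_cancel] at this
    have h6 : |⟪q k, w'⟫_ℝ| * Q' ^ k ≤ (|⟪q k, w'⟫_ℝ - ⟪q k, v⟫_ℝ| + |⟪q k, v⟫_ℝ|) * Q' ^ k := by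
      have := pow_pos hQ0 k
      gcongr
    rw [add_mul] at h6
    linarith
  have hst := g2 (fun n t => sg * ⟪p n, u t⟫_ℝ) fun m => by
    show sg * ⟪p m, u 0⟫_ℝ = sg * ⟪p m, w'⟫_ℝ
    rw [hu]
  exact hsys.blowup hbp hβb (n0 := n) (A0 := sg * ⟪p n, w'⟫_ℝ) (St_of hbp.le hQ0 hst hy0) (Cond_of hNn g3) g4

end Pool.Agent.N980.WX
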