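import Pool.Agent.N980.WX.Conc
import Pool.Agent.N980.WX.Dfn
import Pool.Agent.N980.WX.Dns

/-!
The form of the definitions is the form of the abstract frame.
-/

open MeasureTheory Set Filter Topology
open scoped InnerProductSpace ContDiff

set_option autoImplicit false
set_option linter.unusedVariables false

namespace Pool.Agent.N980.WX

open H772R2.NS (E3 M3 L2V L2M IsTest jac graphW tensL tensL_coe tens graphW_induction)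
open Pool.Agent.N976.DI.D1 (cv cm cv_coe cm_coe memLp_cc test_mem int_Om test_out test_jac_out tri3 inner_tn_jac
  tens_eq test_Sm)
open Pool.Agent.N980.CB (gG zz zz16)

theorem Am_rot (a : E3) (z : M3) : ⟪Am a, z⟫_ℝ = ⟪a, rot z⟫_ℝ := by
  rw [H772R2.NS.inner_M3, H772R2.NS.inner_E3]
  simp only [Fin.sum_univ_three, Am, rot]
  simp
  ring

theorem test_up {B Ω : Set E3} {φ : E3 → E3} (h : IsTest B φ) (hs : B ⊆ Ω) : IsTest Ω φ :=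
  ⟨h.smooth, h.compact, h.supp.trans hs, h.divfree⟩

variable {B Ω : Set E3} {R : ℕ} {κ μ C : ℝ} {Φ p q s r : ℕ → E3 → E3}

theorem Pck.up (h : Pck B R κ μ C Φ p q s r) (hs : B ⊆ Ω) : Pck Ω R κ μ C Φ p q s r :=
  ⟨h.μ1, h.C0, fun n => ⟨(h.tΦ n).1, (h.tΦ n).2.1, (h.tΦ n).2.2.trans hs⟩, fun n => test_up (h.tp n) hs,
    fun n => test_up (h.tq n) hs, fun n => test_up (h.ts n) hs, fun n => test_up (h.tr n) hs, h.cΦ, h.cp, h.cq, h.cs,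
    h.disj, h.np, h.hel, h.nΦ, h.sp, h.rq, h.bp, h.bq, h.dp, h.dq, h.lp, h.lq⟩

theorem ipO_up (hBΩ : B ⊆ Ω) {w f : E3 → E3} (hf : ∀ x, x ∉ B → f x = 0) :
    ipO B w f = ∫ x in Ω, ⟪w x, f x⟫_ℝ := by
  unfold ipO
  rw [setIntegral_eq_integral_of_forall_compl_eq_zero fun x hx => by rw [hf x hx, inner_zero_right],
    setIntegral_eq_integral_of_forall_compl_eq_zero fun x hx => by rw [hf x fun h => hx (hBΩ h), inner_zero_right]]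

/-- The pairing of a class with a test field. -/
theorem ipO_v (hBΩ : B ⊆ Ω) (v : L2V Ω) {f : E3 → E3} (hf : IsTest B f) :
    ipO B v f = ⟪cv Ω f, v⟫_ℝ := by
  rw [ipO_up hBΩ fun x hx => test_out hf hx, icv (tcv (test_up hf hBΩ)) (Filter.EventuallyEq.rfl)]
  exact integral_congr_ae (ae_of_all _ fun x => real_inner_comm _ _)

theorem ipO_test (hBΩ : B ⊆ Ω) {φ f : E3 → E3} (hφ : IsTest Ω φ) (hf : IsTest B f) :
    ipO B φ f = ⟪cv Ω f, cv Ω φ⟫_ℝ := by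
  rw [ipO_up hBΩ fun x hx => test_out hf hx, icv (tcv (test_up hf hBΩ)) (tcv hφ)]
  exact integral_congr_ae (ae_of_all _ fun x => real_inner_comm _ _)

/-- The pairing of a curl with a test field. -/
theorem ipO_rot (hsym : S_sym) (hBΩ : B ⊆ Ω) {f F : E3 → E3} (hf : IsTest B f) (hF : IsTest B F) {c : ℝ}
    (hc0 : c ≠ 0) (h : ∀ x, crl f x = c • F x) {v : L2V Ω} {z : L2M Ω} (hx : (v, z) ∈ graphW Ω) :
    ipO B (fun x => rot (z x)) f = c * ⟪cv Ω F, v⟫_ℝ := by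
  have h1 := rep hsym hf.smooth hf.compact (test_up hF hBΩ) hc0 h hx
  rw [real_inner_smul_left] at h1
  simp only at h1
  rw [← h1, mul_inv_cancel_left₀ hc0, ipO_up hBΩ fun x hx => test_out hf hx,
    icv (cm_coe (Am_memLp hf.smooth.continuous hf.compact)) (Filter.EventuallyEq.rfl)]
  refine integral_congr_ae (ae_of_all _ fun x => ?_)
  simp only
  rw [Am_rot, real_inner_comm]

theorem det_eq (w1 w2 w3 v1 v2 v3 z1 z2 z3 : ℝ) : Matrix.det !![w1, w2, w3; v1, v2, v3; z1, z2, z3]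
    = w1 * (v2 * z3 - v3 * z2) - w2 * (v1 * z3 - v3 * z1) + w3 * (v1 * z2 - v2 * z1) := by
  rw [Matrix.det_fin_three]
  simp
  ring

/-- The coefficient of the abstract form. -/
noncomputable def Gc (R : ℕ) (μ G : ℝ) : ℝ := |G| * (μ * R)

/-- The terms of the form of the definitions are those of the abstract form. -/
theorem trm_fn (hsym : S_sym) (hBΩ : B ⊆ Ω) (hR : 1 ≤ R) (h : Pck B R κ μ C Φ p q s r) {ε G sg : ℝ} (hsg : sg * |G| = G)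
    {v : L2V Ω} {z : L2M Ω} (hx : (v, z) ∈ graphW Ω) {φ : E3 → E3} (hφ : IsTest Ω φ) (n : ℕ) :
    G * trm B ε R p q (fun x => rot (z x)) v φ n
      = sg * fn R (gG (Gc R μ G) ((R : ℝ) ^ (2 + ε / 4))) (zz ((R : ℝ) ^ (2 + ε / 4)) ^ 16) (fun n => cv Ω (p n))
        (fun n => cv Ω (q n)) (fun n => cv Ω (s n)) n v v (cv Ω φ) := by
  have hμ := h.μ1
  have hR' : (1 : ℝ) ≤ R := by exact_mod_cast hR
  have hR0 : (0 : ℝ) < R := by linarith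
  have hRn : ∀ n : ℕ, 0 < (R : ℝ) ^ n := fun n => pow_pos hR0 n
  have hc : ∀ n : ℕ, μ * (R : ℝ) ^ n ≠ 0 := fun n => by have := hRn n; positivity
  have e1 : ∀ n, ipO B (fun x => rot (z x)) (p n) = μ * (R : ℝ) ^ n * ⟪cv Ω (q n), v⟫_ℝ := fun n =>
    ipO_rot hsym hBΩ (h.tp n) (h.tq n) (hc n) (h.cp n) hx
  have e2 : ∀ n, ipO B (fun x => rot (z x)) (q n) = μ * (R : ℝ) ^ n * ⟪cv Ω (s n), v⟫_ℝ := fun n =>
    ipO_rot hsym hBΩ (h.tq n) (h.ts n) (hc n) (h.cq n) hx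
  have e3 : ∀ n, ipO B v (p n) = ⟪cv Ω (p n), v⟫_ℝ := fun n => ipO_v hBΩ v (h.tp n)
  have e4 : ∀ n, ipO B v (q n) = ⟪cv Ω (q n), v⟫_ℝ := fun n => ipO_v hBΩ v (h.tq n)
  have e5 : ∀ n, ipO B φ (p n) = ⟪cv Ω (p n), cv Ω φ⟫_ℝ := fun n => ipO_test hBΩ hφ (h.tp n)
  have e6 : ∀ n, ipO B φ (q n) = ⟪cv Ω (q n), cv Ω φ⟫_ℝ := fun n => ipO_test hBΩ hφ (h.tq n)
  have eg : ((R : ℝ) ^ n) ^ (1 + ε / 4) * (μ * (R : ℝ) ^ (n + 1)) = μ * R * ((R : ℝ) ^ (2 + ε / 4)) ^ n := by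
    have e7 : ((R : ℝ) ^ (2 + ε / 4)) ^ n = ((R : ℝ) ^ n) ^ (1 + ε / 4) * (R : ℝ) ^ n := by
      rw [← Real.rpow_natCast ((R : ℝ) ^ (2 + ε / 4)) n, ← Real.rpow_mul hR0.le, ← Real.rpow_natCast (R : ℝ) n,
        ← Real.rpow_mul hR0.le, ← Real.rpow_add hR0]
      congr 1
      ring
    rw [e7, pow_succ]
    ring
  unfold trm det3 fn
  rw [det_eq, det_eq]
  simp only [e1, e2, e3, e4, e5, e6]
  rw [zz16]
  unfold gG Gc
  have e8 : (R : ℝ) ^ n = (R : ℝ)⁻¹ * (R : ℝ) ^ (n + 1) := by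
    rw [pow_succ]
    field_simp
  have e9 : ((R : ℝ) ^ n) ^ (1 + ε / 4) * (μ * (R : ℝ) ^ n) = μ * ((R : ℝ) ^ (2 + ε / 4)) ^ n := by
    have h1 : ((R : ℝ) ^ n) ^ (1 + ε / 4) * (μ * (R : ℝ) ^ (n + 1))
        = R * (((R : ℝ) ^ n) ^ (1 + ε / 4) * (μ * (R : ℝ) ^ n)) := by rw [pow_succ]; ring
    rw [h1] at eg
    have h2 : (R : ℝ) * (((R : ℝ) ^ n) ^ (1 + ε / 4) * (μ * (R : ℝ) ^ n)) = R * (μ * ((R : ℝ) ^ (2 + ε / 4)) ^ n) := by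
      rw [eg]; ring
    exact mul_left_cancel₀ hR0.ne' h2
  generalize ⟪cv Ω (q n), v⟫_ℝ = Y0
  generalize ⟪cv Ω (q (n + 1)), v⟫_ℝ = Y1
  generalize ⟪cv Ω (s n), v⟫_ℝ = S0
  generalize ⟪cv Ω (s (n + 1)), v⟫_ℝ = S1
  generalize ⟪cv Ω (p n), v⟫_ℝ = X0
  generalize ⟪cv Ω (p (n + 1)), v⟫_ℝ = X1
  generalize ⟪cv Ω (p n), cv Ω φ⟫_ℝ = a0
  generalize ⟪cv Ω (p (n + 1)), cv Ω φ⟫_ℝ = a1
  generalize ⟪cv Ω (q n), cv Ω φ⟫_ℝ = b0
  generalize ⟪cv Ω (q (n + 1)), cv Ω φ⟫_ℝ = b1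
  generalize Real.exp (-((R : ℝ) ^ (2 + ε / 4) / 1250)) = δ
  generalize ((R : ℝ) ^ n) ^ (1 + ε / 4) = ρ at *
  generalize ((R : ℝ) ^ (2 + ε / 4)) ^ n = Λ at *
  have hR1 : (R : ℝ)⁻¹ * R = 1 := inv_mul_cancel₀ hR0.ne'
  have k1 : ρ * (μ * (R : ℝ) ^ n) = μ * Λ := e9
  have k2 : ρ * (μ * (R : ℝ) ^ (n + 1)) = μ * R * Λ := eg
  linear_combination (G * Y0 * (X1 * b1 - Y1 * a1) + G * R * δ * (Y0 * (X1 * b0 - Y0 * a1) + S0 * (X0 * a1 - X1 * a0))) * k1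
    + (G * (-(Y1 * (X0 * b1 - Y1 * a0)) + S1 * (X0 * a1 - X1 * a0)) - G * R * δ * Y1 * (X0 * b0 - Y0 * a0)) * k2
    - (μ * R * Λ * (((R : ℝ)⁻¹ * Y0 * X1 - Y1 * X0) * b1 + (Y1 * Y1 - S1 * X1) * a0 + (S1 * X0 - (R : ℝ)⁻¹ * Y0 * Y1) * a1
      + δ * ((Y0 * X1 - R * Y1 * X0) * b0 + (R * Y1 * Y0 - S0 * X1) * a0 + (S0 * X0 - Y0 * Y0) * a1))) * hsg
    - (G * μ * Λ * (Y0 * X1 * b1 - Y0 * Y1 * a1)) * hR1

end Pool.Agent.N980.WX
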