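import Mathlib
import Pool.Agent.H772R2.NS.Pub

/-!
The Navier-Stokes equations with zero boundary values and with an additional term given by an alternating trilinear
form: definitions. From `H772R2.NS.Pub`: `R3 = ℝ³`, `Mat` the real `3 × 3` matrices, `jac v` the Jacobian matrix,
`IsTest Ω` the divergence free fields in `C_c^∞(Ω)`, `L2 Ω R3 = L²(Ω)³`, `L2 Ω Mat = L²(Ω)^{3×3}` (`v.fn`: a function
representing the class `v`), `(v, z) ∈ H1graph Ω`: `v ∈ V` (the closure of the test fields in `H¹`) and `z = ∇v`.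
-/

open MeasureTheory Set
open scoped InnerProductSpace ContDiff

namespace Pool.Agent.N980.WX.P

open H772R2.NS.Pub

/-- The entry `(i, j)` of a matrix. -/
noncomputable def ent (z : Mat) (i j : Fin 3) : ℝ := (show EuclideanSpace ℝ (Fin 3 × Fin 3) from z) (i, j)

/-- The curl of a field with the Jacobian matrix `z`. -/
noncomputable def rot (z : Mat) : R3 :=
  WithLp.toLp 2 ![ent z 2 1 - ent z 1 2, ent z 0 2 - ent z 2 0, ent z 1 0 - ent z 0 1]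

/-- `∫_B v · w`. -/
noncomputable def ipO (B : Set R3) (v w : R3 → R3) : ℝ := ∫ x in B, ⟪v x, w x⟫_ℝ

/-- The determinant of the matrix of the inner products of `w, v, z` with `a, b, c`. -/
noncomputable def det3 (B : Set R3) (a b c w v z : R3 → R3) : ℝ :=
  Matrix.det !![ipO B w a, ipO B w b, ipO B w c; ipO B v a, ipO B v b, ipO B v c; ipO B z a, ipO B z b, ipO B z c]

/-- The term of the scale `n` of the form. -/
noncomputable def trm (B : Set R3) (ε : ℝ) (R : ℕ) (p q : ℕ → R3 → R3) (w v z : R3 → R3) (n : ℕ) : ℝ :=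
  ((R : ℝ) ^ n) ^ (1 + ε / 4) * (det3 B (p n) (p (n + 1)) (q (n + 1)) w v z
    + R * Real.exp (-((R : ℝ) ^ (2 + ε / 4) / 1250)) * det3 B (p n) (p (n + 1)) (q n) w v z)

/-- The trilinear form. -/
noncomputable def A (B : Set R3) (ε : ℝ) (R : ℕ) (p q : ℕ → R3 → R3) (w v z : R3 → R3) : ℝ :=
  ∑' n, trm B ε R p q w v z n

/-- The packets: divergence free `C_c^∞(B)` fields `pₙ` normalized in `L²`, `qₙ = curl pₙ / (μ Rⁿ)`, with disjoint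
supports for different `n`, concentrated at the scale `R^(-(1-3ε/4)n)`. -/
structure Packets (B : Set R3) (ε : ℝ) (R : ℕ) (μ : ℝ) (p q : ℕ → R3 → R3) : Prop where
  pos : 0 < μ
  test_p : ∀ n, IsTest B (p n)
  test_q : ∀ n, IsTest B (q n)
  norm : ∀ n, ∫ x, ‖p n x‖ ^ 2 = 1
  curl : ∀ n x, rot (jac (p n) x) = (μ * (R : ℝ) ^ n) • q n x
  disj : ∀ m n, m ≠ n → ∀ x, p m x = 0 ∨ p n x = 0
  sup : ∃ C, ∀ n x, ‖p n x‖ ≤ C * ((R : ℝ) ^ n) ^ (1 - 3 * ε / 4)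
  l1 : ∃ C, ∀ n, ∫ x, ‖p n x‖ ≤ C / ((R : ℝ) ^ n) ^ (1 - 3 * ε / 4)

/-- The norm of `L^p(B)`. -/
noncomputable def lpn {F : Type} [NormedAddCommGroup F] (B : Set R3) (p : ℝ) (v : R3 → F) : ℝ :=
  (∫ x in B, ‖v x‖ ^ p) ^ (1 / p)

/-- The fields of class `C^∞`. -/
def Sm (v : R3 → R3) : Prop := ContDiff ℝ ∞ v

/-- `F` is an alternating trilinear form on the smooth fields, which depends only on their restrictions to `B`; it is
of order `ε` in the Lebesgue spaces, and of order `1 + ε/4` in the Sobolev spaces. -/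
structure Alt (B : Set R3) (ε : ℝ) (F : (R3 → R3) → (R3 → R3) → (R3 → R3) → ℝ) : Prop where
  swap₁ : ∀ w v z, F v w z = -F w v z
  swap₂ : ∀ w v z, F w z v = -F w v z
  add : ∀ w w' v z, Sm w → Sm w' → Sm v → Sm z → F (w + w') v z = F w v z + F w' v z
  smul : ∀ (c : ℝ) w v z, F (c • w) v z = c * F w v z
  loc : ∀ w w' v z, (∀ x ∈ B, w x = w' x) → F w v z = F w' v z
  order_lp : ∃ C, ∀ p₁ p₂ p₃ : ℝ, 1 < p₁ → 1 < p₂ → 1 < p₃ → 1 / p₁ + 1 / p₂ + 1 / p₃ = 1 →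
    ∀ w v z, Sm w → Sm v → Sm z →
      |F w v z| ≤ C * (lpn B p₁ w * (lpn B p₂ v ^ (1 - ε) * lpn B p₂ (jac v) ^ ε) * lpn B p₃ z)
  order_h1 : ∃ C, ∀ w v z, Sm w → Sm v → Sm z →
    |F w v z| ≤ C * (lpn B 2 w * (lpn B 2 v ^ (1 - ε / 4) * lpn B 2 (jac v) ^ (ε / 4)) * lpn B 2 (jac z))

/-- The weak form of `-(v·∇)v + ν Δv + F(curl v, v, ·)`, tested with `φ`; `z = ∇v`. -/
noncomputable def rhsF {Ω : Set R3} (ν : ℝ) (F : (R3 → R3) → (R3 → R3) → (R3 → R3) → ℝ) (v : L2 Ω R3) (z : L2 Ω Mat)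
    (φ : R3 → R3) : ℝ :=
  (∫ x in Ω, ⟪v.fn x, fderiv ℝ φ x (v.fn x)⟫_ℝ) - ν * (∫ x in Ω, ⟪z.fn x, jac φ x⟫_ℝ)
    + F (fun x => rot (z.fn x)) v.fn φ

/-- `u` is a strong solution on `[0,T]` of
`∂ₜu + (u·∇)u - ν Δu + ∇p = F(curl u, u, ·)`, `div u = 0` in `Ω`, `u = 0` on the boundary;
`G = ∇u`, `u' = ∂ₜu`, `G' = ∇∂ₜu`:
* `u(t) ∈ V` for every `t ∈ [0,T]`, `∂ₜu(t) ∈ V` for almost every `t`;
* `u` and `∇u` are in `H¹(0,T; L²)`, so that `∂ₜu ∈ L²(0,T; V)`, and `∂ₜu ∈ L^∞(0,T; L²)`;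
* the equations hold in the weak sense, integrated in time. -/
structure Strong (Ω : Set R3) (ν : ℝ) (F : (R3 → R3) → (R3 → R3) → (R3 → R3) → ℝ) (T : ℝ) (u u' : ℝ → L2 Ω R3)
    (G G' : ℝ → L2 Ω Mat) : Prop where
  grad : ∀ t ∈ Icc 0 T, (u t, G t) ∈ H1graph Ω
  gradDeriv : ∀ᵐ t ∂(volume.restrict (Ioc 0 T)), (u' t, G' t) ∈ H1graph Ω
  mem_u : MemLp u' 2 (volume.restrict (Ioc 0 T))
  mem_G : MemLp G' 2 (volume.restrict (Ioc 0 T))
  prim_u : ∀ a b, 0 ≤ a → a ≤ b → b ≤ T → u b - u a = ∫ s in a..b, u' s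
  prim_G : ∀ a b, 0 ≤ a → a ≤ b → b ≤ T → G b - G a = ∫ s in a..b, G' s
  bdd : ∃ M, ∀ᵐ t ∂(volume.restrict (Ioc 0 T)), ‖u' t‖ ≤ M
  eqn : ∀ φ, IsTest Ω φ → ∀ t ∈ Icc 0 T,
    (∫ x in Ω, ⟪(u t).fn x, φ x⟫_ℝ) - (∫ x in Ω, ⟪(u 0).fn x, φ x⟫_ℝ) = ∫ s in (0 : ℝ)..t, rhsF ν F (u s) (G s) φ

/-- Admissible data: `v ∈ V` with gradient `z`, the initial acceleration (the right-hand side of the equation) is in
`L²`. -/
def Adm (Ω : Set R3) (ν : ℝ) (F : (R3 → R3) → (R3 → R3) → (R3 → R3) → ℝ) (v : L2 Ω R3) (z : L2 Ω Mat) : Prop :=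
  (v, z) ∈ H1graph Ω ∧ ∃ h : L2 Ω R3, ∀ φ, IsTest Ω φ → rhsF ν F v z φ = ∫ x in Ω, ⟪h.fn x, φ x⟫_ℝ

/-- There is a strong solution `u` on `[0,T]` with the initial value `v` and with `‖∇u(T)‖ ≥ N` (for `N = 0`: there is
a strong solution on `[0,T]` with the initial value `v`). -/
def Reach (Ω : Set R3) (ν : ℝ) (F : (R3 → R3) → (R3 → R3) → (R3 → R3) → ℝ) (v : L2 Ω R3) (T N : ℝ) : Prop :=
  ∃ (u u' : ℝ → L2 Ω R3) (G G' : ℝ → L2 Ω Mat), Strong Ω ν F T u u' G G' ∧ u 0 = v ∧ N ≤ ‖G T‖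

end Pool.Agent.N980.WX.P
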