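import Pool.Agent.N980.WX.Main
import Pool.Agent.N980.WX.DfnP
import Pool.Agent.H772R2.NS.PubBridge

/-!
The public definitions agree with the internal ones.
-/

open MeasureTheory Set Filter Topology
open scoped InnerProductSpace ContDiff

set_option autoImplicit false
set_option linter.unusedVariables false

namespace Pool.Agent.N980.WX.P

open H772R2.NS (E3 M3 L2V L2M)
open H772R2.NS.Pub

theorem jac_fun (φ : E3 → E3) : (H772R2.NS.Pub.jac φ : E3 → M3) = H772R2.NS.jac φ := funext (jac_eq φ)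

theorem rot_eq (z : M3) : P.rot z = WX.rot z := rfl

theorem ipO_eq (B : Set E3) (v w : E3 → E3) : P.ipO B v w = WX.ipO B v w := rfl

theorem det3_eq (B : Set E3) (a b c w v z : E3 → E3) : P.det3 B a b c w v z = WX.det3 B a b c w v z := rfl

theorem trm_eq (B : Set E3) (ε : ℝ) (R : ℕ) (p q : ℕ → E3 → E3) (w v z : E3 → E3) (n : ℕ) :
    P.trm B ε R p q w v z n = WX.trm B ε R p q w v z n := rfl

theorem A_eq (B : Set E3) (ε : ℝ) (R : ℕ) (p q : ℕ → E3 → E3) :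
    (P.A B ε R p q : (E3 → E3) → (E3 → E3) → (E3 → E3) → ℝ) = WX.A B ε R p q := rfl

theorem packets {B : Set E3} {ε : ℝ} {R : ℕ} {μ : ℝ} {p q : ℕ → E3 → E3} (h : WX.Packets B ε R μ p q) :
    P.Packets B ε R μ p q where
  pos := h.pos
  test_p n := (isTest_iff (Ω := B) (p n)).2 (h.test_p n)
  test_q n := (isTest_iff (Ω := B) (q n)).2 (h.test_q n)
  norm := h.norm
  curl n x := by
    have h1 := h.curl n x
    rw [← jac_eq] at h1
    exact h1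
  disj := h.disj
  sup := h.sup
  l1 := h.l1

theorem alt {B : Set E3} {ε : ℝ} {F : (E3 → E3) → (E3 → E3) → (E3 → E3) → ℝ} (h : WX.Alt B ε F) : P.Alt B ε F where
  swap₁ := h.swap₁
  swap₂ := h.swap₂
  add := h.add
  smul := h.smul
  loc := h.loc
  order_lp := by
    obtain ⟨C, hC⟩ := h.order_lp
    refine ⟨C, fun p₁ p₂ p₃ h1 h2 h3 h4 w v z hw hv hz => ?_⟩
    have h5 := hC p₁ p₂ p₃ h1 h2 h3 h4 w v z hw hv hz
    rw [← jac_fun] at h5
    exact h5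
  order_h1 := by
    obtain ⟨C, hC⟩ := h.order_h1
    refine ⟨C, fun w v z hw hv hz => ?_⟩
    have h5 := hC w v z hw hv hz
    rw [← jac_fun, ← jac_fun] at h5
    exact h5

theorem rhsF_eq {Ω : Set E3} (ν : ℝ) (F : (E3 → E3) → (E3 → E3) → (E3 → E3) → ℝ) (v : L2V Ω) (z : L2M Ω)
    (φ : E3 → E3) : P.rhsF (Ω := Ω) ν F v z φ = WX.rhsF ν F v z φ := by
  have e3 : (∫ x in Ω, ⟪L2.fn (Ω := Ω) (E := Mat) z x, (H772R2.NS.Pub.jac φ x : Mat)⟫_ℝ)
      = ∫ x in Ω, ⟪z x, H772R2.NS.jac φ x⟫_ℝ := by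
    rw [← jac_fun]
    rfl
  unfold P.rhsF WX.rhsF
  rw [← e3]
  rfl

theorem vdist_eq {Ω : Set E3} (z : L2M Ω) (w : E3 → E3) :
    (∫ x in Ω, ‖L2.fn (Ω := Ω) (E := Mat) z x - (H772R2.NS.Pub.jac w x : Mat)‖ ^ 2)
      = ∫ x in Ω, ‖z x - H772R2.NS.jac w x‖ ^ 2 := by
  rw [← jac_fun]
  rfl

theorem mem_eq {Ω : Set E3} {v : L2V Ω} {z : L2M Ω} :
    ((v, z) ∈ (H772R2.NS.Pub.H1graph Ω : Set (L2V Ω × L2M Ω))) ↔ (v, z) ∈ H772R2.NS.H1graph Ω := by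
  rw [H1graph_eq]
  exact Iff.rfl

theorem strong_iff {Ω : Set E3} {ν : ℝ} {F : (E3 → E3) → (E3 → E3) → (E3 → E3) → ℝ} {T : ℝ} {u u' : ℝ → L2V Ω}
    {G G' : ℝ → L2M Ω} : P.Strong Ω ν F T u u' G G' ↔ WX.Strong Ω ν F T u u' G G' := by
  constructor
  · intro h
    refine ⟨fun t ht => mem_eq.1 (h.grad t ht), h.gradDeriv.mono fun t ht => mem_eq.1 ht, h.mem_u, h.mem_G, h.prim_u,
      h.prim_G, h.bdd, fun φ hφ t ht => ?_⟩
    have h1 := h.eqn φ ((isTest_iff (Ω := Ω) φ).2 hφ) t ht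
    refine Eq.trans h1 ?_
    exact intervalIntegral.integral_congr fun s _ => rhsF_eq ν F (u s) (G s) φ
  · intro h
    refine ⟨fun t ht => mem_eq.2 (h.grad t ht), h.gradDeriv.mono fun t ht => mem_eq.2 ht, h.mem_u, h.mem_G, h.prim_u,
      h.prim_G, h.bdd, fun φ hφ t ht => ?_⟩
    have h1 := h.eqn φ ((isTest_iff (Ω := Ω) φ).1 hφ) t ht
    refine Eq.trans h1 ?_
    exact (intervalIntegral.integral_congr fun s _ => rhsF_eq ν F (u s) (G s) φ).symm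

theorem adm_iff {Ω : Set E3} {ν : ℝ} {F : (E3 → E3) → (E3 → E3) → (E3 → E3) → ℝ} {v : L2V Ω} {z : L2M Ω} :
    P.Adm Ω ν F v z ↔ WX.Adm Ω ν F v z := by
  constructor
  · rintro ⟨h1, h, h2⟩
    exact ⟨mem_eq.1 h1, h, fun φ hφ => (rhsF_eq ν F v z φ).symm.trans (h2 φ ((isTest_iff (Ω := Ω) φ).2 hφ))⟩
  · rintro ⟨h1, h, h2⟩
    exact ⟨mem_eq.2 h1, h, fun φ hφ => (rhsF_eq ν F v z φ).trans (h2 φ ((isTest_iff (Ω := Ω) φ).1 hφ))⟩

end Pool.Agent.N980.WX.P
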