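import Pool.Agent.N980.WX.Crl0

/-!
Project WX (helper980), part CR1 (helper27): the curl is symmetric.
-/

open MeasureTheory Set Filter Topology
open scoped InnerProductSpace ContDiff

set_option autoImplicit false

namespace Pool.Agent.N980.WX

open H772R2.NS (E3 M3 jac)

namespace CR1

theorem sm_c {φ : E3 → E3} (h : ContDiff ℝ ∞ φ) (i : Fin 3) : ContDiff ℝ ∞ fun x => φ x i :=
  (contDiff_euclidean.1 h) i

theorem jac_eq {φ : E3 → E3} (h : ContDiff ℝ ∞ φ) (x : E3) (i j : Fin 3) :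
    jac φ x (i, j) = fderiv ℝ (fun y => φ y i) x (EuclideanSpace.single j 1) := by
  have hd : DifferentiableAt ℝ φ x := (h.differentiable (by simp)).differentiableAt
  have h1 : HasFDerivAt (fun y => φ y i)
      ((EuclideanSpace.proj i : E3 →L[ℝ] ℝ).comp (fderiv ℝ φ x)) x :=
    (EuclideanSpace.proj i : E3 →L[ℝ] ℝ).hasFDerivAt.comp x hd.hasFDerivAt
  rw [h1.fderiv]
  rfl

theorem jac_cont {φ : E3 → E3} (h : ContDiff ℝ ∞ φ) (i j : Fin 3) :
    Continuous fun x => jac φ x (i, j) := by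
  simp only [jac_eq h]
  exact ((sm_c h i).continuous_fderiv (by simp)).clm_apply continuous_const

theorem cs_c {φ : E3 → E3} (hc : HasCompactSupport φ) (i : Fin 3) :
    HasCompactSupport fun x => φ x i := by
  refine hc.comp_left (g := fun y : E3 => y i) ?_
  rfl

theorem cs_jac {φ : E3 → E3} (h : ContDiff ℝ ∞ φ) (hc : HasCompactSupport φ) (i j : Fin 3) :
    HasCompactSupport fun x => jac φ x (i, j) := by
  simp only [jac_eq h]
  have h1 := (cs_c hc i).fderiv (𝕜 := ℝ)
  exact h1.comp_left (g := fun L : E3 →L[ℝ] ℝ => L (EuclideanSpace.single j 1)) rfl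

variable {φ ψ : E3 → E3} (hφ : ContDiff ℝ ∞ φ) (hc : HasCompactSupport φ) (hψ : ContDiff ℝ ∞ ψ)

include hφ hc hψ

theorem int1 (i j k : Fin 3) : Integrable fun x => jac φ x (i, j) * ψ x k :=
  ((jac_cont hφ i j).mul (sm_c hψ k).continuous).integrable_of_hasCompactSupport
    ((cs_jac hφ hc i j).mul_right)

theorem int2 (i j k : Fin 3) : Integrable fun x => φ x i * jac ψ x (k, j) :=
  ((sm_c hφ i).continuous.mul (jac_cont hψ k j)).integrable_of_hasCompactSupport
    ((cs_c hc i).mul_right)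

theorem parts (i j k : Fin 3) :
    ∫ x, jac φ x (i, j) * ψ x k = -∫ x, φ x i * jac ψ x (k, j) := by
  have h1 := int1 hφ hc hψ i j k
  have h2 := int2 hφ hc hψ i j k
  have h3 : Integrable fun x => φ x i * ψ x k :=
    ((sm_c hφ i).continuous.mul (sm_c hψ k).continuous).integrable_of_hasCompactSupport
      ((cs_c hc i).mul_right)
  simp only [jac_eq hφ] at h1
  simp only [jac_eq hψ] at h2
  have h4 := integral_mul_fderiv_eq_neg_fderiv_mul_of_integrable h1 h2 h3
    (fun x _ => ((sm_c hφ i).differentiable (by simp)).differentiableAt)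
    (fun x _ => ((sm_c hψ k).differentiable (by simp)).differentiableAt)
  simp only [jac_eq hφ, jac_eq hψ]
  rw [h4, neg_neg]

omit hφ hc hψ in
theorem int6 {a b c d e f : E3 → ℝ} (ha : Integrable a) (hb : Integrable b) (hc : Integrable c)
    (hd : Integrable d) (he : Integrable e) (hf : Integrable f) :
    ∫ x, (((a x - b x) + (c x - d x)) + (e x - f x)) =
      (((∫ x, a x) - ∫ x, b x) + ((∫ x, c x) - ∫ x, d x)) + ((∫ x, e x) - ∫ x, f x) := by
  have h1 : Integrable fun x => a x - b x := ha.sub hb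
  have h2 : Integrable fun x => c x - d x := hc.sub hd
  have h3 : Integrable fun x => e x - f x := he.sub hf
  have h4 : Integrable fun x => (a x - b x) + (c x - d x) := h1.add h2
  rw [integral_add h4 h3, integral_add h1 h2, integral_sub ha hb, integral_sub hc hd,
    integral_sub he hf]

end CR1

theorem cr1 : S_sym := by
  intro φ ψ hφ hc hψ
  have A := CR1.int1 hφ hc hψ
  have B := CR1.int2 hφ hc hψ
  have P := CR1.parts hφ hc hψ
  have e1 : ∀ x, ⟪crl φ x, ψ x⟫_ℝ = ((jac φ x (2, 1) * ψ x 0 - jac φ x (1, 2) * ψ x 0) +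
      (jac φ x (0, 2) * ψ x 1 - jac φ x (2, 0) * ψ x 1)) +
      (jac φ x (1, 0) * ψ x 2 - jac φ x (0, 1) * ψ x 2) := by
    intro x
    rw [PiLp.inner_apply, Fin.sum_univ_three]
    simp [crl]
    ring
  have e2 : ∀ x, ⟪φ x, crl ψ x⟫_ℝ = ((φ x 1 * jac ψ x (0, 2) - φ x 2 * jac ψ x (0, 1)) +
      (φ x 2 * jac ψ x (1, 0) - φ x 0 * jac ψ x (1, 2))) +
      (φ x 0 * jac ψ x (2, 1) - φ x 1 * jac ψ x (2, 0)) := by
    intro x
    rw [PiLp.inner_apply, Fin.sum_univ_three]
    simp [crl]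
    ring
  simp only [e1, e2]
  rw [CR1.int6 (A 2 1 0) (A 1 2 0) (A 0 2 1) (A 2 0 1) (A 1 0 2) (A 0 1 2),
    CR1.int6 (B 1 2 0) (B 2 1 0) (B 2 0 1) (B 0 2 1) (B 0 1 2) (B 1 0 2)]
  rw [P, P, P, P, P, P]
  ring

end Pool.Agent.N980.WX
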