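import Pool.Agent.N980.WX.Crl0

/-!
The double curl of a divergence free field is minus its Laplacian.
-/

open MeasureTheory Set Filter Topology
open scoped InnerProductSpace ContDiff

set_option autoImplicit false

namespace Pool.Agent.N980.WX

open H772R2.NS (E3 M3 IsTest jac)

namespace CR2

open Pool.Agent.N976.SC (bv lap)

/-- the coordinate -/
noncomputable def pr (i : Fin 3) : E3 →L[ℝ] ℝ := EuclideanSpace.proj i

theorem comp_fderiv {f : E3 → E3} {x : E3} (hf : DifferentiableAt ℝ f x) (v : E3) (i : Fin 3) :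
    (fderiv ℝ f x v) i = fderiv ℝ (fun z => f z i) x v := by
  have h1 : HasFDerivAt (fun z => f z i)
      ((pr i).comp (fderiv ℝ f x)) x :=
    (pr i).hasFDerivAt.comp x hf.hasFDerivAt
  rw [h1.fderiv]
  rfl

theorem jac_apply (φ : E3 → E3) (x : E3) (i j : Fin 3) : jac φ x (i, j) = fderiv ℝ φ x (bv j) i := rfl

/-- `∂_k ∂_j φ_i` -/
noncomputable def D2 (φ : E3 → E3) (x : E3) (i j k : Fin 3) : ℝ :=
  (fderiv ℝ (fderiv ℝ φ) x (bv k) (bv j)) i

variable {φ : E3 → E3}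

theorem dd (h : ContDiff ℝ ∞ φ) (x : E3) : DifferentiableAt ℝ (fderiv ℝ φ) x := by
  have h1 : ContDiff ℝ ∞ (fderiv ℝ φ) := h.fderiv_right (by simp)
  exact (h1.differentiable (by simp)) x

theorem had (h : ContDiff ℝ ∞ φ) (x v : E3) (i : Fin 3) :
    HasFDerivAt (fun z => fderiv ℝ φ z v i)
      ((pr i).comp
        ((ContinuousLinearMap.apply ℝ E3 v).comp (fderiv ℝ (fderiv ℝ φ) x))) x := by
  have h1 : HasFDerivAt (fun z => fderiv ℝ φ z v)
      ((ContinuousLinearMap.apply ℝ E3 v).comp (fderiv ℝ (fderiv ℝ φ) x)) x :=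
    (ContinuousLinearMap.apply ℝ E3 v).hasFDerivAt.comp x (dd h x).hasFDerivAt
  exact (pr i).hasFDerivAt.comp x h1

theorem hadv (h : ContDiff ℝ ∞ φ) (x v : E3) :
    HasFDerivAt (fun z => fderiv ℝ φ z v)
      ((ContinuousLinearMap.apply ℝ E3 v).comp (fderiv ℝ (fderiv ℝ φ) x)) x :=
  (ContinuousLinearMap.apply ℝ E3 v).hasFDerivAt.comp x (dd h x).hasFDerivAt

theorem fd_jac (h : ContDiff ℝ ∞ φ) (x : E3) (i j k : Fin 3) :
    fderiv ℝ (fun z => jac φ z (i, j)) x (bv k) = D2 φ x i j k := by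
  have h1 := (had h x (bv j) i).fderiv
  have h2 : (fun z => jac φ z (i, j)) = fun z => fderiv ℝ φ z (bv j) i := rfl
  rw [h2, h1]
  rfl

theorem da (h : ContDiff ℝ ∞ φ) (x : E3) (i j : Fin 3) :
    DifferentiableAt ℝ (fun z => jac φ z (i, j)) x := (had h x (bv j) i).differentiableAt

theorem D2_symm (h : ContDiff ℝ ∞ φ) (x : E3) (i j k : Fin 3) : D2 φ x i j k = D2 φ x i k j := by
  have h1 : IsSymmSndFDerivAt ℝ φ x := by
    refine (h.contDiffAt (x := x)).isSymmSndFDerivAt ?_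
    rw [minSmoothness_of_isRCLikeNormedField]
    exact WithTop.coe_le_coe.2 le_top
  unfold D2
  rw [h1.eq]

theorem crl0 (φ : E3 → E3) (x : E3) : crl φ x 0 = jac φ x (2, 1) - jac φ x (1, 2) := rfl
theorem crl1 (φ : E3 → E3) (x : E3) : crl φ x 1 = jac φ x (0, 2) - jac φ x (2, 0) := rfl
theorem crl2 (φ : E3 → E3) (x : E3) : crl φ x 2 = jac φ x (1, 0) - jac φ x (0, 1) := rfl

theorem crl_diff (h : ContDiff ℝ ∞ φ) (x : E3) : DifferentiableAt ℝ (crl φ) x := by
  rw [differentiableAt_euclidean]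
  intro i
  fin_cases i
  · exact (da h x 2 1).sub (da h x 1 2)
  · exact (da h x 0 2).sub (da h x 2 0)
  · exact (da h x 1 0).sub (da h x 0 1)

theorem jc0 (h : ContDiff ℝ ∞ φ) (x : E3) (k : Fin 3) :
    jac (crl φ) x (0, k) = D2 φ x 2 1 k - D2 φ x 1 2 k := by
  rw [jac_apply, comp_fderiv (crl_diff h x)]
  have e : (fun z => crl φ z 0) = fun z => jac φ z (2, 1) - jac φ z (1, 2) := rfl
  rw [e, fderiv_fun_sub (da h x 2 1) (da h x 1 2), _root_.sub_apply, fd_jac h, fd_jac h]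

theorem jc1 (h : ContDiff ℝ ∞ φ) (x : E3) (k : Fin 3) :
    jac (crl φ) x (1, k) = D2 φ x 0 2 k - D2 φ x 2 0 k := by
  rw [jac_apply, comp_fderiv (crl_diff h x)]
  have e : (fun z => crl φ z 1) = fun z => jac φ z (0, 2) - jac φ z (2, 0) := rfl
  rw [e, fderiv_fun_sub (da h x 0 2) (da h x 2 0), _root_.sub_apply, fd_jac h, fd_jac h]

theorem jc2 (h : ContDiff ℝ ∞ φ) (x : E3) (k : Fin 3) :
    jac (crl φ) x (2, k) = D2 φ x 1 0 k - D2 φ x 0 1 k := by
  rw [jac_apply, comp_fderiv (crl_diff h x)]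
  have e : (fun z => crl φ z 2) = fun z => jac φ z (1, 0) - jac φ z (0, 1) := rfl
  rw [e, fderiv_fun_sub (da h x 1 0) (da h x 0 1), _root_.sub_apply, fd_jac h, fd_jac h]

theorem lap_apply (h : ContDiff ℝ ∞ φ) (x : E3) (i : Fin 3) :
    lap φ x i = D2 φ x i 0 0 + D2 φ x i 1 1 + D2 φ x i 2 2 := by
  unfold lap
  rw [Fin.sum_univ_three, (hadv h x (bv 0)).fderiv, (hadv h x (bv 1)).fderiv, (hadv h x (bv 2)).fderiv]
  rfl

theorem div0 (h : ContDiff ℝ ∞ φ) (hd : ∀ x, ∑ i, jac φ x (i, i) = 0) (x : E3) (k : Fin 3) :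
    D2 φ x 0 0 k + D2 φ x 1 1 k + D2 φ x 2 2 k = 0 := by
  have e : (fun z => jac φ z (0, 0) + jac φ z (1, 1) + jac φ z (2, 2)) = fun _ => (0 : ℝ) := by
    funext z
    have := hd z
    rwa [Fin.sum_univ_three] at this
  have h1 : HasFDerivAt (fun z => jac φ z (0, 0) + jac φ z (1, 1) + jac φ z (2, 2))
      (fderiv ℝ (fun z => jac φ z (0, 0)) x + fderiv ℝ (fun z => jac φ z (1, 1)) x +
        fderiv ℝ (fun z => jac φ z (2, 2)) x) x :=
    ((da h x 0 0).hasFDerivAt.add (da h x 1 1).hasFDerivAt).add (da h x 2 2).hasFDerivAt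
  rw [e] at h1
  have h2 := h1.unique (hasFDerivAt_const (0 : ℝ) x)
  have h3 := congrArg (fun L : E3 →L[ℝ] ℝ => L (bv k)) h2
  simp only [_root_.add_apply, _root_.zero_apply] at h3
  rwa [fd_jac h, fd_jac h, fd_jac h] at h3

end CR2

/-- The double curl of a divergence free test field. -/
theorem cr2 : S_cc := by
  intro Ω φ hφ x
  have h := hφ.smooth
  have hd := hφ.divfree
  have s := CR2.D2_symm h x
  have d0 := CR2.div0 h hd x 0
  have d1 := CR2.div0 h hd x 1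
  have d2 := CR2.div0 h hd x 2
  ext i
  rw [PiLp.neg_apply, CR2.lap_apply h]
  fin_cases i
  · show crl (crl φ) x 0 = _
    rw [CR2.crl0, CR2.jc2 h, CR2.jc1 h, s 1 0 1, s 2 0 2]
    simp only [Fin.zero_eta, Fin.isValue]
    linarith
  · show crl (crl φ) x 1 = _
    rw [CR2.crl1, CR2.jc0 h, CR2.jc2 h, s 2 1 2, s 0 1 0]
    simp only [Fin.mk_one, Fin.isValue]
    linarith
  · show crl (crl φ) x 2 = _
    rw [CR2.crl2, CR2.jc1 h, CR2.jc0 h, s 0 2 0, s 1 2 1]
    simp only [Fin.reduceFinMk, Fin.isValue]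
    linarith

end Pool.Agent.N980.WX
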