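import Pool.Agent.N980.WX.Sol

/-!
The equations of the coefficients in the abstract frame.
-/

open MeasureTheory Set Filter Topology
open scoped InnerProductSpace

set_option autoImplicit false
set_option linter.unusedVariables false
set_option linter.unusedSectionVars false

namespace Pool.Agent.N980.WX

open H772R2.NSR (Frame)
open Pool.Agent.N980.WQ (hasSum_z hasSum_s eP eP_le qi)

variable {H K : Type} [NormedAddCommGroup H] [InnerProductSpace ℝ H] [CompleteSpace H]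
  [NormedAddCommGroup K] [InnerProductSpace ℝ K] [CompleteSpace K]

variable {W : Submodule ℝ (H × K)} {m : H → K} {R : ℕ} {κ μ D : ℝ} {p q s r : ℕ → H} {P Q S p1 q1 : ℕ → K}
  {g : ℕ → ℝ} {δ G σ : ℝ}

theorem HP.ipp (h : HP W m R κ μ D p q s r P Q S p1 q1) (n k : ℕ) : ⟪p n, p k⟫_ℝ = if k = n then 1 else 0 := by
  by_cases hk : k = n
  · rw [if_pos hk, hk, real_inner_self_eq_norm_sq, h.np]; norm_num
  · rw [if_neg hk]; exact h.pp _ _ (Ne.symm hk)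

theorem HP.iqp (h : HP W m R κ μ D p q s r P Q S p1 q1) (n k : ℕ) : ⟪q n, p k⟫_ℝ = 0 := by
  rw [real_inner_comm]; exact h.pq _ _

theorem HP.iqq (h : HP W m R κ μ D p q s r P Q S p1 q1) (n k : ℕ) :
    ⟪q n, q k⟫_ℝ = ‖q k‖ ^ 2 * if k = n then 1 else 0 := by
  by_cases hk : k = n
  · rw [if_pos hk, hk, real_inner_self_eq_norm_sq, mul_one]
  · rw [if_neg hk, mul_zero]; exact h.qq _ _ (Ne.symm hk)

theorem HP.co0 (h : HP W m R κ μ D p q s r P Q S p1 q1) (hg : GP R g δ G σ) (hκ : 0 ≤ κ) {x : H × K} (hx : x ∈ W) :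
    ⟪BB R g δ p q s P Q x.1 x.1, p1 0⟫_ℝ = -(g 0 * (δ * ⟪p 0, x.1⟫_ℝ + ⟪p 1, x.1⟫_ℝ) * ⟪p 1, x.1⟫_ℝ)
      + eP (g 0) 0 δ (R : ℝ)⁻¹ R 0 ⟪p 0, x.1⟫_ℝ ⟪p 1, x.1⟫_ℝ 0 ⟪q 0, x.1⟫_ℝ ⟪q 1, x.1⟫_ℝ 0
        ⟪s 0, x.1⟫_ℝ ⟪s 1, x.1⟫_ℝ := by
  have h1 := h.BB_form hg hκ hx hx (h.gp 0)
  unfold fn at h1
  simp only [h.ipp, h.iqp, mul_zero, zero_add] at h1
  generalize hp : (fun n => ⟪p n, x.1⟫_ℝ) = X
  generalize hq : (fun n => ⟪q n, x.1⟫_ℝ) = Y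
  generalize hs : (fun n => ⟪s n, x.1⟫_ℝ) = Z
  have ep : ∀ n, ⟪p n, x.1⟫_ℝ = X n := fun n => by rw [← hp]
  have eq : ∀ n, ⟪q n, x.1⟫_ℝ = Y n := fun n => by rw [← hq]
  have es : ∀ n, ⟪s n, x.1⟫_ℝ = Z n := fun n => by rw [← hs]
  simp only [ep, eq, es] at h1 ⊢
  have h2 := hasSum_z
    (A := fun n => -((R : ℝ)⁻¹ * g n * Y n * Y (n + 1)) + g n * Z (n + 1) * X n - δ * g n * Y n * Y n
      + δ * g n * Z n * X n)
    (B := fun n => g n * Y (n + 1) * Y (n + 1) - g n * Z (n + 1) * X (n + 1)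
      + δ * R * g n * Y (n + 1) * Y n - δ * g n * Z n * X (n + 1)) (h1.congr_fun fun n => by ring)
  rw [h2]
  unfold eP
  simp only [zero_add]
  ring

theorem HP.co1 (h : HP W m R κ μ D p q s r P Q S p1 q1) (hg : GP R g δ G σ) (hκ : 0 ≤ κ) {x : H × K} (hx : x ∈ W)
    (k : ℕ) :
    ⟪BB R g δ p q s P Q x.1 x.1, p1 (k + 1)⟫_ℝ = g k * (δ * ⟪p k, x.1⟫_ℝ + ⟪p (k + 1), x.1⟫_ℝ) * ⟪p k, x.1⟫_ℝ
      - g (k + 1) * (δ * ⟪p (k + 1), x.1⟫_ℝ + ⟪p (k + 2), x.1⟫_ℝ) * ⟪p (k + 2), x.1⟫_ℝ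
      + eP (g (k + 1)) (g k) δ (R : ℝ)⁻¹ R ⟪p k, x.1⟫_ℝ ⟪p (k + 1), x.1⟫_ℝ ⟪p (k + 2), x.1⟫_ℝ
        ⟪q k, x.1⟫_ℝ ⟪q (k + 1), x.1⟫_ℝ ⟪q (k + 2), x.1⟫_ℝ
        ⟪s k, x.1⟫_ℝ ⟪s (k + 1), x.1⟫_ℝ ⟪s (k + 2), x.1⟫_ℝ := by
  have h1 := h.BB_form hg hκ hx hx (h.gp (k + 1))
  unfold fn at h1
  simp only [h.ipp, h.iqp, mul_zero, zero_add] at h1
  generalize hp : (fun n => ⟪p n, x.1⟫_ℝ) = X
  generalize hq : (fun n => ⟪q n, x.1⟫_ℝ) = Y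
  generalize hs : (fun n => ⟪s n, x.1⟫_ℝ) = Z
  have ep : ∀ n, ⟪p n, x.1⟫_ℝ = X n := fun n => by rw [← hp]
  have eq : ∀ n, ⟪q n, x.1⟫_ℝ = Y n := fun n => by rw [← hq]
  have es : ∀ n, ⟪s n, x.1⟫_ℝ = Z n := fun n => by rw [← hs]
  simp only [ep, eq, es] at h1 ⊢
  have h2 := hasSum_s
    (A := fun n => -((R : ℝ)⁻¹ * g n * Y n * Y (n + 1)) + g n * Z (n + 1) * X n - δ * g n * Y n * Y n
      + δ * g n * Z n * X n)
    (B := fun n => g n * Y (n + 1) * Y (n + 1) - g n * Z (n + 1) * X (n + 1)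
      + δ * R * g n * Y (n + 1) * Y n - δ * g n * Z n * X (n + 1)) (h1.congr_fun fun n => by ring)
  rw [h2]
  have e2 : k + 1 + 1 = k + 2 := rfl
  rw [e2]
  unfold eP
  ring

theorem HP.cq (h : HP W m R κ μ D p q s r P Q S p1 q1) (hg : GP R g δ G σ) (hκ : 0 ≤ κ) {u : ℝ → H} {z : ℝ → K}
    {t : ℝ} (hx : (u t, z t) ∈ W) (k : ℕ) :
    ⟪BB R g δ p q s P Q (u t) (u t), q1 k⟫_ℝ
      = ‖q k‖ ^ 2 * qi g δ (R : ℝ)⁻¹ R (fun k t => ⟪p k, u t⟫_ℝ) (fun k t => ⟪q k, u t⟫_ℝ) k t := by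
  have h1 := h.BB_form hg hκ hx hx (h.gq k)
  unfold fn at h1
  simp only [h.iqq, h.pq, mul_zero, add_zero] at h1
  generalize hp : (fun n => ⟪p n, u t⟫_ℝ) = X
  generalize hq : (fun n => ⟪q n, u t⟫_ℝ) = Y
  have ep : ∀ n, ⟪p n, u t⟫_ℝ = X n := fun n => by rw [← hp]
  have eq : ∀ n, ⟪q n, u t⟫_ℝ = Y n := fun n => by rw [← hq]
  simp only [ep, eq] at h1
  cases k with
  | zero =>
    simp only [qi, ep, eq]
    have h2 := hasSum_z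
      (A := fun n => (R : ℝ)⁻¹ * g n * Y n * (X (n + 1) * ‖q 0‖ ^ 2) - g n * Y (n + 1) * (X n * ‖q 0‖ ^ 2))
      (B := fun n => δ * g n * Y n * (X (n + 1) * ‖q 0‖ ^ 2) - δ * R * g n * Y (n + 1) * (X n * ‖q 0‖ ^ 2))
      (h1.congr_fun fun n => by ring)
    rw [h2]
    simp only [zero_add]
    ring
  | succ k =>
    simp only [qi, ep, eq]
    have h2 := hasSum_s
      (A := fun n => (R : ℝ)⁻¹ * g n * Y n * (X (n + 1) * ‖q (k + 1)‖ ^ 2) - g n * Y (n + 1) * (X n * ‖q (k + 1)‖ ^ 2))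
      (B := fun n => δ * g n * Y n * (X (n + 1) * ‖q (k + 1)‖ ^ 2)
        - δ * R * g n * Y (n + 1) * (X n * ‖q (k + 1)‖ ^ 2))
      (h1.congr_fun fun n => by ring)
    rw [h2]
    have e2 : k + 1 + 1 = k + 2 := rfl
    rw [e2]
    ring

end Pool.Agent.N980.WX
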