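import Pool.Agent.N980.WX.Crl0
import Pool.Agent.N980.WX.Abs

/-!
The packets in the concrete frame.
-/

open MeasureTheory Set Filter Topology
open scoped InnerProductSpace ContDiff

set_option autoImplicit false
set_option linter.unusedVariables false

namespace Pool.Agent.N980.WX

open H772R2.NS (E3 M3 L2V L2M IsTest jac graphW tensL tensL_coe tens graphW_induction)
open Pool.Agent.N976.DI.D1 (cv cm cv_coe cm_coe memLp_cc test_mem int_Om test_out test_jac_out tri3 inner_tn_jac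
  tens_eq test_Sm)

/-- The antisymmetric matrix of a vector. -/
noncomputable def Am (a : E3) : M3 :=
  WithLp.toLp 2 fun p : Fin 3 × Fin 3 => (!![0, -a 2, a 1; a 2, 0, -a 0; -a 1, a 0, 0] : Matrix (Fin 3) (Fin 3) ℝ) p.1 p.2

theorem Am_jac (a : E3) (φ : E3 → E3) (x : E3) : ⟪Am a, jac φ x⟫_ℝ = ⟪a, crl φ x⟫_ℝ := by
  rw [H772R2.NS.inner_M3, H772R2.NS.inner_E3]
  simp only [Fin.sum_univ_three, Am, crl]
  simp
  ring

theorem Am_sq (a : E3) : ‖Am a‖ ^ 2 = 2 * ‖a‖ ^ 2 := by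
  rw [H772R2.NS.norm_sq_M3, H772R2.NS.norm_sq_E3]
  simp only [Fin.sum_univ_three, Am]
  simp
  ring

theorem Am_zero : Am 0 = 0 := by
  have h := Am_sq 0
  rw [norm_zero] at h
  have h2 : ‖Am 0‖ = 0 := by nlinarith [norm_nonneg (Am 0)]
  exact norm_eq_zero.1 h2

theorem Am_cont : Continuous Am := by
  unfold Am
  refine (PiLp.continuous_toLp 2 _).comp ?_
  refine continuous_pi fun p => ?_
  obtain ⟨i, j⟩ := p
  fin_cases i <;> fin_cases j <;> simp <;> fun_prop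

theorem Am_memLp {Ω : Set E3} {f : E3 → E3} (hf : Continuous f) (hc : HasCompactSupport f) :
    MemLp (fun x => Am (f x)) 2 (volume.restrict Ω) := by
  refine memLp_cc (Am_cont.comp hf) (hc.mono ?_)
  intro x hx h0
  apply hx
  show Am (f x) = 0
  rw [h0, Am_zero]

variable {Ω : Set E3}

/-- The norm of a class. -/
theorem nsq {F : Type} [NormedAddCommGroup F] [InnerProductSpace ℝ F] {f : E3 → F} {v : Lp F 2 (volume.restrict Ω)}
    (h : (v : E3 → F) =ᵐ[volume.restrict Ω] f) : ‖v‖ ^ 2 = ∫ x in Ω, ‖f x‖ ^ 2 := by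
  rw [← real_inner_self_eq_norm_sq, L2.inner_def]
  refine integral_congr_ae ?_
  filter_upwards [h] with x hx
  rw [hx, real_inner_self_eq_norm_sq]

theorem icv {F : Type} [NormedAddCommGroup F] [InnerProductSpace ℝ F] {f g : E3 → F} {v w : Lp F 2 (volume.restrict Ω)}
    (h : (v : E3 → F) =ᵐ[volume.restrict Ω] f) (h' : (w : E3 → F) =ᵐ[volume.restrict Ω] g) :
    ⟪v, w⟫_ℝ = ∫ x in Ω, ⟪f x, g x⟫_ℝ := by
  rw [L2.inner_def]
  refine integral_congr_ae ?_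
  filter_upwards [h, h'] with x hx hx'
  rw [hx, hx']

theorem tcv {φ : E3 → E3} (h : IsTest Ω φ) : (cv Ω φ : E3 → E3) =ᵐ[volume.restrict Ω] φ :=
  cv_coe ((h.memLp 2).restrict Ω)

theorem tcm {φ : E3 → E3} (h : IsTest Ω φ) : (cm Ω (jac φ) : E3 → M3) =ᵐ[volume.restrict Ω] jac φ :=
  cm_coe ((h.jac_memLp 2).restrict Ω)

theorem nsq_test {φ : E3 → E3} (h : IsTest Ω φ) : ‖cv Ω φ‖ ^ 2 = ∫ x, ‖φ x‖ ^ 2 := by
  rw [nsq (tcv h), int_Om]
  intro x hx
  rw [test_out h hx]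
  simp

theorem inn_test {φ ψ : E3 → E3} (h : IsTest Ω φ) (h' : IsTest Ω ψ) : ⟪cv Ω φ, cv Ω ψ⟫_ℝ = ∫ x, ⟪φ x, ψ x⟫_ℝ := by
  rw [icv (tcv h) (tcv h'), int_Om]
  intro x hx
  rw [test_out h hx, inner_zero_left]

theorem sub_test {φ ψ : E3 → E3} (h : IsTest Ω φ) (h' : IsTest Ω ψ) : ‖cv Ω φ - cv Ω ψ‖ ^ 2 = ∫ x, ‖φ x - ψ x‖ ^ 2 := by
  have e : ((cv Ω φ - cv Ω ψ : L2V Ω) : E3 → E3) =ᵐ[volume.restrict Ω] fun x => φ x - ψ x := by
    filter_upwards [Lp.coeFn_sub (cv Ω φ) (cv Ω ψ), tcv h, tcv h'] with x a b c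
    rw [a, Pi.sub_apply, b, c]
  rw [nsq e, int_Om]
  intro x hx
  rw [test_out h hx, test_out h' hx]
  simp

/-- The representers. -/
theorem rep (hsym : S_sym) {f F : E3 → E3} (hf : ContDiff ℝ ∞ f) (hc : HasCompactSupport f) (hF : IsTest Ω F) {c : ℝ}
    (hc0 : c ≠ 0) (h : ∀ x, crl f x = c • F x) {x : L2V Ω × L2M Ω} (hx : x ∈ graphW Ω) :
    ⟪c⁻¹ • cm Ω (fun x => Am (f x)), x.2⟫_ℝ = ⟪cv Ω F, x.1⟫_ℝ := by
  have key := graphW_induction (fun q : L2V Ω × L2M Ω => ⟪c⁻¹ • cm Ω (fun x => Am (f x)), q.2⟫_ℝ - ⟪cv Ω F, q.1⟫_ℝ)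
    (by fun_prop) ?_ hx
  · exact sub_eq_zero.1 key
  rintro q ⟨φ, h1, h2, h3⟩
  have e1 : ⟪cm Ω (fun x => Am (f x)), q.2⟫_ℝ = c * ∫ x, ⟪F x, φ x⟫_ℝ := by
    rw [icv (cm_coe (Am_memLp hf.continuous hc)) h3]
    simp only [Am_jac]
    rw [int_Om]
    · rw [← hsym f φ hf hc h1.smooth]
      simp only [h, real_inner_smul_left]
      exact integral_const_mul _ _
    · intro x hx
      have e : crl φ x = 0 := by
        unfold crl
        rw [test_jac_out h1 hx]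
        ext i
        fin_cases i <;> simp
      rw [e, inner_zero_right]
  have e2 : ⟪cv Ω F, q.1⟫_ℝ = ∫ x, ⟪F x, φ x⟫_ℝ := by
    rw [icv (tcv hF) h2, int_Om]
    intro x hx
    rw [test_out hF hx, inner_zero_left]
  show ⟪c⁻¹ • cm Ω (fun x => Am (f x)), q.2⟫_ℝ - ⟪cv Ω F, q.1⟫_ℝ = 0
  rw [real_inner_smul_left, e1, e2]
  field_simp
  ring

theorem Am_norm {f : E3 → E3} (hf : Continuous f) (hc : HasCompactSupport f) :
    ‖cm Ω (fun x => Am (f x))‖ ^ 2 ≤ 2 * ∫ x, ‖f x‖ ^ 2 := by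
  rw [nsq (cm_coe (Am_memLp hf hc))]
  simp only [Am_sq]
  rw [integral_const_mul]
  refine mul_le_mul_of_nonneg_left ?_ (by norm_num)
  refine setIntegral_le_integral ?_ (ae_of_all _ fun x => by positivity)
  refine Continuous.integrable_of_hasCompactSupport (by fun_prop) (hc.mono ?_)
  intro x hx h0
  apply hx
  show ‖f x‖ ^ 2 = 0
  rw [h0]
  simp

theorem crl_smul {f : E3 → E3} (hf : Differentiable ℝ f) (c : ℝ) (x : E3) : crl (fun y => c • f y) x = c • crl f x := by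
  have e : ∀ p : Fin 3 × Fin 3, jac (fun y => c • f y) x p = c * jac f x p := by
    intro p
    rw [H772R2.NS.jac_apply, H772R2.NS.jac_apply, fderiv_fun_const_smul (hf x)]
    rfl
  unfold crl
  simp only [e]
  ext i
  fin_cases i <;> simp <;> ring

/-- The gradient of a packet tested against a gradient. -/
theorem repJ (hcc : S_cc) {F G J : E3 → E3} (hF : IsTest Ω F) (hG : IsTest Ω G) (hJ : IsTest Ω J) {c : ℝ}
    (h : ∀ x, crl F x = c • G x) (h' : ∀ x, crl G x = c • J x) {x : L2V Ω × L2M Ω} (hx : x ∈ graphW Ω) :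
    ⟪cm Ω (jac F), x.2⟫_ℝ = c ^ 2 * ⟪cv Ω J, x.1⟫_ℝ := by
  have h1 := tri3 hF hx
  have e : Pool.Agent.N976.SC.lap F = fun x => (-(c ^ 2)) • J x := by
    funext x
    have h2 := hcc Ω F hF x
    have e1 : crl F = fun y => c • G y := funext h
    rw [e1, crl_smul (hG.smooth.differentiable (by simp)), h' x] at h2
    rw [← neg_eq_iff_eq_neg.2 h2, smul_smul, neg_smul, sq]
  have e2 : ⟪cv Ω (Pool.Agent.N976.SC.lap F), x.1⟫_ℝ = -(c ^ 2) * ⟪cv Ω J, x.1⟫_ℝ := by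
    have hm0 : MemLp ((-(c ^ 2)) • J) 2 (volume.restrict Ω) := ((hJ.memLp 2).restrict Ω).const_smul _
    have hm : MemLp (fun x => (-(c ^ 2)) • J x) 2 (volume.restrict Ω) := hm0
    have e3 : cv Ω (Pool.Agent.N976.SC.lap F) = (-(c ^ 2)) • cv Ω J := by
      rw [e]
      apply Lp.ext
      filter_upwards [cv_coe hm, Lp.coeFn_smul (-(c ^ 2)) (cv Ω J), tcv hJ] with x a b d
      rw [a, b, Pi.smul_apply, d]
    rw [e3, real_inner_smul_left]
  rw [e2] at h1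
  linarith

/-- The convection term against a packet. -/
theorem conv_le (hΩ : MeasurableSet Ω) {F : E3 → E3} (hF : IsTest Ω F) {B : ℝ} (hB : ∀ x, ‖fderiv ℝ F x‖ ≤ B)
    {x : L2V Ω × L2M Ω} (hx : x ∈ graphW Ω) : |⟪tensL x.1, cm Ω (jac F)⟫_ℝ| ≤ B * ‖x.1‖ ^ 2 := by
  have e1 : ⟪tensL x.1, cm Ω (jac F)⟫_ℝ = ∫ y in Ω, ⟪x.1 y, fderiv ℝ F y (x.1 y)⟫_ℝ := by
    rw [icv (tensL_coe hΩ hx) (tcm hF)]
    refine integral_congr_ae (ae_of_all _ fun y => ?_)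
    simp only
    rw [tens_eq, inner_tn_jac]
  have e2 : ‖x.1‖ ^ 2 = ∫ y in Ω, ‖x.1 y‖ ^ 2 := nsq (Filter.EventuallyEq.rfl)
  have hi : Integrable (fun y => ‖x.1 y‖ ^ 2) (volume.restrict Ω) :=
    (memLp_two_iff_integrable_sq_norm (Lp.aestronglyMeasurable x.1)).1 (Lp.memLp x.1)
  rw [e1, e2, ← integral_const_mul, ← Real.norm_eq_abs]
  refine norm_integral_le_of_norm_le (hi.const_mul B) (ae_of_all _ fun y => ?_)
  refine (norm_inner_le_norm _ _).trans ?_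
  have := (fderiv ℝ F y).le_opNorm (x.1 y)
  have h2 := hB y
  calc ‖x.1 y‖ * ‖fderiv ℝ F y (x.1 y)‖ ≤ ‖x.1 y‖ * (‖fderiv ℝ F y‖ * ‖x.1 y‖) := by gcongr
    _ ≤ ‖x.1 y‖ * (B * ‖x.1 y‖) := by gcongr
    _ = B * ‖x.1 y‖ ^ 2 := by ring

variable {R : ℕ} {κ μ C : ℝ} {Φ p q s r : ℕ → E3 → E3}

/-- The representer of the pairing with `curl f / c`. -/
noncomputable def rp (Ω : Set E3) (c : ℝ) (f : E3 → E3) : L2M Ω := c⁻¹ • cm Ω (fun x => Am (f x))

theorem Pck.hp (hsym : S_sym) (hcc : S_cc) (hΩ : IsOpen Ω) (hR : 1 ≤ R) (hκ : 0 ≤ κ) (h : Pck Ω R κ μ C Φ p q s r) :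
    HP (graphW Ω) (tensL (Ω := Ω)) R κ μ (4 * (C + 1)) (fun n => cv Ω (p n)) (fun n => cv Ω (q n))
      (fun n => cv Ω (s n)) (fun n => cv Ω (r n)) (fun n => rp Ω (μ * (R : ℝ) ^ n) (Φ n))
      (fun n => rp Ω (μ * (R : ℝ) ^ n) (p n)) (fun n => rp Ω (μ * (R : ℝ) ^ n) (q n))
      (fun n => cm Ω (jac (p n))) (fun n => cm Ω (jac (q n))) := by
  have hC := h.C0
  have hμ := h.μ1
  have hR' : (1 : ℝ) ≤ R := by exact_mod_cast hR
  have hR0 : (0 : ℝ) < R := by linarith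
  have hRn : ∀ n : ℕ, 0 < (R : ℝ) ^ n := fun n => pow_pos hR0 n
  have hc : ∀ n : ℕ, μ * (R : ℝ) ^ n ≠ 0 := fun n => by have := hRn n; positivity
  have hcp : ∀ n : ℕ, 0 < μ * (R : ℝ) ^ n := fun n => by have := hRn n; positivity
  have key : ∀ (n : ℕ) (f : E3 → E3) (M : ℝ), Continuous f → HasCompactSupport f → 0 ≤ M → ∫ x, ‖f x‖ ^ 2 ≤ M ^ 2 →
      2 * M ≤ 4 * (C + 1) → ‖rp Ω (μ * (R : ℝ) ^ n) f‖ ≤ 4 * (C + 1) / (R : ℝ) ^ n := by
    intro n f M hf hcs hM hfM hMC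
    have h1 := Am_norm (Ω := Ω) hf hcs
    have h2 : ‖cm Ω (fun x => Am (f x))‖ ≤ 2 * M := by
      refine abs_le_of_sq_le_sq' ?_ (by positivity) |>.2
      nlinarith
    unfold rp
    rw [norm_smul, Real.norm_eq_abs, abs_inv, abs_of_pos (hcp n), inv_mul_eq_div, div_le_div_iff₀ (hcp n) (hRn n)]
    calc ‖cm Ω (fun x => Am (f x))‖ * (R : ℝ) ^ n ≤ 4 * (C + 1) * (R : ℝ) ^ n := by
          have := hRn n
          gcongr
          linarith
      _ ≤ 4 * (C + 1) * (μ * (R : ℝ) ^ n) := by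
          have : (R : ℝ) ^ n ≤ μ * (R : ℝ) ^ n := le_mul_of_one_le_left (hRn n).le hμ
          gcongr
  have hnp : ∀ n, ‖cv Ω (p n)‖ = 1 := fun n => by
    have h1 := nsq_test (h.tp n)
    rw [h.np] at h1
    have h2 := norm_nonneg (cv Ω (p n))
    nlinarith
  have hqs : ∀ n, ∫ x, ‖q n x‖ ^ 2 = ∫ x, ⟪s n x, p n x⟫_ℝ := by
    intro n
    have h1 := hsym (p n) (q n) (h.tp n).smooth (h.tp n).compact (h.tq n).smooth
    simp only [h.cp, h.cq, real_inner_smul_left, real_inner_smul_right] at h1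
    rw [integral_const_mul, integral_const_mul] at h1
    have h2 := mul_left_cancel₀ (hc n) h1
    simp only [real_inner_self_eq_norm_sq] at h2
    rw [h2]
    exact integral_congr_ae (ae_of_all _ fun x => real_inner_comm _ _)
  have hsp : ∀ n, ‖cv Ω (s n) - cv Ω (p n)‖ ≤ 1 / 2 / ((R : ℝ) ^ κ) ^ n := by
    intro n
    have h1 := sub_test (h.ts n) (h.tp n)
    have h2 := h.sp n
    rw [← h1] at h2
    exact (abs_le_of_sq_le_sq' h2 (by positivity)).2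
  have hkn : ∀ n : ℕ, (1 : ℝ) ≤ ((R : ℝ) ^ κ) ^ n := fun n => one_le_pow₀ (Real.one_le_rpow hR' hκ)
  have hqn : ∀ n, ∫ x, ‖q n x‖ ^ 2 ≤ 2 ^ 2 := by
    intro n
    rw [hqs, ← inn_test (h.ts n) (h.tp n)]
    refine (real_inner_le_norm _ _).trans ?_
    rw [hnp, mul_one]
    have h1 : ‖cv Ω (s n)‖ ≤ ‖cv Ω (s n) - cv Ω (p n)‖ + ‖cv Ω (p n)‖ := by
      have := norm_add_le (cv Ω (s n) - cv Ω (p n)) (cv Ω (p n))
      rwa [sub_add_cancel] at this
    have h2 : 1 / 2 / ((R : ℝ) ^ κ) ^ n ≤ 1 / 2 := div_le_self (by norm_num) (hkn n)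
    have h3 := hsp n
    rw [hnp] at h1
    linarith
  refine ⟨by linarith, hμ, ?_, ?_, ?_, ?_, ?_, ?_, hnp, ?_, ?_, ?_, ?_, ?_, ?_, ?_, ?_, hsp, ?_, ?_, ?_⟩
  · intro n x hx
    exact rep hsym (h.tΦ n).1 (h.tΦ n).2.1 (h.tp n) (hc n) (h.cΦ n) hx
  · intro n x hx
    exact rep hsym (h.tp n).smooth (h.tp n).compact (h.tq n) (hc n) (h.cp n) hx
  · intro n x hx
    exact rep hsym (h.tq n).smooth (h.tq n).compact (h.ts n) (hc n) (h.cq n) hx
  · intro n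
    exact key n (Φ n) C (h.tΦ n).1.continuous (h.tΦ n).2.1 hC (h.nΦ n) (by linarith)
  · intro n
    exact key n (p n) 1 (h.tp n).smooth.continuous (h.tp n).compact zero_le_one (by rw [h.np]; norm_num) (by linarith)
  · intro n
    exact key n (q n) 2 (h.tq n).smooth.continuous (h.tq n).compact zero_le_two (hqn n) (by linarith)
  · intro m n hmn
    show ⟪cv Ω (p m), cv Ω (p n)⟫_ℝ = 0
    rw [inn_test (h.tp m) (h.tp n)]
    refine integral_eq_zero_of_ae (ae_of_all _ fun x => ?_)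
    rcases h.disj m n hmn x with h1 | h1
    · show ⟪p m x, p n x⟫_ℝ = 0
      rw [h1.1, inner_zero_left]
    · show ⟪p m x, p n x⟫_ℝ = 0
      rw [h1.1, inner_zero_right]
  · intro m n
    show ⟪cv Ω (p m), cv Ω (q n)⟫_ℝ = 0
    rw [inn_test (h.tp m) (h.tq n)]
    by_cases hmn : m = n
    · rw [hmn]; exact h.hel n
    refine integral_eq_zero_of_ae (ae_of_all _ fun x => ?_)
    rcases h.disj m n hmn x with h1 | h1
    · show ⟪p m x, q n x⟫_ℝ = 0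
      rw [h1.1, inner_zero_left]
    · show ⟪p m x, q n x⟫_ℝ = 0
      rw [h1.2, inner_zero_right]
  · intro m n hmn
    show ⟪cv Ω (q m), cv Ω (q n)⟫_ℝ = 0
    rw [inn_test (h.tq m) (h.tq n)]
    refine integral_eq_zero_of_ae (ae_of_all _ fun x => ?_)
    rcases h.disj m n hmn x with h1 | h1
    · show ⟪q m x, q n x⟫_ℝ = 0
      rw [h1.2, inner_zero_left]
    · show ⟪q m x, q n x⟫_ℝ = 0
      rw [h1.2, inner_zero_right]
  · intro n
    show ‖cv Ω (q n)‖ ^ 2 = ⟪cv Ω (s n), cv Ω (p n)⟫_ℝ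
    rw [nsq_test (h.tq n), inn_test (h.ts n) (h.tp n)]
    exact hqs n
  · intro n
    exact test_mem (h.tp n)
  · intro n
    exact test_mem (h.tq n)
  · intro n x hx
    exact repJ hcc (h.tp n) (h.tq n) (h.ts n) (h.cp n) (h.cq n) hx
  · intro n x hx
    exact repJ hcc (h.tq n) (h.ts n) (h.tr n) (h.cq n) (h.cs n) hx
  · intro n
    have h1 := sub_test (h.tr n) (h.tq n)
    have h2 := h.rq n
    rw [← h1] at h2
    have h3 : ‖cv Ω (r n) - cv Ω (q n)‖ ≤ C / ((R : ℝ) ^ κ) ^ n :=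
      (abs_le_of_sq_le_sq' h2 (by have := hkn n; positivity)).2
    refine h3.trans ?_
    have := hkn n
    gcongr
    linarith
  · intro n x hx
    refine (conv_le hΩ.measurableSet (h.tp n) (h.dp n) hx).trans ?_
    have h1 : 0 ≤ (R : ℝ) ^ n * ((R : ℝ) ^ (1 - κ)) ^ n := by positivity
    gcongr
    linarith
  · intro n x hx
    refine (conv_le hΩ.measurableSet (h.tq n) (h.dq n) hx).trans ?_
    have h1 : 0 ≤ (R : ℝ) ^ n * ((R : ℝ) ^ (1 - κ)) ^ n := by positivity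
    gcongr
    linarith

end Pool.Agent.N980.WX
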