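import Pool.Agent.N980.WX.Pck
import Pool.Agent.N976.DI.D1

/-!
The curl: statements.
-/

open MeasureTheory Set Filter Topology
open scoped InnerProductSpace ContDiff

set_option autoImplicit false

namespace Pool.Agent.N980.WX

open H772R2.NS (E3 M3 IsTest jac)

/-- (CR1) The curl is symmetric. -/
def S_sym : Prop := ∀ φ ψ : E3 → E3, ContDiff ℝ ∞ φ → HasCompactSupport φ → ContDiff ℝ ∞ ψ →
  ∫ x, ⟪crl φ x, ψ x⟫_ℝ = ∫ x, ⟪φ x, crl ψ x⟫_ℝ

/-- (CR2) The double curl of divergence free fields. -/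
def S_cc : Prop := ∀ (Ω : Set E3) (φ : E3 → E3), IsTest Ω φ →
  ∀ x, crl (crl φ) x = -Pool.Agent.N976.SC.lap φ x

end Pool.Agent.N980.WX
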