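import Pool.Agent.N980.WX.Brd
import Pool.Agent.H772R2.NSR.Conc
import Pool.Agent.H772R2.NSR.Rell
import Pool.Agent.W52.TQ.Loc
import Pool.Agent.W503.TQ.Uni

/-!
Strong solutions in the sense of the definitions and in the abstract frame.
-/

open MeasureTheory Set Filter Topology
open scoped InnerProductSpace ContDiff

set_option autoImplicit false
set_option linter.unusedVariables false

namespace Pool.Agent.N980.WX

open H772R2.NS (E3 M3 L2V L2M IsTest jac graphW tensL tensL_coe tens graphW_induction H1graph mem_graphW)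
open Pool.Agent.N976.DI.D1 (cv cm cv_coe cm_coe memLp_cc test_mem int_Om test_out test_jac_out tri3 inner_tn_jac
  tens_eq test_Sm)
open Pool.Agent.N980.CB (gG zz zz16)
open Pool.Agent.N980.WQ (PD)
open H772R2.NSR (Frame)
open Pool.Agent.W795.TQ (Str)

/-- The setting. -/
structure Ctx (B Ω : Set E3) (R : ℕ) (ε μ C G : ℝ) (Φ p q s r : ℕ → E3 → E3) : Prop where
  sym : S_sym
  cc : S_cc
  hΩ : IsOpen Ω
  hb : Bornology.IsBounded Ω
  hBΩ : B ⊆ Ω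
  ε0 : 0 < ε
  ε1 : ε ≤ 4 / 5
  pd : PD R (2 + ε / 4) (3 * ε / 4)
  G0 : G ≠ 0
  pck : Pck B R (3 * ε / 4) μ C Φ p q s r

section

variable (Ω : Set E3) (R : ℕ) (ε μ G : ℝ) (Φ p q s : ℕ → E3 → E3)

/-- The sign. -/
noncomputable def sgn (G : ℝ) : ℝ := G / |G|

/-- The additional bilinear term. -/
noncomputable def BF (u v : L2V Ω) : L2M Ω :=
  BB R (gG (Gc R μ G) ((R : ℝ) ^ (2 + ε / 4))) (zz ((R : ℝ) ^ (2 + ε / 4)) ^ 16) (fun n => cv Ω (p n))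
    (fun n => cv Ω (q n)) (fun n => cv Ω (s n)) (fun n => rp Ω (μ * (R : ℝ) ^ n) (Φ n))
    (fun n => rp Ω (μ * (R : ℝ) ^ n) (p n)) u v

/-- The modified nonlinearity. -/
noncomputable def MF (v : L2V Ω) : L2M Ω :=
  MM (tensL (Ω := Ω)) R (gG (Gc R μ G) ((R : ℝ) ^ (2 + ε / 4))) (zz ((R : ℝ) ^ (2 + ε / 4)) ^ 16) (fun n => cv Ω (p n))
    (fun n => cv Ω (q n)) (fun n => cv Ω (s n)) (fun n => rp Ω (μ * (R : ℝ) ^ n) (Φ n))
    (fun n => rp Ω (μ * (R : ℝ) ^ n) (p n)) (sgn G) v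

end

variable {B Ω : Set E3} {R : ℕ} {ε μ C G : ℝ} {Φ p q s r : ℕ → E3 → E3}

theorem sgn_mul (G : ℝ) (hG : G ≠ 0) : sgn G * |G| = G := by
  unfold sgn
  exact div_mul_cancel₀ _ (abs_ne_zero.2 hG)

theorem sgn_abs1 (G : ℝ) (hG : G ≠ 0) : |sgn G| = 1 := by
  unfold sgn
  rw [abs_div, abs_abs, div_self (abs_ne_zero.2 hG)]

theorem Ctx.R1 (c : Ctx B Ω R ε μ C G Φ p q s r) : 1 ≤ R := by
  have := c.pd.pc.R4
  omega

theorem Ctx.hp (c : Ctx B Ω R ε μ C G Φ p q s r) :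
    HP (graphW Ω) (tensL (Ω := Ω)) R (3 * ε / 4) μ (4 * (C + 1)) (fun n => cv Ω (p n)) (fun n => cv Ω (q n))
      (fun n => cv Ω (s n)) (fun n => cv Ω (r n)) (fun n => rp Ω (μ * (R : ℝ) ^ n) (Φ n))
      (fun n => rp Ω (μ * (R : ℝ) ^ n) (p n)) (fun n => rp Ω (μ * (R : ℝ) ^ n) (q n))
      (fun n => cm Ω (jac (p n))) (fun n => cm Ω (jac (q n))) :=
  (c.pck.up c.hBΩ).hp c.sym c.cc c.hΩ c.R1 c.pd.pc.k0.le

theorem Ctx.Gc0 (c : Ctx B Ω R ε μ C G Φ p q s r) : 0 < Gc R μ G := by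
  unfold Gc
  have h1 := c.pck.μ1
  have h2 := c.pd.pc.R0
  have h3 := abs_pos.2 c.G0
  positivity

theorem Ctx.gp (c : Ctx B Ω R ε μ C G Φ p q s r) : GP R (gG (Gc R μ G) ((R : ℝ) ^ (2 + ε / 4)))
    (zz ((R : ℝ) ^ (2 + ε / 4)) ^ 16) (Gc R μ G) (2 + ε / 4) := by
  have hpar := c.pd.pc.par
  have hG := c.Gc0
  have hR0 := c.pd.pc.R0
  refine ⟨by have := c.pd.pc.R4; omega, fun n => ?_, fun n => le_rfl, (pow_pos hpar.hz 16).le,
    pow_le_one₀ hpar.hz.le hpar.z1, by linarith [c.ε1]⟩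
  unfold gG; positivity

theorem Ctx.frame (c : Ctx B Ω R ε μ C G Φ p q s r) : ∃ C', Frame (graphW Ω) (MF Ω R ε μ G Φ p q s) C' := by
  obtain ⟨C0, Fr⟩ := H772R2.NSR.exists_frame c.hΩ c.hb
  exact c.hp.frame Fr c.gp c.pd.pc.k0.le (sgn G)

/-- The form of the definitions is that of the frame. -/
theorem Ctx.form (c : Ctx B Ω R ε μ C G Φ p q s r) {v : L2V Ω} {z : L2M Ω} (hx : (v, z) ∈ graphW Ω) {φ : E3 → E3}
    (hφ : IsTest Ω φ) : G * A B ε R p q (fun x => rot (z x)) v φ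
      = sgn G * ⟪BF Ω R ε μ G Φ p q s v v, cm Ω (jac φ)⟫_ℝ := by
  have h1 := c.hp.BB_form c.gp c.pd.pc.k0.le hx hx (test_mem hφ)
  unfold A BF
  rw [← h1.tsum_eq, ← tsum_mul_left, ← tsum_mul_left]
  exact tsum_congr fun n => trm_fn c.sym c.hBΩ c.R1 c.pck (sgn_mul G c.G0) hx hφ n

/-- The series converges. -/
theorem Ctx.summ (c : Ctx B Ω R ε μ C G Φ p q s r) {v : L2V Ω} {z : L2M Ω} (hx : (v, z) ∈ graphW Ω) {φ : E3 → E3}
    (hφ : IsTest Ω φ) : Summable (trm B ε R p q (fun x => rot (z x)) v φ) := by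
  have h1 := (c.hp.BB_form c.gp c.pd.pc.k0.le hx hx (test_mem hφ)).summable.mul_left (sgn G)
  have h2 : Summable fun n => G * trm B ε R p q (fun x => rot (z x)) v φ n :=
    h1.congr fun n => (trm_fn c.sym c.hBΩ c.R1 c.pck (sgn_mul G c.G0) hx hφ n).symm
  exact (summable_mul_left_iff c.G0).1 h2

/-- The right-hand side. -/
theorem Ctx.rhs (c : Ctx B Ω R ε μ C G Φ p q s r) (ν : ℝ) {v : L2V Ω} {z : L2M Ω} (hx : (v, z) ∈ graphW Ω)
    {φ : E3 → E3} (hφ : IsTest Ω φ) : rhsF ν (fun w v z => G * A B ε R p q w v z) v z φ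
      = ⟪MF Ω R ε μ G Φ p q s v - ν • z, cm Ω (jac φ)⟫_ℝ := by
  have e1 : ⟪tensL v, cm Ω (jac φ)⟫_ℝ = ∫ y in Ω, ⟪v y, fderiv ℝ φ y (v y)⟫_ℝ := by
    rw [icv (tensL_coe c.hΩ.measurableSet hx) (tcm hφ)]
    refine integral_congr_ae (ae_of_all _ fun y => ?_)
    simp only
    rw [tens_eq, inner_tn_jac]
  have e2 : ⟪z, cm Ω (jac φ)⟫_ℝ = ∫ y in Ω, ⟪z y, jac φ y⟫_ℝ := icv Filter.EventuallyEq.rfl (tcm hφ)
  have e3 := c.form hx hφ
  unfold rhsF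
  simp only
  rw [e3, ← e1, ← e2]
  unfold MF MM BF
  rw [inner_sub_left, inner_add_left, real_inner_smul_left, real_inner_smul_left]
  ring

end Pool.Agent.N980.WX
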