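import Pool.Agent.N980.WX.Eqv

/-!
Strong solutions: energy equality, uniqueness, local existence, blow-up.
-/

open MeasureTheory Set Filter Topology
open scoped InnerProductSpace ContDiff

set_option autoImplicit false
set_option linter.unusedVariables false

namespace Pool.Agent.N980.WX

open H772R2.NS (E3 M3 L2V L2M IsTest jac graphW tensL tensL_coe tens graphW_induction H1graph mem_graphW)
open Pool.Agent.N976.DI.D1 (cv cm cv_coe cm_coe memLp_cc test_mem int_Om test_out test_jac_out tri3 inner_tn_jac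
  tens_eq test_Sm)
open Pool.Agent.N980.CB (gG zz zz16)
open Pool.Agent.N980.WQ (PD)
open H772R2.NSR (Frame)
open Pool.Agent.W795.TQ (Str)
open Pool.Agent.N976.DI (H1T)

section abs

variable {H K : Type} [NormedAddCommGroup H] [InnerProductSpace ℝ H] [CompleteSpace H]
  [NormedAddCommGroup K] [InnerProductSpace ℝ K] [CompleteSpace K]
  {W : Submodule ℝ (H × K)} {M : H → K} {C ν T : ℝ} {u u' : ℝ → H} {z z' : ℝ → K}

theorem mc_of (Fr : Frame W M C) (hm : ∀ t ∈ Icc 0 T, (u t, z t) ∈ W) (uc : ContinuousOn u (Icc 0 T))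
    (zc : ContinuousOn z (Icc 0 T)) : ContinuousOn (fun t => M (u t)) (Icc 0 T) := by
  intro t ht
  obtain ⟨B, hB⟩ := isCompact_Icc.exists_bound_of_continuousOn zc
  refine H772R2.NSR.m_tendsto Fr (s1 := B) (hB t ht) (hm t ht) (z := z) ?_ ?_ (uc t ht)
  · filter_upwards [self_mem_nhdsWithin] with s hs' using hB s hs'
  · filter_upwards [self_mem_nhdsWithin] with s hs' using hm s hs'

/-- The energy equality in the form of `Str`. -/
theorem HSol.str (h : HSol W M ν T u z) (Fr : Frame W M C) (mem1 : ∀ᵐ s ∂(volume.restrict (Ioc 0 T)), (u' s, z' s) ∈ W)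
    (bd : ∃ c, ∀ᵐ s ∂(volume.restrict (Ioc 0 T)), ‖u' s‖ ≤ c)
    (u1m : MemLp u' 2 (volume.restrict (Ioc 0 T))) (z1m : MemLp z' 2 (volume.restrict (Ioc 0 T)))
    (pu : ∀ a b, 0 ≤ a → a ≤ b → b ≤ T → u b - u a = ∫ s in a..b, u' s)
    (pz : ∀ a b, 0 ≤ a → a ≤ b → b ≤ T → z b - z a = ∫ s in a..b, z' s) :
    Str W M ν T (fun _ => 0) u u' z z' := by
  refine ⟨h.mem, mem1, bd, u1m, z1m, pu, pz, fun p hp t ht => ?_, fun t ht => ?_⟩
  · rw [h.weak p hp t ht]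
    refine intervalIntegral.integral_congr fun s _ => ?_
    show ⟪M (u s) - ν • z s, p.2⟫_ℝ = ⟪(0 : K) - ν • z s + M (u s), p.2⟫_ℝ
    congr 1
    abel
  · have h1 := h.energy Fr ht
    simp only [inner_zero_left, intervalIntegral.integral_zero]
    linarith

theorem HSol.lh (h : HSol W M ν T u z) (Fr : Frame W M C) (hT : 0 < T) :
    H772R2.NSG.LH W M T (fun _ => ν) (fun _ => 0) (u 0) u z := by
  have hmem : ∀ {f : ℝ → H}, ContinuousOn f (Icc 0 T) → AEStronglyMeasurable f (volume.restrict (Ioc 0 T)) :=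
    fun hf => (hf.mono Ioc_subset_Icc_self).aestronglyMeasurable measurableSet_Ioc
  have hmem' : ∀ {f : ℝ → K}, ContinuousOn f (Icc 0 T) → AEStronglyMeasurable f (volume.restrict (Ioc 0 T)) :=
    fun hf => (hf.mono Ioc_subset_Icc_self).aestronglyMeasurable measurableSet_Ioc
  have hz2 : MemLp z 2 (volume.restrict (Ioc 0 T)) := by
    obtain ⟨B, hB⟩ := isCompact_Icc.exists_bound_of_continuousOn h.zc
    refine MemLp.of_bound (hmem' h.zc) B ?_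
    filter_upwards [ae_restrict_mem measurableSet_Ioc] with s hs
    exact hB s ⟨hs.1.le, hs.2⟩
  refine ⟨rfl, hmem h.uc, hmem' (h.mc Fr), ?_, hz2, ?_, ?_, ?_⟩
  · filter_upwards [ae_restrict_mem measurableSet_Ioc] with s hs
    exact h.mem s ⟨hs.1.le, hs.2⟩
  · exact ((memLp_two_iff_integrable_sq_norm hz2.aestronglyMeasurable).1 hz2).const_mul ν
  · intro p hp t ht
    rw [h.weak p hp t ht]
    refine intervalIntegral.integral_congr fun s _ => ?_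
    show ⟪M (u s) - ν • z s, p.2⟫_ℝ = ⟪(0 : K) - ν • z s + M (u s), p.2⟫_ℝ
    congr 1
    abel
  · intro t ht
    have h1 := h.energy Fr ht
    simp only [inner_zero_left, intervalIntegral.integral_zero, intervalIntegral.integral_const_mul]
    linarith

end abs

variable {B Ω : Set E3} {R : ℕ} {ε μ C G : ℝ} {Φ p q s r : ℕ → E3 → E3} {ν T : ℝ}

/-- The additional term of the equation. -/
noncomputable def FA (B : Set E3) (ε : ℝ) (R : ℕ) (G : ℝ) (p q : ℕ → E3 → E3) (w v z : E3 → E3) : ℝ :=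
  G * A B ε R p q w v z

theorem pair_v (v : L2V Ω) {φ : E3 → E3} (hφ : IsTest Ω φ) : ∫ x in Ω, ⟪v x, φ x⟫_ℝ = ⟪v, cv Ω φ⟫_ℝ :=
  (icv Filter.EventuallyEq.rfl (tcv hφ)).symm

theorem cls_eq {q : L2V Ω × L2M Ω} {φ : E3 → E3} (h1 : IsTest Ω φ) (h2 : q.1 =ᵐ[volume.restrict Ω] φ)
    (h3 : q.2 =ᵐ[volume.restrict Ω] jac φ) : q.1 = cv Ω φ ∧ q.2 = cm Ω (jac φ) :=
  ⟨Lp.ext (h2.trans (tcv h1).symm), Lp.ext (h3.trans (tcm h1).symm)⟩

theorem Ctx.hsol (c : Ctx B Ω R ε μ C G Φ p q s r) (hT : 0 ≤ T) {u u' : ℝ → L2V Ω} {z z' : ℝ → L2M Ω}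
    (h : Strong Ω ν (FA B ε R G p q) T u u' z z') : HSol (graphW Ω) (MF Ω R ε μ G Φ p q s) ν T u z := by
  obtain ⟨C', Fr⟩ := c.frame
  have hm : ∀ t ∈ Icc 0 T, (u t, z t) ∈ graphW Ω := fun t ht => mem_graphW.2 (h.grad t ht)
  have uc := Pool.Agent.N976.DI.D1.H1T.cont hT ⟨h.mem_u, h.prim_u⟩
  have zc := Pool.Agent.N976.DI.D1.H1T.cont hT ⟨h.mem_G, h.prim_G⟩
  have mc := mc_of Fr hm uc zc
  have rc : ContinuousOn (fun s' => MF Ω R ε μ G Φ p q s (u s') - ν • z s') (Icc 0 T) := mc.sub (zc.const_smul ν)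
  refine ⟨hm, uc, zc, ?_, ?_⟩
  · obtain ⟨L, hL⟩ := h.bdd
    exact ⟨L, fun a b ha hab hb => Pool.Agent.N976.DI.D1.H1T.lip ⟨h.mem_u, h.prim_u⟩ hL ha hab hb⟩
  · intro x hx t ht
    set I : L2M Ω := ∫ s' in (0 : ℝ)..t, (MF Ω R ε μ G Φ p q s (u s') - ν • z s') with hI
    have hint : IntervalIntegrable (fun s' => MF Ω R ε μ G Φ p q s (u s') - ν • z s') volume 0 t := by
      refine ContinuousOn.intervalIntegrable ?_
      rw [uIcc_of_le ht.1]
      exact rc.mono (Icc_subset_Icc_right ht.2)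
    have hin : ∀ y : L2M Ω, ∫ s' in (0 : ℝ)..t, ⟪MF Ω R ε μ G Φ p q s (u s') - ν • z s', y⟫_ℝ = ⟪I, y⟫_ℝ := by
      intro y
      rw [hI, intervalIntegral.integral_of_le ht.1, intervalIntegral.integral_of_le ht.1]
      have h1 : Integrable (fun s' => MF Ω R ε μ G Φ p q s (u s') - ν • z s') (volume.restrict (Ioc 0 t)) := by
        rw [intervalIntegrable_iff_integrableOn_Ioc_of_le ht.1] at hint
        exact hint
      have := integral_inner (𝕜 := ℝ) h1 y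
      rw [real_inner_comm, ← this]
      exact integral_congr_ae (Eventually.of_forall fun s => real_inner_comm _ _)
    rw [hin]
    have key := graphW_induction (fun q : L2V Ω × L2M Ω => ⟪u t - u 0, q.1⟫_ℝ - ⟪I, q.2⟫_ℝ) (by fun_prop) (by
      rintro qq ⟨φ, k1, k2, k3⟩
      obtain ⟨g1, g2⟩ := cls_eq k1 k2 k3
      have e := h.eqn φ k1 t ht
      rw [pair_v _ k1, pair_v _ k1] at e
      have e3 : ∫ s' in (0 : ℝ)..t, rhsF ν (FA B ε R G p q) (u s') (z s') φ = ⟪I, cm Ω (jac φ)⟫_ℝ := by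
        rw [← hin]
        refine intervalIntegral.integral_congr fun s' hs' => ?_
        rw [uIcc_of_le ht.1] at hs'
        exact c.rhs ν (hm s' ⟨hs'.1, hs'.2.trans ht.2⟩) k1
      show ⟪u t - u 0, qq.1⟫_ℝ - ⟪I, qq.2⟫_ℝ = 0
      rw [g1, g2, inner_sub_left, e, e3, sub_self]) hx
    exact sub_eq_zero.1 key

theorem Ctx.str (c : Ctx B Ω R ε μ C G Φ p q s r) (hT : 0 ≤ T) {u u' : ℝ → L2V Ω} {z z' : ℝ → L2M Ω}
    (h : Strong Ω ν (FA B ε R G p q) T u u' z z') : Str (graphW Ω) (MF Ω R ε μ G Φ p q s) ν T (fun _ => 0) u u' z z' := by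
  obtain ⟨C', Fr⟩ := c.frame
  refine (c.hsol hT h).str Fr ?_ h.bdd h.mem_u h.mem_G h.prim_u h.prim_G
  filter_upwards [h.gradDeriv] with t ht
  exact mem_graphW.2 ht

theorem Ctx.strong (c : Ctx B Ω R ε μ C G Φ p q s r) {u u' : ℝ → L2V Ω} {z z' : ℝ → L2M Ω}
    (h : Str (graphW Ω) (MF Ω R ε μ G Φ p q s) ν T (fun _ => 0) u u' z z') :
    Strong Ω ν (FA B ε R G p q) T u u' z z' := by
  refine ⟨fun t ht => mem_graphW.1 (h.mem t ht), ?_, h.u1m, h.z1m, h.pu, h.pz, h.bd, ?_⟩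
  · filter_upwards [h.mem1] with t ht
    exact mem_graphW.1 ht
  · intro φ hφ t ht
    rw [pair_v _ hφ, pair_v _ hφ, ← inner_sub_left]
    have h1 := h.weak _ (test_mem hφ) t ht
    simp only at h1
    rw [h1]
    refine intervalIntegral.integral_congr fun s' hs' => ?_
    rw [uIcc_of_le ht.1] at hs'
    have h2 := c.rhs ν (h.mem s' ⟨hs'.1, hs'.2.trans ht.2⟩) hφ
    show ⟪0 - ν • z s' + MF Ω R ε μ G Φ p q s (u s'), cm Ω (jac φ)⟫_ℝ = rhsF ν (FA B ε R G p q) (u s') (z s') φ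
    refine Eq.trans ?_ h2.symm
    congr 1
    abel

/-- Uniqueness and the energy equality. -/
theorem Ctx.uniq (c : Ctx B Ω R ε μ C G Φ p q s r) (hν : 0 < ν) (hT : 0 < T) {u u' v v' : ℝ → L2V Ω}
    {z z' y y' : ℝ → L2M Ω} (h : Strong Ω ν (FA B ε R G p q) T u u' z z')
    (h' : Strong Ω ν (FA B ε R G p q) T v v' y y') (h0 : u 0 = v 0) : ∀ t ∈ Icc 0 T, u t = v t := by
  obtain ⟨C', Fr⟩ := c.frame
  have h1 := Pool.Agent.W503.TQ.proof_uni (L2V Ω) (L2M Ω) (graphW Ω) (MF Ω R ε μ G Φ p q s) C' ν T T (fun _ => 0) (u 0)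
    u v v' z y y' Fr hν hT le_rfl continuousOn_const ((c.hsol hT.le h).lh Fr hT) (c.str hT.le h') h0.symm
  exact h1.1

theorem Ctx.energy (c : Ctx B Ω R ε μ C G Φ p q s r) (hT : 0 ≤ T) {u u' : ℝ → L2V Ω} {z z' : ℝ → L2M Ω}
    (h : Strong Ω ν (FA B ε R G p q) T u u' z z') {t : ℝ} (ht : t ∈ Icc 0 T) :
    ‖u t‖ ^ 2 + 2 * ν * (∫ s in (0 : ℝ)..t, ‖z s‖ ^ 2) = ‖u 0‖ ^ 2 := by
  obtain ⟨C', Fr⟩ := c.frame
  exact (c.hsol hT h).energy Fr ht

/-- Local existence. -/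
theorem Ctx.exist (c : Ctx B Ω R ε μ C G Φ p q s r) (hν : 0 < ν) (hT : 0 < T) {v : L2V Ω} {y : L2M Ω}
    (h : Adm Ω ν (FA B ε R G p q) v y) {N : ℝ} (hN : ‖y‖ < N) :
    ∃ (τ : ℝ) (u u' : ℝ → L2V Ω) (z z' : ℝ → L2M Ω), 0 < τ ∧ τ ≤ T ∧ Strong Ω ν (FA B ε R G p q) τ u u' z z' ∧
      u 0 = v ∧ (τ = T ∨ N ≤ ‖z τ‖) := by
  obtain ⟨C', Fr⟩ := c.frame
  obtain ⟨hmem, g0, hg0⟩ := h
  have hmem' := mem_graphW.2 hmem
  obtain ⟨τ, u, u', z, z', h1, h2, h3, h4, h5⟩ := Pool.Agent.W52.TQ.proof_loc (L2V Ω) (L2M Ω) (graphW Ω)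
    (MF Ω R ε μ G Φ p q s) C' ν T (fun _ => 0) (fun _ => 0) v g0 y N Fr
    (fun R => H772R2.NSR.rellich_W c.hΩ c.hb R) hν hT
    ⟨MemLp.zero, fun a b _ _ _ => by simp⟩ hmem' (by
      intro x hx
      have key := graphW_induction (fun x : L2V Ω × L2M Ω => ⟪(0 : L2M Ω) - ν • y + MF Ω R ε μ G Φ p q s v, x.2⟫_ℝ
        - ⟪g0, x.1⟫_ℝ) (by fun_prop) (by
        rintro qq ⟨φ, k1, k2, k3⟩
        obtain ⟨g1, g2⟩ := cls_eq k1 k2 k3
        have e := hg0 φ k1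
        rw [pair_v _ k1] at e
        have h2 := c.rhs ν hmem' k1
        have h3 : rhsF ν (FA B ε R G p q) v y φ = ⟪MF Ω R ε μ G Φ p q s v - ν • y, cm Ω (jac φ)⟫_ℝ := h2
        rw [h3] at e
        show ⟪(0 : L2M Ω) - ν • y + MF Ω R ε μ G Φ p q s v, qq.2⟫_ℝ - ⟪g0, qq.1⟫_ℝ = 0
        rw [g1, g2, ← e, sub_eq_zero]
        congr 1
        abel) hx
      exact sub_eq_zero.1 key) hN
  exact ⟨τ, u, u', z, z', h1, h2, c.strong h3, h4, h5⟩

end Pool.Agent.N980.WX
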