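import Pool.Agent.N980.WX.Abs

/-!
The modified nonlinearity satisfies the axioms of the abstract frame.
-/

open MeasureTheory Set Filter Topology
open scoped InnerProductSpace

set_option autoImplicit false
set_option linter.unusedVariables false
set_option linter.unusedSectionVars false

namespace Pool.Agent.N980.WX

open H772R2.NSR (Frame)

variable {H K : Type} [NormedAddCommGroup H] [InnerProductSpace ℝ H] [CompleteSpace H]
  [NormedAddCommGroup K] [InnerProductSpace ℝ K] [CompleteSpace K]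

variable {W : Submodule ℝ (H × K)} {m : H → K} {R : ℕ} {κ μ D : ℝ} {p q s r : ℕ → H} {P Q S p1 q1 : ℕ → K}
  {g : ℕ → ℝ} {δ G σ : ℝ}

/-- The ratio of the geometric series. -/
noncomputable def rh (R : ℕ) (σ : ℝ) : ℝ := (R : ℝ) ^ σ / ((R : ℝ) * R * Real.sqrt R)

theorem GP.R1 (hg : GP R g δ G σ) : (1 : ℝ) < R := by
  have := hg.R2
  exact_mod_cast (by omega : 1 < R)

theorem GP.rh0 (hg : GP R g δ G σ) : 0 ≤ rh R σ := by
  unfold rh
  positivity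

theorem GP.rh1 (hg : GP R g δ G σ) : rh R σ < 1 := by
  have h1 := hg.R1
  have h0 : (0 : ℝ) < R := by linarith
  have hs : 0 < Real.sqrt R := Real.sqrt_pos.2 h0
  unfold rh
  rw [div_lt_one (by positivity)]
  have e : (R : ℝ) * R * Real.sqrt R = (R : ℝ) ^ (5 / 2 : ℝ) := by
    rw [Real.sqrt_eq_rpow, ← sq, ← Real.rpow_natCast (R : ℝ) 2, ← Real.rpow_add h0]
    congr 1
    push_cast
    norm_num
  rw [e]
  exact Real.rpow_lt_rpow_of_exponent_lt h1 hg.σ1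

theorem GP.G0 (hg : GP R g δ G σ) : 0 ≤ G := by
  have h1 := hg.g0 0
  have h2 := hg.gG 0
  simp at h2
  linarith

/-- The constant of the sums. -/
noncomputable def CC (R : ℕ) (D G σ : ℝ) : ℝ := G * ((8 + 4 * R) * D) / (1 - rh R σ)

theorem GP.CC0 (hg : GP R g δ G σ) (hD : 0 ≤ D) : 0 ≤ CC R D G σ := by
  unfold CC
  have h1 := hg.rh1
  have h2 := hg.G0
  have : 0 < 1 - rh R σ := by linarith
  positivity

theorem GP.sum_le (hg : GP R g δ G σ) (hD : 0 ≤ D) {t : ℕ → K} {A : ℝ} (hA : 0 ≤ A)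
    (ht : ∀ n, ‖t n‖ ≤ g n * (A / ((R : ℝ) ^ n * Real.sqrt R ^ n)) * ((8 + 4 * R) * (D / (R : ℝ) ^ n))) :
    Summable t ∧ ‖∑' n, t n‖ ≤ CC R D G σ * A := by
  have h1 := hg.R1
  have h0 : (0 : ℝ) < R := by linarith
  have hs : 0 < Real.sqrt R := Real.sqrt_pos.2 h0
  have hr0 := hg.rh0
  have hr1 := hg.rh1
  have hb : ∀ n, ‖t n‖ ≤ (G * ((8 + 4 * R) * D) * A) * rh R σ ^ n := by
    intro n
    refine (ht n).trans ?_
    have hRn : (0 : ℝ) < (R : ℝ) ^ n := pow_pos h0 n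
    have hsn : (0 : ℝ) < Real.sqrt R ^ n := pow_pos hs n
    have h2 := hg.gG n
    calc g n * (A / ((R : ℝ) ^ n * Real.sqrt R ^ n)) * ((8 + 4 * R) * (D / (R : ℝ) ^ n))
        ≤ (G * ((R : ℝ) ^ σ) ^ n) * (A / ((R : ℝ) ^ n * Real.sqrt R ^ n)) * ((8 + 4 * R) * (D / (R : ℝ) ^ n)) := by
          gcongr
      _ = (G * ((8 + 4 * R) * D) * A) * rh R σ ^ n := by
          unfold rh
          rw [div_pow, mul_pow, mul_pow]
          field_simp
  have hg1 := (hasSum_geometric_of_lt_one hr0 hr1).mul_left (G * ((8 + 4 * R) * D) * A)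
  refine ⟨Summable.of_norm_bounded hg1.summable hb, ?_⟩
  refine (tsum_of_norm_bounded hg1 hb).trans (le_of_eq ?_)
  unfold CC
  rw [div_eq_mul_inv]
  ring

/-- The bound of a product of factors. -/
theorem HP.sum1 (h : HP W m R κ μ D p q s r P Q S p1 q1) (hg : GP R g δ G σ) (hκ : 0 ≤ κ) {x y : H × K}
    (hx : x ∈ W) (hy : y ∈ W) :
    Summable (fun n => Tn R g δ p q s P Q n x.1 y.1) ∧
      ‖BB R g δ p q s P Q x.1 y.1‖ ≤ CC R D G σ * (Real.sqrt (2 * D * (‖x.1‖ * ‖x.2‖)) * (D * ‖y.2‖)) := by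
  have h1 := hg.R1
  have hR : 1 ≤ R := by exact_mod_cast h1.le
  have h0 : (0 : ℝ) < R := by linarith
  have hD : 0 ≤ D := by linarith [h.D1]
  refine hg.sum_le hD (by positivity) fun n => ?_
  refine (h.Tn_le hg n (h.le2 hR hκ n hx) (h.le1 hR n hy)).trans (le_of_eq ?_)
  have hRn : (0 : ℝ) < (R : ℝ) ^ n := pow_pos h0 n
  have e : Real.sqrt (2 * ‖x.1‖ * (D / (R : ℝ) ^ n * ‖x.2‖)) = Real.sqrt (2 * D * (‖x.1‖ * ‖x.2‖)) / Real.sqrt R ^ n := by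
    have e1 : 2 * ‖x.1‖ * (D / (R : ℝ) ^ n * ‖x.2‖) = (2 * D * (‖x.1‖ * ‖x.2‖)) / (Real.sqrt R ^ n) ^ 2 := by
      rw [← pow_mul, mul_comm n 2, pow_mul, Real.sq_sqrt h0.le]
      ring
    rw [e1, Real.sqrt_div (by positivity), Real.sqrt_sq (by positivity)]
  rw [e]
  have hs : 0 < Real.sqrt R ^ n := pow_pos (Real.sqrt_pos.2 h0) n
  field_simp

/-- The fourth root bound, abstract form. -/
theorem root4 {a b N : ℝ} (ha : 0 ≤ a) (hb : 0 ≤ b) (hD : 0 ≤ D) (hN : 1 ≤ N) :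
    Real.sqrt (Real.sqrt (2 * a * (D / N * b) ^ 3)) ≤ Real.sqrt (Real.sqrt (2 * D ^ 3 * (a * b ^ 3))) / Real.sqrt N := by
  have hN0 : 0 < N := by linarith
  have h1 : 2 * a * (D / N * b) ^ 3 ≤ (2 * D ^ 3 * (a * b ^ 3)) / N ^ 2 := by
    have e : 2 * a * (D / N * b) ^ 3 = (2 * D ^ 3 * (a * b ^ 3)) / N ^ 3 := by
      field_simp
    rw [e]
    have : N ^ 2 ≤ N ^ 3 := pow_le_pow_right₀ hN (by norm_num)
    gcongr
  have h2 : Real.sqrt (2 * a * (D / N * b) ^ 3) ≤ Real.sqrt (2 * D ^ 3 * (a * b ^ 3)) / N := by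
    refine (Real.sqrt_le_sqrt h1).trans (le_of_eq ?_)
    rw [Real.sqrt_div (by positivity), Real.sqrt_sq hN0.le]
  refine (Real.sqrt_le_sqrt h2).trans (le_of_eq ?_)
  rw [Real.sqrt_div (by positivity)]

theorem sqrt_pow' {a : ℝ} (ha : 0 ≤ a) (n : ℕ) : Real.sqrt (a ^ n) = Real.sqrt a ^ n := by
  rw [Real.sqrt_eq_iff_mul_self_eq (by positivity) (by positivity), ← mul_pow, Real.mul_self_sqrt ha]

theorem HP.sum4 (h : HP W m R κ μ D p q s r P Q S p1 q1) (hg : GP R g δ G σ) (hκ : 0 ≤ κ) {x y : H × K}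
    (hx : x ∈ W) (hy : y ∈ W) :
    ‖BB R g δ p q s P Q x.1 y.1‖ ≤ CC R D G σ * (Real.sqrt (Real.sqrt (2 * D ^ 3 * (‖x.1‖ * ‖x.2‖ ^ 3))) * (D * ‖y.2‖)) ∧
      ‖BB R g δ p q s P Q x.1 y.1‖ ≤ CC R D G σ * (Real.sqrt (Real.sqrt (2 * D ^ 3 * (‖y.1‖ * ‖y.2‖ ^ 3))) * (D * ‖x.2‖)) := by
  have h1 := hg.R1
  have hR : 1 ≤ R := by exact_mod_cast h1.le
  have h0 : (0 : ℝ) < R := by linarith
  have hD : 0 ≤ D := by linarith [h.D1]
  have key : ∀ (a b c N sN : ℝ), 0 ≤ c → 1 ≤ N → Real.sqrt N = sN → 0 ≤ a → 0 ≤ b →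
      Real.sqrt (Real.sqrt (2 * a * (D / N * b) ^ 3)) * (D / N * c)
        ≤ (Real.sqrt (Real.sqrt (2 * D ^ 3 * (a * b ^ 3))) * (D * c)) / (N * sN) := by
    intro a b c N sN hc hN hsN ha hb
    have hN0 : 0 < N := by linarith
    have h2 := root4 (D := D) ha hb hD hN
    rw [hsN] at h2
    have hsN0 : 0 < sN := by rw [← hsN]; exact Real.sqrt_pos.2 hN0
    calc _ ≤ Real.sqrt (Real.sqrt (2 * D ^ 3 * (a * b ^ 3))) / sN * (D / N * c) := by gcongr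
      _ = _ := by field_simp
  have hN : ∀ n : ℕ, (1 : ℝ) ≤ (R : ℝ) ^ n := fun n => one_le_pow₀ h1.le
  constructor
  · refine (hg.sum_le hD (by positivity) fun n => ?_).2
    refine (h.Tn_le hg n (h.le4 hR hκ n hx) (h.le1 hR n hy)).trans ?_
    have := key ‖x.1‖ ‖x.2‖ ‖y.2‖ ((R : ℝ) ^ n) (Real.sqrt R ^ n) (norm_nonneg _) (hN n) (sqrt_pow' h0.le n)
      (norm_nonneg _) (norm_nonneg _)
    have := hg.g0 n
    gcongr
  · refine (hg.sum_le hD (by positivity) fun n => ?_).2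
    refine (h.Tn_le hg n (h.le1 hR n hx) (h.le4 hR hκ n hy)).trans ?_
    have h3 := key ‖y.1‖ ‖y.2‖ ‖x.2‖ ((R : ℝ) ^ n) (Real.sqrt R ^ n) (norm_nonneg _) (hN n) (sqrt_pow' h0.le n)
      (norm_nonneg _) (norm_nonneg _)
    rw [mul_comm] at h3
    have := hg.g0 n
    gcongr

/-! ### bilinearity -/

section bil

variable (R g δ p q s P Q)

theorem Tn_add_left (n : ℕ) (u u' v : H) : Tn R g δ p q s P Q n (u + u') v
    = Tn R g δ p q s P Q n u v + Tn R g δ p q s P Q n u' v := by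
  unfold Tn
  simp only [inner_add_right]
  module

theorem Tn_add_right (n : ℕ) (u v v' : H) : Tn R g δ p q s P Q n u (v + v')
    = Tn R g δ p q s P Q n u v + Tn R g δ p q s P Q n u v' := by
  unfold Tn
  simp only [inner_add_right]
  module

theorem Tn_smul_left (n : ℕ) (c : ℝ) (u v : H) : Tn R g δ p q s P Q n (c • u) v
    = c • Tn R g δ p q s P Q n u v := by
  unfold Tn
  simp only [inner_smul_right]
  module

theorem Tn_smul_right (n : ℕ) (c : ℝ) (u v : H) : Tn R g δ p q s P Q n u (c • v)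
    = c • Tn R g δ p q s P Q n u v := by
  unfold Tn
  simp only [inner_smul_right]
  module

end bil

theorem HP.BB_sub_left (h : HP W m R κ μ D p q s r P Q S p1 q1) (hg : GP R g δ G σ) (hκ : 0 ≤ κ) {x x' y : H × K}
    (hx : x ∈ W) (hx' : x' ∈ W) (hy : y ∈ W) : BB R g δ p q s P Q (x.1 - x'.1) y.1
    = BB R g δ p q s P Q x.1 y.1 - BB R g δ p q s P Q x'.1 y.1 := by
  unfold BB
  rw [← ((h.sum1 hg hκ hx hy).1).tsum_sub (h.sum1 hg hκ hx' hy).1]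
  refine tsum_congr fun n => ?_
  have e : x.1 - x'.1 = x.1 + (-1 : ℝ) • x'.1 := by module
  rw [e, Tn_add_left, Tn_smul_left]
  module

theorem HP.BB_sub_right (h : HP W m R κ μ D p q s r P Q S p1 q1) (hg : GP R g δ G σ) (hκ : 0 ≤ κ) {x y y' : H × K}
    (hx : x ∈ W) (hy : y ∈ W) (hy' : y' ∈ W) : BB R g δ p q s P Q x.1 (y.1 - y'.1)
    = BB R g δ p q s P Q x.1 y.1 - BB R g δ p q s P Q x.1 y'.1 := by
  unfold BB
  rw [← ((h.sum1 hg hκ hx hy).1).tsum_sub (h.sum1 hg hκ hx hy').1]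
  refine tsum_congr fun n => ?_
  have e : y.1 - y'.1 = y.1 + (-1 : ℝ) • y'.1 := by module
  rw [e, Tn_add_right, Tn_smul_right]
  module

/-- The form. -/
theorem HP.BB_form (h : HP W m R κ μ D p q s r P Q S p1 q1) (hg : GP R g δ G σ) (hκ : 0 ≤ κ) {x y z : H × K}
    (hx : x ∈ W) (hy : y ∈ W) (hz : z ∈ W) :
    HasSum (fun n => fn R g δ p q s n x.1 y.1 z.1) ⟪BB R g δ p q s P Q x.1 y.1, z.2⟫_ℝ := by
  have h1 := (h.sum1 hg hκ hx hy).1.hasSum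
  have h2 := h1.mapL (innerSL ℝ z.2)
  have e : ∀ v : K, innerSL ℝ z.2 v = ⟪v, z.2⟫_ℝ := fun v => by
    rw [innerSL_apply_apply, real_inner_comm]
  rw [e] at h2
  refine h2.congr_fun fun n => ?_
  rw [e]
  unfold fn Tn
  simp only [inner_add_left, real_inner_smul_left, h.hP _ z hz, h.hQ _ z hz]

theorem HP.skew (h : HP W m R κ μ D p q s r P Q S p1 q1) (hg : GP R g δ G σ) (hκ : 0 ≤ κ) {x y z : H × K}
    (hx : x ∈ W) (hy : y ∈ W) (hz : z ∈ W) :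
    ⟪BB R g δ p q s P Q x.1 y.1, z.2⟫_ℝ = -⟪BB R g δ p q s P Q x.1 z.1, y.2⟫_ℝ := by
  refine (h.BB_form hg hκ hx hy hz).unique ((h.BB_form hg hκ hx hz hy).neg.congr_fun fun n => ?_)
  rw [fn_skew]

theorem HP.skew0 (h : HP W m R κ μ D p q s r P Q S p1 q1) (hg : GP R g δ G σ) (hκ : 0 ≤ κ) {x y : H × K}
    (hx : x ∈ W) (hy : y ∈ W) : ⟪BB R g δ p q s P Q x.1 y.1, y.2⟫_ℝ = 0 := by
  have := h.skew hg hκ hx hy hy
  linarith

/-- The modified nonlinearity. -/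
noncomputable def MM (m : H → K) (R : ℕ) (g : ℕ → ℝ) (δ : ℝ) (p q s : ℕ → H) (P Q : ℕ → K) (c : ℝ) (v : H) : K :=
  m v + c • BB R g δ p q s P Q v v

/-- The modified nonlinearity satisfies the axioms. -/
theorem HP.frame {C : ℝ} (Fr : Frame W m C) (h : HP W m R κ μ D p q s r P Q S p1 q1) (hg : GP R g δ G σ) (hκ : 0 ≤ κ)
    (c : ℝ) : ∃ C', Frame W (MM m R g δ p q s P Q c) C' := by
  have hD : 0 ≤ D := by linarith [h.D1]
  have hC := Fr.C0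
  set L := CC R D G σ with hL
  have hL0 : 0 ≤ L := hg.CC0 hD
  set C1 : ℝ := 2 * C + 2 * (c ^ 2 * (L ^ 2 * (2 * D) * D ^ 2)) with hC1
  set C2 : ℝ := 8 * C + 8 * (c ^ 4 * (L ^ 4 * (2 * D ^ 3) * D ^ 4)) with hC2
  have hC10 : 0 ≤ C1 := by positivity
  have hC20 : 0 ≤ C2 := by positivity
  refine ⟨C + C1 + C2, ?_⟩
  constructor
  · positivity
  · exact Fr.closedW
  · exact Fr.uniq
  · intro x hx
    refine (Fr.poinc x hx).trans ?_
    have := norm_nonneg x.2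
    gcongr
    linarith
  · intro x hx
    unfold MM
    rw [inner_add_left, Fr.ortho x hx, real_inner_smul_left, h.skew0 hg hκ hx hx]
    ring
  · intro x hx y hy
    have h1 := Fr.anti x hx y hy
    have hxy : x - y ∈ W := W.sub_mem hx hy
    unfold MM
    have e1 : m x.1 + c • BB R g δ p q s P Q x.1 x.1 - (m y.1 + c • BB R g δ p q s P Q y.1 y.1)
        = (m x.1 - m y.1) + c • (BB R g δ p q s P Q x.1 x.1 - BB R g δ p q s P Q y.1 y.1) := by module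
    rw [e1, inner_add_left, h1, inner_add_left, real_inner_smul_left, real_inner_smul_left]
    have e2 : BB R g δ p q s P Q (x.1 - y.1) (x.1 - y.1)
        = (BB R g δ p q s P Q x.1 x.1 - BB R g δ p q s P Q x.1 y.1)
          - (BB R g δ p q s P Q y.1 x.1 - BB R g δ p q s P Q y.1 y.1) := by
      have a1 := h.BB_sub_left hg hκ hx hy hxy
      have a2 := h.BB_sub_right hg hκ hx hx hy
      have a3 := h.BB_sub_right hg hκ hy hx hy
      have e3 : (x - y).1 = x.1 - y.1 := rfl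
      rw [e3] at a1
      rw [a1, a2, a3]
    rw [e2]
    simp only [inner_sub_left, inner_sub_right]
    rw [h.skew0 hg hκ hx hx, h.skew0 hg hκ hy hy, h.skew0 hg hκ hx hy, h.skew hg hκ hy hy hx]
    ring
  · intro x hx
    have h1 := Fr.quart x hx
    have h2 := (h.sum1 hg hκ hx hx).2
    have h3 : ‖BB R g δ p q s P Q x.1 x.1‖ ^ 2 ≤ L ^ 2 * (2 * D) * D ^ 2 * (‖x.1‖ * ‖x.2‖ ^ 3) := by
      refine (pow_le_pow_left₀ (norm_nonneg _) h2 2).trans (le_of_eq ?_)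
      rw [mul_pow, mul_pow, Real.sq_sqrt (by positivity)]
      ring
    unfold MM
    have h4 : ‖m x.1 + c • BB R g δ p q s P Q x.1 x.1‖ ^ 2
        ≤ 2 * ‖m x.1‖ ^ 2 + 2 * (c ^ 2 * ‖BB R g δ p q s P Q x.1 x.1‖ ^ 2) := by
      have a1 := norm_add_le (m x.1) (c • BB R g δ p q s P Q x.1 x.1)
      rw [norm_smul, Real.norm_eq_abs] at a1
      have a2 : c ^ 2 * ‖BB R g δ p q s P Q x.1 x.1‖ ^ 2 = (|c| * ‖BB R g δ p q s P Q x.1 x.1‖) ^ 2 := by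
        rw [mul_pow, sq_abs]
      rw [a2]
      have a3 := norm_nonneg (m x.1 + c • BB R g δ p q s P Q x.1 x.1)
      have a4 := norm_nonneg (m x.1)
      have a5 : 0 ≤ |c| * ‖BB R g δ p q s P Q x.1 x.1‖ := by positivity
      nlinarith [sq_nonneg (‖m x.1‖ - |c| * ‖BB R g δ p q s P Q x.1 x.1‖)]
    have h5 : 0 ≤ ‖x.1‖ * ‖x.2‖ ^ 3 := by positivity
    have h6 : c ^ 2 * ‖BB R g δ p q s P Q x.1 x.1‖ ^ 2 ≤ c ^ 2 * (L ^ 2 * (2 * D) * D ^ 2 * (‖x.1‖ * ‖x.2‖ ^ 3)) := by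
      gcongr
    have h7 : 0 ≤ C * (‖x.1‖ * ‖x.2‖ ^ 3) := by positivity
    have h8 : 0 ≤ C2 * (‖x.1‖ * ‖x.2‖ ^ 3) := by positivity
    have h9 : (C + C1 + C2) * (‖x.1‖ * ‖x.2‖ ^ 3) = C * (‖x.1‖ * ‖x.2‖ ^ 3) + (2 * (C * (‖x.1‖ * ‖x.2‖ ^ 3))
        + 2 * (c ^ 2 * (L ^ 2 * (2 * D) * D ^ 2 * (‖x.1‖ * ‖x.2‖ ^ 3)))) + C2 * (‖x.1‖ * ‖x.2‖ ^ 3) := by
      rw [hC1]; ring
    rw [h9]
    linarith
  · intro x hx y hy
    have h1 := Fr.lips x hx y hy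
    have hxy : x - y ∈ W := W.sub_mem hx hy
    have e3 : (x - y).1 = x.1 - y.1 := rfl
    have e4 : (x - y).2 = x.2 - y.2 := rfl
    set w := ‖x.1 - y.1‖ * ‖x.2 - y.2‖ ^ 3 with hw
    have hw0 : 0 ≤ w := by positivity
    have a1 := (h.sum4 hg hκ hxy hx).1
    have a2 := (h.sum4 hg hκ hy hxy).2
    rw [e3, e4] at a1 a2
    have e5 : BB R g δ p q s P Q x.1 x.1 - BB R g δ p q s P Q y.1 y.1
        = BB R g δ p q s P Q (x.1 - y.1) x.1 + BB R g δ p q s P Q y.1 (x.1 - y.1) := by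
      rw [h.BB_sub_left hg hκ hx hy hx, h.BB_sub_right hg hκ hy hx hy]
      abel
    have h2 : ‖BB R g δ p q s P Q x.1 x.1 - BB R g δ p q s P Q y.1 y.1‖
        ≤ L * (Real.sqrt (Real.sqrt (2 * D ^ 3 * w)) * (D * (‖x.2‖ + ‖y.2‖))) := by
      rw [e5]
      refine (norm_add_le _ _).trans ((add_le_add a1 a2).trans (le_of_eq ?_))
      ring
    have h3 : ‖BB R g δ p q s P Q x.1 x.1 - BB R g δ p q s P Q y.1 y.1‖ ^ 4
        ≤ L ^ 4 * (2 * D ^ 3) * D ^ 4 * (w * (‖x.2‖ + ‖y.2‖) ^ 4) := by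
      refine (pow_le_pow_left₀ (norm_nonneg _) h2 4).trans (le_of_eq ?_)
      have e6 : Real.sqrt (Real.sqrt (2 * D ^ 3 * w)) ^ 4 = 2 * D ^ 3 * w := by
        have : Real.sqrt (Real.sqrt (2 * D ^ 3 * w)) ^ 4 = (Real.sqrt (Real.sqrt (2 * D ^ 3 * w)) ^ 2) ^ 2 := by ring
        rw [this, Real.sq_sqrt (Real.sqrt_nonneg _), Real.sq_sqrt (by positivity)]
      rw [mul_pow, mul_pow, e6]
      ring
    unfold MM
    have e1 : m x.1 + c • BB R g δ p q s P Q x.1 x.1 - (m y.1 + c • BB R g δ p q s P Q y.1 y.1)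
        = (m x.1 - m y.1) + c • (BB R g δ p q s P Q x.1 x.1 - BB R g δ p q s P Q y.1 y.1) := by module
    rw [e1]
    set X := ‖m x.1 - m y.1‖ with hX
    set Y := ‖BB R g δ p q s P Q x.1 x.1 - BB R g δ p q s P Q y.1 y.1‖ with hY
    have hX0 : 0 ≤ X := norm_nonneg _
    have hY0 : 0 ≤ Y := norm_nonneg _
    have h4 : ‖(m x.1 - m y.1) + c • (BB R g δ p q s P Q x.1 x.1 - BB R g δ p q s P Q y.1 y.1)‖ ^ 4
        ≤ 8 * X ^ 4 + 8 * (c ^ 4 * Y ^ 4) := by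
      have b1 := norm_add_le (m x.1 - m y.1) (c • (BB R g δ p q s P Q x.1 x.1 - BB R g δ p q s P Q y.1 y.1))
      rw [norm_smul, Real.norm_eq_abs] at b1
      have b2 : c ^ 4 * Y ^ 4 = (|c| * Y) ^ 4 := by
        rw [mul_pow]
        congr 1
        exact (Even.pow_abs (by decide) c).symm
      rw [b2]
      refine (pow_le_pow_left₀ (norm_nonneg _) b1 4).trans ?_
      rw [← mul_add]
      have b3 : 0 ≤ |c| * Y := by positivity
      set Z := |c| * Y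
      have b4 : (X + Z) ^ 2 ≤ 2 * (X ^ 2 + Z ^ 2) := by nlinarith [sq_nonneg (X - Z)]
      have b5 : (X + Z) ^ 4 ≤ (2 * (X ^ 2 + Z ^ 2)) ^ 2 := by
        have : (X + Z) ^ 4 = ((X + Z) ^ 2) ^ 2 := by ring
        rw [this]
        exact pow_le_pow_left₀ (sq_nonneg _) b4 2
      refine b5.trans ?_
      nlinarith [sq_nonneg (X ^ 2 - Z ^ 2)]
    have h5 : 0 ≤ w * (‖x.2‖ + ‖y.2‖) ^ 4 := by positivity
    have h6 : c ^ 4 * Y ^ 4 ≤ c ^ 4 * (L ^ 4 * (2 * D ^ 3) * D ^ 4 * (w * (‖x.2‖ + ‖y.2‖) ^ 4)) := by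
      have : 0 ≤ c ^ 4 := by positivity
      gcongr
    have h7 : 0 ≤ C * (w * (‖x.2‖ + ‖y.2‖) ^ 4) := by positivity
    have h8 : 0 ≤ C1 * (w * (‖x.2‖ + ‖y.2‖) ^ 4) := by positivity
    have h9 : (C + C1 + C2) * (w * (‖x.2‖ + ‖y.2‖) ^ 4) = C * (w * (‖x.2‖ + ‖y.2‖) ^ 4) + C1 * (w * (‖x.2‖ + ‖y.2‖) ^ 4)
        + (8 * (C * (w * (‖x.2‖ + ‖y.2‖) ^ 4))
        + 8 * (c ^ 4 * (L ^ 4 * (2 * D ^ 3) * D ^ 4 * (w * (‖x.2‖ + ‖y.2‖) ^ 4)))) := by
      rw [hC2]; ring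
    have h10 : C * (‖x.1 - y.1‖ * ‖x.2 - y.2‖ ^ 3 * (‖x.2‖ + ‖y.2‖) ^ 4) = C * (w * (‖x.2‖ + ‖y.2‖) ^ 4) := by rw [hw]
    rw [h10] at h1
    rw [h9]
    linarith

end Pool.Agent.N980.WX
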