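import Pool.Agent.N980.WX.Ord2
import Pool.Agent.N980.WX.CR1
import Pool.Agent.N980.WX.CR2
import Pool.Agent.N980.WU.Fin

/-!
The theorem.
-/

open MeasureTheory Set Filter Topology
open scoped InnerProductSpace ContDiff

set_option autoImplicit false
set_option linter.unusedVariables false

namespace Pool.Agent.N980.WX

open H772R2.NS (E3 M3 L2V L2M IsTest jac graphW H1graph mem_graphW)
open Pool.Agent.N976.DI.D1 (cv cm)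

/-- The theorem. -/
theorem main {ε : ℝ} (hε : 0 < ε) (hε1 : ε ≤ 4 / 5) {R : ℕ} (hR : 10 ^ 16 ≤ (R : ℝ) ^ ε) (x₀ : E3) {ℓ : ℝ}
    (hℓ : 0 < ℓ) : ∃ (μ : ℝ) (p q : ℕ → E3 → E3), Packets (Metric.ball x₀ ℓ) ε R μ p q ∧
    Alt (Metric.ball x₀ ℓ) ε (A (Metric.ball x₀ ℓ) ε R p q) ∧
    ∀ Ω : Set E3, IsOpen Ω → Bornology.IsBounded Ω → Metric.ball x₀ ℓ ⊆ Ω → ∀ ν G : ℝ, 0 < ν → G ≠ 0 →
      ∀ F, F = (fun w v z => G * A (Metric.ball x₀ ℓ) ε R p q w v z) →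
      (∀ (v : L2V Ω) (z : L2M Ω), (v, z) ∈ H1graph Ω → ∀ φ, IsTest Ω φ →
        Summable (trm (Metric.ball x₀ ℓ) ε R p q (fun x => rot (z x)) v φ)) ∧
      (∀ φ, IsTest Ω φ → ∀ (v : L2V Ω) (z : L2M Ω), v =ᵐ[volume.restrict Ω] φ → z =ᵐ[volume.restrict Ω] jac φ →
        Adm Ω ν F v z) ∧
      (∀ (v : L2V Ω) (z : L2M Ω), Adm Ω ν F v z → ∀ T > 0, ∀ N : ℝ, ∃ τ ∈ Ioc 0 T,
        ∃ (u u' : ℝ → L2V Ω) (H H' : ℝ → L2M Ω), Strong Ω ν F τ u u' H H' ∧ u 0 = v ∧ (τ = T ∨ N ≤ ‖H τ‖)) ∧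
      (∀ T > 0, ∀ (u u' : ℝ → L2V Ω) (H H' : ℝ → L2M Ω), Strong Ω ν F T u u' H H' →
        (∀ t ∈ Icc 0 T, ‖u t‖ ^ 2 + 2 * ν * (∫ s in (0 : ℝ)..t, ‖H s‖ ^ 2) = ‖u 0‖ ^ 2) ∧
        ∀ (w w' : ℝ → L2V Ω) (J J' : ℝ → L2M Ω), Strong Ω ν F T w w' J J' → w 0 = u 0 → ∀ t ∈ Icc 0 T, w t = u t) ∧
      ∀ v, IsTest Ω v → ∀ η > 0, ∃ w, IsTest Ω w ∧ ∫ x, ‖w x - v x‖ ^ 2 ≤ η ^ 2 ∧ ∃ r > 0,
        ∀ (w' : L2V Ω) (z' : L2M Ω), (w', z') ∈ H1graph Ω →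
          ((∀ᵐ x ∂(volume.restrict Ω), ‖w' x - w x‖ ≤ r) ∨ ∫ x in Ω, ‖z' x - jac w x‖ ^ 2 ≤ r ^ 2) →
          (¬∃ (u u' : ℝ → L2V Ω) (H H' : ℝ → L2M Ω), Strong Ω ν F η u u' H H' ∧ u 0 = w') ∧
          (Adm Ω ν F w' z' → ∀ N : ℝ, ∃ τ ∈ Ioo 0 η, ∃ (u u' : ℝ → L2V Ω) (H H' : ℝ → L2M Ω),
            Strong Ω ν F τ u u' H H' ∧ u 0 = w' ∧ N ≤ ‖H τ‖) := by
  have hd := Pool.Agent.N980.WU.PD_of hε hε1 hR
  have hR0 := hd.pc.R0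
  have hR1 := hd.pc.R1
  have hRn : 1 ≤ R := by have := hd.pc.R4; omega
  have h1 : 2 ≤ (R : ℝ) ^ (3 * ε / 4) := le_trans (by norm_num) hd.pc.RQ
  have h2 : 2 ≤ (R : ℝ) ^ (1 - 3 * ε / 4) := by
    have h3 : (R : ℝ) ^ (2 - (2 + ε / 4) + 3 * ε / 4) ≤ (R : ℝ) ^ (1 - 3 * ε / 4) :=
      Real.rpow_le_rpow_of_exponent_le hR1.le (by linarith)
    exact le_trans (by norm_num) (hd.RQ'.trans h3)
  obtain ⟨μ, C, Φ, p, q, s, r, hk⟩ := or3 R (3 * ε / 4) hd.pc.k0 hd.pc.k1 h1 h2 x₀ ℓ hℓ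
  have hB : Bornology.IsBounded (Metric.ball x₀ ℓ) := Metric.isBounded_ball
  have hBm : MeasurableSet (Metric.ball x₀ ℓ) := measurableSet_ball
  refine ⟨μ, p, q, packets hk hRn, alt cr1 or2 or1 hB hBm hε hε1 hd hk, ?_⟩
  intro Ω hΩ hb hBΩ ν G hν hG F hF
  have c : Ctx (Metric.ball x₀ ℓ) Ω R ε μ C G Φ p q s r := ⟨cr1, cr2, hΩ, hb, hBΩ, hε, hε1, hd, hG, hk.toPck⟩
  have hF' : F = FA (Metric.ball x₀ ℓ) ε R G p q := hF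
  subst hF'
  clear hF
  have hex : ∀ (v : L2V Ω) (z : L2M Ω), Adm Ω ν (FA (Metric.ball x₀ ℓ) ε R G p q) v z → ∀ T > 0, ∀ N : ℝ, ∃ τ ∈ Ioc 0 T,
        ∃ (u u' : ℝ → L2V Ω) (H H' : ℝ → L2M Ω), Strong Ω ν (FA (Metric.ball x₀ ℓ) ε R G p q) τ u u' H H' ∧ u 0 = v ∧
          (τ = T ∨ N ≤ ‖H τ‖) := by
    intro v z hv T hT N
    obtain ⟨τ, u, u', H, H', a1, a2, a3, a4, a5⟩ := c.exist hν hT hv (N := max N (‖z‖ + 1))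
      (lt_of_lt_of_le (by linarith) (le_max_right _ _))
    exact ⟨τ, ⟨a1, a2⟩, u, u', H, H', a3, a4, a5.imp id fun h => (le_max_left _ _).trans h⟩
  refine ⟨fun v z hv φ hφ => c.summ (mem_graphW.2 hv) hφ, fun φ hφ v z e1 e2 => ?_, hex,
    fun T hT u u' H H' hu => ⟨fun t ht => c.energy hT.le hu ht, fun w w' J J' hw h0 => c.uniq hν hT hw hu h0⟩,
    fun v hv η hη => ?_⟩
  · obtain ⟨g1, g2⟩ := cls_eq (q := (v, z)) hφ e1 e2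
    simp only at g1 g2
    rw [g1, g2]
    exact c.adm hφ
  · obtain ⟨w, hw, h3, ρ, hρ, h4⟩ := c.blow hν hv hη
    refine ⟨w, hw, h3, ρ, hρ, fun w' z' hm hcl => ⟨?_, fun had N => ?_⟩⟩
    · rintro ⟨u, u', H, H', hs, h0⟩
      exact h4 w' z' hm hcl u u' H H' h0 hs
    · obtain ⟨τ, hτ, u, u', H, H', a1, a2, a3⟩ := hex w' z' had η hη N
      rcases a3 with a3 | a3
      · exfalso
        rw [a3] at a1
        exact h4 w' z' hm hcl u u' H H' a2 a1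
      · refine ⟨τ, ⟨hτ.1, lt_of_le_of_ne hτ.2 fun h5 => ?_⟩, u, u', H, H', a1, a2, a3⟩
        rw [h5] at a1
        exact h4 w' z' hm hcl u u' H H' a2 a1

end Pool.Agent.N980.WX
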