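import Pool.Agent.N980.WX.Ord0

/-!
OR1: interpolation of a geometric sum (helper340).
-/

set_option autoImplicit false

namespace Pool.Agent.N980.WX

namespace OR1

theorem rpow_nat {R : ℝ} (hR : 0 < R) (ε : ℝ) (n : ℕ) : (R ^ ε) ^ n = (R ^ n) ^ ε := by
  rw [← Real.rpow_natCast, ← Real.rpow_mul hR.le, mul_comm, Real.rpow_mul hR.le,
    Real.rpow_natCast]

theorem split_le {t : ℕ → ℝ} {q b : ℝ} (hq0 : 0 < q) (hq1 : q < 1)
    (h1 : ∀ n, |t n| ≤ b * q ^ n) (M : ℕ) :
    |∑' n, t n| ≤ ∑ n ∈ Finset.range M, |t n| + b * (q ^ M / (1 - q)) := by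
  have hgeo := summable_geometric_of_lt_one hq0.le hq1
  have hsq : Summable (fun n : ℕ => b * q ^ n) := hgeo.mul_left b
  have hsabs : Summable (fun n => |t n|) :=
    Summable.of_nonneg_of_le (fun _ => abs_nonneg _) h1 hsq
  have habs : |∑' n, t n| ≤ ∑' n, |t n| := by
    have h := norm_tsum_le_tsum_norm (f := t) (by simpa [Real.norm_eq_abs] using hsabs)
    simpa [Real.norm_eq_abs] using h
  refine habs.trans ?_
  rw [← hsabs.sum_add_tsum_nat_add M]
  have hs2 : Summable (fun n : ℕ => b * (q ^ M * q ^ n)) := (hgeo.mul_left _).mul_left b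
  have h3 : ∑' i, |t (i + M)| ≤ ∑' i : ℕ, b * (q ^ M * q ^ i) := by
    refine Summable.tsum_le_tsum (fun i => ?_) ((summable_nat_add_iff M).2 hsabs) hs2
    refine (h1 (i + M)).trans (le_of_eq ?_)
    rw [pow_add]
    ring
  have h4 : ∑' i : ℕ, b * (q ^ M * q ^ i) = b * (q ^ M / (1 - q)) := by
    rw [tsum_mul_left, tsum_mul_left, tsum_geometric_of_lt_one hq0.le hq1, div_eq_mul_inv]
  rw [h4] at h3
  linarith

end OR1

open OR1

theorem or1 : S_geo := by
  intro R ε hR hε hε1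
  have hR1 : (1 : ℝ) < R := by exact_mod_cast (by omega : 1 < R)
  have hR0 : (0 : ℝ) < R := by linarith
  obtain ⟨ρ, hρ⟩ : ∃ ρ : ℝ, ρ = (R : ℝ) ^ ε := ⟨_, rfl⟩
  obtain ⟨q, hq⟩ : ∃ q : ℝ, q = (R : ℝ) ^ (ε - 1) := ⟨_, rfl⟩
  have hρ1 : 1 < ρ := by rw [hρ]; exact Real.one_lt_rpow hR1 hε
  have hq0 : 0 < q := by rw [hq]; exact Real.rpow_pos_of_pos hR0 _
  have hq1 : q < 1 := by
    rw [hq]
    exact Real.rpow_lt_one_of_one_lt_of_neg hR1 (by linarith)
  have hρq : ρ / R = q := by rw [hρ, hq, Real.rpow_sub hR0, Real.rpow_one]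
  have hρqn : ∀ (n : ℕ) (b : ℝ), ρ ^ n * (b / (R : ℝ) ^ n) = b * q ^ n := by
    intro n b
    rw [← hρq, div_pow]
    ring
  have hc1 : 0 < ρ / (ρ - 1) := div_pos (by linarith) (by linarith)
  have hc2 : 0 < 1 / (1 - q) := div_pos one_pos (by linarith)
  refine ⟨ρ / (ρ - 1) + 1 / (1 - q), by linarith, ?_⟩
  intro a b t ha hb ht
  rw [← hρ] at ht
  have hρn : ∀ n : ℕ, 0 ≤ ρ ^ n := fun n => pow_nonneg (by linarith) n
  have h1 : ∀ n, |t n| ≤ b * q ^ n := fun n => by
    rw [← hρqn]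
    exact (ht n).trans (mul_le_mul_of_nonneg_left (min_le_right _ _) (hρn n))
  have h2 : ∀ n, |t n| ≤ ρ ^ n * a := fun n =>
    (ht n).trans (mul_le_mul_of_nonneg_left (min_le_left _ _) (hρn n))
  have hgeo := summable_geometric_of_lt_one hq0.le hq1
  have hsabs : Summable (fun n => |t n|) :=
    Summable.of_nonneg_of_le (fun _ => abs_nonneg _) h1 (hgeo.mul_left b)
  refine ⟨hsabs.of_abs, ?_⟩
  have hX : 0 ≤ a ^ (1 - ε) * b ^ ε :=
    mul_nonneg (Real.rpow_nonneg ha _) (Real.rpow_nonneg hb _)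
  rcases le_or_gt b a with hba | hba
  · -- the case `b ≤ a`
    have h3 := split_le hq0 hq1 h1 0
    rw [Finset.sum_range_zero, zero_add, pow_zero] at h3
    have h4 : b ≤ a ^ (1 - ε) * b ^ ε := by
      rcases hb.eq_or_lt with hb0 | hb0
      · rw [← hb0] at hX ⊢
        exact hX
      · have h5 : b = b ^ (1 - ε) * b ^ ε := by
          rw [← Real.rpow_add hb0, sub_add_cancel, Real.rpow_one]
        calc b = b ^ (1 - ε) * b ^ ε := h5
          _ ≤ a ^ (1 - ε) * b ^ ε :=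
            mul_le_mul_of_nonneg_right (Real.rpow_le_rpow hb hba (by linarith))
              (Real.rpow_nonneg hb _)
    have h5 : b * (1 / (1 - q)) ≤ a ^ (1 - ε) * b ^ ε * (1 / (1 - q)) :=
      mul_le_mul_of_nonneg_right h4 hc2.le
    have h6 : 0 ≤ ρ / (ρ - 1) * (a ^ (1 - ε) * b ^ ε) := mul_nonneg hc1.le hX
    linarith
  · rcases ha.eq_or_lt with ha0 | ha0
    · -- the case `a = 0`
      have h3 : ∀ n, t n = 0 := fun n => by
        have := h2 n
        rw [← ha0, mul_zero] at this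
        exact abs_nonpos_iff.1 this
      have h4 : ∑' n, t n = 0 := by
        rw [tsum_congr h3, tsum_zero]
      rw [h4, abs_zero]
      exact mul_nonneg (by linarith) hX
    · -- the case `0 < a < b`
      have hb0 : 0 < b := ha0.trans hba
      have hx1 : 1 ≤ b / a := (one_le_div ha0).2 hba.le
      have hx0 : 0 < b / a := div_pos hb0 ha0
      obtain ⟨N, hN1, hN2⟩ := exists_nat_pow_near hx1 hR1
      have h3 := split_le hq0 hq1 h1 (N + 1)
      have hab : a * (b / a) ^ ε = a ^ (1 - ε) * b ^ ε := by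
        rw [Real.div_rpow hb ha, Real.rpow_sub ha0, Real.rpow_one]
        ring
      have hab2 : b * (b / a) ^ (ε - 1) = a ^ (1 - ε) * b ^ ε := by
        rw [Real.rpow_sub_one hx0.ne', ← hab]
        field_simp
      have h4 : ∑ n ∈ Finset.range (N + 1), |t n| ≤ ρ / (ρ - 1) * (a ^ (1 - ε) * b ^ ε) := by
        have h5 : ∑ n ∈ Finset.range (N + 1), |t n| ≤ ∑ n ∈ Finset.range (N + 1), ρ ^ n * a :=
          Finset.sum_le_sum fun n _ => h2 n
        rw [← Finset.sum_mul, geom_sum_eq hρ1.ne'] at h5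
        refine h5.trans ?_
        have h6 : ρ ^ N ≤ (b / a) ^ ε := by
          rw [hρ, rpow_nat hR0]
          exact Real.rpow_le_rpow (by positivity) hN1 hε.le
        have h7 : (ρ ^ (N + 1) - 1) / (ρ - 1) ≤ ρ / (ρ - 1) * (b / a) ^ ε := by
          rw [div_mul_eq_mul_div]
          refine div_le_div_of_nonneg_right ?_ (by linarith)
          rw [pow_succ]
          have := mul_le_mul_of_nonneg_left h6 (show 0 ≤ ρ by linarith)
          linarith
        calc (ρ ^ (N + 1) - 1) / (ρ - 1) * a ≤ ρ / (ρ - 1) * (b / a) ^ ε * a :=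
              mul_le_mul_of_nonneg_right h7 ha
          _ = ρ / (ρ - 1) * (a * (b / a) ^ ε) := by ring
          _ = _ := by rw [hab]
      have h5 : b * (q ^ (N + 1) / (1 - q)) ≤ 1 / (1 - q) * (a ^ (1 - ε) * b ^ ε) := by
        have h6 : q ^ (N + 1) ≤ (b / a) ^ (ε - 1) := by
          rw [hq, rpow_nat hR0]
          exact Real.rpow_le_rpow_of_nonpos hx0 hN2.le (by linarith)
        rw [← hab2]
        have h7 := mul_le_mul_of_nonneg_left h6 (mul_nonneg hb hc2.le)
        calc b * (q ^ (N + 1) / (1 - q)) = b * (1 / (1 - q)) * q ^ (N + 1) := by ring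
          _ ≤ b * (1 / (1 - q)) * (b / a) ^ (ε - 1) := h7
          _ = _ := by ring
      linarith

end Pool.Agent.N980.WX
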