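import Pool.Agent.N980.WX.Ord0

/-!
Project WX, leaf OR2: Hölder's inequality for a bounded integrable field.
-/

set_option autoImplicit false

open MeasureTheory Set Filter Topology
open scoped InnerProductSpace

namespace Pool.Agent.N980.WX

open H772R2.NS (E3 M3 IsTest jac)

namespace OR2

/-- the power of a bounded nonnegative number -/
theorem pow_bound {M q a : ℝ} (hq : 1 < q) (ha : 0 ≤ a) (haM : a ≤ M) :
    a ^ q ≤ M ^ (q - 1) * a := by
  rcases ha.eq_or_lt with h | h
  · rw [← h, Real.zero_rpow (by linarith), mul_zero]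
  · have h1 : a ^ q = a ^ (q - 1) * a := by
      conv_lhs => rw [show q = (q - 1) + 1 by ring]
      rw [Real.rpow_add h, Real.rpow_one]
    rw [h1]
    exact mul_le_mul_of_nonneg_right (Real.rpow_le_rpow ha haM (by linarith)) ha

/-- a continuous field is bounded on a bounded set -/
theorem bdd {B : Set E3} (hB : Bornology.IsBounded B) {w : E3 → E3} (hw : Continuous w) :
    ∃ C : ℝ, ∀ x ∈ B, ‖w x‖ ≤ C := by
  have h1 : IsCompact (closure B) := hB.isCompact_closure
  obtain ⟨C, hC⟩ := h1.exists_bound_of_continuousOn hw.continuousOn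
  exact ⟨C, fun x hx => hC x (subset_closure hx)⟩

end OR2

theorem or2 : S_hol := by
  intro B f w M L p hBm hB hp hf hfc hfM hfL hw
  set μ : Measure E3 := volume.restrict B with hμ
  have hfin : IsFiniteMeasure μ := ⟨by
    rw [hμ, Measure.restrict_apply_univ]
    exact hB.measure_lt_top⟩
  have hpq : p.HolderConjugate (p / (p - 1)) := Real.HolderConjugate.conjExponent hp
  set q : ℝ := p / (p - 1) with hq
  have hq1 : 1 < q := hpq.symm.lt
  have hp0 : 0 < p := by linarith
  have hq0 : 0 < q := by linarith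
  have hM : 0 ≤ M := (norm_nonneg _).trans (hfM 0)
  have hL : 0 ≤ L := (integral_nonneg fun x => norm_nonneg _).trans hfL
  have hfi : Integrable f := hf.integrable_of_hasCompactSupport hfc
  obtain ⟨C, hC⟩ := OR2.bdd hB hw
  have hwL : MemLp (fun x => ‖w x‖) (ENNReal.ofReal p) μ := by
    refine MemLp.of_bound hw.norm.aestronglyMeasurable C ?_
    rw [hμ, ae_restrict_iff' hBm]
    refine Eventually.of_forall fun x hx => ?_
    rw [norm_norm]
    exact hC x hx
  have hfLq : MemLp (fun x => ‖f x‖) (ENNReal.ofReal q) μ := by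
    refine MemLp.of_bound hf.norm.aestronglyMeasurable M ?_
    refine Eventually.of_forall fun x => ?_
    rw [norm_norm]
    exact hfM x
  have h1 : |∫ x in B, ⟪w x, f x⟫_ℝ| ≤ ∫ x, ‖w x‖ * ‖f x‖ ∂μ := by
    refine (abs_integral_le_integral_abs).trans ?_
    refine integral_mono_of_nonneg (Eventually.of_forall fun x => abs_nonneg _) ?_
      (Eventually.of_forall fun x => abs_real_inner_le_norm _ _)
    have h0 : Integrable (fun x => ‖w x‖ * ‖f x‖) :=
      (hw.norm.mul hf.norm).integrable_of_hasCompactSupport hfc.norm.mul_left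
    exact h0.restrict
  have h2 := integral_mul_le_Lp_mul_Lq_of_nonneg (μ := μ) hpq
    (f := fun x => ‖w x‖) (g := fun x => ‖f x‖)
    (Eventually.of_forall fun x => norm_nonneg _) (Eventually.of_forall fun x => norm_nonneg _)
    hwL hfLq
  have h3 : ∫ x, ‖f x‖ ^ q ∂μ ≤ M ^ (q - 1) * L := by
    have h4 : ∫ x, ‖f x‖ ^ q ∂μ ≤ ∫ x, M ^ (q - 1) * ‖f x‖ ∂μ := by
      refine integral_mono_of_nonneg
        (Eventually.of_forall fun x => Real.rpow_nonneg (norm_nonneg _) _) ?_
        (Eventually.of_forall fun x => OR2.pow_bound hq1 (norm_nonneg _) (hfM x))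
      exact (hfi.norm.restrict).const_mul _
    refine h4.trans ?_
    rw [integral_const_mul]
    refine mul_le_mul_of_nonneg_left ?_ (Real.rpow_nonneg hM _)
    refine le_trans ?_ hfL
    exact setIntegral_le_integral hfi.norm (Eventually.of_forall fun x => norm_nonneg _)
  have h5 : (∫ x, ‖f x‖ ^ q ∂μ) ^ (1 / q) ≤ M ^ (1 / p) * L ^ (1 - 1 / p) := by
    have h6 : (∫ x, ‖f x‖ ^ q ∂μ) ^ (1 / q) ≤ (M ^ (q - 1) * L) ^ (1 / q) :=
      Real.rpow_le_rpow (integral_nonneg fun x => Real.rpow_nonneg (norm_nonneg _) _) h3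
        (by positivity)
    refine h6.trans (le_of_eq ?_)
    rw [Real.mul_rpow (Real.rpow_nonneg hM _) hL, ← Real.rpow_mul hM]
    have h7 : 1 / p + 1 / q = 1 := by
      have := hpq.inv_add_inv_eq_one
      simpa [one_div] using this
    have h8 : (q - 1) * (1 / q) = 1 / p := by
      have : (q - 1) * (1 / q) = 1 - 1 / q := by field_simp
      rw [this]
      linarith
    have h9 : 1 / q = 1 - 1 / p := by linarith
    rw [h8, h9]
  refine h1.trans (h2.trans ?_)
  exact mul_le_mul_of_nonneg_left h5
    (Real.rpow_nonneg (integral_nonneg fun x => Real.rpow_nonneg (norm_nonneg _) _) _)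

end Pool.Agent.N980.WX
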