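import Pool.Agent.N980.WX.Pck2

/-!
Packets with compact support in a ball: the one-dimensional factors (helper835).
-/

open MeasureTheory Set Filter Topology
open scoped InnerProductSpace ContDiff

set_option autoImplicit false

namespace Pool.Agent.N980.WX

namespace PK1

/-- the bump -/
noncomputable def bb (t : ℝ) : ℝ := expNegInvGlue t * expNegInvGlue (1 - t)

/-- its derivatives -/
noncomputable def be (j : ℕ) : ℝ → ℝ := deriv^[j] bb

theorem bb_sm : ContDiff ℝ ∞ bb := by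
  unfold bb
  exact expNegInvGlue.contDiff.mul (expNegInvGlue.contDiff.comp (contDiff_const.sub contDiff_id))

theorem be_sm (j : ℕ) : ContDiff ℝ ∞ (be j) := bb_sm.iterate_deriv j

theorem be_dv (j : ℕ) (t : ℝ) : HasDerivAt (be j) (be (j + 1) t) t := by
  have h := ((be_sm j).differentiable (by simp) t).hasDerivAt
  have e : be (j + 1) = deriv (be j) := by
    unfold be
    rw [Function.iterate_succ']
    rfl
  rw [e]
  exact h

theorem zero_left {f : ℝ → ℝ} {f' t : ℝ} (h : HasDerivAt f f' t) (h0 : ∀ s ≤ t, f s = 0) :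
    f' = 0 := by
  have h1 : HasDerivWithinAt f f' (Iic t) t := h.hasDerivWithinAt
  have h2 : HasDerivWithinAt f 0 (Iic t) t :=
    (hasDerivWithinAt_const t (Iic t) (0 : ℝ)).congr (fun s hs => h0 s hs) (h0 t le_rfl)
  exact (uniqueDiffWithinAt_Iic t).eq_deriv _ h1 h2

theorem zero_right {f : ℝ → ℝ} {f' t : ℝ} (h : HasDerivAt f f' t) (h0 : ∀ s ≥ t, f s = 0) :
    f' = 0 := by
  have h1 : HasDerivWithinAt f f' (Ici t) t := h.hasDerivWithinAt
  have h2 : HasDerivWithinAt f 0 (Ici t) t :=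
    (hasDerivWithinAt_const t (Ici t) (0 : ℝ)).congr (fun s hs => h0 s hs) (h0 t le_rfl)
  exact (uniqueDiffWithinAt_Ici t).eq_deriv _ h1 h2

theorem be_left (j : ℕ) : ∀ t ≤ 0, be j t = 0 := by
  induction j with
  | zero =>
    intro t ht
    show bb t = 0
    unfold bb
    rw [expNegInvGlue.zero_of_nonpos ht, zero_mul]
  | succ j ih =>
    intro t ht
    exact zero_left (be_dv j t) fun s hs => ih s (hs.trans ht)

theorem be_right (j : ℕ) : ∀ t ≥ 1, be j t = 0 := by
  induction j with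
  | zero =>
    intro t ht
    show bb t = 0
    unfold bb
    rw [expNegInvGlue.zero_of_nonpos (show 1 - t ≤ 0 by linarith), mul_zero]
  | succ j ih =>
    intro t ht
    exact zero_right (be_dv j t) fun s hs => ih s (le_trans ht hs)

theorem be_out (j : ℕ) {t : ℝ} (ht : t ∉ Ioo (0 : ℝ) 1) : be j t = 0 := by
  rcases le_or_gt t 0 with h | h
  · exact be_left j t h
  · exact be_right j t (not_lt.1 fun h1 => ht ⟨h, h1⟩)

theorem be_bdd (j : ℕ) : ∃ M : ℝ, 0 ≤ M ∧ ∀ t, |be j t| ≤ M := by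
  obtain ⟨M, hM⟩ := isCompact_Icc.exists_bound_of_continuousOn (s := Icc (0 : ℝ) 1)
    (be_sm j).continuous.continuousOn
  refine ⟨M, (norm_nonneg _).trans (hM 0 ⟨le_rfl, zero_le_one⟩), fun t => ?_⟩
  by_cases ht : t ∈ Ioo (0 : ℝ) 1
  · exact hM t ⟨ht.1.le, ht.2.le⟩
  · rw [be_out j ht, abs_zero]
    exact (norm_nonneg _).trans (hM 0 ⟨le_rfl, zero_le_one⟩)

theorem bb_cs : HasCompactSupport bb := by
  refine HasCompactSupport.intro (K := Icc (0 : ℝ) 1) isCompact_Icc fun t ht => ?_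
  exact be_out 0 fun h => ht ⟨h.1.le, h.2.le⟩

theorem bb_pos : 0 < ∫ t, bb t ^ 2 := by
  refine Continuous.integral_pos_of_hasCompactSupport_nonneg_nonzero (x := (1 / 2 : ℝ))
    (bb_sm.continuous.pow 2) ?_ (fun t => sq_nonneg _) ?_
  · exact bb_cs.comp_left (g := fun x : ℝ => x ^ 2) (by simp)
  · have h1 : 0 < bb (1 / 2) := by
      unfold bb
      exact mul_pos (expNegInvGlue.pos_of_pos (by norm_num)) (expNegInvGlue.pos_of_pos (by norm_num))
    positivity

/-- the derivatives of `cos (k t) b (t / w)`, `sin (k t) b (t / w)` -/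
noncomputable def cs (k w : ℝ) : ℕ → ℕ → ℝ → ℝ × ℝ
  | 0, i, t => (Real.cos (k * t) * (be i (t / w) / w ^ i), Real.sin (k * t) * (be i (t / w) / w ^ i))
  | j + 1, i, t => (-k * (cs k w j i t).2 + (cs k w j (i + 1) t).1,
      k * (cs k w j i t).1 + (cs k w j (i + 1) t).2)

theorem div_sm (w : ℝ) (i : ℕ) : ContDiff ℝ ∞ fun t : ℝ => be i (t / w) / w ^ i :=
  ((be_sm i).comp (contDiff_id.div_const w)).div_const _

theorem cs_sm (k w : ℝ) (j : ℕ) : ∀ i, ContDiff ℝ ∞ (fun t => (cs k w j i t).1) ∧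
    ContDiff ℝ ∞ (fun t => (cs k w j i t).2) := by
  induction j with
  | zero =>
    intro i
    constructor
    · exact (Real.contDiff_cos.comp (contDiff_const.mul contDiff_id)).mul (div_sm w i)
    · exact (Real.contDiff_sin.comp (contDiff_const.mul contDiff_id)).mul (div_sm w i)
  | succ j ih =>
    intro i
    constructor
    · exact (contDiff_const.mul (ih i).2).add (ih (i + 1)).1
    · exact (contDiff_const.mul (ih i).1).add (ih (i + 1)).2

theorem div_dv {w : ℝ} (hw : w ≠ 0) (i : ℕ) (t : ℝ) :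
    HasDerivAt (fun t : ℝ => be i (t / w) / w ^ i) (be (i + 1) (t / w) / w ^ (i + 1)) t := by
  have h1 : HasDerivAt (fun t : ℝ => t / w) (1 / w) t := (hasDerivAt_id t).div_const w
  have h2 := ((be_dv i (t / w)).comp t h1).div_const (w ^ i)
  refine h2.congr_deriv ?_
  rw [pow_succ]
  field_simp

theorem cs_dv (k : ℝ) {w : ℝ} (hw : w ≠ 0) (j : ℕ) : ∀ i t,
    HasDerivAt (fun t => (cs k w j i t).1) (cs k w (j + 1) i t).1 t ∧
    HasDerivAt (fun t => (cs k w j i t).2) (cs k w (j + 1) i t).2 t := by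
  induction j with
  | zero =>
    intro i t
    have h0 : HasDerivAt (fun t : ℝ => k * t) k t := by
      simpa using (hasDerivAt_id t).const_mul k
    have h1 := div_dv hw i t
    constructor
    · refine ((h0.cos).mul h1).congr_deriv ?_
      simp only [cs]
      ring
    · refine ((h0.sin).mul h1).congr_deriv ?_
      simp only [cs]
      ring
  | succ j ih =>
    intro i t
    constructor
    · exact ((ih i t).2.const_mul (-k)).add (ih (i + 1) t).1
    · exact ((ih i t).1.const_mul k).add (ih (i + 1) t).2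

theorem cs_out (k : ℝ) {w : ℝ} (j : ℕ) : ∀ i t, t / w ∉ Ioo (0 : ℝ) 1 → cs k w j i t = 0 := by
  induction j with
  | zero =>
    intro i t ht
    simp only [cs]
    rw [be_out i ht]
    simp
  | succ j ih =>
    intro i t ht
    simp only [cs]
    rw [ih i t ht, ih (i + 1) t ht]
    simp

theorem cs_bd {k w M : ℝ} (hw : 0 < w) (hk : 1 ≤ k * w) {n : ℕ}
    (hM : ∀ i ≤ n, ∀ t, |be i t| ≤ M) (j : ℕ) : ∀ i, j + i ≤ n → ∀ t,
    |(cs k w j i t).1| ≤ (2 * k) ^ j * (M / w ^ i) ∧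
    |(cs k w j i t).2| ≤ (2 * k) ^ j * (M / w ^ i) := by
  have hk0 : 0 < k := by
    by_contra h
    nlinarith
  have hwk : 1 / w ≤ k := by rw [div_le_iff₀ hw]; exact hk
  induction j with
  | zero =>
    intro i hi t
    have h1 : |be i (t / w) / w ^ i| ≤ M / w ^ i := by
      rw [abs_div, abs_of_pos (pow_pos hw i)]
      exact div_le_div_of_nonneg_right (hM i (by omega) _) (pow_pos hw i).le
    simp only [cs, pow_zero, one_mul]
    constructor
    · rw [abs_mul]
      exact (mul_le_of_le_one_left (abs_nonneg _) (Real.abs_cos_le_one _)).trans h1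
    · rw [abs_mul]
      exact (mul_le_of_le_one_left (abs_nonneg _) (Real.abs_sin_le_one _)).trans h1
  | succ j ih =>
    intro i hi t
    obtain ⟨a1, a2⟩ := ih i (by omega) t
    obtain ⟨b1, b2⟩ := ih (i + 1) (by omega) t
    have hM0 : 0 ≤ M := (abs_nonneg _).trans (hM 0 (by omega) 0)
    have hb : (2 * k) ^ j * (M / w ^ (i + 1)) ≤ k * ((2 * k) ^ j * (M / w ^ i)) := by
      have e : (2 * k) ^ j * (M / w ^ (i + 1)) = 1 / w * ((2 * k) ^ j * (M / w ^ i)) := by
        rw [pow_succ]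
        field_simp
      rw [e]
      exact mul_le_mul_of_nonneg_right hwk (by positivity)
    have hs : (2 * k) ^ (j + 1) * (M / w ^ i)
        = k * ((2 * k) ^ j * (M / w ^ i)) + k * ((2 * k) ^ j * (M / w ^ i)) := by
      rw [pow_succ]; ring
    simp only [cs]
    rw [hs]
    constructor
    · refine (abs_add_le _ _).trans (add_le_add ?_ (b1.trans hb))
      rw [abs_mul, abs_neg, abs_of_pos hk0]
      exact mul_le_mul_of_nonneg_left a2 hk0.le
    · refine (abs_add_le _ _).trans (add_le_add ?_ (b2.trans hb))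
      rw [abs_mul, abs_of_pos hk0]
      exact mul_le_mul_of_nonneg_left a1 hk0.le

theorem cs_e {k w M : ℝ} (hw : 0 < w) (hk : 1 ≤ k * w) {n : ℕ}
    (hM : ∀ i ≤ n, ∀ t, |be i t| ≤ M) (j : ℕ) (hj : j + 2 ≤ n) (t : ℝ) :
    |(cs k w (j + 2) 0 t).1 + k ^ 2 * (cs k w j 0 t).1| ≤ 3 * 2 ^ j * M * k ^ (j + 1) / w ∧
    |(cs k w (j + 2) 0 t).2 + k ^ 2 * (cs k w j 0 t).2| ≤ 3 * 2 ^ j * M * k ^ (j + 1) / w := by
  have hk0 : 0 < k := by
    by_contra h
    nlinarith
  obtain ⟨a1, a2⟩ := cs_bd hw hk hM j 1 (by omega) t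
  obtain ⟨b1, b2⟩ := cs_bd hw hk hM (j + 1) 1 (by omega) t
  have hs : 3 * 2 ^ j * M * k ^ (j + 1) / w
      = k * ((2 * k) ^ j * (M / w ^ 1)) + (2 * k) ^ (j + 1) * (M / w ^ 1) := by
    have e1 : (2 * k) ^ (j + 1) = 2 * 2 ^ j * k ^ (j + 1) := by
      rw [mul_pow, pow_succ (2 : ℝ)]; ring
    rw [e1, mul_pow, pow_one, pow_succ k j]
    ring
  rw [hs]
  constructor
  · have e : (cs k w (j + 2) 0 t).1 + k ^ 2 * (cs k w j 0 t).1
        = -k * (cs k w j 1 t).2 + (cs k w (j + 1) 1 t).1 := by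
      simp only [cs]
      ring
    rw [e]
    refine (abs_add_le _ _).trans (add_le_add ?_ b1)
    rw [abs_mul, abs_neg, abs_of_pos hk0]
    exact mul_le_mul_of_nonneg_left a2 hk0.le
  · have e : (cs k w (j + 2) 0 t).2 + k ^ 2 * (cs k w j 0 t).2
        = k * (cs k w j 1 t).1 + (cs k w (j + 1) 1 t).2 := by
      simp only [cs]
      ring
    rw [e]
    refine (abs_add_le _ _).trans (add_le_add ?_ b2)
    rw [abs_mul, abs_of_pos hk0]
    exact mul_le_mul_of_nonneg_left a1 hk0.le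

theorem cs_int (k : ℝ) {w : ℝ} (hw : 0 < w) :
    Integrable (fun t => (cs k w 1 0 t).1 ^ 2) ∧ Integrable (fun t => (cs k w 1 0 t).2 ^ 2) := by
  have hout : ∀ t, t ∉ Icc 0 w → cs k w 1 0 t = 0 := by
    intro t ht
    refine cs_out k 1 0 t fun h => ht ⟨?_, ?_⟩
    · have := (div_pos_iff_of_pos_right hw).1 h.1
      exact this.le
    · exact ((div_lt_one hw).1 h.2).le
  constructor
  · refine Continuous.integrable_of_hasCompactSupport ((cs_sm k w 1 0).1.continuous.pow 2) ?_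
    refine HasCompactSupport.intro (K := Icc 0 w) isCompact_Icc fun t ht => ?_
    rw [hout t ht]
    simp
  · refine Continuous.integrable_of_hasCompactSupport ((cs_sm k w 1 0).2.continuous.pow 2) ?_
    refine HasCompactSupport.intro (K := Icc 0 w) isCompact_Icc fun t ht => ?_
    rw [hout t ht]
    simp

theorem int_div {w : ℝ} (hw : 0 < w) : ∫ t, bb (t / w) ^ 2 = w * ∫ t, bb t ^ 2 := by
  have h := Measure.integral_comp_div (fun t => bb t ^ 2) w
  rw [abs_of_pos hw, smul_eq_mul] at h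
  exact h

theorem int_div' {w : ℝ} (hw : 0 < w) : ∫ t, bb (t / w - 1) ^ 2 = w * ∫ t, bb t ^ 2 := by
  have h := Measure.integral_comp_div (fun t => bb (t - 1) ^ 2) w
  rw [abs_of_pos hw, smul_eq_mul, integral_sub_right_eq_self (fun t => bb t ^ 2) (1 : ℝ)] at h
  exact h

theorem cs_low (k : ℝ) {w : ℝ} (hw : 0 < w) :
    k ^ 2 * (w * ∫ t, bb t ^ 2) ≤ (∫ t, (cs k w 1 0 t).1 ^ 2) + ∫ t, (cs k w 1 0 t).2 ^ 2 := by
  obtain ⟨i1, i2⟩ := cs_int k hw
  rw [← integral_add i1 i2, ← int_div hw, ← integral_const_mul]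
  have hi : Integrable fun t => k ^ 2 * bb (t / w) ^ 2 := by
    refine Continuous.integrable_of_hasCompactSupport
      (continuous_const.mul ((bb_sm.continuous.comp (continuous_id.div_const w)).pow 2)) ?_
    refine HasCompactSupport.intro (K := Icc 0 w) isCompact_Icc fun t ht => ?_
    have : bb (t / w) = 0 := be_out 0 fun h => ht
      ⟨((div_pos_iff_of_pos_right hw).1 h.1).le, ((div_lt_one hw).1 h.2).le⟩
    simp [this]
  refine integral_mono hi (i1.add i2) fun t => ?_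
  have e : (cs k w 1 0 t).1 ^ 2 + (cs k w 1 0 t).2 ^ 2
      = (Real.sin (k * t) ^ 2 + Real.cos (k * t) ^ 2) * (k ^ 2 * bb (t / w) ^ 2
        + (be 1 (t / w) / w ^ 1) ^ 2) := by
    simp only [cs]
    have : be 0 (t / w) / w ^ 0 = bb (t / w) := by
      rw [pow_zero, div_one]; rfl
    rw [this]
    ring
  show k ^ 2 * bb (t / w) ^ 2 ≤ (cs k w 1 0 t).1 ^ 2 + (cs k w 1 0 t).2 ^ 2
  rw [e, Real.sin_sq_add_cos_sq, one_mul]
  linarith [sq_nonneg (be 1 (t / w) / w ^ 1)]

theorem ch1 {w : ℝ} (hw : 0 < w) : Ch w (2 * w) fun j t => be j (t / w - 1) / w ^ j where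
  sm j := ((be_sm j).comp ((contDiff_id.div_const w).sub contDiff_const)).div_const _
  dv j t := by
    have h1 : HasDerivAt (fun t : ℝ => t / w - 1) (1 / w) t :=
      ((hasDerivAt_id t).div_const w).sub_const 1
    have h2 := ((be_dv j (t / w - 1)).comp t h1).div_const (w ^ j)
    refine h2.congr_deriv ?_
    have := hw.ne'
    rw [pow_succ]
    field_simp
  out j t ht := by
    have : be j (t / w - 1) = 0 := by
      refine be_out j fun h => ht ⟨?_, ?_⟩
      · have h1 := h.1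
        rw [sub_pos, lt_div_iff₀ hw] at h1
        linarith
      · have h1 : t / w < 2 := by linarith [h.2]
        rw [div_lt_iff₀ hw] at h1
        exact h1
    simp [this]

theorem ch2 : Ch 0 1 be where
  sm j := be_sm j
  dv j t := be_dv j t
  out j _ ht := be_out j ht

theorem ch01 (k : ℝ) {w : ℝ} (hw : 0 < w) : Ch 0 w fun j t => (cs k w j 0 t).1 where
  sm j := (cs_sm k w j 0).1
  dv j t := (cs_dv k hw.ne' j 0 t).1
  out j t ht := by
    have := cs_out k (w := w) j 0 t fun h => ht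
      ⟨(div_pos_iff_of_pos_right hw).1 h.1, (div_lt_one hw).1 h.2⟩
    simp [this]

theorem ch02 (k : ℝ) {w : ℝ} (hw : 0 < w) : Ch 0 w fun j t => (cs k w j 0 t).2 where
  sm j := (cs_sm k w j 0).2
  dv j t := (cs_dv k hw.ne' j 0 t).2
  out j t ht := by
    have := cs_out k (w := w) j 0 t fun h => ht
      ⟨(div_pos_iff_of_pos_right hw).1 h.1, (div_lt_one hw).1 h.2⟩
    simp [this]

end PK1

open PK1 in
/-- (PK1) -/
theorem pk1 : S_one := by
  choose M hM0 hM using be_bdd
  obtain ⟨m, hm⟩ : ∃ m, m = ∑ i ∈ Finset.range 7, M i := ⟨_, rfl⟩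
  have hm0 : 0 ≤ m := by rw [hm]; exact Finset.sum_nonneg fun i _ => hM0 i
  have hb : ∀ i ≤ 6, ∀ t, |be i t| ≤ m := fun i hi t => by
    rw [hm]
    exact (hM i t).trans (Finset.single_le_sum (f := M) (fun i _ => hM0 i)
      (Finset.mem_range.2 (by omega)))
  obtain ⟨I, hI⟩ : ∃ I, I = ∫ t, bb t ^ 2 := ⟨_, rfl⟩
  have hI0 : 0 < I := by rw [hI]; exact bb_pos
  refine ⟨64 * m + 1, I / 2, 1, by linarith, by linarith, le_rfl, fun k w hw hw1 hk => ?_⟩
  have hk0 : 0 < k := by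
    by_contra h
    nlinarith
  have p2 : ∀ j ≤ 6, (2 : ℝ) ^ j ≤ 64 := fun j hj => by
    calc (2 : ℝ) ^ j ≤ 2 ^ 6 := pow_le_pow_right₀ (by norm_num) hj
      _ = 64 := by norm_num
  have key0 : ∀ j ≤ 6, ∀ x : ℝ, |x| ≤ (2 * k) ^ j * (m / w ^ 0) → |x| ≤ (64 * m + 1) * k ^ j := by
    intro j hj x hx
    refine hx.trans ?_
    rw [pow_zero, div_one, mul_pow]
    have h1 := p2 j hj
    have h2 : 0 < k ^ j := pow_pos hk0 j
    have h3 : (2 : ℝ) ^ j * m ≤ 64 * m := mul_le_mul_of_nonneg_right h1 hm0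
    nlinarith
  have keye : ∀ j ≤ 4, ∀ x : ℝ, |x| ≤ 3 * 2 ^ j * m * k ^ (j + 1) / w →
      |x| ≤ (64 * m + 1) * k ^ (j + 1) / w := by
    intro j hj x hx
    refine hx.trans (div_le_div_of_nonneg_right ?_ hw.le)
    have h1 : (2 : ℝ) ^ j ≤ 16 := by
      calc (2 : ℝ) ^ j ≤ 2 ^ 4 := pow_le_pow_right₀ (by norm_num) hj
        _ = 16 := by norm_num
    have h2 : 0 < k ^ (j + 1) := pow_pos hk0 _
    have h3 : (2 : ℝ) ^ j * m ≤ 16 * m := mul_le_mul_of_nonneg_right h1 hm0
    refine mul_le_mul_of_nonneg_right ?_ h2.le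
    linarith
  have hlow := cs_low k hw
  rw [← hI] at hlow
  have hb1 : ∀ j ≤ 6, ∀ t, |be j (t / w - 1) / w ^ j| ≤ (64 * m + 1) / w ^ j := by
    intro j hj t
    rw [abs_div, abs_of_pos (pow_pos hw j)]
    exact div_le_div_of_nonneg_right ((hb j hj _).trans (by linarith)) (pow_pos hw j).le
  have hb2 : ∀ j ≤ 6, ∀ t, |be j t| ≤ 64 * m + 1 := fun j hj t =>
    (hb j hj t).trans (by linarith)
  have hl1 : I / 2 * w ≤ ∫ t, (be 0 (t / w - 1) / w ^ 0) ^ 2 := by
    have e : (fun t => (be 0 (t / w - 1) / w ^ 0) ^ 2) = fun t => bb (t / w - 1) ^ 2 := by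
      funext t
      rw [pow_zero, div_one]
      rfl
    rw [e, int_div' hw, ← hI]
    nlinarith
  have hl2 : I / 2 ≤ ∫ t, be 0 t ^ 2 := by
    have e : (fun t => be 0 t ^ 2) = fun t => bb t ^ 2 := rfl
    rw [e, ← hI]
    linarith
  rcases le_total (∫ t, (cs k w 1 0 t).2 ^ 2) (∫ t, (cs k w 1 0 t).1 ^ 2) with h | h
  · refine ⟨fun j t => (cs k w j 0 t).1, fun j t => be j (t / w - 1) / w ^ j, be, ?_⟩
    exact
    { c0 := ch01 k hw
      c1 := ch1 hw
      c2 := ch2
      b0 := fun j hj t => key0 j hj _ (cs_bd hw hk hb j 0 (by omega) t).1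
      b1 := hb1
      b2 := hb2
      e0 := fun j hj t => keye j hj _ (cs_e hw hk hb j (by omega) t).1
      l0 := by
        show I / 2 * k ^ 2 * w ≤ ∫ t, (cs k w 1 0 t).1 ^ 2
        nlinarith
      l1 := hl1
      l2 := hl2 }
  · refine ⟨fun j t => (cs k w j 0 t).2, fun j t => be j (t / w - 1) / w ^ j, be, ?_⟩
    exact
    { c0 := ch02 k hw
      c1 := ch1 hw
      c2 := ch2
      b0 := fun j hj t => key0 j hj _ (cs_bd hw hk hb j 0 (by omega) t).2
      b1 := hb1
      b2 := hb2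
      e0 := fun j hj t => keye j hj _ (cs_e hw hk hb j (by omega) t).2
      l0 := by
        show I / 2 * k ^ 2 * w ≤ ∫ t, (cs k w 1 0 t).2 ^ 2
        nlinarith
      l1 := hl1
      l2 := hl2 }

end Pool.Agent.N980.WX
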