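import Pool.Agent.N980.WX.Pck2

/-!
PK2 (helper50): curls, divergence and supports of the packets.
-/

open MeasureTheory Set Filter Topology
open scoped InnerProductSpace ContDiff

set_option autoImplicit false

namespace Pool.Agent.N980.WX

open H772R2.NS (E3 M3 IsTest jac)

namespace PK2

/-- the coordinates -/
noncomputable abbrev pr (i : Fin 3) : E3 →L[ℝ] ℝ := EuclideanSpace.proj i

/-- `f` has the partial derivatives `f0`, `f1`, `f2` at `x` -/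
def PD (f : E3 → ℝ) (f0 f1 f2 : ℝ) (x : E3) : Prop :=
  HasFDerivAt f (f0 • pr 0 + f1 • pr 1 + f2 • pr 2) x

lemma PD.add {f g : E3 → ℝ} {f0 f1 f2 g0 g1 g2 : ℝ} {x : E3} (hf : PD f f0 f1 f2 x)
    (hg : PD g g0 g1 g2 x) : PD (fun y => f y + g y) (f0 + g0) (f1 + g1) (f2 + g2) x := by
  unfold PD at *
  refine (hf.add hg).congr_fderiv ?_
  ext v
  simp
  ring

lemma PD.neg {f : E3 → ℝ} {f0 f1 f2 : ℝ} {x : E3} (hf : PD f f0 f1 f2 x) :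
    PD (fun y => -f y) (-f0) (-f1) (-f2) x := by
  unfold PD at *
  refine hf.neg.congr_fderiv ?_
  ext v
  simp
  ring

lemma PD.zero (x : E3) : PD (fun _ => 0) 0 0 0 x := by
  unfold PD
  refine (hasFDerivAt_const (0 : ℝ) x).congr_fderiv ?_
  ext v
  simp

section mp

variable {D0 D1 D2 : ℕ → ℝ → ℝ} {x₀ : E3} {ρ : ℝ}

lemma fac {a b : ℝ} {D : ℕ → ℝ → ℝ} (h : Ch a b D) (i : Fin 3) (j : ℕ) (x : E3) :
    HasFDerivAt (fun y : E3 => D j ((y i - x₀ i) / ρ)) ((D (j + 1) ((x i - x₀ i) / ρ) * ρ⁻¹) • pr i) x := by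
  have h1 : HasFDerivAt (fun y : E3 => (y i - x₀ i) / ρ) (ρ⁻¹ • pr i) x := by
    have h2 := (((pr i).hasFDerivAt (x := x)).sub_const (x₀ i)).const_mul ρ⁻¹
    have e : (fun y : E3 => (y i - x₀ i) / ρ) = fun y : E3 => ρ⁻¹ * ((pr i) y - x₀ i) := by
      funext y
      rw [div_eq_inv_mul]
      rfl
    rw [e]
    exact h2
  have h3 := (h.dv j ((x i - x₀ i) / ρ)).comp_hasFDerivAt x h1
  refine h3.congr_fderiv ?_
  rw [smul_smul]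

/-- the partial derivatives of the products -/
lemma pd_mp {l0 r0 l1 r1 l2 r2 : ℝ} (h0 : Ch l0 r0 D0) (h1 : Ch l1 r1 D1) (h2 : Ch l2 r2 D2)
    (a b c : ℕ) (x : E3) : PD (Mp D0 D1 D2 x₀ ρ a b c) (ρ⁻¹ * Mp D0 D1 D2 x₀ ρ (a + 1) b c x)
      (ρ⁻¹ * Mp D0 D1 D2 x₀ ρ a (b + 1) c x) (ρ⁻¹ * Mp D0 D1 D2 x₀ ρ a b (c + 1) x) x := by
  unfold PD
  have h := ((fac (x₀ := x₀) (ρ := ρ) h0 0 a x).mul (fac (x₀ := x₀) (ρ := ρ) h1 1 b x)).mul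
    (fac (x₀ := x₀) (ρ := ρ) h2 2 c x)
  refine HasFDerivAt.congr_fderiv (f := Mp D0 D1 D2 x₀ ρ a b c) h ?_
  ext v
  simp only [Mp, add_apply, smul_apply, smul_eq_mul, Pi.mul_apply]
  ring

lemma mp_smooth {l0 r0 l1 r1 l2 r2 : ℝ} (h0 : Ch l0 r0 D0) (h1 : Ch l1 r1 D1) (h2 : Ch l2 r2 D2)
    (a b c : ℕ) : ContDiff ℝ ∞ (Mp D0 D1 D2 x₀ ρ a b c) := by
  have hi : ∀ i : Fin 3, ContDiff ℝ ∞ (fun y : E3 => (y i - x₀ i) / ρ) := by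
    intro i
    exact (((pr i).contDiff).sub contDiff_const).div_const ρ
  exact (((h0.sm a).comp (hi 0)).mul ((h1.sm b).comp (hi 1))).mul ((h2.sm c).comp (hi 2))

lemma mp_zero0 {l0 r0 : ℝ} (h0 : Ch l0 r0 D0) (a b c : ℕ) {x : E3}
    (hx : (x 0 - x₀ 0) / ρ ∉ Ioo l0 r0) : Mp D0 D1 D2 x₀ ρ a b c x = 0 := by
  unfold Mp
  rw [h0.out a _ hx, zero_mul, zero_mul]

lemma mp_zero1 {l1 r1 : ℝ} (h1 : Ch l1 r1 D1) (a b c : ℕ) {x : E3}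
    (hx : (x 1 - x₀ 1) / ρ ∉ Ioo l1 r1) : Mp D0 D1 D2 x₀ ρ a b c x = 0 := by
  unfold Mp
  rw [h1.out b _ hx, mul_zero, zero_mul]

lemma mp_zero2 {l2 r2 : ℝ} (h2 : Ch l2 r2 D2) (a b c : ℕ) {x : E3}
    (hx : (x 2 - x₀ 2) / ρ ∉ Ioo l2 r2) : Mp D0 D1 D2 x₀ ρ a b c x = 0 := by
  unfold Mp
  rw [h2.out c _ hx, mul_zero]

end mp

/-! ### vector fields -/

lemma vv_ap (a b c : ℝ) : (vv a b c) 0 = a ∧ (vv a b c) 1 = b ∧ (vv a b c) 2 = c := ⟨rfl, rfl, rfl⟩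

lemma vv_zero : vv 0 0 0 = 0 := by
  ext i
  fin_cases i <;> rfl

/-- the derivative of a vector field -/
noncomputable def Lv (α : ℝ) (F G H : E3 →L[ℝ] ℝ) : E3 →L[ℝ] E3 :=
  α • (((EuclideanSpace.equiv (Fin 3) ℝ).symm : (Fin 3 → ℝ) →L[ℝ] E3).comp
    (ContinuousLinearMap.pi ![F, G, H]))

lemma Lv_ap (α : ℝ) (F G H : E3 →L[ℝ] ℝ) (v : E3) : Lv α F G H v = α • vv (F v) (G v) (H v) := by
  unfold Lv
  rw [smul_apply]
  congr 1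
  ext i
  fin_cases i <;> rfl

lemma hasF_vv {α : ℝ} {f g h : E3 → ℝ} {F G H : E3 →L[ℝ] ℝ} {x : E3} (hf : HasFDerivAt f F x)
    (hg : HasFDerivAt g G x) (hh : HasFDerivAt h H x) :
    HasFDerivAt (fun y => α • vv (f y) (g y) (h y)) (Lv α F G H) x := by
  unfold Lv
  refine HasFDerivAt.const_smul ?_ α
  have h1 : HasFDerivAt (fun y => (![f y, g y, h y] : Fin 3 → ℝ)) (ContinuousLinearMap.pi ![F, G, H]) x := by
    rw [hasFDerivAt_pi]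
    intro i
    fin_cases i
    · exact hf
    · exact hg
    · exact hh
  exact (((EuclideanSpace.equiv (Fin 3) ℝ).symm : (Fin 3 → ℝ) →L[ℝ] E3).hasFDerivAt).comp x h1

section field

variable {α : ℝ} {f g h : E3 → ℝ} {f0 f1 f2 g0 g1 g2 h0 h1 h2 : ℝ} {x : E3}

lemma fd_eq (hf : PD f f0 f1 f2 x) (hg : PD g g0 g1 g2 x) (hh : PD h h0 h1 h2 x) :
    fderiv ℝ (fun y => α • vv (f y) (g y) (h y)) x =
      Lv α (f0 • pr 0 + f1 • pr 1 + f2 • pr 2) (g0 • pr 0 + g1 • pr 1 + g2 • pr 2)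
        (h0 • pr 0 + h1 • pr 1 + h2 • pr 2) := (hasF_vv hf hg hh).fderiv

lemma crl_eq (hf : PD f f0 f1 f2 x) (hg : PD g g0 g1 g2 x) (hh : PD h h0 h1 h2 x) :
    crl (fun y => α • vv (f y) (g y) (h y)) x = α • vv (h1 - g2) (f2 - h0) (g0 - f1) := by
  unfold crl jac
  rw [fd_eq hf hg hh]
  ext i
  fin_cases i <;>
  simp [Lv_ap, vv] <;> ring

lemma div_eq (hf : PD f f0 f1 f2 x) (hg : PD g g0 g1 g2 x) (hh : PD h h0 h1 h2 x) :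
    ∑ i, jac (fun y => α • vv (f y) (g y) (h y)) x (i, i) = α * (f0 + g1 + h2) := by
  unfold jac
  rw [fd_eq hf hg hh, Fin.sum_univ_three]
  simp [Lv_ap, vv]
  ring

end field

lemma smooth_vv {α : ℝ} {f g h : E3 → ℝ} (hf : ContDiff ℝ ∞ f) (hg : ContDiff ℝ ∞ g)
    (hh : ContDiff ℝ ∞ h) : ContDiff ℝ ∞ (fun y => α • vv (f y) (g y) (h y)) := by
  have h1 : ContDiff ℝ ∞ (fun y => (![f y, g y, h y] : Fin 3 → ℝ)) := by
    rw [contDiff_pi]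
    intro i
    fin_cases i
    · exact hf
    · exact hg
    · exact hh
  have h2 : ContDiff ℝ ∞ (fun y => vv (f y) (g y) (h y)) :=
    (((EuclideanSpace.equiv (Fin 3) ℝ).symm : (Fin 3 → ℝ) →L[ℝ] E3).contDiff).comp h1
  exact h2.const_smul α

lemma bx_compact (x₀ : E3) {ρ : ℝ} (hρ : 0 < ρ) (w : ℝ) : IsCompact (Bx x₀ ρ w) := by
  have e : Bx x₀ ρ w = (EuclideanSpace.equiv (Fin 3) ℝ).toHomeomorph ⁻¹'
      (Set.univ.pi ![Icc (x₀ 0) (x₀ 0 + ρ * w), Icc (x₀ 1 + ρ * w) (x₀ 1 + ρ * (2 * w)),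
        Icc (x₀ 2) (x₀ 2 + ρ * 1)]) := by
    ext x
    have key : ∀ (i : Fin 3) (l r : ℝ), (x i - x₀ i) / ρ ∈ Icc l r ↔
        x i ∈ Icc (x₀ i + ρ * l) (x₀ i + ρ * r) := by
      intro i l r
      rw [mem_Icc, mem_Icc, le_div_iff₀ hρ, div_le_iff₀ hρ]
      constructor
      · rintro ⟨a, b⟩
        exact ⟨by linarith, by linarith⟩
      · rintro ⟨a, b⟩
        exact ⟨by linarith, by linarith⟩
    unfold Bx
    rw [mem_ofPred_eq, key, key, key, mem_preimage, mem_univ_pi, mul_zero, add_zero]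
    constructor
    · rintro ⟨a, b, c⟩ i
      fin_cases i
      · exact a
      · exact b
      · simpa using c
    · intro h
      refine ⟨h 0, h 1, ?_⟩
      simpa using h 2
  rw [e, Homeomorph.isCompact_preimage]
  refine isCompact_univ_pi fun i => ?_
  fin_cases i <;> exact isCompact_Icc

lemma bx_sub {x₀ : E3} {ρ : ℝ} (hρ : 0 < ρ) {w : ℝ} {F : E3 → E3}
    (h : ∀ x, F x ≠ 0 → (x 0 - x₀ 0) / ρ ∈ Ioo 0 w ∧ (x 1 - x₀ 1) / ρ ∈ Ioo w (2 * w) ∧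
      (x 2 - x₀ 2) / ρ ∈ Ioo 0 1) : tsupport F ⊆ Bx x₀ ρ w := by
  refine closure_minimal ?_ (bx_compact x₀ hρ w).isClosed
  intro x hx
  obtain ⟨a, b, c⟩ := h x hx
  exact ⟨Ioo_subset_Icc_self a, Ioo_subset_Icc_self b, Ioo_subset_Icc_self c⟩

/-- a combination of products vanishes outside the box -/
lemma ne_zero {D0 D1 D2 : ℕ → ℝ → ℝ} {x₀ : E3} {ρ w : ℝ} (h0 : Ch 0 w D0) (h1 : Ch w (2 * w) D1)
    (h2 : Ch 0 1 D2) {F : E3 → E3} (hF : ∀ x, (∀ a b c, Mp D0 D1 D2 x₀ ρ a b c x = 0) → F x = 0)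
    (x : E3) (hx : F x ≠ 0) : (x 0 - x₀ 0) / ρ ∈ Ioo 0 w ∧ (x 1 - x₀ 1) / ρ ∈ Ioo w (2 * w) ∧
      (x 2 - x₀ 2) / ρ ∈ Ioo 0 1 := by
  refine ⟨?_, ?_, ?_⟩
  · by_contra hc
    exact hx (hF x fun a b c => mp_zero0 h0 a b c hc)
  · by_contra hc
    exact hx (hF x fun a b c => mp_zero1 h1 a b c hc)
  · by_contra hc
    exact hx (hF x fun a b c => mp_zero2 h2 a b c hc)

end PK2

open PK2 in
/-- **PK2** -/
theorem pk2 : S_crl := by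
  intro D0 D1 D2 x₀ ρ k A w hρ hk hw hw1 c0 c1 c2
  have hρ' := hρ.ne'
  have hk' := hk.ne'
  have pd : ∀ (a b c : ℕ) (x : E3), PD (Mp D0 D1 D2 x₀ ρ a b c) (ρ⁻¹ * Mp D0 D1 D2 x₀ ρ (a + 1) b c x)
      (ρ⁻¹ * Mp D0 D1 D2 x₀ ρ a (b + 1) c x) (ρ⁻¹ * Mp D0 D1 D2 x₀ ρ a b (c + 1) x) x :=
    fun a b c x => pd_mp c0 c1 c2 a b c x
  have sm : ∀ a b c : ℕ, ContDiff ℝ ∞ (Mp D0 D1 D2 x₀ ρ a b c) := fun a b c =>
    mp_smooth c0 c1 c2 a b c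
  have hcomp := bx_compact x₀ hρ w
  have zΦ : ∀ x, (∀ a b c, Mp D0 D1 D2 x₀ ρ a b c x = 0) → ΦF D0 D1 D2 x₀ ρ A x = 0 := by
    intro x h
    unfold ΦF
    rw [h, vv_zero, smul_zero]
  have zp : ∀ x, (∀ a b c, Mp D0 D1 D2 x₀ ρ a b c x = 0) → pF D0 D1 D2 x₀ ρ k A x = 0 := by
    intro x h
    unfold pF
    rw [h, h, neg_zero, vv_zero, smul_zero]
  have zq : ∀ x, (∀ a b c, Mp D0 D1 D2 x₀ ρ a b c x = 0) → qF D0 D1 D2 x₀ ρ k A x = 0 := by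
    intro x h
    unfold qF
    rw [h, h, h, h, add_zero, neg_zero, vv_zero, smul_zero]
  have zs : ∀ x, (∀ a b c, Mp D0 D1 D2 x₀ ρ a b c x = 0) → sF D0 D1 D2 x₀ ρ k A x = 0 := by
    intro x h
    unfold sF
    simp only [h, add_zero, neg_zero, vv_zero, smul_zero]
  have zr : ∀ x, (∀ a b c, Mp D0 D1 D2 x₀ ρ a b c x = 0) → rF D0 D1 D2 x₀ ρ k A x = 0 := by
    intro x h
    unfold rF
    simp only [h, add_zero, neg_zero, vv_zero, smul_zero]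
  have tΦ : tsupport (ΦF D0 D1 D2 x₀ ρ A) ⊆ Bx x₀ ρ w := bx_sub hρ (ne_zero c0 c1 c2 zΦ)
  have tp : tsupport (pF D0 D1 D2 x₀ ρ k A) ⊆ Bx x₀ ρ w := bx_sub hρ (ne_zero c0 c1 c2 zp)
  have tq : tsupport (qF D0 D1 D2 x₀ ρ k A) ⊆ Bx x₀ ρ w := bx_sub hρ (ne_zero c0 c1 c2 zq)
  have ts : tsupport (sF D0 D1 D2 x₀ ρ k A) ⊆ Bx x₀ ρ w := bx_sub hρ (ne_zero c0 c1 c2 zs)
  have tr : tsupport (rF D0 D1 D2 x₀ ρ k A) ⊆ Bx x₀ ρ w := bx_sub hρ (ne_zero c0 c1 c2 zr)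
  have cs : ∀ F : E3 → E3, tsupport F ⊆ Bx x₀ ρ w → HasCompactSupport F := fun F h =>
    hcomp.of_isClosed_subset (isClosed_tsupport _) h
  refine ⟨?_, ?_, ?_, ?_, ⟨?_, tΦ⟩, ⟨?_, cs _ tp, tp, ?_⟩, ⟨?_, cs _ tq, tq, ?_⟩,
    ⟨?_, cs _ ts, ts, ?_⟩, ⟨?_, cs _ tr, tr, ?_⟩, hcomp, ?_⟩
  · intro x
    unfold ΦF
    rw [crl_eq (PD.zero x) (pd 0 0 0 x) (PD.zero x)]
    unfold pF
    rw [smul_smul]
    ext i
    fin_cases i <;> simp [vv] <;> field_simp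
  · intro x
    unfold pF
    rw [crl_eq ((pd 0 0 1 x).neg) (PD.zero x) (pd 1 0 0 x)]
    unfold qF
    rw [smul_smul]
    ext i
    fin_cases i <;> simp [vv] <;> field_simp <;> ring
  · intro x
    unfold qF
    rw [crl_eq (pd 1 1 0 x) (((pd 0 0 2 x).add (pd 2 0 0 x)).neg) (pd 0 1 1 x)]
    unfold sF
    rw [smul_smul]
    ext i
    fin_cases i <;> simp [vv] <;> field_simp <;> ring
  · intro x
    unfold sF
    rw [crl_eq (((pd 2 0 1 x).add (pd 0 2 1 x)).add (pd 0 0 3 x)) (PD.zero x)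
      ((((pd 3 0 0 x).add (pd 1 2 0 x)).add (pd 1 0 2 x)).neg)]
    unfold rF
    rw [smul_smul]
    ext i
    fin_cases i <;> simp [vv] <;> field_simp <;> ring
  · exact smooth_vv contDiff_const (sm 0 0 0) contDiff_const
  · exact smooth_vv (sm 0 0 1).neg contDiff_const (sm 1 0 0)
  · intro x
    unfold pF
    rw [div_eq ((pd 0 0 1 x).neg) (PD.zero x) (pd 1 0 0 x)]
    ring
  · exact smooth_vv (sm 1 1 0) (((sm 0 0 2).add (sm 2 0 0)).neg) (sm 0 1 1)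
  · intro x
    unfold qF
    rw [div_eq (pd 1 1 0 x) (((pd 0 0 2 x).add (pd 2 0 0 x)).neg) (pd 0 1 1 x)]
    ring
  · exact smooth_vv (((sm 2 0 1).add (sm 0 2 1)).add (sm 0 0 3)) contDiff_const
      ((((sm 3 0 0).add (sm 1 2 0)).add (sm 1 0 2)).neg)
  · intro x
    unfold sF
    rw [div_eq (((pd 2 0 1 x).add (pd 0 2 1 x)).add (pd 0 0 3 x)) (PD.zero x)
      ((((pd 3 0 0 x).add (pd 1 2 0 x)).add (pd 1 0 2 x)).neg)]
    ring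
  · exact smooth_vv ((((sm 3 1 0).add (sm 1 3 0)).add (sm 1 1 2)).neg)
      ((((sm 2 0 2).add (sm 0 2 2)).add (sm 0 0 4)).add (((sm 4 0 0).add (sm 2 2 0)).add (sm 2 0 2)))
      ((((sm 2 1 1).add (sm 0 3 1)).add (sm 0 1 3)).neg)
  · intro x
    unfold rF
    rw [div_eq ((((pd 3 1 0 x).add (pd 1 3 0 x)).add (pd 1 1 2 x)).neg)
      ((((pd 2 0 2 x).add (pd 0 2 2 x)).add (pd 0 0 4 x)).add
        (((pd 4 0 0 x).add (pd 2 2 0 x)).add (pd 2 0 2 x)))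
      ((((pd 2 1 1 x).add (pd 0 3 1 x)).add (pd 0 1 3 x)).neg)]
    ring
  · intro x hx
    by_contra hcon
    have h1 : (x 1 - x₀ 1) / ρ ∉ Ioo w (2 * w) := fun h => hcon h
    rcases hx with h | h
    · exact h (zp x fun a b c => mp_zero1 c1 a b c h1)
    · exact h (zq x fun a b c => mp_zero1 c1 a b c h1)

end Pool.Agent.N980.WX
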