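import Pool.Agent.N980.WX.PK4

/-!
PK3 (helper50): the integrals of the packets.
-/

open MeasureTheory Set Filter Topology
open scoped InnerProductSpace ContDiff

set_option autoImplicit false

namespace Pool.Agent.N980.WX

open H772R2.NS (E3 M3 IsTest jac)

namespace PK3

open PK2 PK4

lemma int_sc (f : ℝ → ℝ) (a : ℝ) {ρ : ℝ} (hρ : 0 < ρ) : ∫ t, f ((t - a) / ρ) = ρ * ∫ t, f t := by
  have h1 := integral_sub_right_eq_self (μ := volume) (fun t : ℝ => f (t / ρ)) a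
  have h2 := Measure.integral_comp_div f ρ
  rw [abs_of_pos hρ, smul_eq_mul] at h2
  rw [h1, h2]

lemma int_prod (f0 f1 f2 : ℝ → ℝ) (x₀ : E3) {ρ : ℝ} (hρ : 0 < ρ) :
    ∫ x : E3, f0 ((x 0 - x₀ 0) / ρ) * f1 ((x 1 - x₀ 1) / ρ) * f2 ((x 2 - x₀ 2) / ρ) =
      ρ ^ 3 * ((∫ t, f0 t) * (∫ t, f1 t) * (∫ t, f2 t)) := by
  have h1 := (PiLp.volume_preserving_ofLp (Fin 3)).integral_comp
    (MeasurableEquiv.toLp 2 (Fin 3 → ℝ)).symm.measurableEmbedding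
    (fun y : Fin 3 → ℝ => f0 ((y 0 - x₀ 0) / ρ) * f1 ((y 1 - x₀ 1) / ρ) * f2 ((y 2 - x₀ 2) / ρ))
  have h2 := integral_fintype_prod_volume_eq_prod (ι := Fin 3) (𝕜 := ℝ) (E := fun _ => ℝ)
    (![fun t => f0 ((t - x₀ 0) / ρ), fun t => f1 ((t - x₀ 1) / ρ), fun t => f2 ((t - x₀ 2) / ρ)])
  simp only [Fin.prod_univ_three, Matrix.cons_val_zero, Matrix.cons_val_one, Matrix.cons_val] at h2
  rw [int_sc f0 (x₀ 0) hρ, int_sc f1 (x₀ 1) hρ, int_sc f2 (x₀ 2) hρ] at h2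
  calc _ = _ := h1
    _ = _ := h2
    _ = _ := by ring

lemma int_ind (a b M : ℝ) (h : a ≤ b) : ∫ t, (Ioo a b).indicator (fun _ => M) t = M * (b - a) := by
  rw [integral_indicator measurableSet_Ioo, setIntegral_const]
  simp [Measure.real, ENNReal.toReal_ofReal, h, mul_comm]

/-- integrals of bounded functions vanishing outside the box -/
lemma int_le {x₀ : E3} {ρ w : ℝ} (hρ : 0 < ρ) (hw : 0 < w) {F : E3 → ℝ} {M : ℝ} (hM : 0 < M)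
    (h0 : ∀ x, 0 ≤ F x) (hF : ∀ x, F x ≤ M) (hz : ∀ x, F x ≠ 0 → (x 0 - x₀ 0) / ρ ∈ Ioo 0 w ∧
      (x 1 - x₀ 1) / ρ ∈ Ioo w (2 * w) ∧ (x 2 - x₀ 2) / ρ ∈ Ioo 0 1) :
    ∫ x, F x ≤ M * (ρ ^ 3 * w ^ 2) := by
  have h1 := int_prod ((Ioo 0 w).indicator fun _ => M) ((Ioo w (2 * w)).indicator fun _ => (1 : ℝ))
    ((Ioo 0 1).indicator fun _ => (1 : ℝ)) x₀ hρ
  rw [int_ind 0 w M hw.le, int_ind w (2 * w) 1 (by linarith), int_ind 0 1 1 (by norm_num)] at h1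
  have h2 : ρ ^ 3 * (M * (w - 0) * (1 * (2 * w - w)) * (1 * (1 - 0))) = M * (ρ ^ 3 * w ^ 2) := by ring
  rw [h2] at h1
  rw [← h1]
  have hint : Integrable (fun x : E3 => (Ioo 0 w).indicator (fun _ => M) ((x 0 - x₀ 0) / ρ) *
      (Ioo w (2 * w)).indicator (fun _ => (1 : ℝ)) ((x 1 - x₀ 1) / ρ) *
      (Ioo 0 1).indicator (fun _ => (1 : ℝ)) ((x 2 - x₀ 2) / ρ)) := by
    refine Integrable.of_integral_ne_zero ?_
    rw [h1]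
    positivity
  refine integral_mono_of_nonneg (Eventually.of_forall h0) hint (Eventually.of_forall fun x => ?_)
  by_cases hx : F x = 0
  · show F x ≤ _
    rw [hx]
    have e1 : 0 ≤ (Ioo 0 w).indicator (fun _ => M) ((x 0 - x₀ 0) / ρ) :=
      indicator_nonneg (fun _ _ => hM.le) _
    have e2 : 0 ≤ (Ioo w (2 * w)).indicator (fun _ => (1 : ℝ)) ((x 1 - x₀ 1) / ρ) :=
      indicator_nonneg (fun _ _ => zero_le_one) _
    have e3 : 0 ≤ (Ioo 0 1).indicator (fun _ => (1 : ℝ)) ((x 2 - x₀ 2) / ρ) :=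
      indicator_nonneg (fun _ _ => zero_le_one) _
    positivity
  · obtain ⟨a, b, c⟩ := hz x hx
    beta_reduce
    rw [indicator_of_mem a, indicator_of_mem b, indicator_of_mem c, mul_one, mul_one]
    exact hF x

lemma mp_ne {D0 D1 D2 : ℕ → ℝ → ℝ} {x₀ : E3} {ρ w : ℝ} (h0 : Ch 0 w D0) (h1 : Ch w (2 * w) D1)
    (h2 : Ch 0 1 D2) {F : E3 → ℝ} (hF : ∀ x, (∀ a b c, Mp D0 D1 D2 x₀ ρ a b c x = 0) → F x = 0)
    (x : E3) (hx : F x ≠ 0) : (x 0 - x₀ 0) / ρ ∈ Ioo 0 w ∧ (x 1 - x₀ 1) / ρ ∈ Ioo w (2 * w) ∧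
      (x 2 - x₀ 2) / ρ ∈ Ioo 0 1 := by
  refine ⟨?_, ?_, ?_⟩
  · by_contra hc
    exact hx (hF x fun a b c => mp_zero0 h0 a b c hc)
  · by_contra hc
    exact hx (hF x fun a b c => mp_zero1 h1 a b c hc)
  · by_contra hc
    exact hx (hF x fun a b c => mp_zero2 h2 a b c hc)

lemma mp_int {D0 D1 D2 : ℕ → ℝ → ℝ} {x₀ : E3} {ρ w : ℝ} (hρ : 0 < ρ) (h0 : Ch 0 w D0)
    (h1 : Ch w (2 * w) D1) (h2 : Ch 0 1 D2) (a b c a' b' c' : ℕ) :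
    Integrable (fun x => Mp D0 D1 D2 x₀ ρ a b c x * Mp D0 D1 D2 x₀ ρ a' b' c' x) := by
  refine Continuous.integrable_of_hasCompactSupport
    ((mp_smooth h0 h1 h2 a b c).continuous.mul (mp_smooth h0 h1 h2 a' b' c').continuous) ?_
  refine HasCompactSupport.intro (bx_compact x₀ hρ w) fun x hx => ?_
  by_contra hc
  obtain ⟨u, v, t⟩ := mp_ne h0 h1 h2 (x₀ := x₀) (ρ := ρ)
    (F := fun x => Mp D0 D1 D2 x₀ ρ a b c x * Mp D0 D1 D2 x₀ ρ a' b' c' x)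
    (fun x h => by simp only [h, mul_zero]) x hc
  exact hx ⟨Ioo_subset_Icc_self u, Ioo_subset_Icc_self v, Ioo_subset_Icc_self t⟩

lemma mp_mul (D0 D1 D2 : ℕ → ℝ → ℝ) (x₀ : E3) {ρ : ℝ} (hρ : 0 < ρ) (a b c a' b' c' : ℕ) :
    ∫ x, Mp D0 D1 D2 x₀ ρ a b c x * Mp D0 D1 D2 x₀ ρ a' b' c' x =
      ρ ^ 3 * ((∫ t, D0 a t * D0 a' t) * (∫ t, D1 b t * D1 b' t) * (∫ t, D2 c t * D2 c' t)) := by
  rw [← int_prod (fun t => D0 a t * D0 a' t) (fun t => D1 b t * D1 b' t)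
    (fun t => D2 c t * D2 c' t) x₀ hρ]
  refine integral_congr_ae (Eventually.of_forall fun x => ?_)
  simp only [Mp]
  ring

lemma ch_int {a b : ℝ} {D : ℕ → ℝ → ℝ} (h : Ch a b D) (i j : ℕ) : Integrable (fun t => D i t * D j t) := by
  refine Continuous.integrable_of_hasCompactSupport
    ((h.sm i).continuous.mul (h.sm j).continuous) ?_
  refine HasCompactSupport.intro (isCompact_Icc (a := a) (b := b)) fun x hx => ?_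
  rw [h.out i x fun hc => hx (Ioo_subset_Icc_self hc), zero_mul]

lemma ch_zero {a b : ℝ} {D : ℕ → ℝ → ℝ} (h : Ch a b D) : ∫ t, D 0 t * D 1 t = 0 := by
  refine integral_eq_zero_of_hasDerivAt_of_integrable (f := fun t => D 0 t * D 0 t / 2) ?_
    (ch_int h 0 1) ((ch_int h 0 0).div_const 2)
  intro t
  have h1 := ((h.dv 0 t).mul (h.dv 0 t)).div_const 2
  refine HasDerivAt.congr_deriv (f := fun t => D 0 t * D 0 t / 2) h1 ?_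
  rw [zero_add]
  ring

/-- `1 ≤ u ≤ k` -/
lemma pw_le {k u : ℝ} (hu : 1 ≤ u) (huk : u ≤ k) {i j n : ℕ} (hi : i ≤ n) (hij : i + j ≤ n + 1) :
    k ^ i * u ^ j ≤ k ^ n * u := by
  have hk : 1 ≤ k := hu.trans huk
  have hk0 : 0 < k := by linarith
  have hu0 : 0 < u := by linarith
  rcases Nat.eq_zero_or_pos j with h0 | h0
  · subst h0
    rw [pow_zero, mul_one]
    calc k ^ i ≤ k ^ n := pow_le_pow_right₀ hk hi
      _ = k ^ n * 1 := (mul_one _).symm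
      _ ≤ k ^ n * u := mul_le_mul_of_nonneg_left hu (by positivity)
  · obtain ⟨m, rfl⟩ : ∃ m, j = m + 1 := ⟨j - 1, by omega⟩
    rw [pow_succ, ← mul_assoc]
    refine mul_le_mul_of_nonneg_right ?_ hu0.le
    calc k ^ i * u ^ m ≤ k ^ i * k ^ m :=
          mul_le_mul_of_nonneg_left (pow_le_pow_left₀ hu0.le huk m) (by positivity)
      _ = k ^ (i + m) := (pow_add _ _ _).symm
      _ ≤ k ^ n := pow_le_pow_right₀ hk (by omega)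

section bounds

variable {B c k w : ℝ} {D0 D1 D2 : ℕ → ℝ → ℝ}

lemma mw (hB : 1 ≤ B) (hw : 0 < w) (hw1 : w ≤ 1) (hkw : 1 ≤ k * w) (h : One B c k w D0 D1 D2) (x₀ : E3)
    (ρ : ℝ) {i j l : ℕ} (hi6 : i ≤ 6) (hj : j ≤ 6) (hl : l ≤ 6) {n : ℕ} (hi : i ≤ n) (hij : i + j ≤ n + 1)
    (x : E3) : |Mp D0 D1 D2 x₀ ρ i j l x| ≤ B ^ 3 * (k ^ n / w) := by
  have hk1 : 1 ≤ k := by nlinarith
  have hu : 1 ≤ 1 / w := by rwa [le_div_iff₀ hw, one_mul]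
  have huk : 1 / w ≤ k := by rwa [div_le_iff₀ hw]
  have h0 := h.b0 i hi6 ((x 0 - x₀ 0) / ρ)
  have h1 := h.b1 j hj ((x 1 - x₀ 1) / ρ)
  have h2 := h.b2 l hl ((x 2 - x₀ 2) / ρ)
  unfold Mp
  rw [abs_mul, abs_mul]
  calc |D0 i ((x 0 - x₀ 0) / ρ)| * |D1 j ((x 1 - x₀ 1) / ρ)| * |D2 l ((x 2 - x₀ 2) / ρ)|
      ≤ (B * k ^ i) * (B / w ^ j) * B := by gcongr
    _ = B ^ 3 * (k ^ i * (1 / w) ^ j) := by rw [div_pow, one_pow]; ring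
    _ ≤ B ^ 3 * (k ^ n * (1 / w)) := mul_le_mul_of_nonneg_left (pw_le hu huk hi hij) (by positivity)
    _ = _ := by ring

lemma ew (hB : 1 ≤ B) (hw : 0 < w) (hw1 : w ≤ 1) (hkw : 1 ≤ k * w) (h : One B c k w D0 D1 D2) (x₀ : E3)
    (ρ : ℝ) {i j l : ℕ} (hi4 : i ≤ 4) (hj : j ≤ 6) (hl : l ≤ 6) {n : ℕ} (hij : i + 1 + j ≤ n)
    (x : E3) : |Mp D0 D1 D2 x₀ ρ (i + 2) j l x + k ^ 2 * Mp D0 D1 D2 x₀ ρ i j l x| ≤
      B ^ 3 * (k ^ n / w) := by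
  have hk1 : 1 ≤ k := by nlinarith
  have hu : 1 ≤ 1 / w := by rwa [le_div_iff₀ hw, one_mul]
  have huk : 1 / w ≤ k := by rwa [div_le_iff₀ hw]
  have h0 := h.e0 i hi4 ((x 0 - x₀ 0) / ρ)
  have h1 := h.b1 j hj ((x 1 - x₀ 1) / ρ)
  have h2 := h.b2 l hl ((x 2 - x₀ 2) / ρ)
  have e : Mp D0 D1 D2 x₀ ρ (i + 2) j l x + k ^ 2 * Mp D0 D1 D2 x₀ ρ i j l x =
      (D0 (i + 2) ((x 0 - x₀ 0) / ρ) + k ^ 2 * D0 i ((x 0 - x₀ 0) / ρ)) *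
        D1 j ((x 1 - x₀ 1) / ρ) * D2 l ((x 2 - x₀ 2) / ρ) := by
    simp only [Mp]
    ring
  rw [e, abs_mul, abs_mul]
  calc |D0 (i + 2) ((x 0 - x₀ 0) / ρ) + k ^ 2 * D0 i ((x 0 - x₀ 0) / ρ)| *
        |D1 j ((x 1 - x₀ 1) / ρ)| * |D2 l ((x 2 - x₀ 2) / ρ)|
      ≤ (B * k ^ (i + 1) / w) * (B / w ^ j) * B := by gcongr
    _ = B ^ 3 * (k ^ (i + 1) * (1 / w) ^ (j + 1)) := by rw [div_pow, one_pow, pow_succ w j]; ring
    _ ≤ B ^ 3 * (k ^ n * (1 / w)) :=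
        mul_le_mul_of_nonneg_left (pw_le hu huk (by omega) (by omega)) (by positivity)
    _ = _ := by ring

end bounds

lemma norm_vv_sq (a b c : ℝ) : ‖vv a b c‖ ^ 2 = a ^ 2 + b ^ 2 + c ^ 2 := by
  unfold vv
  rw [EuclideanSpace.norm_eq, Real.sq_sqrt (by positivity), Fin.sum_univ_three]
  simp only [Real.norm_eq_abs, sq_abs, Matrix.cons_val_zero, Matrix.cons_val_one, Matrix.cons_val]

lemma inner_vv (a b c a' b' c' : ℝ) : ⟪vv a b c, vv a' b' c'⟫_ℝ = a * a' + b * b' + c * c' := by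
  unfold vv
  rw [PiLp.inner_apply, Fin.sum_univ_three]
  simp [mul_comm]

end PK3

open PK2 PK4 PK3 in
/-- **PK3** -/
theorem pk3 : S_int := by
  intro B c ρ hB hc hρ
  have hB0 : 0 < B := by linarith
  obtain ⟨σ, hσ⟩ : ∃ σ : ℝ, σ = √(ρ ^ 3) := ⟨_, rfl⟩
  have hσ0 : 0 < σ := by rw [hσ]; positivity
  have hσ2 : σ ^ 2 = ρ ^ 3 := by rw [hσ, Real.sq_sqrt (by positivity)]
  obtain ⟨CA, hCA⟩ : ∃ CA : ℝ, CA = 1 / √(ρ ^ 3 * c ^ 3) := ⟨_, rfl⟩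
  have hCA0 : 0 < CA := by rw [hCA]; positivity
  obtain ⟨C, hC⟩ : ∃ C : ℝ, C = 12 * B ^ 3 * CA * (1 + σ + ρ ^ 3) := ⟨_, rfl⟩
  have hB3 : 1 ≤ B ^ 3 := one_le_pow₀ hB
  have hC0 : 0 < C := by rw [hC]; positivity
  have hC1 : CA ≤ C := by
    have h1 : CA ≤ B ^ 3 * CA := by nlinarith
    have h2 : 0 ≤ B ^ 3 * CA * (σ + ρ ^ 3) := by positivity
    have h3 : 0 ≤ B ^ 3 * CA := by positivity
    rw [hC]
    nlinarith
  have hC2 : 12 * B ^ 3 * CA * σ ≤ C := by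
    have h2 : 0 ≤ B ^ 3 * CA * (1 + ρ ^ 3) := by positivity
    rw [hC]
    nlinarith
  have hC3 : 12 * B ^ 3 * CA * ρ ^ 3 ≤ C := by
    have h2 : 0 ≤ B ^ 3 * CA * (1 + σ) := by positivity
    rw [hC]
    nlinarith
  refine ⟨C, hC0.le, ?_⟩
  intro D0 D1 D2 x₀ k w hw hw1 hkw h
  have hk1 : 1 ≤ k := by nlinarith
  have hk0 : 0 < k := by linarith
  have c0 := h.c0
  have c1 := h.c1
  have c2 := h.c2
  -- the normalization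
  obtain ⟨S, hS⟩ : ∃ S : ℝ, S = (∫ t, D0 0 t * D0 0 t) * (∫ t, D1 0 t * D1 0 t) * (∫ t, D2 1 t * D2 1 t)
      + (∫ t, D0 1 t * D0 1 t) * (∫ t, D1 0 t * D1 0 t) * (∫ t, D2 0 t * D2 0 t) := ⟨_, rfl⟩
  have nn : ∀ f : ℝ → ℝ, 0 ≤ ∫ t, f t * f t := fun f => integral_nonneg fun t => mul_self_nonneg _
  have l0 : c * k ^ 2 * w ≤ ∫ t, D0 1 t * D0 1 t := by
    have := h.l0
    simpa only [pow_two] using this
  have l1 : c * w ≤ ∫ t, D1 0 t * D1 0 t := by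
    have := h.l1
    simpa only [pow_two] using this
  have l2 : c ≤ ∫ t, D2 0 t * D2 0 t := by
    have := h.l2
    simpa only [pow_two] using this
  have hSl : c ^ 3 * k ^ 2 * w ^ 2 ≤ S := by
    have h1 : (c * k ^ 2 * w) * (c * w) * c ≤
        (∫ t, D0 1 t * D0 1 t) * (∫ t, D1 0 t * D1 0 t) * (∫ t, D2 0 t * D2 0 t) := by
      gcongr
      all_goals first
        | exact mul_nonneg (nn _) (nn _)
        | exact nn _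
    have h2 : 0 ≤ (∫ t, D0 0 t * D0 0 t) * (∫ t, D1 0 t * D1 0 t) * (∫ t, D2 1 t * D2 1 t) :=
      mul_nonneg (mul_nonneg (nn _) (nn _)) (nn _)
    rw [hS]
    calc c ^ 3 * k ^ 2 * w ^ 2 = (c * k ^ 2 * w) * (c * w) * c := by ring
      _ ≤ _ := by linarith
  have hS0 : 0 < S := lt_of_lt_of_le (by positivity) hSl
  obtain ⟨A, hA⟩ : ∃ A : ℝ, A = k / √(ρ ^ 3 * S) := ⟨_, rfl⟩
  have hA0 : 0 < A := by rw [hA]; positivity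
  have hA1 : (A / k) ^ 2 * (ρ ^ 3 * S) = 1 := by
    have h1 : A / k = 1 / √(ρ ^ 3 * S) := by
      rw [hA]
      field_simp
    rw [h1, div_pow, Real.sq_sqrt (by positivity), one_pow]
    field_simp
  have hAC : A ≤ CA / w := by
    have h1 : √(ρ ^ 3 * c ^ 3) * (k * w) ≤ √(ρ ^ 3 * S) := by
      refine Real.le_sqrt_of_sq_le ?_
      rw [mul_pow, Real.sq_sqrt (by positivity)]
      calc ρ ^ 3 * c ^ 3 * (k * w) ^ 2 = ρ ^ 3 * (c ^ 3 * k ^ 2 * w ^ 2) := by ring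
        _ ≤ ρ ^ 3 * S := mul_le_mul_of_nonneg_left hSl (by positivity)
    have h2 : 0 < √(ρ ^ 3 * c ^ 3) := by positivity
    rw [hA, hCA]
    calc k / √(ρ ^ 3 * S) ≤ k / (√(ρ ^ 3 * c ^ 3) * (k * w)) :=
          div_le_div_of_nonneg_left hk0.le (by positivity) h1
      _ = 1 / √(ρ ^ 3 * c ^ 3) / w := by field_simp
  have hAw : A * w ≤ CA := by rwa [le_div_iff₀ hw] at hAC
  have hAw0 : 0 < A * w := by positivity
  -- the zero set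
  have zM : ∀ F : E3 → ℝ, (∀ x, (∀ a b c, Mp D0 D1 D2 x₀ ρ a b c x = 0) → F x = 0) → ∀ x, F x ≠ 0 →
      (x 0 - x₀ 0) / ρ ∈ Ioo 0 w ∧ (x 1 - x₀ 1) / ρ ∈ Ioo w (2 * w) ∧ (x 2 - x₀ 2) / ρ ∈ Ioo 0 1 :=
    fun F hF => mp_ne c0 c1 c2 hF
  have zΦ : ∀ x, (∀ a b c, Mp D0 D1 D2 x₀ ρ a b c x = 0) → ΦF D0 D1 D2 x₀ ρ A x = 0 := by
    intro x h
    unfold ΦF
    rw [h, vv_zero, smul_zero]
  have zp : ∀ x, (∀ a b c, Mp D0 D1 D2 x₀ ρ a b c x = 0) → pF D0 D1 D2 x₀ ρ k A x = 0 := by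
    intro x h
    unfold pF
    rw [h, h, neg_zero, vv_zero, smul_zero]
  have zq : ∀ x, (∀ a b c, Mp D0 D1 D2 x₀ ρ a b c x = 0) → qF D0 D1 D2 x₀ ρ k A x = 0 := by
    intro x h
    unfold qF
    rw [h, h, h, h, add_zero, neg_zero, vv_zero, smul_zero]
  have zs : ∀ x, (∀ a b c, Mp D0 D1 D2 x₀ ρ a b c x = 0) → sF D0 D1 D2 x₀ ρ k A x = 0 := by
    intro x h
    unfold sF
    simp only [h, add_zero, neg_zero, vv_zero, smul_zero]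
  have zr : ∀ x, (∀ a b c, Mp D0 D1 D2 x₀ ρ a b c x = 0) → rF D0 D1 D2 x₀ ρ k A x = 0 := by
    intro x h
    unfold rF
    simp only [h, add_zero, neg_zero, vv_zero, smul_zero]
  have ml : ∀ (i j l : ℕ) (hi : i ≤ 6) (hj : j ≤ 6) (hl : l ≤ 6) (n : ℕ) (hn : i + j ≤ n) (x : E3),
      |Mp D0 D1 D2 x₀ ρ i j l x| ≤ B ^ 3 * k ^ n := fun i j l hi hj hl n hn x =>
    mp_le hB hw hw1 hkw h x₀ ρ hi hj hl hn x
  -- pointwise bounds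
  have bΦ : ∀ x, ‖ΦF D0 D1 D2 x₀ ρ A x‖ ≤ A * B ^ 3 := by
    intro x
    unfold ΦF
    rw [norm_smul, Real.norm_of_nonneg hA0.le]
    refine mul_le_mul_of_nonneg_left ?_ hA0.le
    have k1 := ml 0 0 0 (by norm_num) (by norm_num) (by norm_num) 0 (by norm_num) x
    have k3 := norm_vv 0 (Mp D0 D1 D2 x₀ ρ 0 0 0 x) 0
    rw [abs_zero] at k3
    rw [pow_zero] at k1
    linarith
  have bp : ∀ x, ‖pF D0 D1 D2 x₀ ρ k A x‖ ≤ 2 * (A * B ^ 3) := by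
    intro x
    unfold pF
    rw [norm_smul, Real.norm_of_nonneg (by positivity)]
    have k1 := ml 0 0 1 (by norm_num) (by norm_num) (by norm_num) 1 (by norm_num) x
    have k2 := ml 1 0 0 (by norm_num) (by norm_num) (by norm_num) 1 (by norm_num) x
    have k3 := norm_vv (-Mp D0 D1 D2 x₀ ρ 0 0 1 x) 0 (Mp D0 D1 D2 x₀ ρ 1 0 0 x)
    rw [abs_neg, abs_zero] at k3
    rw [pow_one] at k1 k2
    calc A / k * ‖vv (-Mp D0 D1 D2 x₀ ρ 0 0 1 x) 0 (Mp D0 D1 D2 x₀ ρ 1 0 0 x)‖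
        ≤ A / k * (2 * (B ^ 3 * k)) := mul_le_mul_of_nonneg_left (by linarith) (by positivity)
      _ = 2 * (A * B ^ 3) := by field_simp
  have bq : ∀ x, ‖qF D0 D1 D2 x₀ ρ k A x‖ ≤ 4 * (A * B ^ 3) := by
    intro x
    unfold qF
    rw [norm_smul, Real.norm_of_nonneg (by positivity)]
    have k1 := ml 1 1 0 (by norm_num) (by norm_num) (by norm_num) 2 (by norm_num) x
    have k2 := ml 0 0 2 (by norm_num) (by norm_num) (by norm_num) 2 (by norm_num) x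
    have k3 := ml 2 0 0 (by norm_num) (by norm_num) (by norm_num) 2 (by norm_num) x
    have k4 := ml 0 1 1 (by norm_num) (by norm_num) (by norm_num) 2 (by norm_num) x
    have k5 := norm_vv (Mp D0 D1 D2 x₀ ρ 1 1 0 x)
      (-(Mp D0 D1 D2 x₀ ρ 0 0 2 x + Mp D0 D1 D2 x₀ ρ 2 0 0 x)) (Mp D0 D1 D2 x₀ ρ 0 1 1 x)
    rw [abs_neg] at k5
    have k6 := abs_add_le (Mp D0 D1 D2 x₀ ρ 0 0 2 x) (Mp D0 D1 D2 x₀ ρ 2 0 0 x)
    calc _ ≤ A / k ^ 2 * (4 * (B ^ 3 * k ^ 2)) :=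
          mul_le_mul_of_nonneg_left (by linarith) (by positivity)
      _ = 4 * (A * B ^ 3) := by field_simp
  have bs : ∀ x, ‖sF D0 D1 D2 x₀ ρ k A x - pF D0 D1 D2 x₀ ρ k A x‖ ≤ 6 * (A * B ^ 3) / (k * w) := by
    intro x
    have e : sF D0 D1 D2 x₀ ρ k A x - pF D0 D1 D2 x₀ ρ k A x = (A / k ^ 3) •
        vv ((Mp D0 D1 D2 x₀ ρ 2 0 1 x + k ^ 2 * Mp D0 D1 D2 x₀ ρ 0 0 1 x) + Mp D0 D1 D2 x₀ ρ 0 2 1 x
          + Mp D0 D1 D2 x₀ ρ 0 0 3 x) 0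
        (-((Mp D0 D1 D2 x₀ ρ 3 0 0 x + k ^ 2 * Mp D0 D1 D2 x₀ ρ 1 0 0 x) + Mp D0 D1 D2 x₀ ρ 1 2 0 x
          + Mp D0 D1 D2 x₀ ρ 1 0 2 x)) := by
      unfold sF pF
      ext i
      fin_cases i <;> simp [vv] <;> field_simp <;> ring
    rw [e, norm_smul, Real.norm_of_nonneg (by positivity)]
    have a1 := ew hB hw hw1 hkw h x₀ ρ (i := 0) (j := 0) (l := 1) (by norm_num) (by norm_num) (by norm_num)
      (n := 2) (by norm_num) x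
    have a2 := mw hB hw hw1 hkw h x₀ ρ (i := 0) (j := 2) (l := 1) (by norm_num) (by norm_num) (by norm_num)
      (n := 2) (by norm_num) (by norm_num) x
    have a3 := mw hB hw hw1 hkw h x₀ ρ (i := 0) (j := 0) (l := 3) (by norm_num) (by norm_num) (by norm_num)
      (n := 2) (by norm_num) (by norm_num) x
    have a4 := ew hB hw hw1 hkw h x₀ ρ (i := 1) (j := 0) (l := 0) (by norm_num) (by norm_num) (by norm_num)
      (n := 2) (by norm_num) x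
    have a5 := mw hB hw hw1 hkw h x₀ ρ (i := 1) (j := 2) (l := 0) (by norm_num) (by norm_num) (by norm_num)
      (n := 2) (by norm_num) (by norm_num) x
    have a6 := mw hB hw hw1 hkw h x₀ ρ (i := 1) (j := 0) (l := 2) (by norm_num) (by norm_num) (by norm_num)
      (n := 2) (by norm_num) (by norm_num) x
    have b1 := norm_vv ((Mp D0 D1 D2 x₀ ρ 2 0 1 x + k ^ 2 * Mp D0 D1 D2 x₀ ρ 0 0 1 x) +
          Mp D0 D1 D2 x₀ ρ 0 2 1 x + Mp D0 D1 D2 x₀ ρ 0 0 3 x) 0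
        (-((Mp D0 D1 D2 x₀ ρ 3 0 0 x + k ^ 2 * Mp D0 D1 D2 x₀ ρ 1 0 0 x) + Mp D0 D1 D2 x₀ ρ 1 2 0 x
          + Mp D0 D1 D2 x₀ ρ 1 0 2 x))
    rw [abs_neg, abs_zero] at b1
    have b2 := abs_add_three (Mp D0 D1 D2 x₀ ρ 2 0 1 x + k ^ 2 * Mp D0 D1 D2 x₀ ρ 0 0 1 x)
      (Mp D0 D1 D2 x₀ ρ 0 2 1 x) (Mp D0 D1 D2 x₀ ρ 0 0 3 x)
    have b3 := abs_add_three (Mp D0 D1 D2 x₀ ρ 3 0 0 x + k ^ 2 * Mp D0 D1 D2 x₀ ρ 1 0 0 x)
      (Mp D0 D1 D2 x₀ ρ 1 2 0 x) (Mp D0 D1 D2 x₀ ρ 1 0 2 x)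
    simp only [zero_add] at a1 a4
    calc _ ≤ A / k ^ 3 * (6 * (B ^ 3 * (k ^ 2 / w))) :=
          mul_le_mul_of_nonneg_left (by linarith) (by positivity)
      _ = _ := by field_simp
  have br : ∀ x, ‖rF D0 D1 D2 x₀ ρ k A x - qF D0 D1 D2 x₀ ρ k A x‖ ≤ 12 * (A * B ^ 3) / (k * w) := by
    intro x
    have e : rF D0 D1 D2 x₀ ρ k A x - qF D0 D1 D2 x₀ ρ k A x = (A / k ^ 4) •
        vv (-((Mp D0 D1 D2 x₀ ρ 3 1 0 x + k ^ 2 * Mp D0 D1 D2 x₀ ρ 1 1 0 x) + Mp D0 D1 D2 x₀ ρ 1 3 0 x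
          + Mp D0 D1 D2 x₀ ρ 1 1 2 x))
        (((Mp D0 D1 D2 x₀ ρ 2 0 2 x + k ^ 2 * Mp D0 D1 D2 x₀ ρ 0 0 2 x) + Mp D0 D1 D2 x₀ ρ 0 2 2 x
          + Mp D0 D1 D2 x₀ ρ 0 0 4 x) +
          ((Mp D0 D1 D2 x₀ ρ 4 0 0 x + k ^ 2 * Mp D0 D1 D2 x₀ ρ 2 0 0 x) + Mp D0 D1 D2 x₀ ρ 2 2 0 x
          + Mp D0 D1 D2 x₀ ρ 2 0 2 x))
        (-((Mp D0 D1 D2 x₀ ρ 2 1 1 x + k ^ 2 * Mp D0 D1 D2 x₀ ρ 0 1 1 x) + Mp D0 D1 D2 x₀ ρ 0 3 1 x
          + Mp D0 D1 D2 x₀ ρ 0 1 3 x)) := by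
      unfold rF qF
      ext i
      fin_cases i <;> simp [vv] <;> field_simp <;> ring
    rw [e, norm_smul, Real.norm_of_nonneg (by positivity)]
    have a1 := ew hB hw hw1 hkw h x₀ ρ (i := 1) (j := 1) (l := 0) (by norm_num) (by norm_num) (by norm_num)
      (n := 3) (by norm_num) x
    have a2 := mw hB hw hw1 hkw h x₀ ρ (i := 1) (j := 3) (l := 0) (by norm_num) (by norm_num) (by norm_num)
      (n := 3) (by norm_num) (by norm_num) x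
    have a3 := mw hB hw hw1 hkw h x₀ ρ (i := 1) (j := 1) (l := 2) (by norm_num) (by norm_num) (by norm_num)
      (n := 3) (by norm_num) (by norm_num) x
    have a4 := ew hB hw hw1 hkw h x₀ ρ (i := 0) (j := 0) (l := 2) (by norm_num) (by norm_num) (by norm_num)
      (n := 3) (by norm_num) x
    have a5 := mw hB hw hw1 hkw h x₀ ρ (i := 0) (j := 2) (l := 2) (by norm_num) (by norm_num) (by norm_num)
      (n := 3) (by norm_num) (by norm_num) x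
    have a6 := mw hB hw hw1 hkw h x₀ ρ (i := 0) (j := 0) (l := 4) (by norm_num) (by norm_num) (by norm_num)
      (n := 3) (by norm_num) (by norm_num) x
    have a7 := ew hB hw hw1 hkw h x₀ ρ (i := 2) (j := 0) (l := 0) (by norm_num) (by norm_num) (by norm_num)
      (n := 3) (by norm_num) x
    have a8 := mw hB hw hw1 hkw h x₀ ρ (i := 2) (j := 2) (l := 0) (by norm_num) (by norm_num) (by norm_num)
      (n := 3) (by norm_num) (by norm_num) x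
    have a9 := mw hB hw hw1 hkw h x₀ ρ (i := 2) (j := 0) (l := 2) (by norm_num) (by norm_num) (by norm_num)
      (n := 3) (by norm_num) (by norm_num) x
    have a10 := ew hB hw hw1 hkw h x₀ ρ (i := 0) (j := 1) (l := 1) (by norm_num) (by norm_num) (by norm_num)
      (n := 3) (by norm_num) x
    have a11 := mw hB hw hw1 hkw h x₀ ρ (i := 0) (j := 3) (l := 1) (by norm_num) (by norm_num) (by norm_num)
      (n := 3) (by norm_num) (by norm_num) x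
    have a12 := mw hB hw hw1 hkw h x₀ ρ (i := 0) (j := 1) (l := 3) (by norm_num) (by norm_num) (by norm_num)
      (n := 3) (by norm_num) (by norm_num) x
    have b1 := norm_vv (-((Mp D0 D1 D2 x₀ ρ 3 1 0 x + k ^ 2 * Mp D0 D1 D2 x₀ ρ 1 1 0 x) +
          Mp D0 D1 D2 x₀ ρ 1 3 0 x + Mp D0 D1 D2 x₀ ρ 1 1 2 x))
        (((Mp D0 D1 D2 x₀ ρ 2 0 2 x + k ^ 2 * Mp D0 D1 D2 x₀ ρ 0 0 2 x) + Mp D0 D1 D2 x₀ ρ 0 2 2 x
          + Mp D0 D1 D2 x₀ ρ 0 0 4 x) +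
          ((Mp D0 D1 D2 x₀ ρ 4 0 0 x + k ^ 2 * Mp D0 D1 D2 x₀ ρ 2 0 0 x) + Mp D0 D1 D2 x₀ ρ 2 2 0 x
          + Mp D0 D1 D2 x₀ ρ 2 0 2 x))
        (-((Mp D0 D1 D2 x₀ ρ 2 1 1 x + k ^ 2 * Mp D0 D1 D2 x₀ ρ 0 1 1 x) + Mp D0 D1 D2 x₀ ρ 0 3 1 x
          + Mp D0 D1 D2 x₀ ρ 0 1 3 x))
    rw [abs_neg, abs_neg] at b1
    have b2 := abs_add_three (Mp D0 D1 D2 x₀ ρ 3 1 0 x + k ^ 2 * Mp D0 D1 D2 x₀ ρ 1 1 0 x)
      (Mp D0 D1 D2 x₀ ρ 1 3 0 x) (Mp D0 D1 D2 x₀ ρ 1 1 2 x)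
    have b3 := abs_add_three (Mp D0 D1 D2 x₀ ρ 2 0 2 x + k ^ 2 * Mp D0 D1 D2 x₀ ρ 0 0 2 x)
      (Mp D0 D1 D2 x₀ ρ 0 2 2 x) (Mp D0 D1 D2 x₀ ρ 0 0 4 x)
    have b4 := abs_add_three (Mp D0 D1 D2 x₀ ρ 4 0 0 x + k ^ 2 * Mp D0 D1 D2 x₀ ρ 2 0 0 x)
      (Mp D0 D1 D2 x₀ ρ 2 2 0 x) (Mp D0 D1 D2 x₀ ρ 2 0 2 x)
    have b5 := abs_add_three (Mp D0 D1 D2 x₀ ρ 2 1 1 x + k ^ 2 * Mp D0 D1 D2 x₀ ρ 0 1 1 x)
      (Mp D0 D1 D2 x₀ ρ 0 3 1 x) (Mp D0 D1 D2 x₀ ρ 0 1 3 x)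
    have b6 := abs_add_le ((Mp D0 D1 D2 x₀ ρ 2 0 2 x + k ^ 2 * Mp D0 D1 D2 x₀ ρ 0 0 2 x) +
      Mp D0 D1 D2 x₀ ρ 0 2 2 x + Mp D0 D1 D2 x₀ ρ 0 0 4 x)
      ((Mp D0 D1 D2 x₀ ρ 4 0 0 x + k ^ 2 * Mp D0 D1 D2 x₀ ρ 2 0 0 x) + Mp D0 D1 D2 x₀ ρ 2 2 0 x
          + Mp D0 D1 D2 x₀ ρ 2 0 2 x)
    simp only [zero_add] at a1 a4 a7 a10
    calc _ ≤ A / k ^ 4 * (12 * (B ^ 3 * (k ^ 3 / w))) :=
          mul_le_mul_of_nonneg_left (by linarith) (by positivity)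
      _ = _ := by field_simp
  -- integrals of squares
  have sqint : ∀ (F : E3 → E3) (m : ℝ), 0 < m → (∀ x, ‖F x‖ ≤ m) →
      (∀ x, (∀ a b c, Mp D0 D1 D2 x₀ ρ a b c x = 0) → F x = 0) →
      ∫ x, ‖F x‖ ^ 2 ≤ m ^ 2 * (ρ ^ 3 * w ^ 2) := by
    intro F m hm hF hz
    refine int_le hρ hw (x₀ := x₀) (by positivity) (fun x => by positivity)
      (fun x => pow_le_pow_left₀ (norm_nonneg _) (hF x) 2) (zM _ fun x hx => ?_)
    rw [hz x hx, norm_zero]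
    norm_num
  have lnint : ∀ (F : E3 → E3) (m : ℝ), 0 < m → (∀ x, ‖F x‖ ≤ m) →
      (∀ x, (∀ a b c, Mp D0 D1 D2 x₀ ρ a b c x = 0) → F x = 0) →
      ∫ x, ‖F x‖ ≤ m * (ρ ^ 3 * w ^ 2) := by
    intro F m hm hF hz
    refine int_le hρ hw (x₀ := x₀) hm (fun x => norm_nonneg _) hF (zM _ fun x hx => ?_)
    rw [hz x hx, norm_zero]
  refine ⟨A, hA0, hAC.trans (div_le_div_of_nonneg_right hC1 hw.le), ?_, ?_, ?_, ?_, ?_, ?_, ?_⟩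
  · -- normalization
    have e : ∀ x, ‖pF D0 D1 D2 x₀ ρ k A x‖ ^ 2 = (A / k) ^ 2 *
        (Mp D0 D1 D2 x₀ ρ 0 0 1 x * Mp D0 D1 D2 x₀ ρ 0 0 1 x +
          Mp D0 D1 D2 x₀ ρ 1 0 0 x * Mp D0 D1 D2 x₀ ρ 1 0 0 x) := by
      intro x
      unfold pF
      rw [norm_smul, mul_pow, norm_vv_sq, Real.norm_eq_abs, sq_abs]
      ring
    simp only [e]
    rw [integral_const_mul, integral_add (mp_int hρ c0 c1 c2 _ _ _ _ _ _)
      (mp_int hρ c0 c1 c2 _ _ _ _ _ _), mp_mul D0 D1 D2 x₀ hρ, mp_mul D0 D1 D2 x₀ hρ, ← mul_add, ← hS]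
    exact hA1
  · -- helicity
    have e : ∀ x, ⟪pF D0 D1 D2 x₀ ρ k A x, qF D0 D1 D2 x₀ ρ k A x⟫_ℝ = (A / k) * (A / k ^ 2) *
        (Mp D0 D1 D2 x₀ ρ 1 0 0 x * Mp D0 D1 D2 x₀ ρ 0 1 1 x -
          Mp D0 D1 D2 x₀ ρ 0 0 1 x * Mp D0 D1 D2 x₀ ρ 1 1 0 x) := by
      intro x
      unfold pF qF
      rw [real_inner_smul_left, real_inner_smul_right, inner_vv]
      ring
    simp only [e]
    rw [integral_const_mul, integral_sub (mp_int hρ c0 c1 c2 _ _ _ _ _ _)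
      (mp_int hρ c0 c1 c2 _ _ _ _ _ _), mp_mul D0 D1 D2 x₀ hρ, mp_mul D0 D1 D2 x₀ hρ,
      ch_zero c1]
    ring
  · refine (sqint _ (A * B ^ 3) (by positivity) bΦ zΦ).trans ?_
    have h1 : (A * w) ^ 2 ≤ CA ^ 2 := pow_le_pow_left₀ hAw0.le hAw 2
    calc (A * B ^ 3) ^ 2 * (ρ ^ 3 * w ^ 2) = (A * w) ^ 2 * (B ^ 3) ^ 2 * σ ^ 2 := by rw [hσ2]; ring
      _ ≤ CA ^ 2 * (B ^ 3) ^ 2 * σ ^ 2 := by gcongr
      _ ≤ (12 * B ^ 3 * CA * σ) ^ 2 := by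
          have : 0 ≤ CA ^ 2 * (B ^ 3) ^ 2 * σ ^ 2 := by positivity
          nlinarith
      _ ≤ C ^ 2 := pow_le_pow_left₀ (by positivity) hC2 2
  · refine (sqint (fun x => sF D0 D1 D2 x₀ ρ k A x - pF D0 D1 D2 x₀ ρ k A x)
      (6 * (A * B ^ 3) / (k * w)) (by positivity) bs (fun x hx => by
        rw [zs x hx, zp x hx, sub_zero])).trans ?_
    have h1 : (A * w) ^ 2 ≤ CA ^ 2 := pow_le_pow_left₀ hAw0.le hAw 2
    calc (6 * (A * B ^ 3) / (k * w)) ^ 2 * (ρ ^ 3 * w ^ 2)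
        = (36 * (A * w) ^ 2 * (B ^ 3) ^ 2 * σ ^ 2) / (k * w) ^ 2 := by rw [hσ2]; ring
      _ ≤ (36 * CA ^ 2 * (B ^ 3) ^ 2 * σ ^ 2) / (k * w) ^ 2 := by gcongr
      _ ≤ (12 * B ^ 3 * CA * σ) ^ 2 / (k * w) ^ 2 := by
          have : 0 ≤ CA ^ 2 * (B ^ 3) ^ 2 * σ ^ 2 := by positivity
          refine div_le_div_of_nonneg_right ?_ (by positivity)
          nlinarith
      _ ≤ C ^ 2 / (k * w) ^ 2 :=
          div_le_div_of_nonneg_right (pow_le_pow_left₀ (by positivity) hC2 2) (by positivity)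
      _ = (C / (k * w)) ^ 2 := (div_pow _ _ _).symm
  · refine (sqint (fun x => rF D0 D1 D2 x₀ ρ k A x - qF D0 D1 D2 x₀ ρ k A x)
      (12 * (A * B ^ 3) / (k * w)) (by positivity) br (fun x hx => by
        rw [zr x hx, zq x hx, sub_zero])).trans ?_
    have h1 : (A * w) ^ 2 ≤ CA ^ 2 := pow_le_pow_left₀ hAw0.le hAw 2
    calc (12 * (A * B ^ 3) / (k * w)) ^ 2 * (ρ ^ 3 * w ^ 2)
        = (144 * (A * w) ^ 2 * (B ^ 3) ^ 2 * σ ^ 2) / (k * w) ^ 2 := by rw [hσ2]; ring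
      _ ≤ (144 * CA ^ 2 * (B ^ 3) ^ 2 * σ ^ 2) / (k * w) ^ 2 := by gcongr
      _ ≤ (12 * B ^ 3 * CA * σ) ^ 2 / (k * w) ^ 2 := by
          refine div_le_div_of_nonneg_right (le_of_eq ?_) (by positivity)
          ring
      _ ≤ C ^ 2 / (k * w) ^ 2 :=
          div_le_div_of_nonneg_right (pow_le_pow_left₀ (by positivity) hC2 2) (by positivity)
      _ = (C / (k * w)) ^ 2 := (div_pow _ _ _).symm
  · refine (lnint _ (2 * (A * B ^ 3)) (by positivity) bp zp).trans ?_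
    calc 2 * (A * B ^ 3) * (ρ ^ 3 * w ^ 2) = 2 * (A * w) * B ^ 3 * ρ ^ 3 * w := by ring
      _ ≤ 2 * CA * B ^ 3 * ρ ^ 3 * w := by gcongr
      _ ≤ 12 * B ^ 3 * CA * ρ ^ 3 * w := by
          have : 0 ≤ CA * B ^ 3 * ρ ^ 3 * w := by positivity
          nlinarith
      _ ≤ C * w := mul_le_mul_of_nonneg_right hC3 hw.le
  · refine (lnint _ (4 * (A * B ^ 3)) (by positivity) bq zq).trans ?_
    calc 4 * (A * B ^ 3) * (ρ ^ 3 * w ^ 2) = 4 * (A * w) * B ^ 3 * ρ ^ 3 * w := by ring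
      _ ≤ 4 * CA * B ^ 3 * ρ ^ 3 * w := by gcongr
      _ ≤ 12 * B ^ 3 * CA * ρ ^ 3 * w := by
          have : 0 ≤ CA * B ^ 3 * ρ ^ 3 * w := by positivity
          nlinarith
      _ ≤ C * w := mul_le_mul_of_nonneg_right hC3 hw.le

end Pool.Agent.N980.WX
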