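import Pool.Agent.N980.WX.PK2

/-!
PK4 (helper50): pointwise bounds of the packets.
-/

open MeasureTheory Set Filter Topology
open scoped InnerProductSpace ContDiff

set_option autoImplicit false

namespace Pool.Agent.N980.WX

open H772R2.NS (E3 M3 IsTest jac)

namespace PK4

open PK2

lemma norm_vv (a b c : ℝ) : ‖vv a b c‖ ≤ |a| + |b| + |c| := by
  unfold vv
  rw [EuclideanSpace.norm_eq, Fin.sum_univ_three]
  simp only [Real.norm_eq_abs, sq_abs, Matrix.cons_val_zero, Matrix.cons_val_one, Matrix.cons_val]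
  rw [Real.sqrt_le_left (by positivity)]
  have h1 := abs_nonneg a
  have h2 := abs_nonneg b
  have h3 := abs_nonneg c
  rw [← sq_abs a, ← sq_abs b, ← sq_abs c]
  nlinarith [mul_nonneg h1 h2, mul_nonneg h1 h3, mul_nonneg h2 h3]

lemma co_le (v : E3) (i : Fin 3) : |v i| ≤ ‖v‖ := by
  have := PiLp.norm_apply_le v i
  rwa [Real.norm_eq_abs] at this

lemma lin_le (f0 f1 f2 : ℝ) (v : E3) :
    |(f0 • pr 0 + f1 • pr 1 + f2 • pr 2) v| ≤ (|f0| + |f1| + |f2|) * ‖v‖ := by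
  have e : (f0 • pr 0 + f1 • pr 1 + f2 • pr 2) v = f0 * v 0 + f1 * v 1 + f2 * v 2 := by
    simp
  rw [e]
  have h0 := mul_le_mul_of_nonneg_left (co_le v 0) (abs_nonneg f0)
  have h1 := mul_le_mul_of_nonneg_left (co_le v 1) (abs_nonneg f1)
  have h2 := mul_le_mul_of_nonneg_left (co_le v 2) (abs_nonneg f2)
  calc |f0 * v 0 + f1 * v 1 + f2 * v 2| ≤ |f0 * v 0 + f1 * v 1| + |f2 * v 2| := abs_add_le _ _
    _ ≤ |f0 * v 0| + |f1 * v 1| + |f2 * v 2| := by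
        have := abs_add_le (f0 * v 0) (f1 * v 1)
        linarith
    _ = |f0| * |v 0| + |f1| * |v 1| + |f2| * |v 2| := by rw [abs_mul, abs_mul, abs_mul]
    _ ≤ _ := by linarith

lemma fd_norm {α : ℝ} (hα : 0 ≤ α) {f g h : E3 → ℝ} {f0 f1 f2 g0 g1 g2 h0 h1 h2 : ℝ} {x : E3}
    (hf : PD f f0 f1 f2 x) (hg : PD g g0 g1 g2 x) (hh : PD h h0 h1 h2 x) :
    ‖fderiv ℝ (fun y => α • vv (f y) (g y) (h y)) x‖ ≤
      α * ((|f0| + |f1| + |f2|) + (|g0| + |g1| + |g2|) + (|h0| + |h1| + |h2|)) := by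
  rw [fd_eq hf hg hh]
  refine ContinuousLinearMap.opNorm_le_bound _ (by positivity) fun v => ?_
  rw [Lv_ap, norm_smul, Real.norm_of_nonneg hα, mul_assoc]
  refine mul_le_mul_of_nonneg_left ?_ hα
  refine (norm_vv _ _ _).trans ?_
  have k0 := lin_le f0 f1 f2 v
  have k1 := lin_le g0 g1 g2 v
  have k2 := lin_le h0 h1 h2 v
  linarith

end PK4

open PK2 PK4 in
/-- the bound of the products -/
theorem PK4.mp_le {B c k w : ℝ} {D0 D1 D2 : ℕ → ℝ → ℝ} (hB : 1 ≤ B) (hw : 0 < w) (hw1 : w ≤ 1)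
    (hkw : 1 ≤ k * w) (h : One B c k w D0 D1 D2) (x₀ : E3) (ρ : ℝ) {i j l : ℕ} (hi : i ≤ 6) (hj : j ≤ 6)
    (hl : l ≤ 6) {n : ℕ} (hn : i + j ≤ n) (x : E3) : |Mp D0 D1 D2 x₀ ρ i j l x| ≤ B ^ 3 * k ^ n := by
  have hk1 : 1 ≤ k := by nlinarith
  have hk0 : 0 < k := by linarith
  have hwk : 1 / w ≤ k := by
    rw [div_le_iff₀ hw]
    exact hkw
  have h0 := h.b0 i hi ((x 0 - x₀ 0) / ρ)
  have h1 := h.b1 j hj ((x 1 - x₀ 1) / ρ)
  have h2 := h.b2 l hl ((x 2 - x₀ 2) / ρ)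
  have h1' : |D1 j ((x 1 - x₀ 1) / ρ)| ≤ B * k ^ j := by
    refine h1.trans ?_
    rw [div_eq_mul_inv, ← inv_pow]
    refine mul_le_mul_of_nonneg_left (pow_le_pow_left₀ (by positivity) ?_ j) (by linarith)
    rw [← one_div]
    exact hwk
  unfold Mp
  rw [abs_mul, abs_mul]
  calc |D0 i ((x 0 - x₀ 0) / ρ)| * |D1 j ((x 1 - x₀ 1) / ρ)| * |D2 l ((x 2 - x₀ 2) / ρ)|
      ≤ (B * k ^ i) * (B * k ^ j) * B := by gcongr
    _ = B ^ 3 * k ^ (i + j) := by rw [pow_add]; ring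
    _ ≤ B ^ 3 * k ^ n := mul_le_mul_of_nonneg_left (pow_le_pow_right₀ hk1 hn) (by positivity)

open PK2 PK4 in
/-- **PK4** -/
theorem pk4 : S_sup := by
  intro B c ρ C' hB hc hρ hC'
  obtain ⟨C, hC⟩ : ∃ C : ℝ, C = 12 * (1 + ρ⁻¹) * B ^ 3 * C' := ⟨_, rfl⟩
  have hρi : 0 < ρ⁻¹ := inv_pos.2 hρ
  have hB0 : 0 < B := by linarith
  refine ⟨C, by rw [hC]; positivity, ?_⟩
  intro D0 D1 D2 x₀ k w A hw hw1 hkw h hA hAC
  have hk1 : 1 ≤ k := by nlinarith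
  have hk0 : 0 < k := by linarith
  have ml : ∀ (i j l : ℕ) (hi : i ≤ 6) (hj : j ≤ 6) (hl : l ≤ 6) (n : ℕ) (hn : i + j ≤ n) (x : E3),
      |Mp D0 D1 D2 x₀ ρ i j l x| ≤ B ^ 3 * k ^ n := fun i j l hi hj hl n hn x =>
    mp_le hB hw hw1 hkw h x₀ ρ hi hj hl hn x
  have mlρ : ∀ (i j l : ℕ) (hi : i ≤ 6) (hj : j ≤ 6) (hl : l ≤ 6) (n : ℕ) (hn : i + j ≤ n) (x : E3),
      |ρ⁻¹ * Mp D0 D1 D2 x₀ ρ i j l x| ≤ ρ⁻¹ * (B ^ 3 * k ^ n) := fun i j l hi hj hl n hn x => by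
    rw [abs_mul, abs_of_pos hρi]
    exact mul_le_mul_of_nonneg_left (ml i j l hi hj hl n hn x) hρi.le
  have pd : ∀ (a b c : ℕ) (x : E3), PD (Mp D0 D1 D2 x₀ ρ a b c) (ρ⁻¹ * Mp D0 D1 D2 x₀ ρ (a + 1) b c x)
      (ρ⁻¹ * Mp D0 D1 D2 x₀ ρ a (b + 1) c x) (ρ⁻¹ * Mp D0 D1 D2 x₀ ρ a b (c + 1) x) x :=
    fun a b c x => pd_mp h.c0 h.c1 h.c2 a b c x
  -- `A B³ ≤ B³ C' / w`
  have hAB : A * B ^ 3 ≤ B ^ 3 * C' / w := by
    calc A * B ^ 3 ≤ C' / w * B ^ 3 := mul_le_mul_of_nonneg_right hAC (by positivity)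
      _ = B ^ 3 * C' / w := by ring
  have fin1 : ∀ m : ℝ, m ≤ 12 * (A * B ^ 3) → m ≤ C / w := by
    intro m hm
    have h1 : 0 ≤ B ^ 3 * C' / w := by positivity
    calc m ≤ 12 * (B ^ 3 * C' / w) := by linarith
      _ ≤ 12 * (1 + ρ⁻¹) * (B ^ 3 * C' / w) := by
          have : 0 ≤ ρ⁻¹ * (B ^ 3 * C' / w) := by positivity
          nlinarith
      _ = C / w := by rw [hC]; ring
  have fin2 : ∀ m : ℝ, m ≤ 12 * ρ⁻¹ * (A * B ^ 3) * k → m ≤ C * (k / w) := by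
    intro m hm
    have h1 : 0 ≤ B ^ 3 * C' / w := by positivity
    have h2 : 12 * ρ⁻¹ * (A * B ^ 3) * k ≤ 12 * ρ⁻¹ * (B ^ 3 * C' / w) * k := by gcongr
    calc m ≤ 12 * ρ⁻¹ * (B ^ 3 * C' / w) * k := hm.trans h2
      _ ≤ 12 * (1 + ρ⁻¹) * (B ^ 3 * C' / w) * k := by
          have : 0 ≤ (B ^ 3 * C' / w) * k := by positivity
          nlinarith
      _ = C * (k / w) := by rw [hC]; ring
  refine ⟨fun x => fin1 _ ?_, fun x => fin1 _ ?_, fun x => fin2 _ ?_, fun x => fin2 _ ?_⟩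
  · unfold pF
    rw [norm_smul, Real.norm_of_nonneg (by positivity)]
    have k1 := ml 0 0 1 (by norm_num) (by norm_num) (by norm_num) 1 (by norm_num) x
    have k2 := ml 1 0 0 (by norm_num) (by norm_num) (by norm_num) 1 (by norm_num) x
    have k3 := norm_vv (-Mp D0 D1 D2 x₀ ρ 0 0 1 x) 0 (Mp D0 D1 D2 x₀ ρ 1 0 0 x)
    rw [abs_neg, abs_zero] at k3
    have k4 : ‖vv (-Mp D0 D1 D2 x₀ ρ 0 0 1 x) 0 (Mp D0 D1 D2 x₀ ρ 1 0 0 x)‖ ≤ 12 * (B ^ 3 * k) := by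
      rw [pow_one] at k1 k2
      have : 0 ≤ B ^ 3 * k := by positivity
      linarith
    calc A / k * ‖vv (-Mp D0 D1 D2 x₀ ρ 0 0 1 x) 0 (Mp D0 D1 D2 x₀ ρ 1 0 0 x)‖
        ≤ A / k * (12 * (B ^ 3 * k)) := mul_le_mul_of_nonneg_left k4 (by positivity)
      _ = 12 * (A * B ^ 3) := by field_simp
  · unfold qF
    rw [norm_smul, Real.norm_of_nonneg (by positivity)]
    have k1 := ml 1 1 0 (by norm_num) (by norm_num) (by norm_num) 2 (by norm_num) x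
    have k2 := ml 0 0 2 (by norm_num) (by norm_num) (by norm_num) 2 (by norm_num) x
    have k3 := ml 2 0 0 (by norm_num) (by norm_num) (by norm_num) 2 (by norm_num) x
    have k4 := ml 0 1 1 (by norm_num) (by norm_num) (by norm_num) 2 (by norm_num) x
    have k5 := norm_vv (Mp D0 D1 D2 x₀ ρ 1 1 0 x)
      (-(Mp D0 D1 D2 x₀ ρ 0 0 2 x + Mp D0 D1 D2 x₀ ρ 2 0 0 x)) (Mp D0 D1 D2 x₀ ρ 0 1 1 x)
    rw [abs_neg] at k5
    have k6 := abs_add_le (Mp D0 D1 D2 x₀ ρ 0 0 2 x) (Mp D0 D1 D2 x₀ ρ 2 0 0 x)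
    have k7 : ‖vv (Mp D0 D1 D2 x₀ ρ 1 1 0 x)
      (-(Mp D0 D1 D2 x₀ ρ 0 0 2 x + Mp D0 D1 D2 x₀ ρ 2 0 0 x)) (Mp D0 D1 D2 x₀ ρ 0 1 1 x)‖ ≤
        12 * (B ^ 3 * k ^ 2) := by
      have : 0 ≤ B ^ 3 * k ^ 2 := by positivity
      linarith
    calc _ ≤ A / k ^ 2 * (12 * (B ^ 3 * k ^ 2)) := mul_le_mul_of_nonneg_left k7 (by positivity)
      _ = 12 * (A * B ^ 3) := by field_simp
  · unfold pF
    refine (fd_norm (by positivity) ((pd 0 0 1 x).neg) (PD.zero x) (pd 1 0 0 x)).trans ?_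
    simp only [abs_neg, abs_zero]
    have k1 := mlρ 1 0 1 (by norm_num) (by norm_num) (by norm_num) 2 (by norm_num) x
    have k2 := mlρ 0 1 1 (by norm_num) (by norm_num) (by norm_num) 2 (by norm_num) x
    have k3 := mlρ 0 0 2 (by norm_num) (by norm_num) (by norm_num) 2 (by norm_num) x
    have k4 := mlρ 2 0 0 (by norm_num) (by norm_num) (by norm_num) 2 (by norm_num) x
    have k5 := mlρ 1 1 0 (by norm_num) (by norm_num) (by norm_num) 2 (by norm_num) x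
    have hn : 0 ≤ ρ⁻¹ * (B ^ 3 * k ^ 2) := by positivity
    calc _ ≤ A / k * (12 * (ρ⁻¹ * (B ^ 3 * k ^ 2))) := by
          refine mul_le_mul_of_nonneg_left ?_ (by positivity)
          simp only [zero_add] at *
          linarith
      _ = 12 * ρ⁻¹ * (A * B ^ 3) * k := by field_simp
  · unfold qF
    refine (fd_norm (by positivity) (pd 1 1 0 x) (((pd 0 0 2 x).add (pd 2 0 0 x)).neg)
      (pd 0 1 1 x)).trans ?_
    simp only [abs_neg]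
    have k1 := mlρ 2 1 0 (by norm_num) (by norm_num) (by norm_num) 3 (by norm_num) x
    have k2 := mlρ 1 2 0 (by norm_num) (by norm_num) (by norm_num) 3 (by norm_num) x
    have k3 := mlρ 1 1 1 (by norm_num) (by norm_num) (by norm_num) 3 (by norm_num) x
    have k4 := mlρ 1 0 2 (by norm_num) (by norm_num) (by norm_num) 3 (by norm_num) x
    have k5 := mlρ 0 1 2 (by norm_num) (by norm_num) (by norm_num) 3 (by norm_num) x
    have k6 := mlρ 0 0 3 (by norm_num) (by norm_num) (by norm_num) 3 (by norm_num) x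
    have k7 := mlρ 3 0 0 (by norm_num) (by norm_num) (by norm_num) 3 (by norm_num) x
    have k8 := mlρ 2 0 1 (by norm_num) (by norm_num) (by norm_num) 3 (by norm_num) x
    have k9 := mlρ 0 2 1 (by norm_num) (by norm_num) (by norm_num) 3 (by norm_num) x
    have s0 := abs_add_le (ρ⁻¹ * Mp D0 D1 D2 x₀ ρ 1 0 2 x) (ρ⁻¹ * Mp D0 D1 D2 x₀ ρ 3 0 0 x)
    have s1 := abs_add_le (ρ⁻¹ * Mp D0 D1 D2 x₀ ρ 0 1 2 x) (ρ⁻¹ * Mp D0 D1 D2 x₀ ρ 2 1 0 x)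
    have s2 := abs_add_le (ρ⁻¹ * Mp D0 D1 D2 x₀ ρ 0 0 3 x) (ρ⁻¹ * Mp D0 D1 D2 x₀ ρ 2 0 1 x)
    have hn : 0 ≤ ρ⁻¹ * (B ^ 3 * k ^ 3) := by positivity
    calc _ ≤ A / k ^ 2 * (12 * (ρ⁻¹ * (B ^ 3 * k ^ 3))) := by
          refine mul_le_mul_of_nonneg_left ?_ (by positivity)
          simp only [zero_add] at *
          linarith
      _ = 12 * ρ⁻¹ * (A * B ^ 3) * k := by field_simp

end Pool.Agent.N980.WX
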