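import Pool.Agent.N980.WX.Pck2

/-!
(PK5) assembly of the packets.
-/

open MeasureTheory Set Filter Topology
open scoped InnerProductSpace ContDiff

set_option autoImplicit false

namespace Pool.Agent.N980.WX

open H772R2.NS (E3 M3 IsTest jac)

namespace PK5

lemma bx_sub (x₀ : E3) (ℓ w : ℝ) (hℓ : 0 < ℓ) (hw : w ≤ 1) :
    Bx x₀ (ℓ / 4) w ⊆ Metric.ball x₀ ℓ := by
  intro x hx
  obtain ⟨⟨h1, h2⟩, ⟨h3, h4⟩, ⟨h5, h6⟩⟩ := hx
  have hρ : 0 < ℓ / 4 := by linarith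
  rw [Metric.mem_ball, EuclideanSpace.dist_eq, Fin.sum_univ_three]
  rw [Real.sqrt_lt' hℓ]
  simp only [Real.dist_eq, sq_abs]
  rw [le_div_iff₀ hρ] at h1 h3 h5
  rw [div_le_iff₀ hρ] at h2 h4 h6
  have w0 : 0 ≤ w := by
    by_contra hneg
    push Not at hneg
    nlinarith
  have a0 : (x 0 - x₀ 0) ^ 2 ≤ (ℓ / 4) ^ 2 := by
    have : x 0 - x₀ 0 ≤ ℓ / 4 := by nlinarith
    nlinarith
  have a1 : (x 1 - x₀ 1) ^ 2 ≤ (2 * (ℓ / 4)) ^ 2 := by
    have h : x 1 - x₀ 1 ≤ 2 * (ℓ / 4) := by nlinarith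
    have h' : 0 ≤ x 1 - x₀ 1 := le_trans (by positivity) h3
    exact pow_le_pow_left₀ h' h 2
  have a2 : (x 2 - x₀ 2) ^ 2 ≤ (ℓ / 4) ^ 2 := by
    have : x 2 - x₀ 2 ≤ ℓ / 4 := by nlinarith
    nlinarith
  nlinarith

lemma test_mono {Ω Ω' : Set E3} {φ : E3 → E3} (h : IsTest Ω φ) (hs : Ω ⊆ Ω') : IsTest Ω' φ :=
  ⟨h.smooth, h.compact, h.supp.trans hs, h.divfree⟩

lemma w_lt {T : ℝ} (hT : 2 ≤ T) {m n : ℕ} (hmn : m < n) : 2 * (1 / T ^ n) ≤ 1 / T ^ m := by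
  have hT0 : 0 < T := by linarith
  have h1 : T * T ^ m ≤ T ^ n := by
    rw [← pow_succ']
    exact pow_le_pow_right₀ (by linarith) hmn
  have h2 : 0 < T ^ m := by positivity
  have h3 : 0 < T ^ n := by positivity
  rw [mul_one_div, div_le_div_iff₀ h3 h2]
  nlinarith

end PK5

open PK5

/-- (PK5) -/
theorem pk5 : S_fin := by
  intro hone hcrl hint hsup R κ hκ0 hκ1 hRκ hRκ' x₀ ℓ hℓ
  obtain ⟨B, c, l, hB, hc, hl, hone⟩ := hone
  have hρ : 0 < ℓ / 4 := by linarith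
  obtain ⟨C₀, hC₀, hint⟩ := hint B c (ℓ / 4) hB hc hρ
  obtain ⟨C₁, hC₁, hsup⟩ := hsup B c (ℓ / 4) C₀ hB hc hρ hC₀
  set lam : ℝ := l + 2 * C₀ + ℓ / 4 + 1 with hlam
  have hlam1 : 1 ≤ lam := by rw [hlam]; linarith
  have hlaml : l ≤ lam := by rw [hlam]; linarith
  have hlamC : 2 * C₀ ≤ lam := by rw [hlam]; linarith
  have hlamρ : ℓ / 4 ≤ lam := by rw [hlam]; linarith
  have hlam0 : 0 < lam := by linarith
  have hR0 : (0 : ℝ) < R := by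
    rcases Nat.eq_zero_or_pos R with h | h
    · exfalso
      rw [h, Nat.cast_zero, Real.zero_rpow hκ0.ne'] at hRκ
      linarith
    · exact_mod_cast h
  have hRR : (R : ℝ) = (R : ℝ) ^ κ * (R : ℝ) ^ (1 - κ) := by
    rw [← Real.rpow_add hR0, add_sub_cancel, Real.rpow_one]
  set S : ℝ := (R : ℝ) ^ κ with hS
  set T : ℝ := (R : ℝ) ^ (1 - κ) with hT
  have hS0 : 0 < S := by linarith
  have hT0 : 0 < T := by linarith
  have hw0 : ∀ n : ℕ, 0 < 1 / T ^ n := fun n => by positivity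
  have hw1 : ∀ n : ℕ, 1 / T ^ n ≤ 1 := fun n => by
    rw [div_le_one (by positivity)]
    exact one_le_pow₀ (by linarith)
  have hk0 : ∀ n : ℕ, 0 < lam * (R : ℝ) ^ n := fun n => by positivity
  have hkw : ∀ n : ℕ, lam * (R : ℝ) ^ n * (1 / T ^ n) = lam * S ^ n := fun n => by
    rw [hRR, mul_pow]
    field_simp
  have hSn : ∀ n : ℕ, 1 ≤ S ^ n := fun n => one_le_pow₀ (by linarith)
  have hkl : ∀ n : ℕ, lam ≤ lam * (R : ℝ) ^ n * (1 / T ^ n) := fun n => by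
    rw [hkw n]
    nlinarith [hSn n]
  choose D0 D1 D2 hD using fun n : ℕ => hone (lam * (R : ℝ) ^ n) (1 / T ^ n) (hw0 n) (hw1 n)
    (hlaml.trans (hkl n))
  choose A hA0 hA1 hA2 hA3 hA4 hA5 hA6 hA7 hA8 using fun n : ℕ =>
    hint (D0 n) (D1 n) (D2 n) x₀ (lam * (R : ℝ) ^ n) (1 / T ^ n) (hw0 n) (hw1 n)
    (hlam1.trans (hkl n)) (hD n)
  have hsup' := fun n : ℕ => hsup (D0 n) (D1 n) (D2 n) x₀ (lam * (R : ℝ) ^ n) (1 / T ^ n) (A n)
    (hw0 n) (hw1 n) (hlam1.trans (hkl n)) (hD n) (hA0 n) (hA1 n)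
  have hcrl' := fun n : ℕ => hcrl (D0 n) (D1 n) (D2 n) x₀ (ℓ / 4) (lam * (R : ℝ) ^ n) (A n)
    (1 / T ^ n) hρ (hk0 n) (hw0 n) (hw1 n) (hD n).c0 (hD n).c1 (hD n).c2
  have hbx := fun n : ℕ => bx_sub x₀ ℓ (1 / T ^ n) hℓ (hw1 n)
  have hmu : ∀ n : ℕ, lam * (R : ℝ) ^ n / (ℓ / 4) = lam / (ℓ / 4) * (R : ℝ) ^ n := fun n => by
    field_simp
  set C : ℝ := C₀ + C₁ * lam with hC
  have hCC₀ : C₀ ≤ C := by
    have : 0 ≤ C₁ * lam := by positivity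
    rw [hC]; linarith
  have hCC₁ : C₁ * lam ≤ C := by rw [hC]; linarith
  have hCC₁' : C₁ ≤ C := by
    refine le_trans ?_ hCC₁
    nlinarith
  have hCnn : 0 ≤ C := hC₀.trans hCC₀
  have hCw : ∀ n : ℕ, C₁ / (1 / T ^ n) ≤ C * T ^ n := fun n => by
    rw [div_div_eq_mul_div, div_one]
    exact mul_le_mul_of_nonneg_right hCC₁' (by positivity)
  have hCkw : ∀ n : ℕ, C₁ * (lam * (R : ℝ) ^ n / (1 / T ^ n)) ≤ C * ((R : ℝ) ^ n * T ^ n) := by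
    intro n
    rw [div_div_eq_mul_div, div_one]
    calc C₁ * (lam * (R : ℝ) ^ n * T ^ n) = (C₁ * lam) * ((R : ℝ) ^ n * T ^ n) := by ring
      _ ≤ _ := mul_le_mul_of_nonneg_right hCC₁ (by positivity)
  have hCl : ∀ n : ℕ, C₀ * (1 / T ^ n) ≤ C / T ^ n := fun n => by
    rw [mul_one_div]
    exact div_le_div_of_nonneg_right hCC₀ (by positivity)
  refine ⟨lam / (ℓ / 4), C,
    fun n => ΦF (D0 n) (D1 n) (D2 n) x₀ (ℓ / 4) (A n),
    fun n => pF (D0 n) (D1 n) (D2 n) x₀ (ℓ / 4) (lam * (R : ℝ) ^ n) (A n),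
    fun n => qF (D0 n) (D1 n) (D2 n) x₀ (ℓ / 4) (lam * (R : ℝ) ^ n) (A n),
    fun n => sF (D0 n) (D1 n) (D2 n) x₀ (ℓ / 4) (lam * (R : ℝ) ^ n) (A n),
    fun n => rF (D0 n) (D1 n) (D2 n) x₀ (ℓ / 4) (lam * (R : ℝ) ^ n) (A n), ?_⟩
  refine
    { μ1 := by rw [le_div_iff₀ hρ]; linarith
      C0 := hCnn
      tΦ := fun n => ?_
      tp := fun n => test_mono (hcrl' n).2.2.2.2.2.1 (hbx n)
      tq := fun n => test_mono (hcrl' n).2.2.2.2.2.2.1 (hbx n)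
      ts := fun n => test_mono (hcrl' n).2.2.2.2.2.2.2.1 (hbx n)
      tr := fun n => test_mono (hcrl' n).2.2.2.2.2.2.2.2.1 (hbx n)
      cΦ := fun n x => ?_
      cp := fun n x => ?_
      cq := fun n x => ?_
      cs := fun n x => ?_
      disj := ?_
      np := hA2
      hel := hA3
      nΦ := fun n => (hA4 n).trans (pow_le_pow_left₀ hC₀ hCC₀ 2)
      sp := fun n => (hA5 n).trans ?_
      rq := fun n => (hA6 n).trans ?_
      bp := fun n x => ((hsup' n).1 x).trans (hCw n)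
      bq := fun n x => ((hsup' n).2.1 x).trans (hCw n)
      dp := fun n x => ((hsup' n).2.2.1 x).trans (hCkw n)
      dq := fun n x => ((hsup' n).2.2.2 x).trans (hCkw n)
      lp := fun n => (hA7 n).trans (hCl n)
      lq := fun n => (hA8 n).trans (hCl n) }
  · obtain ⟨h1, h2⟩ := (hcrl' n).2.2.2.2.1
    refine ⟨h1, ?_, h2.trans (hbx n)⟩
    exact (hcrl' n).2.2.2.2.2.2.2.2.2.1.of_isClosed_subset (isClosed_tsupport _) h2
  · rw [(hcrl' n).1 x, hmu n]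
  · rw [(hcrl' n).2.1 x, hmu n]
  · rw [(hcrl' n).2.2.1 x, hmu n]
  · rw [(hcrl' n).2.2.2.1 x, hmu n]
  · have key : ∀ m n : ℕ, m < n → ∀ x,
        (pF (D0 m) (D1 m) (D2 m) x₀ (ℓ / 4) (lam * (R : ℝ) ^ m) (A m) x = 0 ∧
          qF (D0 m) (D1 m) (D2 m) x₀ (ℓ / 4) (lam * (R : ℝ) ^ m) (A m) x = 0) ∨
        (pF (D0 n) (D1 n) (D2 n) x₀ (ℓ / 4) (lam * (R : ℝ) ^ n) (A n) x = 0 ∧
          qF (D0 n) (D1 n) (D2 n) x₀ (ℓ / 4) (lam * (R : ℝ) ^ n) (A n) x = 0) := by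
      intro m n hmn x
      by_contra hcon
      push Not at hcon
      obtain ⟨h1, h2⟩ := hcon
      have g1 := (hcrl' m).2.2.2.2.2.2.2.2.2.2 x (by
        by_cases h : pF (D0 m) (D1 m) (D2 m) x₀ (ℓ / 4) (lam * (R : ℝ) ^ m) (A m) x = 0
        · exact Or.inr (h1 h)
        · exact Or.inl h)
      have g2 := (hcrl' n).2.2.2.2.2.2.2.2.2.2 x (by
        by_cases h : pF (D0 n) (D1 n) (D2 n) x₀ (ℓ / 4) (lam * (R : ℝ) ^ n) (A n) x = 0
        · exact Or.inr (h2 h)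
        · exact Or.inl h)
      have g3 := w_lt hRκ' hmn
      linarith [g1.1, g2.2]
    intro m n hmn x
    rcases lt_or_gt_of_ne hmn with h | h
    · exact key m n h x
    · exact (key n m h x).symm
  · rw [hkw n]
    refine pow_le_pow_left₀ (by positivity) ?_ 2
    rw [div_div, div_le_div_iff₀ (by positivity) (by positivity)]
    have := hSn n
    nlinarith
  · rw [hkw n]
    refine pow_le_pow_left₀ (by positivity) ?_ 2
    have := hSn n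
    rw [div_le_div_iff₀ (by positivity) (by positivity)]
    have h1 : C₀ ≤ C * lam := by nlinarith
    nlinarith

end Pool.Agent.N980.WX
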