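import Pool.Agent.N980.WX.Ord0
import Pool.Agent.N980.WX.PK1
import Pool.Agent.N980.WX.PK2
import Pool.Agent.N980.WX.PK3
import Pool.Agent.N980.WX.PK4
import Pool.Agent.N980.WX.PK5

/-!
(OR3) packets with bounds of the potentials (helper771), after PK5.
-/

open MeasureTheory Set Filter Topology
open scoped InnerProductSpace ContDiff

set_option autoImplicit false

namespace Pool.Agent.N980.WX

open H772R2.NS (E3 M3 IsTest jac)

namespace OR3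

lemma norm_vv_mid (m : ℝ) : ‖vv 0 m 0‖ = |m| := by
  have h := PK3.norm_vv_sq 0 m 0
  rw [← sq_eq_sq₀ (norm_nonneg _) (abs_nonneg _), sq_abs, h]
  ring

lemma phi_le {B c k w : ℝ} {D0 D1 D2 : ℕ → ℝ → ℝ} (h : One B c k w D0 D1 D2) (x₀ : E3) (ρ A : ℝ)
    (hB : 1 ≤ B) (hA : 0 < A) (x : E3) : ‖ΦF D0 D1 D2 x₀ ρ A x‖ ≤ A * B ^ 3 := by
  unfold ΦF
  rw [norm_smul, norm_vv_mid, Real.norm_eq_abs, abs_of_pos hA]
  refine mul_le_mul_of_nonneg_left ?_ hA.le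
  unfold Mp
  rw [abs_mul, abs_mul]
  have h0 := h.b0 0 (by norm_num) ((x 0 - x₀ 0) / ρ)
  have h1 := h.b1 0 (by norm_num) ((x 1 - x₀ 1) / ρ)
  have h2 := h.b2 0 (by norm_num) ((x 2 - x₀ 2) / ρ)
  rw [pow_zero, mul_one] at h0
  rw [pow_zero, div_one] at h1
  have hB0 : 0 ≤ B := by linarith
  calc |D0 0 ((x 0 - x₀ 0) / ρ)| * |D1 0 ((x 1 - x₀ 1) / ρ)| * |D2 0 ((x 2 - x₀ 2) / ρ)|
      ≤ B * B * B := mul_le_mul (mul_le_mul h0 h1 (abs_nonneg _) hB0) h2 (abs_nonneg _)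
        (by positivity)
    _ = B ^ 3 := by ring

lemma phi_int {B c k w : ℝ} {D0 D1 D2 : ℕ → ℝ → ℝ} (h : One B c k w D0 D1 D2) (x₀ : E3)
    {ρ A : ℝ} (hρ : 0 < ρ) (hw : 0 < w) (hB : 1 ≤ B) (hA : 0 < A) :
    ∫ x, ‖ΦF D0 D1 D2 x₀ ρ A x‖ ≤ A * B ^ 3 * (ρ ^ 3 * w ^ 2) := by
  refine PK3.int_le (x₀ := x₀) hρ hw (by positivity) (fun x => norm_nonneg _)
    (fun x => phi_le h x₀ ρ A hB hA x) ?_
  refine PK3.mp_ne h.c0 h.c1 h.c2 fun x hx => ?_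
  show ‖ΦF D0 D1 D2 x₀ ρ A x‖ = 0
  unfold ΦF
  rw [hx, norm_smul, norm_vv_mid, abs_zero, mul_zero]

end OR3

open PK5 OR3

/-- (OR3) -/
theorem or3 : S_packΦ := by
  intro R κ hκ0 hκ1 hRκ hRκ' x₀ ℓ hℓ
  obtain ⟨B, c, l, hB, hc, hl, hone⟩ := pk1
  have hρ : 0 < ℓ / 4 := by linarith
  obtain ⟨C₀, hC₀, hint⟩ := pk3 B c (ℓ / 4) hB hc hρ
  obtain ⟨C₁, hC₁, hsup⟩ := pk4 B c (ℓ / 4) C₀ hB hc hρ hC₀
  have hcrl := pk2
  set lam : ℝ := l + 2 * C₀ + ℓ / 4 + 1 with hlam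
  have hlam1 : 1 ≤ lam := by rw [hlam]; linarith
  have hlaml : l ≤ lam := by rw [hlam]; linarith
  have hlamC : 2 * C₀ ≤ lam := by rw [hlam]; linarith
  have hlamρ : ℓ / 4 ≤ lam := by rw [hlam]; linarith
  have hlam0 : 0 < lam := by linarith
  have hR0 : (0 : ℝ) < R := by
    rcases Nat.eq_zero_or_pos R with h | h
    · exfalso
      rw [h, Nat.cast_zero, Real.zero_rpow hκ0.ne'] at hRκ
      linarith
    · exact_mod_cast h
  have hRR : (R : ℝ) = (R : ℝ) ^ κ * (R : ℝ) ^ (1 - κ) := by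
    rw [← Real.rpow_add hR0, add_sub_cancel, Real.rpow_one]
  set S : ℝ := (R : ℝ) ^ κ with hS
  set T : ℝ := (R : ℝ) ^ (1 - κ) with hT
  have hS0 : 0 < S := by linarith
  have hT0 : 0 < T := by linarith
  have hw0 : ∀ n : ℕ, 0 < 1 / T ^ n := fun n => by positivity
  have hw1 : ∀ n : ℕ, 1 / T ^ n ≤ 1 := fun n => by
    rw [div_le_one (by positivity)]
    exact one_le_pow₀ (by linarith)
  have hk0 : ∀ n : ℕ, 0 < lam * (R : ℝ) ^ n := fun n => by positivity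
  have hkw : ∀ n : ℕ, lam * (R : ℝ) ^ n * (1 / T ^ n) = lam * S ^ n := fun n => by
    rw [hRR, mul_pow]
    field_simp
  have hSn : ∀ n : ℕ, 1 ≤ S ^ n := fun n => one_le_pow₀ (by linarith)
  have hkl : ∀ n : ℕ, lam ≤ lam * (R : ℝ) ^ n * (1 / T ^ n) := fun n => by
    rw [hkw n]
    nlinarith [hSn n]
  choose D0 D1 D2 hD using fun n : ℕ => hone (lam * (R : ℝ) ^ n) (1 / T ^ n) (hw0 n) (hw1 n)
    (hlaml.trans (hkl n))
  choose A hA0 hA1 hA2 hA3 hA4 hA5 hA6 hA7 hA8 using fun n : ℕ =>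
    hint (D0 n) (D1 n) (D2 n) x₀ (lam * (R : ℝ) ^ n) (1 / T ^ n) (hw0 n) (hw1 n)
    (hlam1.trans (hkl n)) (hD n)
  have hsup' := fun n : ℕ => hsup (D0 n) (D1 n) (D2 n) x₀ (lam * (R : ℝ) ^ n) (1 / T ^ n) (A n)
    (hw0 n) (hw1 n) (hlam1.trans (hkl n)) (hD n) (hA0 n) (hA1 n)
  have hcrl' := fun n : ℕ => hcrl (D0 n) (D1 n) (D2 n) x₀ (ℓ / 4) (lam * (R : ℝ) ^ n) (A n)
    (1 / T ^ n) hρ (hk0 n) (hw0 n) (hw1 n) (hD n).c0 (hD n).c1 (hD n).c2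
  have hbx := fun n : ℕ => bx_sub x₀ ℓ (1 / T ^ n) hℓ (hw1 n)
  have hmu : ∀ n : ℕ, lam * (R : ℝ) ^ n / (ℓ / 4) = lam / (ℓ / 4) * (R : ℝ) ^ n := fun n => by
    field_simp
  have hB0 : 0 < B := by linarith
  set C : ℝ := C₀ + C₁ * lam + C₀ * B ^ 3 + C₀ * B ^ 3 * (ℓ / 4) ^ 3 with hC
  have hx1 : 0 ≤ C₁ * lam := by positivity
  have hx2 : 0 ≤ C₀ * B ^ 3 := by positivity
  have hx3 : 0 ≤ C₀ * B ^ 3 * (ℓ / 4) ^ 3 := by positivity
  have hCC₀ : C₀ ≤ C := by rw [hC]; linarith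
  have hCC₁ : C₁ * lam ≤ C := by rw [hC]; linarith
  have hCC₂ : C₀ * B ^ 3 ≤ C := by rw [hC]; linarith
  have hCC₃ : C₀ * B ^ 3 * (ℓ / 4) ^ 3 ≤ C := by rw [hC]; linarith
  have hCC₁' : C₁ ≤ C := by
    refine le_trans ?_ hCC₁
    nlinarith
  have hCnn : 0 ≤ C := hC₀.trans hCC₀
  have hCw : ∀ n : ℕ, C₁ / (1 / T ^ n) ≤ C * T ^ n := fun n => by
    rw [div_div_eq_mul_div, div_one]
    exact mul_le_mul_of_nonneg_right hCC₁' (by positivity)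
  have hCkw : ∀ n : ℕ, C₁ * (lam * (R : ℝ) ^ n / (1 / T ^ n)) ≤ C * ((R : ℝ) ^ n * T ^ n) := by
    intro n
    rw [div_div_eq_mul_div, div_one]
    calc C₁ * (lam * (R : ℝ) ^ n * T ^ n) = (C₁ * lam) * ((R : ℝ) ^ n * T ^ n) := by ring
      _ ≤ _ := mul_le_mul_of_nonneg_right hCC₁ (by positivity)
  have hCl : ∀ n : ℕ, C₀ * (1 / T ^ n) ≤ C / T ^ n := fun n => by
    rw [mul_one_div]
    exact div_le_div_of_nonneg_right hCC₀ (by positivity)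
  refine ⟨lam / (ℓ / 4), C,
    fun n => ΦF (D0 n) (D1 n) (D2 n) x₀ (ℓ / 4) (A n),
    fun n => pF (D0 n) (D1 n) (D2 n) x₀ (ℓ / 4) (lam * (R : ℝ) ^ n) (A n),
    fun n => qF (D0 n) (D1 n) (D2 n) x₀ (ℓ / 4) (lam * (R : ℝ) ^ n) (A n),
    fun n => sF (D0 n) (D1 n) (D2 n) x₀ (ℓ / 4) (lam * (R : ℝ) ^ n) (A n),
    fun n => rF (D0 n) (D1 n) (D2 n) x₀ (ℓ / 4) (lam * (R : ℝ) ^ n) (A n), ?_⟩
  refine
    { μ1 := by rw [le_div_iff₀ hρ]; linarith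
      C0 := hCnn
      tΦ := fun n => ?_
      tp := fun n => test_mono (hcrl' n).2.2.2.2.2.1 (hbx n)
      tq := fun n => test_mono (hcrl' n).2.2.2.2.2.2.1 (hbx n)
      ts := fun n => test_mono (hcrl' n).2.2.2.2.2.2.2.1 (hbx n)
      tr := fun n => test_mono (hcrl' n).2.2.2.2.2.2.2.2.1 (hbx n)
      cΦ := fun n x => ?_
      cp := fun n x => ?_
      cq := fun n x => ?_
      cs := fun n x => ?_
      disj := ?_
      np := hA2
      hel := hA3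
      nΦ := fun n => (hA4 n).trans (pow_le_pow_left₀ hC₀ hCC₀ 2)
      sp := fun n => (hA5 n).trans ?_
      rq := fun n => (hA6 n).trans ?_
      bp := fun n x => ((hsup' n).1 x).trans (hCw n)
      bq := fun n x => ((hsup' n).2.1 x).trans (hCw n)
      dp := fun n x => ((hsup' n).2.2.1 x).trans (hCkw n)
      dq := fun n x => ((hsup' n).2.2.2 x).trans (hCkw n)
      lp := fun n => (hA7 n).trans (hCl n)
      lq := fun n => (hA8 n).trans (hCl n)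
      bΦ := fun n x => ?_
      lΦ := fun n => ?_ }
  · obtain ⟨h1, h2⟩ := (hcrl' n).2.2.2.2.1
    refine ⟨h1, ?_, h2.trans (hbx n)⟩
    exact (hcrl' n).2.2.2.2.2.2.2.2.2.1.of_isClosed_subset (isClosed_tsupport _) h2
  · rw [(hcrl' n).1 x, hmu n]
  · rw [(hcrl' n).2.1 x, hmu n]
  · rw [(hcrl' n).2.2.1 x, hmu n]
  · rw [(hcrl' n).2.2.2.1 x, hmu n]
  · have key : ∀ m n : ℕ, m < n → ∀ x,
        (pF (D0 m) (D1 m) (D2 m) x₀ (ℓ / 4) (lam * (R : ℝ) ^ m) (A m) x = 0 ∧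
          qF (D0 m) (D1 m) (D2 m) x₀ (ℓ / 4) (lam * (R : ℝ) ^ m) (A m) x = 0) ∨
        (pF (D0 n) (D1 n) (D2 n) x₀ (ℓ / 4) (lam * (R : ℝ) ^ n) (A n) x = 0 ∧
          qF (D0 n) (D1 n) (D2 n) x₀ (ℓ / 4) (lam * (R : ℝ) ^ n) (A n) x = 0) := by
      intro m n hmn x
      by_contra hcon
      push Not at hcon
      obtain ⟨h1, h2⟩ := hcon
      have g1 := (hcrl' m).2.2.2.2.2.2.2.2.2.2 x (by
        by_cases h : pF (D0 m) (D1 m) (D2 m) x₀ (ℓ / 4) (lam * (R : ℝ) ^ m) (A m) x = 0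
        · exact Or.inr (h1 h)
        · exact Or.inl h)
      have g2 := (hcrl' n).2.2.2.2.2.2.2.2.2.2 x (by
        by_cases h : pF (D0 n) (D1 n) (D2 n) x₀ (ℓ / 4) (lam * (R : ℝ) ^ n) (A n) x = 0
        · exact Or.inr (h2 h)
        · exact Or.inl h)
      have g3 := w_lt hRκ' hmn
      linarith [g1.1, g2.2]
    intro m n hmn x
    rcases lt_or_gt_of_ne hmn with h | h
    · exact key m n h x
    · exact (key n m h x).symm
  · rw [hkw n]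
    refine pow_le_pow_left₀ (by positivity) ?_ 2
    rw [div_div, div_le_div_iff₀ (by positivity) (by positivity)]
    have := hSn n
    nlinarith
  · rw [hkw n]
    refine pow_le_pow_left₀ (by positivity) ?_ 2
    have := hSn n
    rw [div_le_div_iff₀ (by positivity) (by positivity)]
    have h1 : C₀ ≤ C * lam := by nlinarith
    nlinarith
  · refine (phi_le (hD n) x₀ (ℓ / 4) (A n) hB (hA0 n) x).trans ?_
    have h1 := hA1 n
    rw [div_div_eq_mul_div, div_one] at h1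
    calc A n * B ^ 3 ≤ C₀ * T ^ n * B ^ 3 := mul_le_mul_of_nonneg_right h1 (by positivity)
      _ = (C₀ * B ^ 3) * T ^ n := by ring
      _ ≤ C * T ^ n := mul_le_mul_of_nonneg_right hCC₂ (by positivity)
  · refine (phi_int (hD n) x₀ hρ (hw0 n) hB (hA0 n)).trans ?_
    have h1 := hA1 n
    rw [div_div_eq_mul_div, div_one] at h1
    have hTn : 0 < T ^ n := by positivity
    calc A n * B ^ 3 * ((ℓ / 4) ^ 3 * (1 / T ^ n) ^ 2)
        ≤ C₀ * T ^ n * B ^ 3 * ((ℓ / 4) ^ 3 * (1 / T ^ n) ^ 2) := by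
          refine mul_le_mul_of_nonneg_right ?_ (by positivity)
          exact mul_le_mul_of_nonneg_right h1 (by positivity)
      _ = (C₀ * B ^ 3 * (ℓ / 4) ^ 3) / T ^ n := by
          field_simp
      _ ≤ C / T ^ n := div_le_div_of_nonneg_right hCC₃ hTn.le

end Pool.Agent.N980.WX
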