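import Pool.Agent.N980.WX.Adm
import Pool.Agent.N980.WX.OR1
import Pool.Agent.N980.WX.OR2
import Pool.Agent.N980.WX.OR3

/-!
The properties of the form.
-/

open MeasureTheory Set Filter Topology
open scoped InnerProductSpace ContDiff

set_option autoImplicit false
set_option linter.unusedVariables false

namespace Pool.Agent.N980.WX

open H772R2.NS (E3 M3 IsTest jac)
open Pool.Agent.N976.DI.D1 (int_Om test_out)
open Pool.Agent.N980.WQ (PD)
open Pool.Agent.N980.CB (zz zz16)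

variable {B : Set E3} {R : ℕ} {κ μ C ε : ℝ} {Φ p q s r : ℕ → E3 → E3}

theorem lpn_nonneg {F : Type} [NormedAddCommGroup F] (B : Set E3) (a : ℝ) (v : E3 → F) : 0 ≤ lpn B a v := by
  unfold lpn
  exact Real.rpow_nonneg (integral_nonneg fun x => Real.rpow_nonneg (norm_nonneg _) _) _

theorem rot_sq (z : M3) : ‖rot z‖ ^ 2 ≤ 2 * ‖z‖ ^ 2 := by
  rw [H772R2.NS.norm_sq_M3, H772R2.NS.norm_sq_E3]
  simp only [Fin.sum_univ_three, rot]
  simp
  nlinarith [sq_nonneg (z (2, 1) + z (1, 2)), sq_nonneg (z (0, 2) + z (2, 0)), sq_nonneg (z (1, 0) + z (0, 1)),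
    sq_nonneg (z (0, 0)), sq_nonneg (z (1, 1)), sq_nonneg (z (2, 2))]

theorem rot_le (z : M3) : ‖rot z‖ ≤ 2 * ‖z‖ := by
  have h := rot_sq z
  refine le_of_sq_le_sq ?_ (by positivity)
  nlinarith [sq_nonneg ‖z‖]

theorem jac_ct {w : E3 → E3} (hw : ContDiff ℝ ∞ w) : Continuous (jac w) := by
  have h1 : ContDiff ℝ ∞ (fderiv ℝ w) := hw.fderiv_right (by simp)
  unfold jac
  refine (PiLp.continuous_toLp 2 _).comp (continuous_pi fun i => ?_)
  have h2 : Continuous fun x => fderiv ℝ w x (EuclideanSpace.single i.2 1) := by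
    have := h1.continuous
    fun_prop
  exact (continuous_apply i.1).comp ((PiLp.continuous_ofLp 2 _).comp h2)

theorem int_pow (hB : Bornology.IsBounded B) (hBm : MeasurableSet B) {F : Type} [NormedAddCommGroup F] {w : E3 → F}
    (hw : Continuous w) {a : ℝ} (ha : 0 ≤ a) : IntegrableOn (fun x => ‖w x‖ ^ a) B := by
  have h1 : Continuous fun x => ‖w x‖ ^ a := hw.norm.rpow_const fun x => Or.inr ha
  exact (h1.continuousOn.integrableOn_compact hB.isCompact_closure).mono_set subset_closure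

theorem lpn_crl (hB : Bornology.IsBounded B) (hBm : MeasurableSet B) {w : E3 → E3} (hw : ContDiff ℝ ∞ w) {a : ℝ}
    (ha : 1 < a) : lpn B a (crl w) ≤ 2 * lpn B a (jac w) := by
  have ha0 : 0 < a := by linarith
  unfold lpn
  have h1 : ∫ x in B, ‖crl w x‖ ^ a ≤ 2 ^ a * ∫ x in B, ‖jac w x‖ ^ a := by
    rw [← integral_const_mul]
    refine setIntegral_mono (int_pow hB hBm (crl_sm hw).continuous ha0.le)
      ((int_pow hB hBm (jac_ct hw) ha0.le).const_mul _) fun x => ?_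
    show ‖crl w x‖ ^ a ≤ 2 ^ a * ‖jac w x‖ ^ a
    rw [← Real.mul_rpow (by norm_num) (norm_nonneg _)]
    exact Real.rpow_le_rpow (norm_nonneg _) (rot_le (jac w x)) ha0.le
  have h2 : 0 ≤ ∫ x in B, ‖jac w x‖ ^ a := integral_nonneg fun x => Real.rpow_nonneg (norm_nonneg _) _
  have h3 : 0 ≤ ∫ x in B, ‖crl w x‖ ^ a := integral_nonneg fun x => Real.rpow_nonneg (norm_nonneg _) _
  calc (∫ x in B, ‖crl w x‖ ^ a) ^ (1 / a) ≤ (2 ^ a * ∫ x in B, ‖jac w x‖ ^ a) ^ (1 / a) :=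
        Real.rpow_le_rpow h3 h1 (by positivity)
    _ = 2 * (∫ x in B, ‖jac w x‖ ^ a) ^ (1 / a) := by
        rw [Real.mul_rpow (by positivity) h2, ← Real.rpow_mul (by norm_num), mul_one_div_cancel ha0.ne', Real.rpow_one]

/-- The scale of the packet. -/
theorem ML_eq {T C a : ℝ} (hT : 0 < T) (hC : 0 ≤ C) (ha : 1 < a) :
    (C * T) ^ (1 / a) * (C / T) ^ (1 - 1 / a) ≤ (C + 1) * T ^ (2 / a - 1) := by
  have ha0 : 0 < a := by linarith
  have h1a : 1 / a < 1 := by rw [div_lt_one ha0]; exact ha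
  have h0 : 0 ≤ 1 / a := by positivity
  calc (C * T) ^ (1 / a) * (C / T) ^ (1 - 1 / a)
      ≤ ((C + 1) * T) ^ (1 / a) * ((C + 1) / T) ^ (1 - 1 / a) := by
        have : 0 ≤ 1 - 1 / a := by linarith
        gcongr <;> linarith
    _ = (C + 1) * T ^ (2 / a - 1) := by
        have hC1 : 0 < C + 1 := by linarith
        rw [Real.mul_rpow hC1.le hT.le, Real.div_rpow hC1.le hT.le]
        have e1 : (C + 1) ^ (1 / a) * (C + 1) ^ (1 - 1 / a) = C + 1 := by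
          rw [← Real.rpow_add hC1]
          have : 1 / a + (1 - 1 / a) = 1 := by ring
          rw [this, Real.rpow_one]
        have e2 : T ^ (1 / a) / T ^ (1 - 1 / a) = T ^ (2 / a - 1) := by
          rw [← Real.rpow_sub hT]
          congr 1
          ring
        rw [← e2]
        nth_rewrite 3 [← e1]
        ring

/-- The pairings with a packet. -/
theorem pair_one (hhol : S_hol) (hB : Bornology.IsBounded B) (hBm : MeasurableSet B) {f w : E3 → E3} {T C a : ℝ}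
    (hf : Continuous f) (hfc : HasCompactSupport f) (hT : 0 < T) (hC : 0 ≤ C) (ha : 1 < a)
    (h1 : ∀ x, ‖f x‖ ≤ C * T) (h2 : ∫ x, ‖f x‖ ≤ C / T) (hw : Continuous w) :
    |∫ x in B, ⟪w x, f x⟫_ℝ| ≤ (C + 1) * T ^ (2 / a - 1) * lpn B a w := by
  have h3 := hhol B f w (C * T) (C / T) a hBm hB ha hf hfc h1 h2 hw
  refine h3.trans ?_
  have h4 := ML_eq hT hC ha
  have h5 := lpn_nonneg B a w
  unfold lpn at h5 ⊢
  calc (∫ x in B, ‖w x‖ ^ a) ^ (1 / a) * ((C * T) ^ (1 / a) * (C / T) ^ (1 - 1 / a))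
      ≤ (∫ x in B, ‖w x‖ ^ a) ^ (1 / a) * ((C + 1) * T ^ (2 / a - 1)) := by gcongr
    _ = _ := by ring

/-- Bounds of the pairings at the scales `n`, `n + 1`. -/
structure PB (B : Set E3) (p q : ℕ → E3 → E3) (n : ℕ) (w : E3 → E3) (X : ℝ) : Prop where
  p0 : |ipO B w (p n)| ≤ X
  p1 : |ipO B w (p (n + 1))| ≤ X
  q0 : |ipO B w (q n)| ≤ X
  q1 : |ipO B w (q (n + 1))| ≤ X

theorem PB.x0 {n : ℕ} {w : E3 → E3} {X : ℝ} (h : PB B p q n w X) : 0 ≤ X := (abs_nonneg _).trans h.p0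

theorem det_le {w1 w2 w3 v1 v2 v3 z1 z2 z3 X Y Z : ℝ} (a1 : |w1| ≤ X) (a2 : |w2| ≤ X) (a3 : |w3| ≤ X) (b1 : |v1| ≤ Y)
    (b2 : |v2| ≤ Y) (b3 : |v3| ≤ Y) (c1 : |z1| ≤ Z) (c2 : |z2| ≤ Z) (c3 : |z3| ≤ Z) :
    |Matrix.det !![w1, w2, w3; v1, v2, v3; z1, z2, z3]| ≤ 6 * (X * Y * Z) := by
  rw [det_eq]
  have hX : 0 ≤ X := (abs_nonneg _).trans a1
  have hY : 0 ≤ Y := (abs_nonneg _).trans b1
  have m2 : ∀ b c : ℝ, |b| ≤ Y → |c| ≤ Z → |b * c| ≤ Y * Z := fun b c hb hc => by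
    rw [abs_mul]; exact mul_le_mul hb hc (abs_nonneg _) hY
  have m3 : ∀ a d e : ℝ, |a| ≤ X → |d| ≤ Y * Z → |e| ≤ Y * Z → |a * (d - e)| ≤ 2 * (X * Y * Z) := fun a d e ha hd he => by
    rw [abs_mul]
    have h1 : |d - e| ≤ 2 * (Y * Z) := (abs_sub _ _).trans (by linarith)
    calc |a| * |d - e| ≤ X * (2 * (Y * Z)) := mul_le_mul ha h1 (abs_nonneg _) hX
      _ = _ := by ring
  have t1 := m3 w1 _ _ a1 (m2 v2 z3 b2 c3) (m2 v3 z2 b3 c2)
  have t2 := m3 w2 _ _ a2 (m2 v1 z3 b1 c3) (m2 v3 z1 b3 c1)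
  have t3 := m3 w3 _ _ a3 (m2 v1 z2 b1 c2) (m2 v2 z1 b2 c1)
  calc _ ≤ |w1 * (v2 * z3 - v3 * z2) - w2 * (v1 * z3 - v3 * z1)| + |w3 * (v1 * z2 - v2 * z1)| := abs_add_le _ _
    _ ≤ |w1 * (v2 * z3 - v3 * z2)| + |w2 * (v1 * z3 - v3 * z1)| + |w3 * (v1 * z2 - v2 * z1)| := by
        gcongr
        exact abs_sub _ _
    _ ≤ _ := by linarith

theorem dl_le (h : PD R (2 + ε / 4) (3 * ε / 4)) : (R : ℝ) * Real.exp (-((R : ℝ) ^ (2 + ε / 4) / 1250)) ≤ 1 := by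
  have hpar := h.pc.par
  have hR0 := h.pc.R0
  have hR1 := h.pc.R1
  rw [← zz16, mul_comm]
  have h1 := hpar.zpow_mul 15 (m := 1) (by norm_num)
  have h2 : (zz ((R : ℝ) ^ (2 + ε / 4))) ^ 15 ≤ 1 := pow_le_one₀ hpar.hz.le hpar.z1
  have h3 : (R : ℝ) ≤ (R : ℝ) ^ (2 + ε / 4) := by
    have := Real.rpow_le_rpow_of_exponent_le hR1.le (show (1 : ℝ) ≤ 2 + ε / 4 by linarith [h.pc.s2])
    rwa [Real.rpow_one] at this
  have h4 : 0 < (zz ((R : ℝ) ^ (2 + ε / 4))) ^ 16 := pow_pos hpar.hz 16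
  rw [pow_one] at h1
  calc zz ((R : ℝ) ^ (2 + ε / 4)) ^ 16 * R ≤ zz ((R : ℝ) ^ (2 + ε / 4)) ^ 16 * (R : ℝ) ^ (2 + ε / 4) := by gcongr
    _ ≤ 1 := by nlinarith

theorem trm_le (h : PD R (2 + ε / 4) (3 * ε / 4)) {n : ℕ} {w v z : E3 → E3} {X Y Z : ℝ} (hw : PB B p q n w X)
    (hv : PB B p q n v Y) (hz : PB B p q n z Z) :
    |trm B ε R p q w v z n| ≤ 12 * ((R : ℝ) ^ n) ^ (1 + ε / 4) * (X * Y * Z) := by
  have hR0 := h.pc.R0
  have hX := hw.x0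
  have hY := hv.x0
  have hZ := hz.x0
  have d1 := det_le hw.p0 hw.p1 hw.q1 hv.p0 hv.p1 hv.q1 hz.p0 hz.p1 hz.q1
  have d2 := det_le hw.p0 hw.p1 hw.q0 hv.p0 hv.p1 hv.q0 hz.p0 hz.p1 hz.q0
  have hδ := dl_le h
  have hδ0 : 0 ≤ (R : ℝ) * Real.exp (-((R : ℝ) ^ (2 + ε / 4) / 1250)) := by positivity
  have hr : 0 ≤ ((R : ℝ) ^ n) ^ (1 + ε / 4) := by positivity
  unfold trm det3
  rw [abs_mul, abs_of_nonneg hr]
  have h3 := abs_add_le (Matrix.det !![ipO B w (p n), ipO B w (p (n + 1)), ipO B w (q (n + 1)); ipO B v (p n),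
      ipO B v (p (n + 1)), ipO B v (q (n + 1)); ipO B z (p n), ipO B z (p (n + 1)), ipO B z (q (n + 1))])
    (R * Real.exp (-((R : ℝ) ^ (2 + ε / 4) / 1250)) * Matrix.det !![ipO B w (p n), ipO B w (p (n + 1)), ipO B w (q n);
      ipO B v (p n), ipO B v (p (n + 1)), ipO B v (q n); ipO B z (p n), ipO B z (p (n + 1)), ipO B z (q n)])
  rw [abs_mul (R * Real.exp (-((R : ℝ) ^ (2 + ε / 4) / 1250))), abs_of_nonneg hδ0] at h3
  have hXYZ : 0 ≤ X * Y * Z := by positivity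
  have h4 : (R : ℝ) * Real.exp (-((R : ℝ) ^ (2 + ε / 4) / 1250)) * |Matrix.det !![ipO B w (p n), ipO B w (p (n + 1)),
      ipO B w (q n); ipO B v (p n), ipO B v (p (n + 1)), ipO B v (q n); ipO B z (p n), ipO B z (p (n + 1)),
      ipO B z (q n)]| ≤ 1 * (6 * (X * Y * Z)) :=
    mul_le_mul hδ d2 (abs_nonneg _) zero_le_one
  calc _ ≤ ((R : ℝ) ^ n) ^ (1 + ε / 4) * (12 * (X * Y * Z)) := by
        refine mul_le_mul_of_nonneg_left (h3.trans ?_) hr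
        linarith
    _ = _ := by ring

/-- The pairings with the packets. -/
theorem pb (hsym : S_sym) (hhol : S_hol) (hB : Bornology.IsBounded B) (hBm : MeasurableSet B)
    (h : PckΦ B R κ μ C Φ p q s r) (hR : 1 ≤ R) (hκ : 0 < κ) (hκ1 : κ < 1) {a : ℝ} (ha : 1 < a) (n : ℕ) {w : E3 → E3}
    (hw : ContDiff ℝ ∞ w) :
    PB B p q n w (2 * (C + 1) * R * ((((R : ℝ) ^ (1 - κ)) ^ n) ^ (2 / a - 1) * lpn B a w)) ∧
    PB B p q n w (2 * (C + 1) * R * ((((R : ℝ) ^ (1 - κ)) ^ n) ^ (2 / a - 1) * (lpn B a (jac w) / (R : ℝ) ^ n))) := by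
  have hR' : (1 : ℝ) ≤ R := by exact_mod_cast hR
  have hR0 : (0 : ℝ) < R := by linarith
  have hRn : ∀ n : ℕ, 0 < (R : ℝ) ^ n := fun n => pow_pos hR0 n
  have hC := h.C0
  have hμ := h.μ1
  have ha0 : 0 < a := by linarith
  set t := (R : ℝ) ^ (1 - κ) with ht
  have ht0 : 0 < t := Real.rpow_pos_of_pos hR0 _
  have ht1 : 1 ≤ t := Real.one_le_rpow hR' (by linarith)
  have htR : t ≤ R := by
    have := Real.rpow_le_rpow_of_exponent_le hR' (show 1 - κ ≤ 1 by linarith)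
    rwa [Real.rpow_one] at this
  have htn : ∀ n : ℕ, 0 < t ^ n := fun n => pow_pos ht0 n
  have hl := lpn_nonneg B a w
  have hl' := lpn_nonneg B a (jac w)
  have hcp : ∀ n : ℕ, 0 < μ * (R : ℝ) ^ n := fun n => by have := hRn n; positivity
  -- one scale
  have k1 : ∀ n, |ipO B w (p n)| ≤ (C + 1) * (t ^ n) ^ (2 / a - 1) * lpn B a w := fun n =>
    pair_one hhol hB hBm (h.tp n).smooth.continuous (h.tp n).compact (htn n) hC ha (h.bp n) (h.lp n) hw.continuous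
  have k2 : ∀ n, |ipO B w (q n)| ≤ (C + 1) * (t ^ n) ^ (2 / a - 1) * lpn B a w := fun n =>
    pair_one hhol hB hBm (h.tq n).smooth.continuous (h.tq n).compact (htn n) hC ha (h.bq n) (h.lq n) hw.continuous
  have key : ∀ (n : ℕ) (f g : E3 → E3), ContDiff ℝ ∞ f → HasCompactSupport f → tsupport f ⊆ B → IsTest B g →
      (∀ x, crl f x = (μ * (R : ℝ) ^ n) • g x) → (∀ x, ‖f x‖ ≤ C * t ^ n) → ∫ x, ‖f x‖ ≤ C / t ^ n →
      |ipO B w g| ≤ 2 * (C + 1) * (t ^ n) ^ (2 / a - 1) * (lpn B a (jac w) / (R : ℝ) ^ n) := by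
    intro n f g hf hfc hfB hg e1 e2 e3
    have g1 := hsym f w hf hfc hw
    simp only [e1, real_inner_smul_left] at g1
    rw [integral_const_mul] at g1
    have g2 : ipO B w g = ∫ x, ⟪g x, w x⟫_ℝ := by
      unfold ipO
      rw [int_Om fun x hx => by rw [test_out hg hx, inner_zero_right]]
      exact integral_congr_ae (ae_of_all _ fun x => real_inner_comm _ _)
    have g3 : ∫ x, ⟪f x, crl w x⟫_ℝ = ∫ x in B, ⟪crl w x, f x⟫_ℝ := by
      rw [int_Om fun x hx => by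
        rw [image_eq_zero_of_notMem_tsupport fun hc => hx (hfB hc), inner_zero_right]]
      exact integral_congr_ae (ae_of_all _ fun x => real_inner_comm _ _)
    have g4 := pair_one hhol hB hBm hf.continuous hfc (htn n) hC ha e2 e3 (crl_sm hw).continuous
    rw [← g3, ← g1, ← g2, abs_mul, abs_of_pos (hcp n)] at g4
    have g5 := lpn_crl hB hBm hw ha
    have g6 : (R : ℝ) ^ n * |ipO B w g| ≤ (C + 1) * (t ^ n) ^ (2 / a - 1) * (2 * lpn B a (jac w)) := by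
      have : (R : ℝ) ^ n ≤ μ * (R : ℝ) ^ n := le_mul_of_one_le_left (hRn n).le hμ
      calc (R : ℝ) ^ n * |ipO B w g| ≤ μ * (R : ℝ) ^ n * |ipO B w g| := by gcongr
        _ ≤ _ := g4
        _ ≤ _ := by
          have := htn n
          gcongr
    have e : 2 * (C + 1) * (t ^ n) ^ (2 / a - 1) * (lpn B a (jac w) / (R : ℝ) ^ n)
        = ((C + 1) * (t ^ n) ^ (2 / a - 1) * (2 * lpn B a (jac w))) / (R : ℝ) ^ n := by ring
    rw [e, le_div_iff₀ (hRn n), mul_comm]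
    exact g6
  have k3 : ∀ n, |ipO B w (p n)| ≤ 2 * (C + 1) * (t ^ n) ^ (2 / a - 1) * (lpn B a (jac w) / (R : ℝ) ^ n) := fun n =>
    key n (Φ n) (p n) (h.tΦ n).1 (h.tΦ n).2.1 (h.tΦ n).2.2 (h.tp n) (h.cΦ n) (h.bΦ n) (h.lΦ n)
  have k4 : ∀ n, |ipO B w (q n)| ≤ 2 * (C + 1) * (t ^ n) ^ (2 / a - 1) * (lpn B a (jac w) / (R : ℝ) ^ n) := fun n =>
    key n (p n) (q n) (h.tp n).smooth (h.tp n).compact (h.tp n).supp (h.tq n) (h.cp n) (h.bp n) (h.lp n)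
  -- the next scale
  have hs : (t ^ (n + 1)) ^ (2 / a - 1) ≤ R * (t ^ n) ^ (2 / a - 1) := by
    rw [pow_succ, mul_comm, Real.mul_rpow ht0.le (htn n).le]
    have h1 : t ^ (2 / a - 1) ≤ R := by
      have h2 : t ^ (2 / a - 1) ≤ t ^ (1 : ℝ) := by
        refine Real.rpow_le_rpow_of_exponent_le ht1 ?_
        have : 2 / a ≤ 2 := div_le_self (by norm_num) ha.le
        linarith
      rw [Real.rpow_one] at h2
      exact h2.trans htR
    have := Real.rpow_nonneg (htn n).le (2 / a - 1)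
    gcongr
  have hs0 : 0 ≤ (t ^ n) ^ (2 / a - 1) := Real.rpow_nonneg (htn n).le _
  have hd : lpn B a (jac w) / (R : ℝ) ^ (n + 1) ≤ lpn B a (jac w) / (R : ℝ) ^ n := by
    have : (R : ℝ) ^ n ≤ (R : ℝ) ^ (n + 1) := pow_le_pow_right₀ hR' (Nat.le_succ n)
    have := hRn n
    gcongr
  have u1 : (C + 1) * (t ^ n) ^ (2 / a - 1) * lpn B a w
      ≤ 2 * (C + 1) * R * ((t ^ n) ^ (2 / a - 1) * lpn B a w) := by
    have h1 : 0 ≤ (C + 1) * ((t ^ n) ^ (2 / a - 1) * lpn B a w) := by positivity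
    nlinarith
  have u2 : (C + 1) * (t ^ (n + 1)) ^ (2 / a - 1) * lpn B a w
      ≤ 2 * (C + 1) * R * ((t ^ n) ^ (2 / a - 1) * lpn B a w) := by
    have h1 : 0 ≤ (C + 1) * R * ((t ^ n) ^ (2 / a - 1) * lpn B a w) := by positivity
    calc (C + 1) * (t ^ (n + 1)) ^ (2 / a - 1) * lpn B a w
        ≤ (C + 1) * (R * (t ^ n) ^ (2 / a - 1)) * lpn B a w := by gcongr
      _ ≤ _ := by linarith
  have u3 : 2 * (C + 1) * (t ^ n) ^ (2 / a - 1) * (lpn B a (jac w) / (R : ℝ) ^ n)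
      ≤ 2 * (C + 1) * R * ((t ^ n) ^ (2 / a - 1) * (lpn B a (jac w) / (R : ℝ) ^ n)) := by
    have h1 : 0 ≤ 2 * (C + 1) * ((t ^ n) ^ (2 / a - 1) * (lpn B a (jac w) / (R : ℝ) ^ n)) := by
      have := hRn n
      positivity
    nlinarith
  have u4 : 2 * (C + 1) * (t ^ (n + 1)) ^ (2 / a - 1) * (lpn B a (jac w) / (R : ℝ) ^ (n + 1))
      ≤ 2 * (C + 1) * R * ((t ^ n) ^ (2 / a - 1) * (lpn B a (jac w) / (R : ℝ) ^ n)) := by
    have := hRn n
    have := hRn (n + 1)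
    calc 2 * (C + 1) * (t ^ (n + 1)) ^ (2 / a - 1) * (lpn B a (jac w) / (R : ℝ) ^ (n + 1))
        ≤ 2 * (C + 1) * (R * (t ^ n) ^ (2 / a - 1)) * (lpn B a (jac w) / (R : ℝ) ^ n) := by gcongr
      _ = _ := by ring
  exact ⟨⟨(k1 n).trans u1, (k1 (n + 1)).trans u2, (k2 n).trans u1, (k2 (n + 1)).trans u2⟩,
    ⟨(k3 n).trans u3, (k3 (n + 1)).trans u4, (k4 n).trans u3, (k4 (n + 1)).trans u4⟩⟩

end Pool.Agent.N980.WX
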