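import Pool.Agent.N980.WX.Pck2

/-!
The order of the form: statements.
-/

open MeasureTheory Set Filter Topology
open scoped InnerProductSpace ContDiff

set_option autoImplicit false

namespace Pool.Agent.N980.WX

open H772R2.NS (E3 M3 IsTest jac)

/-- (OR1) Interpolation of a geometric sum. -/
def S_geo : Prop := ∀ (R : ℕ) (ε : ℝ), 2 ≤ R → 0 < ε → ε < 1 → ∃ C : ℝ, 0 ≤ C ∧ ∀ (a b : ℝ) (t : ℕ → ℝ), 0 ≤ a → 0 ≤ b →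
  (∀ n, |t n| ≤ ((R : ℝ) ^ ε) ^ n * min a (b / (R : ℝ) ^ n)) →
    Summable t ∧ |∑' n, t n| ≤ C * (a ^ (1 - ε) * b ^ ε)

/-- (OR2) Hölder's inequality for a bounded integrable field. -/
def S_hol : Prop := ∀ (B : Set E3) (f w : E3 → E3) (M L p : ℝ), MeasurableSet B → Bornology.IsBounded B → 1 < p →
  Continuous f → HasCompactSupport f → (∀ x, ‖f x‖ ≤ M) → ∫ x, ‖f x‖ ≤ L → Continuous w →
    |∫ x in B, ⟪w x, f x⟫_ℝ| ≤ (∫ x in B, ‖w x‖ ^ p) ^ (1 / p) * (M ^ (1 / p) * L ^ (1 - 1 / p))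

/-- The additional bounds of the potentials. -/
structure PckΦ (Ω : Set E3) (R : ℕ) (κ μ C : ℝ) (Φ p q s r : ℕ → E3 → E3) : Prop extends
    Pck Ω R κ μ C Φ p q s r where
  bΦ : ∀ n x, ‖Φ n x‖ ≤ C * ((R : ℝ) ^ (1 - κ)) ^ n
  lΦ : ∀ n, ∫ x, ‖Φ n x‖ ≤ C / ((R : ℝ) ^ (1 - κ)) ^ n

/-- (OR3) There are packets in every ball. -/
def S_packΦ : Prop := ∀ (R : ℕ) (κ : ℝ), 0 < κ → κ < 1 → 2 ≤ (R : ℝ) ^ κ → 2 ≤ (R : ℝ) ^ (1 - κ) →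
  ∀ (x₀ : E3) (ℓ : ℝ), 0 < ℓ → ∃ (μ C : ℝ) (Φ p q s r : ℕ → E3 → E3),
    PckΦ (Metric.ball x₀ ℓ) R κ μ C Φ p q s r

end Pool.Agent.N980.WX
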