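import Pool.Agent.N980.WX.Ord

/-!
The form is alternating, of order `ε`.
-/

open MeasureTheory Set Filter Topology
open scoped InnerProductSpace ContDiff

set_option autoImplicit false
set_option linter.unusedVariables false

namespace Pool.Agent.N980.WX

open H772R2.NS (E3 M3 IsTest jac)
open Pool.Agent.N976.DI.D1 (int_Om test_out)
open Pool.Agent.N980.WQ (PD)

variable {B : Set E3} {R : ℕ} {κ μ C ε : ℝ} {Φ p q s r : ℕ → E3 → E3}

/-- Interpolation for the sum of the terms. -/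
theorem sum_trm (hsym : S_sym) (hhol : S_hol) (hgeo : S_geo) (hB : Bornology.IsBounded B) (hBm : MeasurableSet B)
    (hε : 0 < ε) (hε1 : ε ≤ 4 / 5) (hd : PD R (2 + ε / 4) (3 * ε / 4)) (h : PckΦ B R (3 * ε / 4) μ C Φ p q s r) :
    ∃ K : ℝ, ∀ p₁ p₂ p₃ : ℝ, 1 < p₁ → 1 < p₂ → 1 < p₃ → 1 / p₁ + 1 / p₂ + 1 / p₃ = 1 →
    ∀ w v z, ContDiff ℝ ∞ w → ContDiff ℝ ∞ v → ContDiff ℝ ∞ z → Summable (trm B ε R p q w v z) ∧
      |A B ε R p q w v z| ≤ K * (lpn B p₁ w * (lpn B p₂ v ^ (1 - ε) * lpn B p₂ (jac v) ^ ε) * lpn B p₃ z) := by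
  have hR4 := hd.pc.R4
  have hR0 := hd.pc.R0
  have hR1 := hd.pc.R1
  obtain ⟨C1, hC1, hg⟩ := hgeo R ε (by omega) hε (by linarith)
  have hC := h.C0
  set K0 : ℝ := 2 * (C + 1) * R with hK0
  have hK00 : 0 ≤ K0 := by positivity
  refine ⟨C1 * (12 * K0 ^ 3), fun p₁ p₂ p₃ h1 h2 h3 h4 w v z hw hv hz => ?_⟩
  set W := lpn B p₁ w with hW
  set V := lpn B p₂ v with hV
  set V1 := lpn B p₂ (jac v) with hV1
  set Z := lpn B p₃ z with hZ
  have hW0 : 0 ≤ W := lpn_nonneg _ _ _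
  have hV0 : 0 ≤ V := lpn_nonneg _ _ _
  have hV10 : 0 ≤ V1 := lpn_nonneg _ _ _
  have hZ0 : 0 ≤ Z := lpn_nonneg _ _ _
  set c : ℝ := 12 * K0 ^ 3 * W * Z with hc
  have hc0 : 0 ≤ c := by positivity
  set t := (R : ℝ) ^ (1 - 3 * ε / 4) with ht
  have ht0 : 0 < t := Real.rpow_pos_of_pos hR0 _
  have hb : ∀ n, |trm B ε R p q w v z n| ≤ ((R : ℝ) ^ ε) ^ n * min (c * V) (c * V1 / (R : ℝ) ^ n) := by
    intro n
    have hRn : 0 < (R : ℝ) ^ n := pow_pos hR0 n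
    have htn : 0 < t ^ n := pow_pos ht0 n
    have b1 := (pb hsym hhol hB hBm h (by omega) hd.pc.k0 hd.pc.k1 h1 n hw).1
    have b2 := (pb hsym hhol hB hBm h (by omega) hd.pc.k0 hd.pc.k1 h2 n hv)
    have b3 := (pb hsym hhol hB hBm h (by omega) hd.pc.k0 hd.pc.k1 h3 n hz).1
    rw [← ht, ← hK0] at b1 b2 b3
    have g1 := trm_le hd b1 b2.1 b3
    have g2 := trm_le hd b1 b2.2 b3
    -- the product of the scales
    have e1 : (t ^ n) ^ (2 / p₁ - 1) * (t ^ n) ^ (2 / p₂ - 1) * (t ^ n) ^ (2 / p₃ - 1) = (t ^ n)⁻¹ := by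
      rw [← Real.rpow_add htn, ← Real.rpow_add htn, ← Real.rpow_neg_one]
      congr 1
      have : 2 / p₁ - 1 + (2 / p₂ - 1) + (2 / p₃ - 1) = 2 * (1 / p₁ + 1 / p₂ + 1 / p₃) - 3 := by ring
      rw [this, h4]
      norm_num
    have e2 : ((R : ℝ) ^ n) ^ (1 + ε / 4) * (t ^ n)⁻¹ = ((R : ℝ) ^ ε) ^ n := by
      have e3 : t ^ n = ((R : ℝ) ^ n) ^ (1 - 3 * ε / 4) := by
        rw [ht, ← Real.rpow_natCast ((R : ℝ) ^ (1 - 3 * ε / 4)) n, ← Real.rpow_mul hR0.le,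
          ← Real.rpow_natCast (R : ℝ) n, ← Real.rpow_mul hR0.le, mul_comm]
      have e4 : ((R : ℝ) ^ ε) ^ n = ((R : ℝ) ^ n) ^ ε := by
        rw [← Real.rpow_natCast ((R : ℝ) ^ ε) n, ← Real.rpow_mul hR0.le,
          ← Real.rpow_natCast (R : ℝ) n, ← Real.rpow_mul hR0.le, mul_comm]
      rw [e3, e4, ← Real.rpow_neg hRn.le, ← Real.rpow_add hRn]
      congr 1
      ring
    have key : ∀ Y : ℝ, |trm B ε R p q w v z n| ≤ 12 * ((R : ℝ) ^ n) ^ (1 + ε / 4)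
        * (K0 * ((t ^ n) ^ (2 / p₁ - 1) * W) * (K0 * ((t ^ n) ^ (2 / p₂ - 1) * Y)) * (K0 * ((t ^ n) ^ (2 / p₃ - 1) * Z)))
        → |trm B ε R p q w v z n| ≤ ((R : ℝ) ^ ε) ^ n * (c * Y) := by
      intro Y hY
      refine hY.trans (le_of_eq ?_)
      calc _ = (((R : ℝ) ^ n) ^ (1 + ε / 4) * ((t ^ n) ^ (2 / p₁ - 1) * (t ^ n) ^ (2 / p₂ - 1) * (t ^ n) ^ (2 / p₃ - 1)))
            * (12 * K0 ^ 3 * W * Z * Y) := by ring
        _ = _ := by rw [e1, e2]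
    have a1 := key V g1
    have a2 := key (V1 / (R : ℝ) ^ n) g2
    rw [← mul_div_assoc] at a2
    rcases le_total (c * V) (c * V1 / (R : ℝ) ^ n) with h5 | h5
    · rw [min_eq_left h5]; exact a1
    · rw [min_eq_right h5]; exact a2
  obtain ⟨s1, s2⟩ := hg (c * V) (c * V1) (trm B ε R p q w v z) (by positivity) (by positivity) hb
  refine ⟨s1, ?_⟩
  unfold A
  refine s2.trans (le_of_eq ?_)
  rw [Real.mul_rpow hc0 hV0, Real.mul_rpow hc0 hV10]
  have e5 : c ^ (1 - ε) * c ^ ε = c := by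
    rcases hc0.eq_or_lt with h0 | h0
    · rw [← h0, Real.zero_rpow hε.ne', mul_zero]
    · rw [← Real.rpow_add h0, sub_add_cancel, Real.rpow_one]
  calc C1 * (c ^ (1 - ε) * V ^ (1 - ε) * (c ^ ε * V1 ^ ε)) = C1 * ((c ^ (1 - ε) * c ^ ε) * (V ^ (1 - ε) * V1 ^ ε)) := by ring
    _ = C1 * (c * (V ^ (1 - ε) * V1 ^ ε)) := by rw [e5]
    _ = _ := by rw [hc]; ring

theorem sum_h1 (hsym : S_sym) (hhol : S_hol) (hgeo : S_geo) (hB : Bornology.IsBounded B) (hBm : MeasurableSet B)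
    (hε : 0 < ε) (hε1 : ε ≤ 4 / 5) (hd : PD R (2 + ε / 4) (3 * ε / 4)) (h : PckΦ B R (3 * ε / 4) μ C Φ p q s r) :
    ∃ K : ℝ, ∀ w v z, ContDiff ℝ ∞ w → ContDiff ℝ ∞ v → ContDiff ℝ ∞ z →
      |A B ε R p q w v z| ≤ K * (lpn B 2 w * (lpn B 2 v ^ (1 - ε / 4) * lpn B 2 (jac v) ^ (ε / 4)) * lpn B 2 (jac z)) := by
  have hR4 := hd.pc.R4
  have hR0 := hd.pc.R0
  have hR1 := hd.pc.R1
  have hε4 : 0 < ε / 4 := by linarith
  obtain ⟨C1, hC1, hg⟩ := hgeo R (ε / 4) (by omega) hε4 (by linarith)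
  have hC := h.C0
  set K0 : ℝ := 2 * (C + 1) * R with hK0
  have hK00 : 0 ≤ K0 := by positivity
  refine ⟨C1 * (12 * K0 ^ 3), fun w v z hw hv hz => ?_⟩
  have h1 : (1 : ℝ) < 2 := by norm_num
  set W := lpn B 2 w with hW
  set V := lpn B 2 v with hV
  set V1 := lpn B 2 (jac v) with hV1
  set Z := lpn B 2 (jac z) with hZ
  have hW0 : 0 ≤ W := lpn_nonneg _ _ _
  have hV0 : 0 ≤ V := lpn_nonneg _ _ _
  have hV10 : 0 ≤ V1 := lpn_nonneg _ _ _
  have hZ0 : 0 ≤ Z := lpn_nonneg _ _ _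
  set c : ℝ := 12 * K0 ^ 3 * W * Z with hc
  have hc0 : 0 ≤ c := by positivity
  set t := (R : ℝ) ^ (1 - 3 * ε / 4) with ht
  have ht0 : 0 < t := Real.rpow_pos_of_pos hR0 _
  have e0 : ∀ x : ℝ, x ^ ((2 : ℝ) / 2 - 1) = 1 := fun x => by
    have : (2 : ℝ) / 2 - 1 = 0 := by norm_num
    rw [this, Real.rpow_zero]
  have hb : ∀ n, |trm B ε R p q w v z n| ≤ ((R : ℝ) ^ (ε / 4)) ^ n * min (c * V) (c * V1 / (R : ℝ) ^ n) := by
    intro n
    have hRn : 0 < (R : ℝ) ^ n := pow_pos hR0 n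
    have b1 := (pb hsym hhol hB hBm h (by omega) hd.pc.k0 hd.pc.k1 h1 n hw).1
    have b2 := (pb hsym hhol hB hBm h (by omega) hd.pc.k0 hd.pc.k1 h1 n hv)
    have b3 := (pb hsym hhol hB hBm h (by omega) hd.pc.k0 hd.pc.k1 h1 n hz).2
    rw [e0, one_mul] at b1 b3
    rw [e0, one_mul, one_mul] at b2
    rw [← hK0] at b1 b2 b3
    have g1 := trm_le hd b1 b2.1 b3
    have g2 := trm_le hd b1 b2.2 b3
    have e2 : ((R : ℝ) ^ n) ^ (1 + ε / 4) / (R : ℝ) ^ n = ((R : ℝ) ^ (ε / 4)) ^ n := by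
      have e4 : ((R : ℝ) ^ (ε / 4)) ^ n = ((R : ℝ) ^ n) ^ (ε / 4) := by
        rw [← Real.rpow_natCast ((R : ℝ) ^ (ε / 4)) n, ← Real.rpow_mul hR0.le,
          ← Real.rpow_natCast (R : ℝ) n, ← Real.rpow_mul hR0.le, mul_comm]
      rw [e4, Real.rpow_add hRn, Real.rpow_one]
      field_simp
    have key : ∀ Y : ℝ, |trm B ε R p q w v z n| ≤ 12 * ((R : ℝ) ^ n) ^ (1 + ε / 4)
        * (K0 * W * (K0 * Y) * (K0 * (Z / (R : ℝ) ^ n)))
        → |trm B ε R p q w v z n| ≤ ((R : ℝ) ^ (ε / 4)) ^ n * (c * Y) := by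
      intro Y hY
      refine hY.trans (le_of_eq ?_)
      calc _ = (((R : ℝ) ^ n) ^ (1 + ε / 4) / (R : ℝ) ^ n) * (12 * K0 ^ 3 * W * Z * Y) := by ring
        _ = _ := by rw [e2]
    have a1 := key V g1
    have a2 := key (V1 / (R : ℝ) ^ n) g2
    rw [← mul_div_assoc] at a2
    rcases le_total (c * V) (c * V1 / (R : ℝ) ^ n) with h5 | h5
    · rw [min_eq_left h5]; exact a1
    · rw [min_eq_right h5]; exact a2
  obtain ⟨s1, s2⟩ := hg (c * V) (c * V1) (trm B ε R p q w v z) (by positivity) (by positivity) hb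
  unfold A
  refine s2.trans (le_of_eq ?_)
  rw [Real.mul_rpow hc0 hV0, Real.mul_rpow hc0 hV10]
  have e5 : c ^ (1 - ε / 4) * c ^ (ε / 4) = c := by
    rcases hc0.eq_or_lt with h0 | h0
    · rw [← h0, Real.zero_rpow hε4.ne', mul_zero]
    · rw [← Real.rpow_add h0, sub_add_cancel, Real.rpow_one]
  calc C1 * (c ^ (1 - ε / 4) * V ^ (1 - ε / 4) * (c ^ (ε / 4) * V1 ^ (ε / 4)))
      = C1 * ((c ^ (1 - ε / 4) * c ^ (ε / 4)) * (V ^ (1 - ε / 4) * V1 ^ (ε / 4))) := by ring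
    _ = C1 * (c * (V ^ (1 - ε / 4) * V1 ^ (ε / 4))) := by rw [e5]
    _ = _ := by rw [hc]; ring

theorem ipO_add (hB : Bornology.IsBounded B) {w w' f : E3 → E3} (hw : Continuous w) (hw' : Continuous w')
    (hf : Continuous f) : ipO B (w + w') f = ipO B w f + ipO B w' f := by
  have hi : ∀ g : E3 → E3, Continuous g → IntegrableOn (fun x => ⟪g x, f x⟫_ℝ) B := fun g hg =>
    ((hg.inner (𝕜 := ℝ) hf).continuousOn.integrableOn_compact hB.isCompact_closure).mono_set subset_closure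
  unfold ipO
  rw [← integral_add (hi w hw) (hi w' hw')]
  refine integral_congr_ae (ae_of_all _ fun x => ?_)
  simp only [Pi.add_apply, inner_add_left]

theorem ipO_smul (c : ℝ) (w f : E3 → E3) : ipO B (c • w) f = c * ipO B w f := by
  unfold ipO
  rw [← integral_const_mul]
  refine integral_congr_ae (ae_of_all _ fun x => ?_)
  simp only [Pi.smul_apply, real_inner_smul_left]

theorem ipO_loc (hBm : MeasurableSet B) {w w' : E3 → E3} (h : ∀ x ∈ B, w x = w' x) (f : E3 → E3) :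
    ipO B w f = ipO B w' f := by
  unfold ipO
  exact setIntegral_congr_fun hBm fun x hx => by simp only [h x hx]

/-- The properties of the form. -/
theorem alt (hsym : S_sym) (hhol : S_hol) (hgeo : S_geo) (hB : Bornology.IsBounded B) (hBm : MeasurableSet B)
    (hε : 0 < ε) (hε1 : ε ≤ 4 / 5) (hd : PD R (2 + ε / 4) (3 * ε / 4)) (h : PckΦ B R (3 * ε / 4) μ C Φ p q s r) :
    Alt B ε (A B ε R p q) := by
  obtain ⟨K, hK⟩ := sum_trm hsym hhol hgeo hB hBm hε hε1 hd h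
  obtain ⟨K2, hK2⟩ := sum_h1 hsym hhol hgeo hB hBm hε hε1 hd h
  have hsum : ∀ w v z, ContDiff ℝ ∞ w → ContDiff ℝ ∞ v → ContDiff ℝ ∞ z → Summable (trm B ε R p q w v z) :=
    fun w v z hw hv hz => (hK 3 3 3 (by norm_num) (by norm_num) (by norm_num) (by norm_num) w v z hw hv hz).1
  refine ⟨fun w v z => ?_, fun w v z => ?_, fun w w' v z hw hw' hv hz => ?_, fun c w v z => ?_,
    fun w w' v z hww => ?_, ⟨K, fun p₁ p₂ p₃ h1 h2 h3 h4 w v z hw hv hz => (hK p₁ p₂ p₃ h1 h2 h3 h4 w v z hw hv hz).2⟩,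
    ⟨K2, hK2⟩⟩
  · unfold A
    rw [← tsum_neg]
    refine tsum_congr fun n => ?_
    unfold trm det3
    rw [det_eq, det_eq, det_eq, det_eq]
    ring
  · unfold A
    rw [← tsum_neg]
    refine tsum_congr fun n => ?_
    unfold trm det3
    rw [det_eq, det_eq, det_eq, det_eq]
    ring
  · unfold A
    rw [← (hsum w v z hw hv hz).tsum_add (hsum w' v z hw' hv hz)]
    refine tsum_congr fun n => ?_
    have hp : ∀ n, ipO B (w + w') (p n) = ipO B w (p n) + ipO B w' (p n) := fun n =>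
      ipO_add hB hw.continuous hw'.continuous (h.tp n).smooth.continuous
    have hq : ∀ n, ipO B (w + w') (q n) = ipO B w (q n) + ipO B w' (q n) := fun n =>
      ipO_add hB hw.continuous hw'.continuous (h.tq n).smooth.continuous
    unfold trm det3
    simp only [hp, hq, det_eq]
    ring
  · unfold A
    rw [← tsum_mul_left]
    refine tsum_congr fun n => ?_
    unfold trm det3
    simp only [ipO_smul, det_eq]
    ring
  · unfold A
    refine tsum_congr fun n => ?_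
    unfold trm det3
    simp only [ipO_loc hBm hww]

/-- The packets. -/
theorem packets (h : PckΦ B R (3 * ε / 4) μ C Φ p q s r) (hR : 1 ≤ R) : Packets B ε R μ p q := by
  have hR0 : (0 : ℝ) < R := by exact_mod_cast hR
  have e3 : ∀ n : ℕ, ((R : ℝ) ^ (1 - 3 * ε / 4)) ^ n = ((R : ℝ) ^ n) ^ (1 - 3 * ε / 4) := fun n => by
    rw [← Real.rpow_natCast ((R : ℝ) ^ (1 - 3 * ε / 4)) n, ← Real.rpow_mul hR0.le,
      ← Real.rpow_natCast (R : ℝ) n, ← Real.rpow_mul hR0.le, mul_comm]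
  refine ⟨by linarith [h.μ1], h.tp, h.tq, h.np, h.cp, fun m n hmn x => ?_, ⟨C, fun n x => ?_⟩, ⟨C, fun n => ?_⟩⟩
  · rcases h.disj m n hmn x with h1 | h1
    · exact Or.inl h1.1
    · exact Or.inr h1.1
  · rw [← e3]; exact h.bp n x
  · rw [← e3]; exact h.lp n

end Pool.Agent.N980.WX
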