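import Mathlib
import Pool.Agent.H772R2.NS.Defs

/-!
Packets with compact support in a ball: the statement.
-/

open MeasureTheory Set Filter Topology
open scoped InnerProductSpace ContDiff

set_option autoImplicit false

namespace Pool.Agent.N980.WX

open H772R2.NS (E3 M3 IsTest jac)

/-- The curl. -/
noncomputable def crl (φ : E3 → E3) (x : E3) : E3 :=
  WithLp.toLp 2 ![jac φ x (2, 1) - jac φ x (1, 2), jac φ x (0, 2) - jac φ x (2, 0), jac φ x (1, 0) - jac φ x (0, 1)]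

/-- A family of packets of frequencies `μ Rⁿ` and widths `R^(-(1-κ)n)`, with disjoint supports. -/
structure Pck (Ω : Set E3) (R : ℕ) (κ μ C : ℝ) (Φ p q s r : ℕ → E3 → E3) : Prop where
  μ1 : 1 ≤ μ
  C0 : 0 ≤ C
  tΦ : ∀ n, ContDiff ℝ ∞ (Φ n) ∧ HasCompactSupport (Φ n) ∧ tsupport (Φ n) ⊆ Ω
  tp : ∀ n, IsTest Ω (p n)
  tq : ∀ n, IsTest Ω (q n)
  ts : ∀ n, IsTest Ω (s n)
  tr : ∀ n, IsTest Ω (r n)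
  cΦ : ∀ n x, crl (Φ n) x = (μ * (R : ℝ) ^ n) • p n x
  cp : ∀ n x, crl (p n) x = (μ * (R : ℝ) ^ n) • q n x
  cq : ∀ n x, crl (q n) x = (μ * (R : ℝ) ^ n) • s n x
  cs : ∀ n x, crl (s n) x = (μ * (R : ℝ) ^ n) • r n x
  disj : ∀ m n, m ≠ n → ∀ x, (p m x = 0 ∧ q m x = 0) ∨ (p n x = 0 ∧ q n x = 0)
  np : ∀ n, ∫ x, ‖p n x‖ ^ 2 = 1
  hel : ∀ n, ∫ x, ⟪p n x, q n x⟫_ℝ = 0
  nΦ : ∀ n, ∫ x, ‖Φ n x‖ ^ 2 ≤ C ^ 2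
  sp : ∀ n, ∫ x, ‖s n x - p n x‖ ^ 2 ≤ (1 / 2 / ((R : ℝ) ^ κ) ^ n) ^ 2
  rq : ∀ n, ∫ x, ‖r n x - q n x‖ ^ 2 ≤ (C / ((R : ℝ) ^ κ) ^ n) ^ 2
  bp : ∀ n x, ‖p n x‖ ≤ C * ((R : ℝ) ^ (1 - κ)) ^ n
  bq : ∀ n x, ‖q n x‖ ≤ C * ((R : ℝ) ^ (1 - κ)) ^ n
  dp : ∀ n x, ‖fderiv ℝ (p n) x‖ ≤ C * ((R : ℝ) ^ n * ((R : ℝ) ^ (1 - κ)) ^ n)
  dq : ∀ n x, ‖fderiv ℝ (q n) x‖ ≤ C * ((R : ℝ) ^ n * ((R : ℝ) ^ (1 - κ)) ^ n)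
  lp : ∀ n, ∫ x, ‖p n x‖ ≤ C / ((R : ℝ) ^ (1 - κ)) ^ n
  lq : ∀ n, ∫ x, ‖q n x‖ ≤ C / ((R : ℝ) ^ (1 - κ)) ^ n

/-- There are packets in every ball. -/
def S_pack : Prop := ∀ (R : ℕ) (κ : ℝ), 0 < κ → κ < 1 → 2 ≤ (R : ℝ) ^ κ → 2 ≤ (R : ℝ) ^ (1 - κ) →
  ∀ (x₀ : E3) (ℓ : ℝ), 0 < ℓ → ∃ (μ C : ℝ) (Φ p q s r : ℕ → E3 → E3),
    Pck (Metric.ball x₀ ℓ) R κ μ C Φ p q s r

end Pool.Agent.N980.WX
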