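import Pool.Agent.N980.WX.Pck

/-!
Packets with compact support in a ball: the steps.
-/

open MeasureTheory Set Filter Topology
open scoped InnerProductSpace ContDiff

set_option autoImplicit false

namespace Pool.Agent.N980.WX

open H772R2.NS (E3 M3 IsTest jac)

/-- A smooth function with its derivatives, vanishing outside an interval. -/
structure Ch (a b : ℝ) (D : ℕ → ℝ → ℝ) : Prop where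
  sm : ∀ j, ContDiff ℝ ∞ (D j)
  dv : ∀ j t, HasDerivAt (D j) (D (j + 1) t) t
  out : ∀ j t, t ∉ Ioo a b → D j t = 0

/-- (PK1) The factors of the packets (frequency `k`, width `w`). -/
structure One (B c k w : ℝ) (D0 D1 D2 : ℕ → ℝ → ℝ) : Prop where
  c0 : Ch 0 w D0
  c1 : Ch w (2 * w) D1
  c2 : Ch 0 1 D2
  b0 : ∀ j ≤ 6, ∀ t, |D0 j t| ≤ B * k ^ j
  b1 : ∀ j ≤ 6, ∀ t, |D1 j t| ≤ B / w ^ j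
  b2 : ∀ j ≤ 6, ∀ t, |D2 j t| ≤ B
  e0 : ∀ j ≤ 4, ∀ t, |D0 (j + 2) t + k ^ 2 * D0 j t| ≤ B * k ^ (j + 1) / w
  l0 : c * k ^ 2 * w ≤ ∫ t, D0 1 t ^ 2
  l1 : c * w ≤ ∫ t, D1 0 t ^ 2
  l2 : c ≤ ∫ t, D2 0 t ^ 2

/-- (PK1) -/
def S_one : Prop := ∃ B c l : ℝ, 1 ≤ B ∧ 0 < c ∧ 1 ≤ l ∧ ∀ k w : ℝ, 0 < w → w ≤ 1 → l ≤ k * w →
  ∃ D0 D1 D2 : ℕ → ℝ → ℝ, One B c k w D0 D1 D2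

/-- The products of the factors. -/
noncomputable def Mp (D0 D1 D2 : ℕ → ℝ → ℝ) (x₀ : E3) (ρ : ℝ) (a b c : ℕ) (x : E3) : ℝ :=
  D0 a ((x 0 - x₀ 0) / ρ) * D1 b ((x 1 - x₀ 1) / ρ) * D2 c ((x 2 - x₀ 2) / ρ)

/-- The vector with the given coordinates. -/
noncomputable def vv (a b c : ℝ) : E3 := WithLp.toLp 2 ![a, b, c]

section

variable (D0 D1 D2 : ℕ → ℝ → ℝ) (x₀ : E3) (ρ k A : ℝ)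

/-- The potential. -/
noncomputable def ΦF (x : E3) : E3 := A • vv 0 (Mp D0 D1 D2 x₀ ρ 0 0 0 x) 0

/-- The packet. -/
noncomputable def pF (x : E3) : E3 :=
  (A / k) • vv (-Mp D0 D1 D2 x₀ ρ 0 0 1 x) 0 (Mp D0 D1 D2 x₀ ρ 1 0 0 x)

/-- The normalized curl of the packet. -/
noncomputable def qF (x : E3) : E3 :=
  (A / k ^ 2) • vv (Mp D0 D1 D2 x₀ ρ 1 1 0 x) (-(Mp D0 D1 D2 x₀ ρ 0 0 2 x + Mp D0 D1 D2 x₀ ρ 2 0 0 x))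
    (Mp D0 D1 D2 x₀ ρ 0 1 1 x)

/-- The normalized double curl. -/
noncomputable def sF (x : E3) : E3 :=
  (A / k ^ 3) • vv (Mp D0 D1 D2 x₀ ρ 2 0 1 x + Mp D0 D1 D2 x₀ ρ 0 2 1 x + Mp D0 D1 D2 x₀ ρ 0 0 3 x) 0
    (-(Mp D0 D1 D2 x₀ ρ 3 0 0 x + Mp D0 D1 D2 x₀ ρ 1 2 0 x + Mp D0 D1 D2 x₀ ρ 1 0 2 x))

/-- The normalized triple curl. -/
noncomputable def rF (x : E3) : E3 :=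
  (A / k ^ 4) • vv (-(Mp D0 D1 D2 x₀ ρ 3 1 0 x + Mp D0 D1 D2 x₀ ρ 1 3 0 x + Mp D0 D1 D2 x₀ ρ 1 1 2 x))
    ((Mp D0 D1 D2 x₀ ρ 2 0 2 x + Mp D0 D1 D2 x₀ ρ 0 2 2 x + Mp D0 D1 D2 x₀ ρ 0 0 4 x)
      + (Mp D0 D1 D2 x₀ ρ 4 0 0 x + Mp D0 D1 D2 x₀ ρ 2 2 0 x + Mp D0 D1 D2 x₀ ρ 2 0 2 x))
    (-(Mp D0 D1 D2 x₀ ρ 2 1 1 x + Mp D0 D1 D2 x₀ ρ 0 3 1 x + Mp D0 D1 D2 x₀ ρ 0 1 3 x))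

end

/-- The box which contains the support. -/
def Bx (x₀ : E3) (ρ w : ℝ) : Set E3 :=
  {x | (x 0 - x₀ 0) / ρ ∈ Icc 0 w ∧ (x 1 - x₀ 1) / ρ ∈ Icc w (2 * w) ∧ (x 2 - x₀ 2) / ρ ∈ Icc 0 1}

/-- (PK2) The curls, the divergence, the supports. -/
def S_crl : Prop := ∀ (D0 D1 D2 : ℕ → ℝ → ℝ) (x₀ : E3) (ρ k A w : ℝ), 0 < ρ → 0 < k → 0 < w → w ≤ 1 →
  Ch 0 w D0 → Ch w (2 * w) D1 → Ch 0 1 D2 →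
  (∀ x, crl (ΦF D0 D1 D2 x₀ ρ A) x = (k / ρ) • pF D0 D1 D2 x₀ ρ k A x) ∧
  (∀ x, crl (pF D0 D1 D2 x₀ ρ k A) x = (k / ρ) • qF D0 D1 D2 x₀ ρ k A x) ∧
  (∀ x, crl (qF D0 D1 D2 x₀ ρ k A) x = (k / ρ) • sF D0 D1 D2 x₀ ρ k A x) ∧
  (∀ x, crl (sF D0 D1 D2 x₀ ρ k A) x = (k / ρ) • rF D0 D1 D2 x₀ ρ k A x) ∧
  (ContDiff ℝ ∞ (ΦF D0 D1 D2 x₀ ρ A) ∧ tsupport (ΦF D0 D1 D2 x₀ ρ A) ⊆ Bx x₀ ρ w) ∧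
  IsTest (Bx x₀ ρ w) (pF D0 D1 D2 x₀ ρ k A) ∧ IsTest (Bx x₀ ρ w) (qF D0 D1 D2 x₀ ρ k A) ∧
  IsTest (Bx x₀ ρ w) (sF D0 D1 D2 x₀ ρ k A) ∧ IsTest (Bx x₀ ρ w) (rF D0 D1 D2 x₀ ρ k A) ∧
  IsCompact (Bx x₀ ρ w) ∧
  (∀ x, pF D0 D1 D2 x₀ ρ k A x ≠ 0 ∨ qF D0 D1 D2 x₀ ρ k A x ≠ 0 →
    w < (x 1 - x₀ 1) / ρ ∧ (x 1 - x₀ 1) / ρ < 2 * w)

/-- (PK3) The integrals: normalization, helicity, closeness. -/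
def S_int : Prop := ∀ (B c ρ : ℝ), 1 ≤ B → 0 < c → 0 < ρ → ∃ C : ℝ, 0 ≤ C ∧
  ∀ (D0 D1 D2 : ℕ → ℝ → ℝ) (x₀ : E3) (k w : ℝ), 0 < w → w ≤ 1 → 1 ≤ k * w → One B c k w D0 D1 D2 →
  ∃ A : ℝ, 0 < A ∧ A ≤ C / w ∧
    ∫ x, ‖pF D0 D1 D2 x₀ ρ k A x‖ ^ 2 = 1 ∧
    ∫ x, ⟪pF D0 D1 D2 x₀ ρ k A x, qF D0 D1 D2 x₀ ρ k A x⟫_ℝ = 0 ∧
    ∫ x, ‖ΦF D0 D1 D2 x₀ ρ A x‖ ^ 2 ≤ C ^ 2 ∧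
    ∫ x, ‖sF D0 D1 D2 x₀ ρ k A x - pF D0 D1 D2 x₀ ρ k A x‖ ^ 2 ≤ (C / (k * w)) ^ 2 ∧
    ∫ x, ‖rF D0 D1 D2 x₀ ρ k A x - qF D0 D1 D2 x₀ ρ k A x‖ ^ 2 ≤ (C / (k * w)) ^ 2 ∧
    ∫ x, ‖pF D0 D1 D2 x₀ ρ k A x‖ ≤ C * w ∧ ∫ x, ‖qF D0 D1 D2 x₀ ρ k A x‖ ≤ C * w

/-- (PK4) The pointwise bounds. -/
def S_sup : Prop := ∀ (B c ρ C' : ℝ), 1 ≤ B → 0 < c → 0 < ρ → 0 ≤ C' → ∃ C : ℝ, 0 ≤ C ∧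
  ∀ (D0 D1 D2 : ℕ → ℝ → ℝ) (x₀ : E3) (k w A : ℝ), 0 < w → w ≤ 1 → 1 ≤ k * w → One B c k w D0 D1 D2 →
    0 < A → A ≤ C' / w →
    (∀ x, ‖pF D0 D1 D2 x₀ ρ k A x‖ ≤ C / w) ∧ (∀ x, ‖qF D0 D1 D2 x₀ ρ k A x‖ ≤ C / w) ∧
    (∀ x, ‖fderiv ℝ (pF D0 D1 D2 x₀ ρ k A) x‖ ≤ C * (k / w)) ∧
    (∀ x, ‖fderiv ℝ (qF D0 D1 D2 x₀ ρ k A) x‖ ≤ C * (k / w))

/-- (PK5) -/
def S_fin : Prop := S_one → S_crl → S_int → S_sup → S_pack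

end Pool.Agent.N980.WX
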