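import Pool.Agent.N980.WX.Frm
import Pool.Agent.N980.WQ.Coef
import Pool.Agent.N976.DI.D1
import Pool.Agent.H772R2.NSR.Lim

/-!
Regular solutions in the abstract frame: the energy equality, the equations of the coefficients.
-/

open MeasureTheory Set Filter Topology
open scoped InnerProductSpace

set_option autoImplicit false
set_option linter.unusedVariables false
set_option linter.unusedSectionVars false

namespace Pool.Agent.N980.WX

open H772R2.NSR (Frame m_tendsto)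

variable {H K : Type} [NormedAddCommGroup H] [InnerProductSpace ℝ H] [CompleteSpace H]
  [NormedAddCommGroup K] [InnerProductSpace ℝ K] [CompleteSpace K]

/-- Regular solutions on `[0, T]`. -/
structure HSol (W : Submodule ℝ (H × K)) (M : H → K) (ν T : ℝ) (u : ℝ → H) (z : ℝ → K) : Prop where
  mem : ∀ t ∈ Icc 0 T, (u t, z t) ∈ W
  uc : ContinuousOn u (Icc 0 T)
  zc : ContinuousOn z (Icc 0 T)
  lip : ∃ L : ℝ, ∀ a b, 0 ≤ a → a ≤ b → b ≤ T → ‖u b - u a‖ ≤ L * (b - a)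
  weak : ∀ x ∈ W, ∀ t ∈ Icc 0 T, ⟪u t - u 0, x.1⟫_ℝ = ∫ s in (0 : ℝ)..t, ⟪M (u s) - ν • z s, x.2⟫_ℝ

variable {W : Submodule ℝ (H × K)} {M : H → K} {C ν T : ℝ} {u : ℝ → H} {z : ℝ → K}

theorem ftc_two {φ : ℝ → ℝ} {b : ℝ} (hφ : ContinuousOn φ (Icc 0 b)) {t : ℝ} (ht : t ∈ Ioo 0 b) :
    HasDerivAt (fun s => ∫ τ in (0 : ℝ)..s, φ τ) (φ t) t := by
  refine intervalIntegral.integral_hasDerivAt_right ?_ ?_ ?_
  · refine ContinuousOn.intervalIntegrable ?_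
    rw [uIcc_of_le ht.1.le]
    exact hφ.mono (Icc_subset_Icc_right ht.2.le)
  · exact ContinuousOn.stronglyMeasurableAtFilter isOpen_Ioo (hφ.mono Ioo_subset_Icc_self) t ht
  · exact hφ.continuousAt (Icc_mem_nhds ht.1 ht.2)

theorem HSol.mc (hs : HSol W M ν T u z) (Fr : Frame W M C) : ContinuousOn (fun t => M (u t)) (Icc 0 T) := by
  intro t ht
  obtain ⟨B, hB⟩ := isCompact_Icc.exists_bound_of_continuousOn hs.zc
  refine m_tendsto Fr (s1 := B) (hB t ht) (hs.mem t ht) (z := z) ?_ ?_ (hs.uc t ht)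
  · filter_upwards [self_mem_nhdsWithin] with s hs' using hB s hs'
  · filter_upwards [self_mem_nhdsWithin] with s hs' using hs.mem s hs'

theorem HSol.rc (hs : HSol W M ν T u z) (Fr : Frame W M C) (y : K) :
    ContinuousOn (fun s => ⟪M (u s) - ν • z s, y⟫_ℝ) (Icc 0 T) :=
  ContinuousOn.inner (𝕜 := ℝ) ((hs.mc Fr).sub (hs.zc.const_smul ν)) continuousOn_const

theorem HSol.eq1 (hs : HSol W M ν T u z) {x : H × K} (hx : x ∈ W) {t : ℝ} (ht : t ∈ Icc 0 T) :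
    ⟪u t, x.1⟫_ℝ = ⟪u 0, x.1⟫_ℝ + ∫ s in (0 : ℝ)..t, ⟪M (u s) - ν • z s, x.2⟫_ℝ := by
  rw [← hs.weak x hx t ht, inner_sub_left]
  ring

theorem HSol.deriv (hs : HSol W M ν T u z) (Fr : Frame W M C) {x : H × K} (hx : x ∈ W) {t : ℝ} (ht : t ∈ Ioo 0 T) :
    HasDerivAt (fun s => ⟪u s, x.1⟫_ℝ) ⟪M (u t) - ν • z t, x.2⟫_ℝ t := by
  have h1 := (ftc_two (hs.rc Fr x.2) ht).const_add ⟪u 0, x.1⟫_ℝ
  refine h1.congr_of_eventuallyEq ?_
  filter_upwards [Icc_mem_nhds ht.1 ht.2] with s hs'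
  exact hs.eq1 hx hs'

theorem HSol.right (hs : HSol W M ν T u z) (Fr : Frame W M C) {x : H × K} (hx : x ∈ W) {t : ℝ} (ht : t ∈ Ico 0 T) :
    HasDerivWithinAt (fun s => ⟪u s, x.1⟫_ℝ) ⟪M (u t) - ν • z t, x.2⟫_ℝ (Ici t) t := by
  have h1 := (Pool.Agent.N976.DI.D1.ftc_right (hs.rc Fr x.2) ht).const_add ⟪u 0, x.1⟫_ℝ
  refine h1.congr_of_eventuallyEq ?_ ?_
  · filter_upwards [Icc_mem_nhdsGE ht.2] with s hs'
    exact hs.eq1 hx ⟨ht.1.trans hs'.1, hs'.2⟩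
  · exact hs.eq1 hx ⟨ht.1, ht.2.le⟩

/-- The energy equality. -/
theorem HSol.energy (hs : HSol W M ν T u z) (Fr : Frame W M C) {t : ℝ} (ht : t ∈ Icc 0 T) :
    ‖u t‖ ^ 2 + 2 * ν * (∫ s in (0 : ℝ)..t, ‖z s‖ ^ 2) = ‖u 0‖ ^ 2 := by
  have hzc : ContinuousOn (fun s => ‖z s‖ ^ 2) (Icc 0 T) := hs.zc.norm.pow 2
  have hint : ContinuousOn (fun t => ∫ s in (0 : ℝ)..t, ‖z s‖ ^ 2) (Icc 0 T) := by
    have hT : 0 ≤ T := ht.1.trans ht.2
    have := intervalIntegral.continuousOn_primitive_interval' (f := fun s => ‖z s‖ ^ 2) (μ := volume) (b₁ := 0) (b₂ := T) (a := 0)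
      (by
        refine ContinuousOn.intervalIntegrable ?_
        rw [uIcc_of_le hT]
        exact hzc) left_mem_uIcc
    rwa [uIcc_of_le hT] at this
  have hcont : ContinuousOn (fun t => ‖u t‖ ^ 2 + 2 * ν * (∫ s in (0 : ℝ)..t, ‖z s‖ ^ 2)) (Icc 0 T) :=
    (hs.uc.norm.pow 2).add (hint.const_smul (2 * ν))
  have hder : ∀ x ∈ Ico 0 T, HasDerivWithinAt (fun t => ‖u t‖ ^ 2 + 2 * ν * (∫ s in (0 : ℝ)..t, ‖z s‖ ^ 2)) 0 (Ici x) x := by
    intro x hx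
    have hx' : x ∈ Icc 0 T := ⟨hx.1, hx.2.le⟩
    obtain ⟨L, hL⟩ := hs.lip
    have h1 := Pool.Agent.N976.DI.D1.deriv_norm_sq (w := u) (t := x) (C := L) (b := T) hx.2
      (fun s hs' => hL x s hx.1 hs'.1 hs'.2) (hs.right Fr (hs.mem x hx') hx)
    have h2 := (Pool.Agent.N976.DI.D1.ftc_right hzc hx).const_mul (2 * ν)
    refine (h1.add h2).congr_deriv ?_
    simp only
    rw [inner_sub_left, Fr.ortho _ (hs.mem x hx'), real_inner_smul_left, real_inner_self_eq_norm_sq]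
    ring
  have := constant_of_has_deriv_right_zero hcont hder t ht
  simpa using this

theorem HSol.norm_le (hs : HSol W M ν T u z) (Fr : Frame W M C) (hν : 0 ≤ ν) {t : ℝ} (ht : t ∈ Icc 0 T) :
    ‖u t‖ ≤ ‖u 0‖ := by
  have h1 := hs.energy Fr ht
  have h2 : 0 ≤ ∫ s in (0 : ℝ)..t, ‖z s‖ ^ 2 :=
    intervalIntegral.integral_nonneg ht.1 fun s _ => by positivity
  have h3 : 0 ≤ 2 * ν * (∫ s in (0 : ℝ)..t, ‖z s‖ ^ 2) := by positivity
  refine le_of_sq_le_sq' ?_ (norm_nonneg _)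
  linarith
where
  le_of_sq_le_sq' {a b : ℝ} (h : a ^ 2 ≤ b ^ 2) (hb : 0 ≤ b) : a ≤ b := by
    exact le_of_sq_le_sq h hb

end Pool.Agent.N980.WX
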