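import Pool.Agent.N980.WX.Cf
import Pool.Agent.N980.WX.Casc
import Pool.Agent.N980.WQ.Sgn

/-!
The chain system in the abstract frame.
-/

open MeasureTheory Set Filter Topology
open scoped InnerProductSpace

set_option autoImplicit false
set_option linter.unusedVariables false
set_option linter.unusedSectionVars false

namespace Pool.Agent.N980.WX

open H772R2.NSR (Frame)
open Pool.Agent.N980.WQ (hasSum_z hasSum_s eP eP_le qi PD HH sgn_abs inn_sgn out_sgn qi_sgn)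
open Pool.Agent.N980.CB (inn out FF gG Par zz zz16)

theorem _root_.Pool.Agent.N980.WQ.PD.q2 {R : ℕ} {σ κ : ℝ} (hd : PD R σ κ) (hk2 : 2 * κ ≤ σ - 1) :
    2 * (R : ℝ) ^ (2 - σ + κ) ≤ R := by
  have hR0 := hd.pc.R0
  have hR1 := hd.pc.R1
  have h1 : (R : ℝ) ^ (2 - σ + κ) * (R : ℝ) ^ (σ - κ - 1) = R := by
    rw [← Real.rpow_add hR0]
    have : 2 - σ + κ + (σ - κ - 1) = 1 := by ring
    rw [this, Real.rpow_one]
  have h2 : (2 : ℝ) ≤ (R : ℝ) ^ (σ - κ - 1) := by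
    have h4 : (4 : ℝ) ≤ R := by exact_mod_cast hd.pc.R4
    have h5 : (2 : ℝ) ≤ (R : ℝ) ^ (1 / 2 : ℝ) := by
      rw [← Real.sqrt_eq_rpow]
      exact Real.le_sqrt_of_sq_le (by linarith)
    refine h5.trans (Real.rpow_le_rpow_of_exponent_le hR1.le ?_)
    linarith [hd.pc.s2]
  have h3 : 0 < (R : ℝ) ^ (2 - σ + κ) := Real.rpow_pos_of_pos hR0 _
  nlinarith

/-- The error terms of the first family. -/
theorem eP_bd {R : ℕ} {σ κ G : ℝ} (h : PD R σ κ) (hG : 0 < G) {δ : ℝ} (hδ : δ = zz ((R : ℝ) ^ σ) ^ 16)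
    {x y s : ℕ → ℝ} {E b : ℝ} (hE0 : 0 ≤ E) (hb : 0 < b)
    (hp : ∀ n, |x n| ≤ Real.sqrt E) (hs : ∀ n, |s n - x n| ≤ 11 * Real.sqrt E / ((R : ℝ) ^ κ) ^ n)
    (hy : ∀ m, |y m| ≤ 2 * (b / ((R : ℝ) ^ (2 - σ + κ)) ^ m)) :
    (∀ m, |eP (gG G ((R : ℝ) ^ σ) (m + 1)) (gG G ((R : ℝ) ^ σ) m) δ (R : ℝ)⁻¹ R
      (x m) (x (m + 1)) (x (m + 2)) (y m) (y (m + 1)) (y (m + 2)) (s m) (s (m + 1)) (s (m + 2))|
        ≤ 44 * (G * E) * ((R : ℝ) ^ (σ - κ)) ^ (m + 1) + 16 * G * b ^ 2 * HH R σ κ ^ (m + 1)) ∧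
    |eP (gG G ((R : ℝ) ^ σ) 0) 0 δ (R : ℝ)⁻¹ R 0 (x 0) (x 1) 0 (y 0) (y 1) 0 (s 0) (s 1)|
        ≤ 44 * (G * E) * ((R : ℝ) ^ (σ - κ)) ^ 0 + 16 * G * b ^ 2 * HH R σ κ ^ 0 := by
  set Λ := (R : ℝ) ^ σ with hΛ
  set A := (R : ℝ) ^ (σ - κ) with hA
  set Q := (R : ℝ) ^ (2 - σ + κ) with hQ
  set k := (R : ℝ) ^ κ with hk
  have hR0 := h.pc.R0
  have hR1 := h.pc.R1
  have hΛ0 : 0 < Λ := Real.rpow_pos_of_pos hR0 _
  have hA0 : 0 < A := Real.rpow_pos_of_pos hR0 _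
  have hQ0 : 0 < Q := Real.rpow_pos_of_pos hR0 _
  have hk0 : 0 < k := Real.rpow_pos_of_pos hR0 _
  have hk1 : 1 ≤ k := le_trans (by norm_num) h.pc.RQ
  have hQ1 : 1 ≤ Q := le_trans (by norm_num) h.RQ'
  have hA1 : 1 ≤ A := by linarith [h.P2]
  have hAk : Λ = A * k := h.ΛP
  have hH1 := h.H1
  have hHd : HH R σ κ = Λ / Q ^ 2 := rfl
  have hpar := h.pc.par
  have hδ0 : 0 ≤ δ := by rw [hδ]; exact (pow_pos hpar.hz 16).le
  have hδ1 : δ ≤ 1 := by rw [hδ]; exact pow_le_one₀ hpar.hz.le hpar.z1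
  have hδR : δ * R ≤ 1 := by
    rw [hδ]
    have h1 := hpar.zpow_mul 15 (m := 1) (by norm_num)
    have h2 : (zz Λ) ^ 15 ≤ 1 := pow_le_one₀ hpar.hz.le hpar.z1
    have h3 : (R : ℝ) ≤ Λ := by
      have := Real.rpow_le_rpow_of_exponent_le hR1.le (show (1 : ℝ) ≤ σ by linarith [h.pc.s2])
      rwa [Real.rpow_one] at this
    have h4 : 0 < (zz Λ) ^ 16 := pow_pos hpar.hz 16
    rw [pow_one] at h1
    calc zz Λ ^ 16 * R ≤ zz Λ ^ 16 * Λ := by gcongr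
      _ ≤ 1 := by nlinarith
  have hs0 := Real.sqrt_nonneg E
  have hss : Real.sqrt E * Real.sqrt E = E := Real.mul_self_sqrt hE0
  have hsp : ∀ n m, |s n - x n| * |x m| ≤ 11 * E / k ^ n := by
    intro n m
    have hkn : 0 < k ^ n := pow_pos hk0 n
    calc |s n - x n| * |x m| ≤ (11 * Real.sqrt E / k ^ n) * Real.sqrt E := by
          have := hp m; have := hs n
          gcongr
      _ = 11 * (Real.sqrt E * Real.sqrt E) / k ^ n := by ring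
      _ = 11 * E / k ^ n := by rw [hss]
  -- the two kinds of terms
  have t1 : ∀ n m j : ℕ, n ≤ m → n ≤ j → gG G Λ n * (|s m - x m| * |x j|) ≤ 11 * (G * E) * A ^ n := by
    intro n m j hnm hnj
    have hkn : 0 < k ^ n := pow_pos hk0 n
    have hkm : k ^ n ≤ k ^ m := pow_le_pow_right₀ hk1 hnm
    have h1 : |s m - x m| * |x j| ≤ 11 * E / k ^ n := (hsp m j).trans (by gcongr)
    unfold gG
    calc G * Λ ^ n * (|s m - x m| * |x j|) ≤ G * Λ ^ n * (11 * E / k ^ n) := by gcongr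
      _ = 11 * (G * E) * A ^ n := by
        rw [hAk, mul_pow]
        field_simp
  have t2 : ∀ n i j : ℕ, n ≤ i → n ≤ j → gG G Λ n * (|y i| * |y j|) ≤ 4 * G * b ^ 2 * HH R σ κ ^ n := by
    intro n i j hi hj
    have hQn : 0 < Q ^ n := pow_pos hQ0 n
    have hq : ∀ i, n ≤ i → |y i| ≤ 2 * (b / Q ^ n) := by
      intro i hi
      have hQi : Q ^ n ≤ Q ^ i := pow_le_pow_right₀ hQ1 hi
      exact (hy i).trans (by gcongr)
    have h1 := hq i hi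
    have h2 := hq j hj
    unfold gG
    calc G * Λ ^ n * (|y i| * |y j|) ≤ G * Λ ^ n * (2 * (b / Q ^ n) * (2 * (b / Q ^ n))) := by gcongr
      _ = 4 * G * b ^ 2 * HH R σ κ ^ n := by
        rw [hHd, div_pow, ← pow_mul, mul_comm 2 n, pow_mul]
        field_simp
        ring
  have hRi : (R : ℝ)⁻¹ ≤ 1 := inv_le_one_of_one_le₀ hR1.le
  have hRi0 : 0 ≤ (R : ℝ)⁻¹ := by positivity
  have hg : ∀ n, 0 ≤ gG G Λ n := fun n => by unfold gG; positivity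
  have sq2 : ∀ a : ℝ, a ^ 2 = |a| * |a| := fun a => by rw [← sq, sq_abs]
  have hAm : ∀ m : ℕ, A ^ m ≤ A ^ (m + 1) := fun m => pow_le_pow_right₀ hA1 (Nat.le_succ m)
  have hHm : ∀ m : ℕ, HH R σ κ ^ m ≤ HH R σ κ ^ (m + 1) := fun m => pow_le_pow_right₀ hH1 (Nat.le_succ m)
  have t3 : ∀ n : ℕ, δ * R * gG G Λ n * (|y (n + 1)| * |y n|) ≤ 4 * G * b ^ 2 * HH R σ κ ^ n := by
    intro n
    have h1 := t2 n (n + 1) n (Nat.le_succ n) le_rfl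
    have h2 : 0 ≤ gG G Λ n * (|y (n + 1)| * |y n|) := by have := hg n; positivity
    calc δ * R * gG G Λ n * (|y (n + 1)| * |y n|)
        = (δ * R) * (gG G Λ n * (|y (n + 1)| * |y n|)) := by ring
      _ ≤ 1 * (gG G Λ n * (|y (n + 1)| * |y n|)) := by gcongr
      _ ≤ _ := by rw [one_mul]; exact h1
  have hGE : 0 ≤ G * E := by positivity
  have hGb : 0 ≤ G * b ^ 2 := by positivity
  constructor
  · intro m
    refine (eP_le (hg (m + 1)) (hg m) hδ0 hδ1 hRi0 hRi hR0.le).trans ?_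
    have a1 := t1 (m + 1) (m + 2) (m + 2) (by omega) (by omega)
    have a2 := t1 (m + 1) (m + 1) (m + 2) (by omega) (by omega)
    have a3 := t1 m (m + 1) m (by omega) le_rfl
    have a4 := t1 m m m le_rfl le_rfl
    have a5 := t2 (m + 1) (m + 2) (m + 2) (by omega) (by omega)
    have a6 := t3 (m + 1)
    have a7 := t2 m m (m + 1) le_rfl (by omega)
    have a8 := t2 m m m le_rfl le_rfl
    rw [← sq2] at a5 a8
    have e1 : 11 * (G * E) * A ^ m ≤ 11 * (G * E) * A ^ (m + 1) := by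
      have := hAm m
      gcongr
    have e2 : 4 * G * b ^ 2 * HH R σ κ ^ m ≤ 4 * G * b ^ 2 * HH R σ κ ^ (m + 1) := by
      have := hHm m
      gcongr
    linarith
  · refine (eP_le (hg 0) le_rfl hδ0 hδ1 hRi0 hRi hR0.le).trans ?_
    have a1 := t1 0 1 1 (by omega) (by omega)
    have a2 := t1 0 0 1 (by omega) (by omega)
    have a5 := t2 0 1 1 (by omega) (by omega)
    have a6 := t3 0
    rw [← sq2] at a5
    simp only [zero_mul, add_zero, pow_zero, mul_one] at a1 a2 a5 a6 ⊢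
    have e : δ * R * gG G Λ 0 * (|y 1| * |y 0|) ≤ 4 * G * b ^ 2 := a6
    nlinarith

variable {H K : Type} [NormedAddCommGroup H] [InnerProductSpace ℝ H] [CompleteSpace H]
  [NormedAddCommGroup K] [InnerProductSpace ℝ K] [CompleteSpace K]

variable {W : Submodule ℝ (H × K)} {m : H → K} {R : ℕ} {κ μ D : ℝ} {p q s r : ℕ → H} {P Q S p1 q1 : ℕ → K}
  {δ G σ : ℝ}

/-- The constant of the error terms. -/
noncomputable def bH (ν G E D μ : ℝ) : ℝ := D * E + ν * μ ^ 2 * D * Real.sqrt E + 44 * (G * E)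

/-- The error of the Laplacian and of the convection term. -/
theorem ns_errH (h : PD R σ κ) {D E ν μ a c : ℝ} (hν : 0 ≤ ν) (hD : 0 ≤ D) (hE : 0 ≤ E) (k : ℕ)
    (h1 : |a| ≤ D * ((R : ℝ) ^ k * ((R : ℝ) ^ (1 - κ)) ^ k) * E) (h2 : |c| ≤ D / ((R : ℝ) ^ κ) ^ k * Real.sqrt E) :
    |a - ν * (μ * (R : ℝ) ^ k) ^ 2 * c| ≤ (D * E + ν * μ ^ 2 * D * Real.sqrt E) * ((R : ℝ) ^ (σ - κ)) ^ k := by
  have hR0 := h.pc.R0
  have hPP : ((R : ℝ) ^ (2 - κ)) ^ k ≤ ((R : ℝ) ^ (σ - κ)) ^ k :=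
    pow_le_pow_left₀ (Real.rpow_nonneg h.pc.R0.le _) h.P' k
  have e1 : (R : ℝ) ^ k * ((R : ℝ) ^ (1 - κ)) ^ k = ((R : ℝ) ^ (2 - κ)) ^ k := by
    rw [← mul_pow]
    congr 1
    nth_rewrite 1 [← Real.rpow_one (R : ℝ)]
    rw [← Real.rpow_add hR0]
    congr 1
    ring
  have e2 : ((R : ℝ) ^ k) ^ 2 = ((R : ℝ) ^ (2 - κ)) ^ k * ((R : ℝ) ^ κ) ^ k := by
    rw [← mul_pow, ← Real.rpow_add hR0]
    have : (2 - κ + κ : ℝ) = ((2 : ℕ) : ℝ) := by push_cast; ring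
    rw [this, Real.rpow_natCast, ← pow_mul, ← pow_mul, mul_comm]
  have hk : 0 < ((R : ℝ) ^ κ) ^ k := pow_pos (Real.rpow_pos_of_pos hR0 _) k
  rw [e1] at h1
  have hs := Real.sqrt_nonneg E
  calc |a - ν * (μ * (R : ℝ) ^ k) ^ 2 * c| ≤ |a| + |ν * (μ * (R : ℝ) ^ k) ^ 2 * c| := abs_sub _ _
    _ = |a| + ν * μ ^ 2 * (((R : ℝ) ^ k) ^ 2 * |c|) := by
        rw [abs_mul, abs_of_nonneg (by positivity : 0 ≤ ν * (μ * (R : ℝ) ^ k) ^ 2)]
        ring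
    _ ≤ D * ((R : ℝ) ^ (2 - κ)) ^ k * E + ν * μ ^ 2 * (((R : ℝ) ^ k) ^ 2 * (D / ((R : ℝ) ^ κ) ^ k * Real.sqrt E)) := by
        gcongr
    _ = (D * E + ν * μ ^ 2 * D * Real.sqrt E) * ((R : ℝ) ^ (2 - κ)) ^ k := by
        rw [e2]
        field_simp
    _ ≤ _ := by gcongr

/-- The chain system of a regular solution. -/
theorem HP.sys {C : ℝ} (Fr : Frame W m C) (h : HP W m R κ μ D p q s r P Q S p1 q1) (hd : PD R σ κ) (hσ : σ < 5 / 2)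
    (hk2 : 2 * κ ≤ σ - 1) (hG : 0 < G) {sg : ℝ} (hsg : |sg| = 1) {ν T : ℝ} (hν : 0 < ν) {u : ℝ → H} {z : ℝ → K}
    (hs : HSol W (MM m R (gG G ((R : ℝ) ^ σ)) (zz ((R : ℝ) ^ σ) ^ 16) p q s P Q sg) ν T u z) {E b : ℝ}
    (hE : ‖u 0‖ ^ 2 ≤ E) (hb : 0 < b) {N : ℕ}
    (hN : ∀ k : ℕ, 16 * G * b ^ 2 * HH R σ κ ^ k ≤ bH ν G E D μ * ((R : ℝ) ^ (σ - κ)) ^ (max k N)) :
    Sys R ((R : ℝ) ^ (σ - κ)) ((R : ℝ) ^ (2 - σ + κ)) ((R : ℝ) ^ σ) (zz ((R : ℝ) ^ σ)) G (ν * μ ^ 2)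
      (2 * bH ν G E D μ) T b N (fun n => ‖q n‖ ^ 2) (fun n t => sg * ⟪p n, u t⟫_ℝ) (fun n t => ⟪q n, u t⟫_ℝ) := by
  have hκ := hd.pc.k0.le
  have hR1 := hd.pc.R1
  have hR0 := hd.pc.R0
  have hR1' : 1 ≤ R := by exact_mod_cast hR1.le
  have hD1 := h.D1
  have hD : 0 ≤ D := by linarith
  have hμ := h.μ1
  have hpar := hd.pc.par
  have hE0 : 0 ≤ E := (sq_nonneg _).trans hE
  have hss := sgn_abs hsg
  set g := gG G ((R : ℝ) ^ σ) with hgd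
  set δ := zz ((R : ℝ) ^ σ) ^ 16 with hδd
  have hg : GP R g δ G σ := by
    refine ⟨by have := hd.pc.R4; omega, fun n => ?_, fun n => le_rfl, (pow_pos hpar.hz 16).le,
      pow_le_one₀ hpar.hz.le hpar.z1, hσ⟩
    rw [hgd]; unfold gG; positivity
  obtain ⟨C', Fr'⟩ := h.frame Fr hg hκ sg
  have hb00 : 0 ≤ bH ν G E D μ := by
    unfold bH
    have := Real.sqrt_nonneg E
    positivity
  have hA1 : 1 ≤ (R : ℝ) ^ (σ - κ) := by linarith [hd.P2]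
  have hun : ∀ t ∈ Icc 0 T, ‖u t‖ ≤ Real.sqrt E := fun t ht =>
    (hs.norm_le Fr' hν.le ht).trans (Real.le_sqrt_of_sq_le hE)
  have hsq : Real.sqrt E ^ 2 = E := Real.sq_sqrt hE0
  -- pairing with the nonlinearity
  have hMx : ∀ t ∈ Icc 0 T, ∀ x : K, ⟪MM m R g δ p q s P Q sg (u t) - ν • z t, x⟫_ℝ
      = ⟪m (u t), x⟫_ℝ + sg * ⟪BB R g δ p q s P Q (u t) (u t), x⟫_ℝ - ν * ⟪x, z t⟫_ℝ := by
    intro t ht x
    unfold MM
    rw [inner_sub_left, inner_add_left, real_inner_smul_left, real_inner_smul_left, real_inner_comm x (z t)]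
  have hnsp : ∀ k, ∀ t ∈ Icc 0 T, |⟪m (u t), p1 k⟫_ℝ - ν * (μ * (R : ℝ) ^ k) ^ 2 * (⟪s k, u t⟫_ℝ - ⟪p k, u t⟫_ℝ)|
      ≤ (D * E + ν * μ ^ 2 * D * Real.sqrt E) * ((R : ℝ) ^ (σ - κ)) ^ k := by
    intro k t ht
    have hk : 0 < ((R : ℝ) ^ κ) ^ k := pow_pos (Real.rpow_pos_of_pos hR0 _) k
    have hu := hun t ht
    refine ns_errH hd hν.le hD hE0 k ((h.mp k _ (hs.mem t ht)).trans ?_) ?_
    · have : ‖u t‖ ^ 2 ≤ E := by rw [← hsq]; exact pow_le_pow_left₀ (norm_nonneg _) hu 2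
      gcongr
    · rw [← inner_sub_left]
      refine (abs_real_inner_le_norm _ _).trans ?_
      have h1 := h.sp k
      have h2 : 1 / 2 / ((R : ℝ) ^ κ) ^ k ≤ D / ((R : ℝ) ^ κ) ^ k := by
        gcongr
        linarith
      exact mul_le_mul (h1.trans h2) hu (norm_nonneg _) (by positivity)
  have hnsq : ∀ k, ∀ t ∈ Icc 0 T, |⟪m (u t), q1 k⟫_ℝ - ν * (μ * (R : ℝ) ^ k) ^ 2 * (⟪r k, u t⟫_ℝ - ⟪q k, u t⟫_ℝ)|
      ≤ (D * E + ν * μ ^ 2 * D * Real.sqrt E) * ((R : ℝ) ^ (σ - κ)) ^ k := by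
    intro k t ht
    have hk : 0 < ((R : ℝ) ^ κ) ^ k := pow_pos (Real.rpow_pos_of_pos hR0 _) k
    have hu := hun t ht
    refine ns_errH hd hν.le hD hE0 k ((h.mq k _ (hs.mem t ht)).trans ?_) ?_
    · have : ‖u t‖ ^ 2 ≤ E := by rw [← hsq]; exact pow_le_pow_left₀ (norm_nonneg _) hu 2
      gcongr
    · rw [← inner_sub_left]
      refine (abs_real_inner_le_norm _ _).trans ?_
      exact mul_le_mul (h.rq k) hu (norm_nonneg _) (by positivity)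
  have hzb : ∀ T1 < T, ∃ B : ℝ, 0 ≤ B ∧ ∀ t ∈ Icc 0 T1, ‖z t‖ ≤ B := by
    intro T1 hT1
    obtain ⟨B, hB⟩ := isCompact_Icc.exists_bound_of_continuousOn hs.zc
    exact ⟨max B 0, le_max_right _ _, fun t ht => (hB t ⟨ht.1, ht.2.trans hT1.le⟩).trans (le_max_left _ _)⟩
  have hIcc : ∀ {t}, t ∈ Ico 0 T → t ∈ Icc 0 T := fun ht => ⟨ht.1, ht.2.le⟩
  have hQR2 := hd.q2 hk2
  refine ⟨hd.pc.par, hd.RQ', hd.QR, hQR2, hd.P2, ?_, hd.PQ, hd.pc.RΛ, hG, by positivity, by positivity, ?_,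
    fun n => ?_, ?_, ?_, ?_, ?_, ?_, ?_⟩
  · have := hd.pc.R4
    exact_mod_cast (by omega : 2 ≤ R)
  · intro k
    have := h.qn hR1' hκ k
    rw [abs_le] at this
    show 0 < ‖q k‖ ^ 2
    linarith
  · have := h.qn hR1' hκ n
    rw [abs_le] at this
    show ‖q n‖ ^ 2 ≤ 3
    linarith
  · intro k
    exact continuousOn_const.mul (ContinuousOn.inner (𝕜 := ℝ) continuousOn_const (hs.uc.mono Ico_subset_Icc_self))
  · intro k t ht hy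
    have hI : t ∈ Icc 0 T := ⟨ht.1.le, ht.2.le⟩
    have hm := hs.mem t hI
    have hdr := hs.deriv Fr' (h.gp k) ht
    have hu := hun t hI
    have hxb : ∀ n, |⟪p n, u t⟫_ℝ| ≤ Real.sqrt E := fun n => by
      refine (abs_real_inner_le_norm _ _).trans ?_
      rw [h.np, one_mul]; exact hu
    have hsb : ∀ n, |⟪s n, u t⟫_ℝ - ⟪p n, u t⟫_ℝ| ≤ 11 * Real.sqrt E / ((R : ℝ) ^ κ) ^ n := fun n => by
      have hk : 0 < ((R : ℝ) ^ κ) ^ n := pow_pos (Real.rpow_pos_of_pos hR0 _) n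
      rw [← inner_sub_left]
      refine (abs_real_inner_le_norm _ _).trans ?_
      calc ‖s n - p n‖ * ‖u t‖ ≤ 1 / 2 / ((R : ℝ) ^ κ) ^ n * Real.sqrt E :=
            mul_le_mul (h.sp n) hu (norm_nonneg _) (by positivity)
        _ = 1 / 2 * Real.sqrt E / ((R : ℝ) ^ κ) ^ n := by ring
        _ ≤ _ := by
            have := Real.sqrt_nonneg E
            gcongr
            norm_num
    have hEP := eP_bd hd hG hδd (x := fun n => ⟪p n, u t⟫_ℝ) (y := fun n => ⟪q n, u t⟫_ℝ)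
      (s := fun n => ⟪s n, u t⟫_ℝ) hE0 hb hxb hsb hy
    rw [← hgd] at hEP
    have hfin : ∀ e' : ℝ, |e'| ≤ 44 * (G * E) * ((R : ℝ) ^ (σ - κ)) ^ k + 16 * G * b ^ 2 * HH R σ κ ^ k →
        |sg * (⟪m (u t), p1 k⟫_ℝ - ν * (μ * (R : ℝ) ^ k) ^ 2 * (⟪s k, u t⟫_ℝ - ⟪p k, u t⟫_ℝ)) + e'|
          ≤ 2 * bH ν G E D μ * ((R : ℝ) ^ (σ - κ)) ^ (max k N) := by
      intro e' he'
      have h1 : ((R : ℝ) ^ (σ - κ)) ^ k ≤ ((R : ℝ) ^ (σ - κ)) ^ (max k N) :=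
        pow_le_pow_right₀ hA1 (le_max_left _ _)
      have h2 := hN k
      have h3 : bH ν G E D μ * ((R : ℝ) ^ (σ - κ)) ^ k ≤ bH ν G E D μ * ((R : ℝ) ^ (σ - κ)) ^ (max k N) := by gcongr
      have h4 : bH ν G E D μ * ((R : ℝ) ^ (σ - κ)) ^ k
          = (D * E + ν * μ ^ 2 * D * Real.sqrt E) * ((R : ℝ) ^ (σ - κ)) ^ k
            + 44 * (G * E) * ((R : ℝ) ^ (σ - κ)) ^ k := by unfold bH; ring
      have h5 := abs_add_le (sg * (⟪m (u t), p1 k⟫_ℝ - ν * (μ * (R : ℝ) ^ k) ^ 2 * (⟪s k, u t⟫_ℝ - ⟪p k, u t⟫_ℝ))) e'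
      rw [abs_mul, hsg, one_mul] at h5
      have h6 := hnsp k t hI
      linarith
    have hd' := hdr.const_mul sg
    have e6 : (fun s => sg * ⟪u s, (p k, p1 k).1⟫_ℝ) = fun s => sg * ⟪p k, u s⟫_ℝ := funext fun s => by
      rw [real_inner_comm]
    rw [e6, hMx t hI, h.lp k _ hm] at hd'
    rw [inn_sgn hsg g δ (fun n t => ⟪p n, u t⟫_ℝ) k t, out_sgn hsg g δ (fun n t => ⟪p n, u t⟫_ℝ) k t]
    cases k with
    | zero =>
      have hk := h.co0 hg hκ hm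
      refine ⟨_, hfin _ hEP.2, hd'.congr_deriv ?_⟩
      simp only at hk ⊢
      rw [hk]
      simp only [inn, out, FF]
      simp only [zero_add]
      linear_combination (-(g 0 * (δ * ⟪p 0, u t⟫_ℝ + ⟪p 1, u t⟫_ℝ) * ⟪p 1, u t⟫_ℝ)
        + eP (g 0) 0 δ (R : ℝ)⁻¹ R 0 ⟪p 0, u t⟫_ℝ ⟪p 1, u t⟫_ℝ 0 ⟪q 0, u t⟫_ℝ ⟪q 1, u t⟫_ℝ 0
        ⟪s 0, u t⟫_ℝ ⟪s 1, u t⟫_ℝ) * hss
    | succ k =>
      have hk := h.co1 hg hκ hm k
      refine ⟨_, hfin _ (hEP.1 k), hd'.congr_deriv ?_⟩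
      simp only at hk ⊢
      rw [hk]
      simp only [inn, out, FF]
      have e7 : k + 1 + 1 = k + 2 := rfl
      rw [e7]
      linear_combination (g k * (δ * ⟪p k, u t⟫_ℝ + ⟪p (k + 1), u t⟫_ℝ) * ⟪p k, u t⟫_ℝ
      - g (k + 1) * (δ * ⟪p (k + 1), u t⟫_ℝ + ⟪p (k + 2), u t⟫_ℝ) * ⟪p (k + 2), u t⟫_ℝ
      + eP (g (k + 1)) (g k) δ (R : ℝ)⁻¹ R ⟪p k, u t⟫_ℝ ⟪p (k + 1), u t⟫_ℝ ⟪p (k + 2), u t⟫_ℝ
        ⟪q k, u t⟫_ℝ ⟪q (k + 1), u t⟫_ℝ ⟪q (k + 2), u t⟫_ℝ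
        ⟪s k, u t⟫_ℝ ⟪s (k + 1), u t⟫_ℝ ⟪s (k + 2), u t⟫_ℝ) * hss
  · intro T1 hT1
    obtain ⟨B, hB0, hB⟩ := hzb T1 hT1
    refine ⟨D * B, fun k t ht => ?_⟩
    have hI : t ∈ Icc 0 T := ⟨ht.1, ht.2.trans hT1.le⟩
    have hk : 0 < (R : ℝ) ^ k := pow_pos hR0 k
    rw [abs_mul, hsg, one_mul]
    refine (h.le1 hR1' k (hs.mem t hI)).p0.trans ?_
    rw [div_mul_eq_mul_div]
    have := hB t ht
    gcongr
  · intro k
    exact ContinuousOn.inner (𝕜 := ℝ) continuousOn_const (hs.uc.mono Ico_subset_Icc_self)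
  · intro k t ht
    have hI : t ∈ Icc 0 T := ⟨ht.1.le, ht.2.le⟩
    have hm := hs.mem t hI
    have hdr := hs.deriv Fr' (h.gq k) ht
    refine ⟨_, (hnsq k t hI).trans ?_, ?_⟩
    · have h4 : D * E + ν * μ ^ 2 * D * Real.sqrt E ≤ 2 * bH ν G E D μ := by
        unfold bH
        have h5 : 0 ≤ 44 * (G * E) := by positivity
        have h6 : 0 ≤ D * E + ν * μ ^ 2 * D * Real.sqrt E := by
          have := Real.sqrt_nonneg E
          positivity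
        linarith
      have h5 : 0 ≤ ((R : ℝ) ^ (σ - κ)) ^ k := by positivity
      exact mul_le_mul_of_nonneg_right h4 h5
    · have e6 : (fun s => ⟪u s, (q k, q1 k).1⟫_ℝ) = fun s => ⟪q k, u s⟫_ℝ := funext fun s => by
        rw [real_inner_comm]
      rw [e6, hMx t hI, h.lq k _ hm] at hdr
      refine hdr.congr_deriv ?_
      have hk := h.cq hg hκ hm k
      simp only at hk ⊢
      rw [hk, qi_sgn]
      ring
  · intro T1 hT1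
    obtain ⟨B, hB0, hB⟩ := hzb T1 hT1
    refine ⟨D * B, fun k t ht => ?_⟩
    have hI : t ∈ Icc 0 T := ⟨ht.1, ht.2.trans hT1.le⟩
    have hk : 0 < (R : ℝ) ^ k := pow_pos hR0 k
    refine (h.le1 hR1' k (hs.mem t hI)).q0.trans ?_
    rw [div_mul_eq_mul_div]
    have := hB t ht
    gcongr

end Pool.Agent.N980.WX
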